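import Mathlib

set_option autoImplicit false
open Finset

namespace Pool.Agent.P6ac95e

variable {V : Type*} [DecidableEq V]

/-- the spin at `u` of the configuration whose set of plus sites is `S` -/
noncomputable def sp (S : Finset V) (u : V) : ℝ := if u ∈ S then 1 else -1

/-- minus the energy -/
noncomputable def ham (J : V → V → ℝ) (A : Finset V) (x : V → ℝ) (S : Finset V) : ℝ :=
  (1/2) * ∑ u ∈ A, ∑ w ∈ A, J u w * (sp S u * sp S w) + ∑ u ∈ A, x u * sp S u

/-- unnormalised expectation -/
noncomputable def Zf (J : V → V → ℝ) (A : Finset V) (x : V → ℝ) (F : Finset V → ℝ) : ℝ :=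
  ∑ S ∈ A.powerset, Real.exp (ham J A x S) * F S

/-- partition function -/
noncomputable def Z (J : V → V → ℝ) (A : Finset V) (x : V → ℝ) : ℝ := Zf J A x (fun _ => 1)

/-- magnetisation -/
noncomputable def mag (J : V → V → ℝ) (A : Finset V) (x : V → ℝ) (v : V) : ℝ :=
  Zf J A x (fun S => sp S v) / Z J A x

lemma sp_mul_self (S : Finset V) (u : V) : sp S u * sp S u = 1 := by
  unfold sp; split_ifs <;> norm_num

lemma sp_sq (S : Finset V) (u : V) : sp S u ^ 2 = 1 := by
  unfold sp; split_ifs <;> norm_num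

lemma sp_insert_self (S : Finset V) (a : V) : sp (insert a S) a = 1 := by
  simp [sp]

lemma sp_insert_ne (S : Finset V) {a u : V} (h : u ≠ a) : sp (insert a S) u = sp S u := by
  simp [sp, h]

lemma sp_notMem {S : Finset V} {a : V} (h : a ∉ S) : sp S a = -1 := by
  simp [sp, h]

lemma sp_mem {S : Finset V} {a : V} (h : a ∈ S) : sp S a = 1 := by
  simp [sp, h]

lemma abs_sp (S : Finset V) (u : V) : |sp S u| = 1 := by
  unfold sp; split_ifs <;> norm_num

/-- structural hypotheses on the couplings -/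
structure Coup (J : V → V → ℝ) : Prop where
  symm : ∀ u w, J u w = J w u
  diag : ∀ u, J u u = 0
  nonneg : ∀ u w, 0 ≤ J u w

lemma ham_insert (J : V → V → ℝ) (hs : ∀ u w, J u w = J w u) (hd : ∀ u, J u u = 0)
    {A : Finset V} {a : V} (ha : a ∉ A) (x : V → ℝ) (S : Finset V) :
    ham J (insert a A) x S
      = ham J A (fun u => x u + sp S a * J a u) S + x a * sp S a := by
  unfold ham
  rw [Finset.sum_insert ha, Finset.sum_insert ha, Finset.sum_insert ha]
  have h1 : ∑ u ∈ A, ∑ w ∈ insert a A, J u w * (sp S u * sp S w)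
      = ∑ u ∈ A, J a u * (sp S a * sp S u) + ∑ u ∈ A, ∑ w ∈ A, J u w * (sp S u * sp S w) := by
    rw [← Finset.sum_add_distrib]
    refine Finset.sum_congr rfl (fun u hu => ?_)
    rw [Finset.sum_insert ha, hs u a]; ring
  rw [h1, hd a]
  have h2 : ∑ u ∈ A, (x u + sp S a * J a u) * sp S u
      = ∑ u ∈ A, x u * sp S u + ∑ u ∈ A, J a u * (sp S a * sp S u) := by
    rw [← Finset.sum_add_distrib]
    refine Finset.sum_congr rfl (fun u hu => ?_)
    ring
  rw [h2]; ring

lemma ham_congr_spin (J : V → V → ℝ) (A : Finset V) (x : V → ℝ) {S T : Finset V}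
    (h : ∀ u ∈ A, sp S u = sp T u) : ham J A x S = ham J A x T := by
  unfold ham
  congr 1
  · congr 1
    refine Finset.sum_congr rfl (fun u hu => Finset.sum_congr rfl (fun w hw => ?_))
    rw [h u hu, h w hw]
  · refine Finset.sum_congr rfl (fun u hu => ?_)
    rw [h u hu]

lemma ham_congr_field (J : V → V → ℝ) (A : Finset V) {x y : V → ℝ} (S : Finset V)
    (h : ∀ u ∈ A, x u = y u) : ham J A x S = ham J A y S := by
  unfold ham
  congr 1
  refine Finset.sum_congr rfl (fun u hu => ?_)
  rw [h u hu]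

lemma Zf_congr_field (J : V → V → ℝ) (A : Finset V) {x y : V → ℝ} (F : Finset V → ℝ)
    (h : ∀ u ∈ A, x u = y u) : Zf J A x F = Zf J A y F := by
  unfold Zf
  refine Finset.sum_congr rfl (fun S _ => ?_)
  rw [ham_congr_field J A S h]

lemma Z_congr_field (J : V → V → ℝ) (A : Finset V) {x y : V → ℝ}
    (h : ∀ u ∈ A, x u = y u) : Z J A x = Z J A y := Zf_congr_field J A _ h

/-- recursion for unnormalised expectations -/
lemma Zf_insert (J : V → V → ℝ) (hs : ∀ u w, J u w = J w u) (hd : ∀ u, J u u = 0)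
    {A : Finset V} {a : V} (ha : a ∉ A) (x : V → ℝ) (F : Finset V → ℝ) :
    Zf J (insert a A) x F
      = Real.exp (x a) * Zf J A (x + J a) (fun S => F (insert a S))
        + Real.exp (-x a) * Zf J A (x - J a) F := by
  unfold Zf
  rw [Finset.sum_powerset_insert ha, add_comm]
  congr 1
  · rw [Finset.mul_sum]
    refine Finset.sum_congr rfl (fun S hS => ?_)
    have hSA : S ⊆ A := Finset.mem_powerset.1 hS
    rw [ham_insert J hs hd ha, sp_insert_self]
    have : ham J A (fun u => x u + 1 * J a u) (insert a S) = ham J A (x + J a) S := by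
      rw [ham_congr_spin J A _ (S := insert a S) (T := S)]
      · exact ham_congr_field J A S (fun u _ => by simp)
      · intro u hu
        exact sp_insert_ne S (fun h => ha (h ▸ hu))
    rw [this, mul_one, Real.exp_add]; ring
  · rw [Finset.mul_sum]
    refine Finset.sum_congr rfl (fun S hS => ?_)
    have hSA : S ⊆ A := Finset.mem_powerset.1 hS
    rw [ham_insert J hs hd ha, sp_notMem (fun h => ha (hSA h))]
    have : ham J A (fun u => x u + (-1) * J a u) S = ham J A (x - J a) S :=
      ham_congr_field J A S (fun u _ => by simp [sub_eq_add_neg])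
    rw [this, Real.exp_add]; ring_nf

lemma Z_insert (J : V → V → ℝ) (hs : ∀ u w, J u w = J w u) (hd : ∀ u, J u u = 0)
    {A : Finset V} {a : V} (ha : a ∉ A) (x : V → ℝ) :
    Z J (insert a A) x
      = Real.exp (x a) * Z J A (x + J a) + Real.exp (-x a) * Z J A (x - J a) :=
  Zf_insert J hs hd ha x _

lemma Z_pos (J : V → V → ℝ) (A : Finset V) (x : V → ℝ) : 0 < Z J A x := by
  unfold Z Zf
  apply Finset.sum_pos
  · intro S _; simp [Real.exp_pos]
  · exact ⟨∅, Finset.empty_mem_powerset A⟩

lemma Z_empty (J : V → V → ℝ) (x : V → ℝ) : Z J ∅ x = 1 := by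
  simp [Z, Zf, ham]

/-- flipping all spins -/
lemma Z_neg (J : V → V → ℝ) (hs : ∀ u w, J u w = J w u) (hd : ∀ u, J u u = 0)
    (A : Finset V) (x : V → ℝ) : Z J A (-x) = Z J A x := by
  induction A using Finset.induction_on generalizing x with
  | empty => simp [Z_empty]
  | insert a A ha ih =>
    rw [Z_insert J hs hd ha, Z_insert J hs hd ha]
    have h1 : -x + J a = -(x - J a) := by ring
    have h2 : -x - J a = -(x + J a) := by ring
    rw [h1, h2, ih, ih]
    simp only [Pi.neg_apply, neg_neg]
    ring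

end Pool.Agent.P6ac95e
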