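import Pool.Agent.Lib.P6ac95e.FKG

set_option autoImplicit false
open Finset

namespace Pool.Agent.P6ac95e

variable {V : Type*} [DecidableEq V]

noncomputable def psi (J : V → V → ℝ) (A : Finset V) (x : V → ℝ) : ℝ := Real.log (Z J A x)

noncomputable def Psi (J : V → V → ℝ) (A : Finset V) (h p q : V → ℝ) : ℝ :=
  psi J A (p + q + h) + psi J A (p + q - h) - 2 * psi J A (p + q)
    - psi J A (p - q + h) - psi J A (p - q - h) + 2 * psi J A (p - q)

lemma Z_split {J : V → V → ℝ} (hJ : Coup J) {A : Finset V} {u : V} (hu : u ∈ A) (x : V → ℝ) :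
    Z J A x = Real.exp (x u) * Z J (A.erase u) (x + J u)
      + Real.exp (-x u) * Z J (A.erase u) (x - J u) := by
  conv_lhs => rw [← Finset.insert_erase hu]
  exact Z_insert J hJ.symm hJ.diag (Finset.notMem_erase u A) x

lemma psi_split {J : V → V → ℝ} (hJ : Coup J) {A : Finset V} {u : V} (hu : u ∈ A) (x : V → ℝ) :
    psi J A x = Real.log 2 + (psi J (A.erase u) (x + J u) + psi J (A.erase u) (x - J u)) / 2
      + lc (x u + rr J A x u) := by
  unfold psi rr
  rw [Z_split hJ hu x, log_two_exp (Z_pos _ _ _) (Z_pos _ _ _)]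

lemma psi_congr {J : V → V → ℝ} {A : Finset V} {x y : V → ℝ} (h : ∀ u ∈ A, x u = y u) :
    psi J A x = psi J A y := by
  unfold psi; rw [Z_congr_field J A h]

lemma rr_congr {J : V → V → ℝ} {A : Finset V} {x y : V → ℝ} {u : V}
    (h : ∀ w ∈ A.erase u, x w = y w) : rr J A x u = rr J A y u := by
  unfold rr
  rw [Z_congr_field J (A.erase u) (x := x + J u) (y := y + J u) (fun w hw => by
      simp only [Pi.add_apply]; rw [h w hw]),
    Z_congr_field J (A.erase u) (x := x - J u) (y := y - J u) (fun w hw => by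
      simp only [Pi.sub_apply]; rw [h w hw])]

lemma psi_neg {J : V → V → ℝ} (hJ : Coup J) (A : Finset V) (x : V → ℝ) :
    psi J A (-x) = psi J A x := by
  unfold psi; rw [Z_neg J hJ.symm hJ.diag]

lemma rr_neg {J : V → V → ℝ} (hJ : Coup J) (A : Finset V) (x : V → ℝ) (u : V) :
    rr J A (-x) u = - rr J A x u := by
  unfold rr
  have h1 : -x + J u = -(x - J u) := by ring
  have h2 : -x - J u = -(x + J u) := by ring
  rw [h1, h2, Z_neg J hJ.symm hJ.diag, Z_neg J hJ.symm hJ.diag]; ring

lemma mag_neg {J : V → V → ℝ} (hJ : Coup J) {A : Finset V} (x : V → ℝ) {u : V} (hu : u ∈ A) :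
    mag J A (-x) u = - mag J A x u := by
  rw [mag_eq_tanh hJ _ hu, mag_eq_tanh hJ _ hu, rr_neg hJ, ← tanh_neg']
  congr 1
  simp only [Pi.neg_apply]; ring

lemma Z_add_le {J : V → V → ℝ} (A : Finset V) (x y : V → ℝ) :
    Z J A (x + y) ≤ Real.exp (∑ u ∈ A, |y u|) * Z J A x := by
  unfold Z Zf
  rw [Finset.mul_sum]
  apply Finset.sum_le_sum
  intro S _
  rw [mul_one, mul_one, ← Real.exp_add]
  apply Real.exp_le_exp.2
  unfold ham
  have h1 : ∑ u ∈ A, (x + y) u * sp S u = ∑ u ∈ A, x u * sp S u + ∑ u ∈ A, y u * sp S u := by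
    rw [← Finset.sum_add_distrib]
    exact Finset.sum_congr rfl (fun u _ => by simp only [Pi.add_apply]; ring)
  have h2 : ∑ u ∈ A, y u * sp S u ≤ ∑ u ∈ A, |y u| := by
    apply Finset.sum_le_sum
    intro u _
    calc y u * sp S u ≤ |y u * sp S u| := le_abs_self _
      _ = |y u| := by rw [abs_mul, abs_sp, mul_one]
  rw [h1]; linarith

/-- total coupling of `u` to the rest of `A` -/
noncomputable def jt (J : V → V → ℝ) (A : Finset V) (u : V) : ℝ := ∑ w ∈ A.erase u, J u w

lemma jt_nonneg {J : V → V → ℝ} (hJ : Coup J) (A : Finset V) (u : V) : 0 ≤ jt J A u :=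
  Finset.sum_nonneg (fun w _ => hJ.nonneg u w)

lemma PN_le {J : V → V → ℝ} (hJ : Coup J) (A : Finset V) (u : V) (x : V → ℝ) :
    Z J (A.erase u) (x + J u) ≤ Real.exp (2 * jt J A u) * Z J (A.erase u) (x - J u) := by
  have := Z_add_le (J := J) (A.erase u) (x - J u) (J u + J u)
  have e : x - J u + (J u + J u) = x + J u := by ring
  rw [e] at this
  have e2 : ∑ w ∈ A.erase u, |(J u + J u) w| = 2 * jt J A u := by
    unfold jt; rw [Finset.mul_sum]
    refine Finset.sum_congr rfl (fun w _ => ?_)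
    have := hJ.nonneg u w
    rw [Pi.add_apply, abs_of_nonneg (by linarith)]; ring
  rwa [e2] at this

lemma NP_le {J : V → V → ℝ} (hJ : Coup J) (A : Finset V) (u : V) (x : V → ℝ) :
    Z J (A.erase u) (x - J u) ≤ Real.exp (2 * jt J A u) * Z J (A.erase u) (x + J u) := by
  have := Z_add_le (J := J) (A.erase u) (x + J u) (-(J u + J u))
  have e : x + J u + -(J u + J u) = x - J u := by ring
  rw [e] at this
  have e2 : ∑ w ∈ A.erase u, |(-(J u + J u)) w| = 2 * jt J A u := by
    unfold jt; rw [Finset.mul_sum]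
    refine Finset.sum_congr rfl (fun w _ => ?_)
    have := hJ.nonneg u w
    rw [Pi.neg_apply, abs_neg, Pi.add_apply, abs_of_nonneg (by linarith)]; ring
  rwa [e2] at this

lemma abs_rr_le {J : V → V → ℝ} (hJ : Coup J) (A : Finset V) (x : V → ℝ) (u : V) :
    |rr J A x u| ≤ jt J A u := by
  unfold rr
  have h1 := Real.log_le_log (Z_pos _ _ _) (PN_le hJ A u x)
  have h2 := Real.log_le_log (Z_pos _ _ _) (NP_le hJ A u x)
  rw [Real.log_mul (Real.exp_pos _).ne' (Z_pos _ _ _).ne', Real.log_exp] at h1 h2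
  rw [abs_le]; constructor <;> linarith

/-- the concavity inequality `Γ` at `v`, from `Ψ ≤ 0` on the smaller set -/
lemma gamma_of_Psi {J : V → V → ℝ} (hJ : Coup J) {A : Finset V} {v : V} (hv : v ∈ A)
    (hPsi : ∀ h p q : V → ℝ, (∀ u ∈ A.erase v, 0 ≤ p u) → (∀ u ∈ A.erase v, 0 ≤ q u) →
      Psi J (A.erase v) h p q ≤ 0)
    {k : V → ℝ} (hk : ∀ u ∈ A, 0 ≤ k u) (h : V → ℝ) :
    mag J A (k + h) v + mag J A (k - h) v ≤ 2 * mag J A k v := by
  rw [mag_eq_tanh hJ _ hv, mag_eq_tanh hJ _ hv, mag_eq_tanh hJ _ hv]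
  have hP := hPsi h k (J v) (fun u hu => hk u (Finset.mem_of_mem_erase hu))
    (fun u _ => hJ.nonneg v u)
  have hr : rr J A (k + h) v + rr J A (k - h) v - 2 * rr J A k v
      = Psi J (A.erase v) h k (J v) / 2 := by
    unfold rr Psi psi
    have e1 : k + h + J v = k + J v + h := by ring
    have e2 : k + h - J v = k - J v + h := by ring
    have e3 : k - h + J v = k + J v - h := by ring
    have e4 : k - h - J v = k - J v - h := by ring
    rw [e1, e2, e3, e4]; ring
  apply tanh_add_le
  · simp only [Pi.add_apply, Pi.sub_apply]; linarith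
  · have h0 : 0 ≤ k v := hk v hv
    have h1 : rr J A (-k) v ≤ rr J A k v := by
      apply Z_erase_ratio_mono hJ
      intro u hu
      have := hk u (Finset.mem_of_mem_erase hu)
      simp only [Pi.neg_apply]; linarith
    rw [rr_neg hJ] at h1
    linarith

/-- product form of the three induction inequalities -/
lemma step_ineqs {J : V → V → ℝ} (hJ : Coup J) {A : Finset V} {u : V} (hu : u ∈ A)
    (hPsi : ∀ h p q : V → ℝ, (∀ w ∈ A.erase u, 0 ≤ p w) → (∀ w ∈ A.erase u, 0 ≤ q w) →
      Psi J (A.erase u) h p q ≤ 0)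
    {h p q : V → ℝ} (hp : ∀ w ∈ A, 0 ≤ p w) (hq : ∀ w ∈ A, 0 ≤ q w) :
    (Z J (A.erase u) (p + q + h + J u) * Z J (A.erase u) (p + q - h + J u)
        * Z J (A.erase u) (p - q - J u) ^ 2
      ≤ Z J (A.erase u) (p + q + J u) ^ 2
        * (Z J (A.erase u) (p - q + h - J u) * Z J (A.erase u) (p - q - h - J u))) ∧
    (Z J (A.erase u) (p + q + h + J u) * Z J (A.erase u) (p + q - h - J u) * Z J A (p - q) ^ 2
      ≤ Z J (A.erase u) (p - q + h + J u) * Z J (A.erase u) (p - q - h - J u)
        * Z J A (p + q) ^ 2) ∧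
    (Z J (A.erase u) (p + q + h - J u) * Z J (A.erase u) (p + q - h + J u) * Z J A (p - q) ^ 2
      ≤ Z J (A.erase u) (p - q + h - J u) * Z J (A.erase u) (p - q - h + J u)
        * Z J A (p + q) ^ 2) := by
  have hp' : ∀ w ∈ A.erase u, 0 ≤ p w := fun w hw => hp w (Finset.mem_of_mem_erase hw)
  have hq' : ∀ w ∈ A.erase u, 0 ≤ q w := fun w hw => hq w (Finset.mem_of_mem_erase hw)
  have ex : ∀ x : V → ℝ, Z J (A.erase u) x = Real.exp (psi J (A.erase u) x) := fun x =>
    (Real.exp_log (Z_pos _ _ _)).symm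
  -- product form of Psi
  have prodform : ∀ h p q : V → ℝ, Psi J (A.erase u) h p q ≤ 0 →
      Z J (A.erase u) (p + q + h) * Z J (A.erase u) (p + q - h) * Z J (A.erase u) (p - q) ^ 2
      ≤ Z J (A.erase u) (p + q) ^ 2
        * (Z J (A.erase u) (p - q + h) * Z J (A.erase u) (p - q - h)) := by
    intro h p q hh
    simp only [ex]
    rw [← Real.exp_add, sq, ← Real.exp_add, ← Real.exp_add, sq, ← Real.exp_add, ← Real.exp_add,
      ← Real.exp_add]
    apply Real.exp_le_exp.2
    unfold Psi at hh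
    linarith
  have gks := gks_add_vertex hJ (Finset.notMem_erase u A) (k := p + q) (k' := p - q) (by
    intro w hw
    rw [Finset.insert_erase hu] at hw
    have h1 := hp w hw
    have h2 := hq w hw
    simp only [Pi.add_apply, Pi.sub_apply]
    rw [abs_le]; constructor <;> linarith)
  rw [Finset.insert_erase hu] at gks
  refine ⟨?_, ?_, ?_⟩
  · have := prodform h p (q + J u) (hPsi _ _ _ hp' (fun w hw => by
      have := hq' w hw; have := hJ.nonneg u w; simp only [Pi.add_apply]; linarith))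
    have e1 : p + (q + J u) + h = p + q + h + J u := by ring
    have e2 : p + (q + J u) - h = p + q - h + J u := by ring
    have e3 : p - (q + J u) = p - q - J u := by ring
    have e4 : p + (q + J u) = p + q + J u := by ring
    rw [e1, e2, e3, e4] at this
    have e5 : p - q - J u + h = p - q + h - J u := by ring
    have e6 : p - q - J u - h = p - q - h - J u := by ring
    rw [e5, e6] at this
    exact this
  · have := prodform (h + J u) p q (hPsi _ _ _ hp' hq')
    have e1 : p + q + (h + J u) = p + q + h + J u := by ring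
    have e2 : p + q - (h + J u) = p + q - h - J u := by ring
    have e3 : p - q + (h + J u) = p - q + h + J u := by ring
    have e4 : p - q - (h + J u) = p - q - h - J u := by ring
    rw [e1, e2, e3, e4] at this
    set a := Z J (A.erase u) (p + q + h + J u) * Z J (A.erase u) (p + q - h - J u)
    set b := Z J (A.erase u) (p - q + h + J u) * Z J (A.erase u) (p - q - h - J u)
    have ha : 0 < a := mul_pos (Z_pos _ _ _) (Z_pos _ _ _)
    have hb : 0 < b := mul_pos (Z_pos _ _ _) (Z_pos _ _ _)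
    have hB := Z_pos J (A.erase u) (p + q)
    have hB' := Z_pos J (A.erase u) (p - q)
    have hA := Z_pos J A (p + q)
    have hA' := Z_pos J A (p - q)
    have sq1 : (Z J (A.erase u) (p + q) * Z J A (p - q)) ^ 2
        ≤ (Z J (A.erase u) (p - q) * Z J A (p + q)) ^ 2 :=
      pow_le_pow_left₀ (by positivity) gks 2
    have c : Z J (A.erase u) (p + q) ^ 2 * (a * Z J A (p - q) ^ 2)
        ≤ Z J (A.erase u) (p + q) ^ 2 * (b * Z J A (p + q) ^ 2) := by
      calc Z J (A.erase u) (p + q) ^ 2 * (a * Z J A (p - q) ^ 2)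
          = a * (Z J (A.erase u) (p + q) * Z J A (p - q)) ^ 2 := by ring
        _ ≤ a * (Z J (A.erase u) (p - q) * Z J A (p + q)) ^ 2 := by gcongr
        _ = (a * Z J (A.erase u) (p - q) ^ 2) * Z J A (p + q) ^ 2 := by ring
        _ ≤ (Z J (A.erase u) (p + q) ^ 2 * b) * Z J A (p + q) ^ 2 := by gcongr
        _ = _ := by ring
    exact le_of_mul_le_mul_left c (by positivity)
  · have := prodform (h - J u) p q (hPsi _ _ _ hp' hq')
    have e1 : p + q + (h - J u) = p + q + h - J u := by ring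
    have e2 : p + q - (h - J u) = p + q - h + J u := by ring
    have e3 : p - q + (h - J u) = p - q + h - J u := by ring
    have e4 : p - q - (h - J u) = p - q - h + J u := by ring
    rw [e1, e2, e3, e4] at this
    set a := Z J (A.erase u) (p + q + h - J u) * Z J (A.erase u) (p + q - h + J u)
    set b := Z J (A.erase u) (p - q + h - J u) * Z J (A.erase u) (p - q - h + J u)
    have ha : 0 < a := mul_pos (Z_pos _ _ _) (Z_pos _ _ _)
    have hb : 0 < b := mul_pos (Z_pos _ _ _) (Z_pos _ _ _)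
    have hB := Z_pos J (A.erase u) (p + q)
    have hB' := Z_pos J (A.erase u) (p - q)
    have hA := Z_pos J A (p + q)
    have hA' := Z_pos J A (p - q)
    have sq1 : (Z J (A.erase u) (p + q) * Z J A (p - q)) ^ 2
        ≤ (Z J (A.erase u) (p - q) * Z J A (p + q)) ^ 2 :=
      pow_le_pow_left₀ (by positivity) gks 2
    have c : Z J (A.erase u) (p + q) ^ 2 * (a * Z J A (p - q) ^ 2)
        ≤ Z J (A.erase u) (p + q) ^ 2 * (b * Z J A (p + q) ^ 2) := by
      calc Z J (A.erase u) (p + q) ^ 2 * (a * Z J A (p - q) ^ 2)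
          = a * (Z J (A.erase u) (p + q) * Z J A (p - q)) ^ 2 := by ring
        _ ≤ a * (Z J (A.erase u) (p - q) * Z J A (p + q)) ^ 2 := by gcongr
        _ = (a * Z J (A.erase u) (p - q) ^ 2) * Z J A (p + q) ^ 2 := by ring
        _ ≤ (Z J (A.erase u) (p + q) ^ 2 * b) * Z J A (p + q) ^ 2 := by gcongr
        _ = _ := by ring
    exact le_of_mul_le_mul_left c (by positivity)

end Pool.Agent.P6ac95e
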