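import Pool.Agent.Lib.P6ac95e.DSS1

set_option autoImplicit false
open Finset

namespace Pool.Agent.P6ac95e

lemma expand_prod (a s P1 N1 P2 N2 : ℝ) :
    (Real.exp (a + s) * P1 + Real.exp (-(a + s)) * N1)
      * (Real.exp (a - s) * P2 + Real.exp (-(a - s)) * N2)
    = Real.exp (2 * a) * (P1 * P2) + Real.exp (2 * s) * (P1 * N2)
      + Real.exp (-(2 * s)) * (N1 * P2) + Real.exp (-(2 * a)) * (N1 * N2) := by
  have e1 : Real.exp (a + s) * Real.exp (a - s) = Real.exp (2 * a) := by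
    rw [← Real.exp_add]; ring_nf
  have e2 : Real.exp (a + s) * Real.exp (-(a - s)) = Real.exp (2 * s) := by
    rw [← Real.exp_add]; ring_nf
  have e3 : Real.exp (-(a + s)) * Real.exp (a - s) = Real.exp (-(2 * s)) := by
    rw [← Real.exp_add]; ring_nf
  have e4 : Real.exp (-(a + s)) * Real.exp (-(a - s)) = Real.exp (-(2 * a)) := by
    rw [← Real.exp_add]; ring_nf
  calc _ = (Real.exp (a + s) * Real.exp (a - s)) * (P1 * P2)
      + (Real.exp (a + s) * Real.exp (-(a - s))) * (P1 * N2)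
      + (Real.exp (-(a + s)) * Real.exp (a - s)) * (N1 * P2)
      + (Real.exp (-(a + s)) * Real.exp (-(a - s))) * (N1 * N2) := by ring
    _ = _ := by rw [e1, e2, e3, e4]

/-- bound for a large field `s` -/
lemma bound_large_field {P1 N1 P2 N2 P3 N3 P4 N4 K a a' s ZA ZA' : ℝ}
    (hP1 : 0 < P1) (hN1 : 0 < N1) (hP2 : 0 < P2) (hN2 : 0 < N2) (hP3 : 0 < P3) (hN3 : 0 < N3)
    (hP4 : 0 < P4) (hN4 : 0 < N4) (hK : 1 ≤ K) (ha : 0 ≤ a) (hs : 0 ≤ s)
    (hZA : 0 < ZA) (hZA' : 0 < ZA')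
    (h1 : P1 * N2 * ZA' ^ 2 ≤ P3 * N4 * ZA ^ 2)
    (k1 : N1 ≤ K * P1) (k2 : P2 ≤ K * N2) :
    (Real.exp (a + s) * P1 + Real.exp (-(a + s)) * N1)
      * (Real.exp (a - s) * P2 + Real.exp (-(a - s)) * N2) * ZA' ^ 2
    ≤ (1 + (Real.exp (2 * a) * K + K + K ^ 2) * Real.exp (-(2 * s)))
      * ((Real.exp (a' + s) * P3 + Real.exp (-(a' + s)) * N3)
        * (Real.exp (a' - s) * P4 + Real.exp (-(a' - s)) * N4) * ZA ^ 2) := by
  rw [expand_prod, expand_prod]
  set W := Real.exp (2 * s) * (P1 * N2) with hW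
  have hWpos : 0 < W := by positivity
  have hes : Real.exp (-(2 * s)) * Real.exp (2 * s) = 1 := by
    rw [← Real.exp_add]; simp
  have hes1 : Real.exp (-(2 * s)) ≤ 1 := by
    rw [← Real.exp_zero]; exact Real.exp_le_exp.2 (by linarith)
  have hea1 : Real.exp (-(2 * a)) ≤ 1 := by
    rw [← Real.exp_zero]; exact Real.exp_le_exp.2 (by linarith)
  have hPN : P1 * N2 = Real.exp (-(2 * s)) * W := by
    rw [hW, ← mul_assoc, hes, one_mul]
  have t1 : Real.exp (2 * a) * (P1 * P2) ≤ Real.exp (2 * a) * K * Real.exp (-(2 * s)) * W := by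
    have : P1 * P2 ≤ K * (P1 * N2) := by nlinarith
    calc Real.exp (2 * a) * (P1 * P2) ≤ Real.exp (2 * a) * (K * (P1 * N2)) := by gcongr
      _ = _ := by rw [hPN]; ring
  have t2 : Real.exp (-(2 * s)) * (N1 * P2) ≤ K ^ 2 * Real.exp (-(2 * s)) * W := by
    have h2 : N1 * P2 ≤ K ^ 2 * (P1 * N2) := by
      calc N1 * P2 ≤ (K * P1) * (K * N2) := mul_le_mul k1 k2 hP2.le (by positivity)
        _ = _ := by ring
    calc Real.exp (-(2 * s)) * (N1 * P2) ≤ 1 * (K ^ 2 * (P1 * N2)) := by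
          apply mul_le_mul hes1 h2 (by positivity) zero_le_one
      _ = _ := by rw [hPN]; ring
  have t3 : Real.exp (-(2 * a)) * (N1 * N2) ≤ K * Real.exp (-(2 * s)) * W := by
    have h2 : N1 * N2 ≤ K * (P1 * N2) := by nlinarith
    calc Real.exp (-(2 * a)) * (N1 * N2) ≤ 1 * (K * (P1 * N2)) := by
          apply mul_le_mul hea1 h2 (by positivity) zero_le_one
      _ = _ := by rw [hPN]; ring
  set C := (Real.exp (2 * a) * K + K + K ^ 2) * Real.exp (-(2 * s)) with hC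
  have hCpos : 0 ≤ C := by rw [hC]; positivity
  have tot : Real.exp (2 * a) * (P1 * P2) + W + Real.exp (-(2 * s)) * (N1 * P2)
      + Real.exp (-(2 * a)) * (N1 * N2) ≤ (1 + C) * W := by
    rw [hC]; nlinarith [t1, t2, t3]
  calc (Real.exp (2 * a) * (P1 * P2) + W + Real.exp (-(2 * s)) * (N1 * P2)
        + Real.exp (-(2 * a)) * (N1 * N2)) * ZA' ^ 2 ≤ (1 + C) * W * ZA' ^ 2 := by gcongr
    _ = (1 + C) * (Real.exp (2 * s) * (P1 * N2 * ZA' ^ 2)) := by rw [hW]; ring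
    _ ≤ (1 + C) * (Real.exp (2 * s) * (P3 * N4 * ZA ^ 2)) := by gcongr
    _ = (1 + C) * ((Real.exp (2 * s) * (P3 * N4)) * ZA ^ 2) := by ring
    _ ≤ (1 + C) * ((Real.exp (2 * a') * (P3 * P4) + Real.exp (2 * s) * (P3 * N4)
        + Real.exp (-(2 * s)) * (N3 * P4) + Real.exp (-(2 * a')) * (N3 * N4)) * ZA ^ 2) := by
        have r1 : 0 < Real.exp (2 * a') * (P3 * P4) := by positivity
        have r2 : 0 < Real.exp (-(2 * s)) * (N3 * P4) := by positivity
        have r3 : 0 < Real.exp (-(2 * a')) * (N3 * N4) := by positivity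
        apply mul_le_mul_of_nonneg_left _ (by linarith)
        apply mul_le_mul_of_nonneg_right _ (by positivity)
        linarith

/-- bound for a large `q` -/
lemma bound_large_q {P0 N0 P5 N5 P1 N1 P2 N2 P3 N3 P4 N4 K a a' s : ℝ}
    (hP0 : 0 < P0) (hN0 : 0 < N0) (hP5 : 0 < P5) (hN5 : 0 < N5)
    (hP1 : 0 < P1) (hN1 : 0 < N1) (hP2 : 0 < P2) (hN2 : 0 < N2) (hP3 : 0 < P3) (hN3 : 0 < N3)
    (hP4 : 0 < P4) (hN4 : 0 < N4) (hK : 1 ≤ K)
    (h0 : P1 * P2 * N5 ^ 2 ≤ P0 ^ 2 * (N3 * N4))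
    (h1 : P1 * N2 * (Real.exp a' * P5 + Real.exp (-a') * N5) ^ 2
      ≤ P3 * N4 * (Real.exp a * P0 + Real.exp (-a) * N0) ^ 2)
    (h2 : N1 * P2 * (Real.exp a' * P5 + Real.exp (-a') * N5) ^ 2
      ≤ N3 * P4 * (Real.exp a * P0 + Real.exp (-a) * N0) ^ 2)
    (k1 : N1 ≤ K * P1) (k2 : N2 ≤ K * P2) (k5 : P5 ≤ K * N5) :
    (Real.exp (a + s) * P1 + Real.exp (-(a + s)) * N1)
      * (Real.exp (a - s) * P2 + Real.exp (-(a - s)) * N2)
      * (Real.exp a' * P5 + Real.exp (-a') * N5) ^ 2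
    ≤ ((1 + K ^ 2 * Real.exp (-(4 * a))) * (1 + K * Real.exp (2 * a')) ^ 2)
      * ((Real.exp (a' + s) * P3 + Real.exp (-(a' + s)) * N3)
        * (Real.exp (a' - s) * P4 + Real.exp (-(a' - s)) * N4)
        * (Real.exp a * P0 + Real.exp (-a) * N0) ^ 2) := by
  rw [expand_prod, expand_prod]
  set ZA' := Real.exp a' * P5 + Real.exp (-a') * N5 with hZA'
  set ZA := Real.exp a * P0 + Real.exp (-a) * N0 with hZA
  have hZAp : 0 < ZA := by positivity
  have hZA'p : 0 < ZA' := by positivity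
  set E := (1 + K ^ 2 * Real.exp (-(4 * a))) * (1 + K * Real.exp (2 * a')) ^ 2 with hE
  have hE1 : 1 ≤ E := by
    have r1 : 1 ≤ 1 + K ^ 2 * Real.exp (-(4 * a)) := by
      have : 0 < K ^ 2 * Real.exp (-(4 * a)) := by positivity
      linarith
    have r2 : 1 ≤ (1 + K * Real.exp (2 * a')) ^ 2 := by
      have : 0 < K * Real.exp (2 * a') := by positivity
      nlinarith
    rw [hE]; nlinarith
  -- first bracket
  have f1 : Real.exp (2 * a) * (P1 * P2) + Real.exp (-(2 * a)) * (N1 * N2)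
      ≤ Real.exp (2 * a) * (P1 * P2) * (1 + K ^ 2 * Real.exp (-(4 * a))) := by
    have e1 : Real.exp (-(2 * a)) = Real.exp (2 * a) * Real.exp (-(4 * a)) := by
      rw [← Real.exp_add]; ring_nf
    have e2 : N1 * N2 ≤ K ^ 2 * (P1 * P2) := by
      calc N1 * N2 ≤ (K * P1) * (K * P2) := mul_le_mul k1 k2 hN2.le (by positivity)
        _ = _ := by ring
    have e3 : Real.exp (-(2 * a)) * (N1 * N2)
        ≤ Real.exp (2 * a) * Real.exp (-(4 * a)) * (K ^ 2 * (P1 * P2)) := by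
      rw [e1]; gcongr
    linarith
  have f2 : ZA' ≤ Real.exp (-a') * N5 * (1 + K * Real.exp (2 * a')) := by
    have e1 : Real.exp a' = Real.exp (-a') * Real.exp (2 * a') := by
      rw [← Real.exp_add]; ring_nf
    have e2 : Real.exp a' * P5 ≤ Real.exp (-a') * Real.exp (2 * a') * (K * N5) := by
      rw [← e1]; gcongr
    rw [hZA']; linarith
  have f3 : ZA' ^ 2 ≤ (Real.exp (-a') * N5 * (1 + K * Real.exp (2 * a'))) ^ 2 :=
    pow_le_pow_left₀ hZA'p.le f2 2
  have f4 : (Real.exp a * P0) ^ 2 ≤ ZA ^ 2 := by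
    apply pow_le_pow_left₀ (by positivity)
    have : 0 < Real.exp (-a) * N0 := by positivity
    rw [hZA]; linarith
  have e2a : Real.exp (2 * a) = Real.exp a ^ 2 := by
    rw [sq, ← Real.exp_add]; ring_nf
  have e2a' : Real.exp (-(2 * a')) = Real.exp (-a') ^ 2 := by
    rw [sq, ← Real.exp_add]; ring_nf
  have g1 : (Real.exp (2 * a) * (P1 * P2) + Real.exp (-(2 * a)) * (N1 * N2)) * ZA' ^ 2
      ≤ E * ((Real.exp (-(2 * a')) * (N3 * N4)) * ZA ^ 2) := by
    calc (Real.exp (2 * a) * (P1 * P2) + Real.exp (-(2 * a)) * (N1 * N2)) * ZA' ^ 2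
        ≤ (Real.exp (2 * a) * (P1 * P2) * (1 + K ^ 2 * Real.exp (-(4 * a))))
          * (Real.exp (-a') * N5 * (1 + K * Real.exp (2 * a'))) ^ 2 := by
          apply mul_le_mul f1 f3 (by positivity) (by positivity)
      _ = E * (Real.exp (2 * a) * Real.exp (-a') ^ 2 * (P1 * P2 * N5 ^ 2)) := by
          rw [hE]; ring
      _ ≤ E * (Real.exp (2 * a) * Real.exp (-a') ^ 2 * (P0 ^ 2 * (N3 * N4))) := by gcongr
      _ = E * ((Real.exp (-(2 * a')) * (N3 * N4)) * (Real.exp a * P0) ^ 2) := by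
          rw [e2a, e2a']; ring
      _ ≤ E * ((Real.exp (-(2 * a')) * (N3 * N4)) * ZA ^ 2) := by gcongr
  have g2 : Real.exp (2 * s) * (P1 * N2) * ZA' ^ 2
      ≤ E * (Real.exp (2 * s) * (P3 * N4) * ZA ^ 2) := by
    have r : Real.exp (2 * s) * (P1 * N2) * ZA' ^ 2 ≤ Real.exp (2 * s) * (P3 * N4) * ZA ^ 2 := by
      calc _ = Real.exp (2 * s) * (P1 * N2 * ZA' ^ 2) := by ring
        _ ≤ Real.exp (2 * s) * (P3 * N4 * ZA ^ 2) := by gcongr
        _ = _ := by ring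
    have r2 : 0 < Real.exp (2 * s) * (P3 * N4) * ZA ^ 2 := by positivity
    exact r.trans (le_mul_of_one_le_left r2.le hE1)
  have g3 : Real.exp (-(2 * s)) * (N1 * P2) * ZA' ^ 2
      ≤ E * (Real.exp (-(2 * s)) * (N3 * P4) * ZA ^ 2) := by
    have r : Real.exp (-(2 * s)) * (N1 * P2) * ZA' ^ 2
        ≤ Real.exp (-(2 * s)) * (N3 * P4) * ZA ^ 2 := by
      calc _ = Real.exp (-(2 * s)) * (N1 * P2 * ZA' ^ 2) := by ring
        _ ≤ Real.exp (-(2 * s)) * (N3 * P4 * ZA ^ 2) := by gcongr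
        _ = _ := by ring
    have r2 : 0 < Real.exp (-(2 * s)) * (N3 * P4) * ZA ^ 2 := by positivity
    exact r.trans (le_mul_of_one_le_left r2.le hE1)
  have g4 : 0 < E * (Real.exp (2 * a') * (P3 * P4) * ZA ^ 2) := by positivity
  calc (Real.exp (2 * a) * (P1 * P2) + Real.exp (2 * s) * (P1 * N2)
        + Real.exp (-(2 * s)) * (N1 * P2) + Real.exp (-(2 * a)) * (N1 * N2)) * ZA' ^ 2
      = (Real.exp (2 * a) * (P1 * P2) + Real.exp (-(2 * a)) * (N1 * N2)) * ZA' ^ 2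
        + Real.exp (2 * s) * (P1 * N2) * ZA' ^ 2
        + Real.exp (-(2 * s)) * (N1 * P2) * ZA' ^ 2 := by ring
    _ ≤ E * ((Real.exp (-(2 * a')) * (N3 * N4)) * ZA ^ 2)
        + E * (Real.exp (2 * s) * (P3 * N4) * ZA ^ 2)
        + E * (Real.exp (-(2 * s)) * (N3 * P4) * ZA ^ 2)
        + E * (Real.exp (2 * a') * (P3 * P4) * ZA ^ 2) := by
        have := add_le_add (add_le_add g1 g2) g3
        linarith
    _ = _ := by ring

variable {V : Type*} [DecidableEq V]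

lemma Psi_le_log {J : V → V → ℝ} {A : Finset V} {h p q : V → ℝ} {c : ℝ} (hc : 0 < c)
    (hle : Z J A (p + q + h) * Z J A (p + q - h) * Z J A (p - q) ^ 2
      ≤ c * (Z J A (p - q + h) * Z J A (p - q - h) * Z J A (p + q) ^ 2)) :
    Psi J A h p q ≤ Real.log c := by
  have z : ∀ x, 0 < Z J A x := fun x => Z_pos J A x
  have h1 := Real.log_le_log (mul_pos (mul_pos (z _) (z _)) (pow_pos (z _) 2)) hle
  rw [Real.log_mul (mul_pos (z _) (z _)).ne' (pow_pos (z _) 2).ne',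
    Real.log_mul (z _).ne' (z _).ne', Real.log_pow,
    Real.log_mul hc.ne' (mul_pos (mul_pos (z _) (z _)) (pow_pos (z _) 2)).ne',
    Real.log_mul (mul_pos (z _) (z _)).ne' (pow_pos (z _) 2).ne',
    Real.log_mul (z _).ne' (z _).ne', Real.log_pow] at h1
  unfold Psi psi
  push_cast at h1
  linarith

/-- `Ψ` is small when the field at some vertex is large -/
lemma Psi_large_field {J : V → V → ℝ} (hJ : Coup J) {A : Finset V} {u : V} (hu : u ∈ A)
    (hPsi : ∀ h p q : V → ℝ, (∀ w ∈ A.erase u, 0 ≤ p w) → (∀ w ∈ A.erase u, 0 ≤ q w) →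
      Psi J (A.erase u) h p q ≤ 0)
    {h p q : V → ℝ} (hp : ∀ w ∈ A, 0 ≤ p w) (hq : ∀ w ∈ A, 0 ≤ q w) (hs : 0 ≤ h u) :
    Psi J A h p q ≤ Real.log (1 + (Real.exp (2 * (p u + q u)) * Real.exp (2 * jt J A u)
      + Real.exp (2 * jt J A u) + Real.exp (2 * jt J A u) ^ 2) * Real.exp (-(2 * h u))) := by
  apply Psi_le_log (by positivity)
  obtain ⟨_, h1, _⟩ := step_ineqs hJ hu hPsi (h := h) hp hq
  have z : ∀ x, 0 < Z J (A.erase u) x := fun x => Z_pos J _ x
  have hb := bound_large_field (K := Real.exp (2 * jt J A u)) (a := p u + q u)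
    (a' := p u - q u) (s := h u) (N3 := Z J (A.erase u) (p - q + h - J u))
    (P4 := Z J (A.erase u) (p - q - h + J u))
    (z (p + q + h + J u)) (z (p + q + h - J u)) (z (p + q - h + J u)) (z (p + q - h - J u))
    (z (p - q + h + J u)) (z _) (z _) (z (p - q - h - J u))
    (Real.one_le_exp (by have := jt_nonneg hJ A u; linarith))
    (by have := hp u hu; have := hq u hu; linarith) hs (Z_pos J A (p + q)) (Z_pos J A (p - q)) h1
    (NP_le hJ A u _) (PN_le hJ A u _)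
  rw [Z_split hJ hu (p + q + h), Z_split hJ hu (p + q - h), Z_split hJ hu (p - q + h),
    Z_split hJ hu (p - q - h)]
  exact hb

lemma Psi_neg_field {J : V → V → ℝ} (A : Finset V) (h p q : V → ℝ) :
    Psi J A (-h) p q = Psi J A h p q := by
  unfold Psi
  have e1 : p + q + -h = p + q - h := by ring
  have e2 : p + q - -h = p + q + h := by ring
  have e3 : p - q + -h = p - q - h := by ring
  have e4 : p - q - -h = p - q + h := by ring
  rw [e1, e2, e3, e4]; ring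

/-- `Ψ` is small when `q` is large at some vertex -/
lemma Psi_large_q {J : V → V → ℝ} (hJ : Coup J) {A : Finset V} {u : V} (hu : u ∈ A)
    (hPsi : ∀ h p q : V → ℝ, (∀ w ∈ A.erase u, 0 ≤ p w) → (∀ w ∈ A.erase u, 0 ≤ q w) →
      Psi J (A.erase u) h p q ≤ 0)
    {h p q : V → ℝ} (hp : ∀ w ∈ A, 0 ≤ p w) (hq : ∀ w ∈ A, 0 ≤ q w) :
    Psi J A h p q ≤ Real.log ((1 + Real.exp (2 * jt J A u) ^ 2 * Real.exp (-(4 * (p u + q u))))
      * (1 + Real.exp (2 * jt J A u) * Real.exp (2 * (p u - q u))) ^ 2) := by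
  apply Psi_le_log (by positivity)
  obtain ⟨h0, h1, h2⟩ := step_ineqs hJ hu hPsi (h := h) hp hq
  have z : ∀ x, 0 < Z J (A.erase u) x := fun x => Z_pos J _ x
  rw [Z_split hJ hu (p - q), Z_split hJ hu (p + q)] at h1 h2
  have hb := bound_large_q (K := Real.exp (2 * jt J A u)) (a := p u + q u)
    (a' := p u - q u) (s := h u)
    (z (p + q + J u)) (z (p + q - J u)) (z (p - q + J u)) (z (p - q - J u))
    (z (p + q + h + J u)) (z (p + q + h - J u)) (z (p + q - h + J u)) (z (p + q - h - J u))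
    (z (p - q + h + J u)) (z (p - q + h - J u)) (z (p - q - h + J u)) (z (p - q - h - J u))
    (Real.one_le_exp (by have := jt_nonneg hJ A u; linarith)) h0 h1 h2
    (NP_le hJ A u _) (NP_le hJ A u _) (PN_le hJ A u _)
  rw [Z_split hJ hu (p + q + h), Z_split hJ hu (p + q - h), Z_split hJ hu (p - q + h),
    Z_split hJ hu (p - q - h), Z_split hJ hu (p - q), Z_split hJ hu (p + q)]
  exact hb

end Pool.Agent.P6ac95e
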