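import Pool.Agent.Lib.P6ac95e.DSS2

set_option autoImplicit false
open Finset

namespace Pool.Agent.P6ac95e

lemma isLocalMax_second {g g' : ℝ → ℝ} {t0 c : ℝ} (hg : ∀ t, HasDerivAt g (g' t) t)
    (hg' : HasDerivAt g' c t0) (hmax : IsLocalMax g t0) : c ≤ 0 := by
  by_contra hc
  push Not at hc
  have d0 : g' t0 = 0 := hmax.hasDerivAt_eq_zero (hg t0)
  have hd : deriv g = g' := funext (fun t => (hg t).deriv)
  have hdd : deriv (deriv g) t0 = c := by rw [hd]; exact hg'.deriv
  have hmin : IsLocalMin g t0 :=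
    isLocalMin_of_deriv_deriv_pos (by rw [hdd]; exact hc) (by rw [hd]; exact d0)
      (hg t0).continuousAt
  have heq : g =ᶠ[nhds t0] fun _ => g t0 := by
    filter_upwards [hmin, hmax] with t h1 h2
    exact le_antisymm h2 h1
  have h1 : deriv g =ᶠ[nhds t0] deriv (fun _ => g t0) := heq.deriv
  have h2 := h1.deriv_eq
  rw [hdd] at h2
  simp at h2
  linarith

lemma alg_contra {T0 T1 T2 T3 T4 T5 E : ℝ} (h1 : T1 - T2 - T3 + T4 = 0)
    (h2 : T1 + T2 - 2 * T0 + T3 + T4 - 2 * T5 + 2 * E = 0)
    (h3 : (1 - T1 ^ 2) + (1 - T2 ^ 2) - 2 * (1 - T0 ^ 2) - (1 - T3 ^ 2) - (1 - T4 ^ 2)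
      + 2 * (1 - T5 ^ 2) + 4 * E ≤ 0)
    (h4 : T1 + T2 ≤ 2 * T0) (h5 : E ≤ T0 + T5) (h6 : 0 < E) (h7 : T5 < 1) : False := by
  obtain ⟨α, hα⟩ : ∃ α, α = (T1 + T2) / 2 := ⟨_, rfl⟩
  obtain ⟨μ, hμ⟩ : ∃ μ, μ = (T1 - T2) / 2 := ⟨_, rfl⟩
  obtain ⟨γ, hγ⟩ : ∃ γ, γ = (T3 + T4) / 2 := ⟨_, rfl⟩
  have e1 : T1 = α + μ := by rw [hα, hμ]; ring
  have e2 : T2 = α - μ := by rw [hα, hμ]; ring
  have e3 : T3 = γ + μ := by rw [hγ, hμ]; linarith
  have e4 : T4 = γ - μ := by rw [hγ, hμ]; linarith
  have x0 : 0 ≤ T0 - α := by linarith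
  have hγ2 : γ = T5 + (T0 - α) - E := by linarith
  subst e1 e2 e3 e4
  obtain ⟨x, hx⟩ : ∃ x, x = T0 - α := ⟨_, rfl⟩
  have hα2 : α = T0 - x := by linarith
  rw [← hx] at x0 hγ2
  rw [hα2] at h3
  rw [hγ2] at h3
  have key : 2 * x * (T0 + T5 - E) + 2 * E * (1 - T5) + E ^ 2 ≤ 0 := by nlinarith
  have k1 : 0 ≤ 2 * x * (T0 + T5 - E) := by
    apply mul_nonneg <;> linarith
  have k2 : 0 < 2 * E * (1 - T5) := by
    apply mul_pos <;> linarith
  nlinarith [sq_nonneg E]

lemma lc_comp {f : ℝ → ℝ} {f' x : ℝ} (h : HasDerivAt f f' x) :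
    HasDerivAt (fun t => lc (f t)) (Real.tanh (f x) * f') x := (hasDerivAt_lc (f x)).comp x h

lemma tanh_comp {f : ℝ → ℝ} {f' x : ℝ} (h : HasDerivAt f f' x) :
    HasDerivAt (fun t => Real.tanh (f t)) ((1 - Real.tanh (f x) ^ 2) * f') x :=
  (hasDerivAt_tanh' (f x)).comp x h

/-- the six-term log cosh function -/
noncomputable def Gf (p r0 r1 r2 r3 r4 r5 s t : ℝ) : ℝ :=
  lc (p + t + s + r1) + lc (p + t - s + r2) - 2 * lc (p + t + r0)
    - lc (p - t + s + r3) - lc (p - t - s + r4) + 2 * lc (p - t + r5)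

lemma Gf_deriv_s (p r0 r1 r2 r3 r4 r5 s t : ℝ) :
    HasDerivAt (fun s => Gf p r0 r1 r2 r3 r4 r5 s t)
      (Real.tanh (p + t + s + r1) - Real.tanh (p + t - s + r2)
        - Real.tanh (p - t + s + r3) + Real.tanh (p - t - s + r4)) s := by
  have a1 : HasDerivAt (fun s => lc (p + t + s + r1)) (Real.tanh (p + t + s + r1)) s := by
    have h : HasDerivAt (fun s => p + t + s + r1) 1 s := by
      simpa using ((hasDerivAt_id s).const_add (p + t)).add_const r1
    exact (lc_comp h).congr_deriv (by ring)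
  have a2 : HasDerivAt (fun s => lc (p + t - s + r2)) (-Real.tanh (p + t - s + r2)) s := by
    have h : HasDerivAt (fun s => p + t - s + r2) (-1) s := by
      simpa using ((hasDerivAt_id s).const_sub (p + t)).add_const r2
    exact (lc_comp h).congr_deriv (by ring)
  have a3 : HasDerivAt (fun s => lc (p - t + s + r3)) (Real.tanh (p - t + s + r3)) s := by
    have h : HasDerivAt (fun s => p - t + s + r3) 1 s := by
      simpa using ((hasDerivAt_id s).const_add (p - t)).add_const r3
    exact (lc_comp h).congr_deriv (by ring)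
  have a4 : HasDerivAt (fun s => lc (p - t - s + r4)) (-Real.tanh (p - t - s + r4)) s := by
    have h : HasDerivAt (fun s => p - t - s + r4) (-1) s := by
      simpa using ((hasDerivAt_id s).const_sub (p - t)).add_const r4
    exact (lc_comp h).congr_deriv (by ring)
  have a0 : HasDerivAt (fun _ : ℝ => 2 * lc (p + t + r0)) 0 s := hasDerivAt_const _ _
  have a5 : HasDerivAt (fun _ : ℝ => 2 * lc (p - t + r5)) 0 s := hasDerivAt_const _ _
  have := ((((a1.add a2).sub a0).sub a3).sub a4).add a5
  exact this.congr_deriv (by ring)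

/-- first derivative in `t` -/
noncomputable def Gt (p r0 r1 r2 r3 r4 r5 s t : ℝ) : ℝ :=
  Real.tanh (p + t + s + r1) + Real.tanh (p + t - s + r2) - 2 * Real.tanh (p + t + r0)
    + Real.tanh (p - t + s + r3) + Real.tanh (p - t - s + r4) - 2 * Real.tanh (p - t + r5)

lemma Gf_deriv_t (p r0 r1 r2 r3 r4 r5 s t : ℝ) :
    HasDerivAt (fun t => Gf p r0 r1 r2 r3 r4 r5 s t) (Gt p r0 r1 r2 r3 r4 r5 s t) t := by
  have b1 : ∀ c : ℝ, HasDerivAt (fun t => lc (p + t + c)) (Real.tanh (p + t + c)) t := by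
    intro c
    have h : HasDerivAt (fun t => p + t + c) 1 t := by
      simpa using ((hasDerivAt_id t).const_add p).add_const c
    exact (lc_comp h).congr_deriv (by ring)
  have b2 : ∀ c : ℝ, HasDerivAt (fun t => lc (p - t + c)) (-Real.tanh (p - t + c)) t := by
    intro c
    have h : HasDerivAt (fun t => p - t + c) (-1) t := by
      simpa using ((hasDerivAt_id t).const_sub p).add_const c
    exact (lc_comp h).congr_deriv (by ring)
  have := (((((b1 (s + r1)).add (b1 (-s + r2))).sub ((b1 r0).const_mul 2)).sub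
    (b2 (s + r3))).sub (b2 (-s + r4))).add ((b2 r5).const_mul 2)
  have e : (fun t => Gf p r0 r1 r2 r3 r4 r5 s t) = fun t =>
      lc (p + t + (s + r1)) + lc (p + t + (-s + r2)) - 2 * lc (p + t + r0)
        - lc (p - t + (s + r3)) - lc (p - t + (-s + r4)) + 2 * lc (p - t + r5) := by
    funext t; unfold Gf
    have e1 : p + t + s + r1 = p + t + (s + r1) := by ring
    have e2 : p + t - s + r2 = p + t + (-s + r2) := by ring
    have e3 : p - t + s + r3 = p - t + (s + r3) := by ring
    have e4 : p - t - s + r4 = p - t + (-s + r4) := by ring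
    rw [e1, e2, e3, e4]
  rw [e]
  refine this.congr_deriv ?_
  unfold Gt
  have e1 : p + t + s + r1 = p + t + (s + r1) := by ring
  have e2 : p + t - s + r2 = p + t + (-s + r2) := by ring
  have e3 : p - t + s + r3 = p - t + (s + r3) := by ring
  have e4 : p - t - s + r4 = p - t + (-s + r4) := by ring
  rw [e1, e2, e3, e4]; ring

lemma Gt_deriv_t (p r0 r1 r2 r3 r4 r5 s t : ℝ) :
    HasDerivAt (fun t => Gt p r0 r1 r2 r3 r4 r5 s t)
      ((1 - Real.tanh (p + t + s + r1) ^ 2) + (1 - Real.tanh (p + t - s + r2) ^ 2)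
        - 2 * (1 - Real.tanh (p + t + r0) ^ 2) - (1 - Real.tanh (p - t + s + r3) ^ 2)
        - (1 - Real.tanh (p - t - s + r4) ^ 2) + 2 * (1 - Real.tanh (p - t + r5) ^ 2)) t := by
  have b1 : ∀ c : ℝ, HasDerivAt (fun t => Real.tanh (p + t + c))
      (1 - Real.tanh (p + t + c) ^ 2) t := by
    intro c
    have h : HasDerivAt (fun t => p + t + c) 1 t := by
      simpa using ((hasDerivAt_id t).const_add p).add_const c
    exact (tanh_comp h).congr_deriv (by ring)
  have b2 : ∀ c : ℝ, HasDerivAt (fun t => Real.tanh (p - t + c))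
      (-(1 - Real.tanh (p - t + c) ^ 2)) t := by
    intro c
    have h : HasDerivAt (fun t => p - t + c) (-1) t := by
      simpa using ((hasDerivAt_id t).const_sub p).add_const c
    exact (tanh_comp h).congr_deriv (by ring)
  have := (((((b1 (s + r1)).add (b1 (-s + r2))).sub ((b1 r0).const_mul 2)).add
    (b2 (s + r3))).add (b2 (-s + r4))).sub ((b2 r5).const_mul 2)
  have e1 : ∀ t : ℝ, p + t + s + r1 = p + t + (s + r1) := fun t => by ring
  have e2 : ∀ t : ℝ, p + t - s + r2 = p + t + (-s + r2) := fun t => by ring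
  have e3 : ∀ t : ℝ, p - t + s + r3 = p - t + (s + r3) := fun t => by ring
  have e4 : ∀ t : ℝ, p - t - s + r4 = p - t + (-s + r4) := fun t => by ring
  have e : (fun t => Gt p r0 r1 r2 r3 r4 r5 s t) = fun t =>
      Real.tanh (p + t + (s + r1)) + Real.tanh (p + t + (-s + r2)) - 2 * Real.tanh (p + t + r0)
        + Real.tanh (p - t + (s + r3)) + Real.tanh (p - t + (-s + r4))
        - 2 * Real.tanh (p - t + r5) := by
    funext t; unfold Gt
    rw [e1, e2, e3, e4]
  rw [e, e1, e2, e3, e4]
  exact this.congr_deriv (by ring)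

variable {V : Type*} [DecidableEq V]

lemma continuous_Z (J : V → V → ℝ) (A : Finset V) : Continuous (fun x : V → ℝ => Z J A x) := by
  unfold Z Zf ham
  fun_prop

lemma continuous_psi (J : V → V → ℝ) (A : Finset V) :
    Continuous (fun x : V → ℝ => psi J A x) := by
  unfold psi
  exact (continuous_Z J A).log (fun x => (Z_pos J A x).ne')

lemma continuous_Psi (J : V → V → ℝ) (A : Finset V) :
    Continuous (fun y : (V → ℝ) × (V → ℝ) × (V → ℝ) => Psi J A y.1 y.2.1 y.2.2) := by
  unfold Psi
  have h := continuous_psi J A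
  fun_prop

/-- the part of `psi` not depending on the field at `u` -/
noncomputable def Kc (J : V → V → ℝ) (A : Finset V) (x : V → ℝ) (u : V) : ℝ :=
  Real.log 2 + (psi J (A.erase u) (x + J u) + psi J (A.erase u) (x - J u)) / 2

lemma psi_update {J : V → V → ℝ} (hJ : Coup J) {A : Finset V} {u : V} (hu : u ∈ A)
    {x y : V → ℝ} (h : ∀ w ∈ A.erase u, x w = y w) :
    psi J A x = Kc J A y u + lc (x u + rr J A y u) := by
  rw [psi_split hJ hu x, rr_congr h]
  unfold Kc
  rw [psi_congr (x := x + J u) (y := y + J u) (fun w hw => by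
      simp only [Pi.add_apply]; rw [h w hw]),
    psi_congr (x := x - J u) (y := y - J u) (fun w hw => by
      simp only [Pi.sub_apply]; rw [h w hw])]

lemma Psi_update {J : V → V → ℝ} (hJ : Coup J) {A : Finset V} {u : V} (hu : u ∈ A)
    (h p q : V → ℝ) (s t : ℝ) :
    Psi J A (Function.update h u s) p (Function.update q u t)
      = (Kc J A (p + q + h) u + Kc J A (p + q - h) u - 2 * Kc J A (p + q) u
        - Kc J A (p - q + h) u - Kc J A (p - q - h) u + 2 * Kc J A (p - q) u)
        + Gf (p u) (rr J A (p + q) u) (rr J A (p + q + h) u) (rr J A (p + q - h) u)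
          (rr J A (p - q + h) u) (rr J A (p - q - h) u) (rr J A (p - q) u) s t := by
  unfold Psi Gf
  have hne : ∀ w ∈ A.erase u, w ≠ u := fun w hw => Finset.ne_of_mem_erase hw
  rw [psi_update hJ hu (x := p + Function.update q u t + Function.update h u s) (y := p + q + h)
      (fun w hw => by simp [Function.update_of_ne (hne w hw)]),
    psi_update hJ hu (x := p + Function.update q u t - Function.update h u s) (y := p + q - h)
      (fun w hw => by simp [Function.update_of_ne (hne w hw)]),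
    psi_update hJ hu (x := p + Function.update q u t) (y := p + q)
      (fun w hw => by simp [Function.update_of_ne (hne w hw)]),
    psi_update hJ hu (x := p - Function.update q u t + Function.update h u s) (y := p - q + h)
      (fun w hw => by simp [Function.update_of_ne (hne w hw)]),
    psi_update hJ hu (x := p - Function.update q u t - Function.update h u s) (y := p - q - h)
      (fun w hw => by simp [Function.update_of_ne (hne w hw)]),
    psi_update hJ hu (x := p - Function.update q u t) (y := p - q)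
      (fun w hw => by simp [Function.update_of_ne (hne w hw)])]
  simp only [Pi.add_apply, Pi.sub_apply, Function.update_self]
  ring

end Pool.Agent.P6ac95e
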