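import Pool.Agent.Lib.P6ac95e.DSS3

set_option autoImplicit false
open Finset Filter

namespace Pool.Agent.P6ac95e

variable {V : Type*} [DecidableEq V]

lemma Psi_congr {J : V → V → ℝ} {A : Finset V} {h p q h' p' q' : V → ℝ}
    (e1 : ∀ u ∈ A, h u = h' u) (e2 : ∀ u ∈ A, p u = p' u) (e3 : ∀ u ∈ A, q u = q' u) :
    Psi J A h p q = Psi J A h' p' q' := by
  unfold Psi
  rw [psi_congr (x := p + q + h) (y := p' + q' + h') (fun w hw => by
      simp only [Pi.add_apply]; rw [e1 w hw, e2 w hw, e3 w hw]),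
    psi_congr (x := p + q - h) (y := p' + q' - h') (fun w hw => by
      simp only [Pi.add_apply, Pi.sub_apply]; rw [e1 w hw, e2 w hw, e3 w hw]),
    psi_congr (x := p + q) (y := p' + q') (fun w hw => by
      simp only [Pi.add_apply]; rw [e2 w hw, e3 w hw]),
    psi_congr (x := p - q + h) (y := p' - q' + h') (fun w hw => by
      simp only [Pi.add_apply, Pi.sub_apply]; rw [e1 w hw, e2 w hw, e3 w hw]),
    psi_congr (x := p - q - h) (y := p' - q' - h') (fun w hw => by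
      simp only [Pi.sub_apply]; rw [e1 w hw, e2 w hw, e3 w hw]),
    psi_congr (x := p - q) (y := p' - q') (fun w hw => by
      simp only [Pi.sub_apply]; rw [e2 w hw, e3 w hw])]

lemma tendsto_log_q (K p : ℝ) :
    Tendsto (fun q : ℝ => Real.log ((1 + K ^ 2 * Real.exp (-(4 * (p + q))))
      * (1 + K * Real.exp (2 * (p - q))) ^ 2)) atTop (nhds 0) := by
  have t1 : Tendsto (fun q : ℝ => Real.exp (-(4 * (p + q)))) atTop (nhds 0) := by
    apply Real.tendsto_exp_atBot.comp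
    apply tendsto_neg_atTop_atBot.comp
    exact (tendsto_atTop_add_const_left _ p tendsto_id).const_mul_atTop (by norm_num)
  have t2 : Tendsto (fun q : ℝ => Real.exp (2 * (p - q))) atTop (nhds 0) := by
    apply Real.tendsto_exp_atBot.comp
    have : (fun q : ℝ => 2 * (p - q)) = fun q => -(2 * (-p + q)) := by funext q; ring
    rw [this]
    apply tendsto_neg_atTop_atBot.comp
    exact (tendsto_atTop_add_const_left _ (-p) tendsto_id).const_mul_atTop (by norm_num)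
  have t3 : Tendsto (fun q : ℝ => (1 + K ^ 2 * Real.exp (-(4 * (p + q))))
      * (1 + K * Real.exp (2 * (p - q))) ^ 2) atTop (nhds ((1 + K ^ 2 * 0) * (1 + K * 0) ^ 2)) :=
    (tendsto_const_nhds.add (t1.const_mul (K ^ 2))).mul
      ((tendsto_const_nhds.add (t2.const_mul K)).pow 2)
  have e : (1 + K ^ 2 * 0) * (1 + K * 0) ^ 2 = (1 : ℝ) := by ring
  rw [e] at t3
  have := t3.log one_ne_zero
  rwa [Real.log_one] at this

lemma tendsto_log_h (M : ℝ) :
    Tendsto (fun s : ℝ => Real.log (1 + M * Real.exp (-(2 * s)))) atTop (nhds 0) := by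
  have t1 : Tendsto (fun s : ℝ => Real.exp (-(2 * s))) atTop (nhds 0) := by
    apply Real.tendsto_exp_atBot.comp
    apply tendsto_neg_atTop_atBot.comp
    exact tendsto_id.const_mul_atTop (by norm_num)
  have t3 : Tendsto (fun s : ℝ => 1 + M * Real.exp (-(2 * s))) atTop (nhds (1 + M * 0)) :=
    tendsto_const_nhds.add (t1.const_mul M)
  have e : 1 + M * 0 = (1 : ℝ) := by ring
  rw [e] at t3
  have := t3.log one_ne_zero
  rwa [Real.log_one] at this

omit [DecidableEq V] in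
lemma exists_eta (A : Finset V) (c : V → ℝ) (hc : ∀ u ∈ A, 0 < c u) (a b ε : ℝ) (hε : 0 < ε) :
    ∃ η : ℝ, 0 < η ∧ (∀ u ∈ A, η * a ≤ c u) ∧ η * b ≤ ε := by
  have hlim : ∀ d : ℝ, Tendsto (fun η : ℝ => η * d) (nhdsWithin 0 (Set.Ioi 0)) (nhds 0) := by
    intro d
    have h : Continuous (fun η : ℝ => η * d) := by fun_prop
    have := h.tendsto 0
    rw [zero_mul] at this
    exact this.mono_left nhdsWithin_le_nhds
  have h1 : ∀ᶠ η in nhdsWithin (0:ℝ) (Set.Ioi 0), ∀ u ∈ A, η * a ≤ c u := by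
    rw [Filter.eventually_all_finset]
    intro u hu
    filter_upwards [(hlim a).eventually (gt_mem_nhds (hc u hu))] with η h using le_of_lt h
  have h2 : ∀ᶠ η in nhdsWithin (0:ℝ) (Set.Ioi 0), η * b ≤ ε := by
    filter_upwards [(hlim b).eventually (gt_mem_nhds hε)] with η h using le_of_lt h
  have h3 : ∀ᶠ η in nhdsWithin (0:ℝ) (Set.Ioi 0), 0 < η := by
    filter_upwards [self_mem_nhdsWithin] with η h using h
  obtain ⟨η, g1, g2, g3⟩ := (h1.and (h2.and h3)).exists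
  exact ⟨η, g3, g1, g2⟩

lemma cosh_le_of_abs {a b : ℝ} (h : |a| ≤ b) : Real.cosh a ≤ Real.cosh b := by
  rw [Real.cosh_le_cosh]
  exact h.trans (le_abs_self b)

/-- lower bound for `T0 + T5` -/
lemma T0_add_T5 {J : V → V → ℝ} (hJ : Coup J) {A : Finset V} {u : V} (hu : u ∈ A)
    {p q : V → ℝ} (hp : ∀ w ∈ A, 0 ≤ p w) {Q : ℝ} (hq0 : 0 ≤ q u) (hqQ : q u ≤ Q) :
    Real.sinh (2 * p u) / Real.cosh (p u + Q + jt J A u) ^ 2
      ≤ Real.tanh (p u + q u + rr J A (p + q) u) + Real.tanh (p u - q u + rr J A (p - q) u) := by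
  rw [tanh_add_tanh]
  have hjt := jt_nonneg hJ A u
  have r1 := abs_le.1 (abs_rr_le hJ A (p + q) u)
  have r2 := abs_le.1 (abs_rr_le hJ A (p - q) u)
  have hpu := hp u hu
  have hmono : rr J A (-(p + q)) u ≤ rr J A (p - q) u := by
    apply Z_erase_ratio_mono hJ
    intro w hw
    have := hp w (Finset.mem_of_mem_erase hw)
    simp only [Pi.neg_apply, Pi.add_apply, Pi.sub_apply]; linarith
  rw [rr_neg hJ] at hmono
  have c1 : Real.cosh (p u + q u + rr J A (p + q) u) ≤ Real.cosh (p u + Q + jt J A u) :=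
    cosh_le_of_abs (abs_le.2 ⟨by linarith [r1.1, r1.2], by linarith [r1.1, r1.2]⟩)
  have c2 : Real.cosh (p u - q u + rr J A (p - q) u) ≤ Real.cosh (p u + Q + jt J A u) :=
    cosh_le_of_abs (abs_le.2 ⟨by linarith [r2.1, r2.2], by linarith [r2.1, r2.2]⟩)
  apply div_le_div₀
  · exact Real.sinh_nonneg_iff.2 (by linarith)
  · exact Real.sinh_le_sinh.2 (by linarith)
  · exact mul_pos (Real.cosh_pos _) (Real.cosh_pos _)
  · rw [sq]
    exact mul_le_mul c1 c2 (Real.cosh_pos _).le (Real.cosh_pos _).le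

lemma Psi_zero_q {J : V → V → ℝ} {A : Finset V} {h p q : V → ℝ} (hq : ∀ w ∈ A, q w = 0) :
    Psi J A h p q = 0 := by
  rw [Psi_congr (h' := h) (p' := p) (q' := 0) (fun _ _ => rfl) (fun _ _ => rfl)
    (fun w hw => by simpa using hq w hw)]
  unfold Psi
  simp only [add_zero, sub_zero]
  ring

lemma Psi_nonpos_aux {J : V → V → ℝ} (hJ : Coup J) {A : Finset V}
    (IH : ∀ u ∈ A, ∀ h p q : V → ℝ, (∀ w ∈ A.erase u, 0 ≤ p w) → (∀ w ∈ A.erase u, 0 ≤ q w) →
      Psi J (A.erase u) h p q ≤ 0)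
    (h0 p q0 : V → ℝ) (hp : ∀ w ∈ A, 0 < p w) (hq0 : ∀ w ∈ A, 0 ≤ q0 w) :
    Psi J A h0 p q0 ≤ 0 := by
  by_contra hcon
  push Not at hcon
  obtain ⟨ε, hε⟩ : ∃ ε, ε = Psi J A h0 p q0 := ⟨_, rfl⟩
  rw [← hε] at hcon
  have hp' : ∀ w ∈ A, 0 ≤ p w := fun w hw => (hp w hw).le
  obtain ⟨h1, hh1⟩ : ∃ h1 : V → ℝ, h1 = fun u => if u ∈ A then h0 u else 0 := ⟨_, rfl⟩
  obtain ⟨q1, hq1⟩ : ∃ q1 : V → ℝ, q1 = fun u => if u ∈ A then q0 u else 0 := ⟨_, rfl⟩
  have hh1z : ∀ u, u ∉ A → h1 u = 0 := fun u hu => by rw [hh1]; simp [hu]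
  have hq1z : ∀ u, u ∉ A → q1 u = 0 := fun u hu => by rw [hq1]; simp [hu]
  have hq1n : ∀ u, 0 ≤ q1 u := by
    intro u
    by_cases hu : u ∈ A
    · rw [hq1]; simpa [hu] using hq0 u hu
    · rw [hq1z u hu]
  have hP1 : Psi J A h1 p q1 = ε := by
    rw [hε]
    apply Psi_congr
    · intro u hu; rw [hh1]; simp [hu]
    · intro u _; rfl
    · intro u hu; rw [hq1]; simp [hu]
  -- choose Q
  obtain ⟨Q, hQ0, hQ1, hQ2⟩ : ∃ Q : ℝ, 0 < Q ∧ (∀ u ∈ A, q1 u ≤ Q) ∧
      (∀ u ∈ A, Real.log ((1 + Real.exp (2 * jt J A u) ^ 2 * Real.exp (-(4 * (p u + Q))))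
      * (1 + Real.exp (2 * jt J A u) * Real.exp (2 * (p u - Q))) ^ 2) < ε / 2) := by
    have e1 : ∀ᶠ Q : ℝ in atTop, ∀ u ∈ A, q1 u ≤ Q := by
      rw [Filter.eventually_all_finset]
      intro u _
      exact eventually_ge_atTop _
    have e2 : ∀ᶠ Q : ℝ in atTop, ∀ u ∈ A,
        Real.log ((1 + Real.exp (2 * jt J A u) ^ 2 * Real.exp (-(4 * (p u + Q))))
        * (1 + Real.exp (2 * jt J A u) * Real.exp (2 * (p u - Q))) ^ 2) < ε / 2 := by
      rw [Filter.eventually_all_finset]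
      intro u _
      exact (tendsto_log_q (Real.exp (2 * jt J A u)) (p u)).eventually
        (gt_mem_nhds (by linarith))
    obtain ⟨Q, a, b, c⟩ := ((eventually_gt_atTop (0:ℝ)).and (e1.and e2)).exists
    exact ⟨Q, a, b, c⟩
  -- choose H
  obtain ⟨H, hH0, hH1, hH2⟩ : ∃ H : ℝ, 0 < H ∧ (∀ u ∈ A, |h1 u| ≤ H) ∧
      (∀ u ∈ A, Real.log (1 + (Real.exp (2 * (p u + Q)) * Real.exp (2 * jt J A u)
      + Real.exp (2 * jt J A u) + Real.exp (2 * jt J A u) ^ 2) * Real.exp (-(2 * H)))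
        < ε / 2) := by
    have e1 : ∀ᶠ H : ℝ in atTop, ∀ u ∈ A, |h1 u| ≤ H := by
      rw [Filter.eventually_all_finset]
      intro u _
      exact eventually_ge_atTop _
    have e2 : ∀ᶠ H : ℝ in atTop, ∀ u ∈ A,
        Real.log (1 + (Real.exp (2 * (p u + Q)) * Real.exp (2 * jt J A u)
      + Real.exp (2 * jt J A u) + Real.exp (2 * jt J A u) ^ 2) * Real.exp (-(2 * H)))
        < ε / 2 := by
      rw [Filter.eventually_all_finset]
      intro u _
      exact (tendsto_log_h _).eventually (gt_mem_nhds (by linarith))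
    obtain ⟨H, a, b, c⟩ := ((eventually_gt_atTop (0:ℝ)).and (e1.and e2)).exists
    exact ⟨H, a, b, c⟩
  -- choose η
  obtain ⟨η, hη0, hη1, hη2⟩ := exists_eta A
    (fun u => Real.sinh (2 * p u) / Real.cosh (p u + Q + jt J A u) ^ 2)
    (fun u hu => div_pos (Real.sinh_pos_iff.2 (by linarith [hp u hu]))
      (pow_pos (Real.cosh_pos _) 2))
    (Real.exp (2 * Q)) (A.card * Real.exp (2 * Q)) (ε / 2) (by linarith)
  -- the compact set and the maximiser
  obtain ⟨K, hKdef⟩ : ∃ K : Set ((V → ℝ) × (V → ℝ)),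
    K = (Set.univ.pi fun _ : V => Set.Icc (-H) H) ×ˢ (Set.univ.pi fun _ : V => Set.Icc 0 Q) :=
    ⟨_, rfl⟩
  have hK : IsCompact K := by
    rw [hKdef]
    exact (isCompact_univ_pi (fun _ => isCompact_Icc)).prod
      (isCompact_univ_pi (fun _ => isCompact_Icc))
  have hmem : ∀ y : (V → ℝ) × (V → ℝ), y ∈ K ↔
      (∀ u, -H ≤ y.1 u ∧ y.1 u ≤ H) ∧ (∀ u, 0 ≤ y.2 u ∧ y.2 u ≤ Q) := by
    intro y
    rw [hKdef]
    simp only [Set.mem_prod, Set.mem_pi, Set.mem_univ, true_implies, Set.mem_Icc]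
  have hin : (h1, q1) ∈ K := by
    rw [hmem]
    refine ⟨fun u => ?_, fun u => ?_⟩
    · by_cases hu : u ∈ A
      · exact abs_le.1 (hH1 u hu)
      · simp only; rw [hh1z u hu]; constructor <;> linarith
    · by_cases hu : u ∈ A
      · exact ⟨hq1n u, hQ1 u hu⟩
      · simp only; rw [hq1z u hu]; constructor <;> linarith
  have hΦ : Continuous (fun y : (V → ℝ) × (V → ℝ) =>
      Psi J A y.1 p y.2 + η * ∑ w ∈ A, Real.exp (2 * y.2 w)) := by
    have c1 : Continuous (fun y : (V → ℝ) × (V → ℝ) => (y.1, p, y.2)) := by fun_prop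
    have c2 := (continuous_Psi J A).comp c1
    have c3 : Continuous (fun y : (V → ℝ) × (V → ℝ) => η * ∑ w ∈ A, Real.exp (2 * y.2 w)) := by
      fun_prop
    exact c2.add c3
  obtain ⟨⟨h, q⟩, hm, hmax⟩ := hK.exists_isMaxOn ⟨(h1, q1), hin⟩ hΦ.continuousOn
  have hmax' : ∀ y ∈ K, Psi J A y.1 p y.2 + η * ∑ w ∈ A, Real.exp (2 * y.2 w)
      ≤ Psi J A h p q + η * ∑ w ∈ A, Real.exp (2 * q w) := fun y hy => hmax hy
  have hm' := (hmem (h, q)).1 hm
  have hhb : ∀ u, -H ≤ h u ∧ h u ≤ H := hm'.1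
  have hqb : ∀ u, 0 ≤ q u ∧ q u ≤ Q := hm'.2
  have hqA : ∀ w ∈ A, 0 ≤ q w := fun w _ => (hqb w).1
  have hPsi : ε / 2 ≤ Psi J A h p q := by
    have a1 := hmax' _ hin
    simp only at a1
    rw [hP1] at a1
    have a2 : 0 ≤ η * ∑ w ∈ A, Real.exp (2 * q1 w) :=
      mul_nonneg hη0.le (Finset.sum_nonneg (fun w _ => (Real.exp_pos _).le))
    have a3 : ∑ w ∈ A, Real.exp (2 * q w) ≤ A.card * Real.exp (2 * Q) := by
      calc ∑ w ∈ A, Real.exp (2 * q w) ≤ ∑ w ∈ A, Real.exp (2 * Q) :=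
            Finset.sum_le_sum (fun w _ => Real.exp_le_exp.2 (by linarith [(hqb w).2]))
        _ = A.card * Real.exp (2 * Q) := by rw [Finset.sum_const, nsmul_eq_mul]
    have a4 := mul_le_mul_of_nonneg_left a3 hη0.le
    linarith
  -- interior
  have hfld : ∀ g : V → ℝ, Psi J A g p q = Psi J A h p q → ∀ u ∈ A, g u = H → False := by
    intro g hg u hu hgu
    have b1 := Psi_large_field hJ hu (IH u hu) (h := g) hp' hqA (by rw [hgu]; exact hH0.le)
    rw [hg, hgu] at b1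
    have b2 := hH2 u hu
    have b3 : Real.log (1 + (Real.exp (2 * (p u + q u)) * Real.exp (2 * jt J A u)
      + Real.exp (2 * jt J A u) + Real.exp (2 * jt J A u) ^ 2) * Real.exp (-(2 * H)))
      ≤ Real.log (1 + (Real.exp (2 * (p u + Q)) * Real.exp (2 * jt J A u)
      + Real.exp (2 * jt J A u) + Real.exp (2 * jt J A u) ^ 2) * Real.exp (-(2 * H))) := by
      apply Real.log_le_log (by positivity)
      have : Real.exp (2 * (p u + q u)) ≤ Real.exp (2 * (p u + Q)) :=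
        Real.exp_le_exp.2 (by linarith [(hqb u).2])
      gcongr
    linarith
  have hlt : ∀ u ∈ A, -H < h u ∧ h u < H := by
    intro u hu
    constructor
    · rcases lt_or_eq_of_le (hhb u).1 with h2 | h2
      · exact h2
      · exfalso
        refine hfld (-h) (Psi_neg_field A h p q) u hu ?_
        simp only [Pi.neg_apply]; linarith
    · rcases lt_or_eq_of_le (hhb u).2 with h2 | h2
      · exact h2
      · exact (hfld h rfl u hu h2).elim
  have hqlt : ∀ u ∈ A, q u < Q := by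
    intro u hu
    rcases lt_or_eq_of_le (hqb u).2 with h2 | h2
    · exact h2
    · exfalso
      have b1 := Psi_large_q hJ hu (IH u hu) (h := h) hp' hqA
      rw [h2] at b1
      have := hQ2 u hu
      linarith
  obtain ⟨u, hu, huq⟩ : ∃ u ∈ A, 0 < q u := by
    by_contra hno
    push Not at hno
    have := Psi_zero_q (J := J) (h := h) (p := p) (q := q) (A := A)
      (fun w hw => le_antisymm (hno w hw) (hqA w hw))
    linarith
  -- the directions at u
  obtain ⟨r0, hr0⟩ : ∃ r, r = rr J A (p + q) u := ⟨_, rfl⟩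
  obtain ⟨r1, hr1⟩ : ∃ r, r = rr J A (p + q + h) u := ⟨_, rfl⟩
  obtain ⟨r2, hr2⟩ : ∃ r, r = rr J A (p + q - h) u := ⟨_, rfl⟩
  obtain ⟨r3, hr3⟩ : ∃ r, r = rr J A (p - q + h) u := ⟨_, rfl⟩
  obtain ⟨r4, hr4⟩ : ∃ r, r = rr J A (p - q - h) u := ⟨_, rfl⟩
  obtain ⟨r5, hr5⟩ : ∃ r, r = rr J A (p - q) u := ⟨_, rfl⟩
  obtain ⟨C, hC⟩ : ∃ C, C = (Kc J A (p + q + h) u + Kc J A (p + q - h) u - 2 * Kc J A (p + q) u
        - Kc J A (p - q + h) u - Kc J A (p - q - h) u + 2 * Kc J A (p - q) u) := ⟨_, rfl⟩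
  have hupd : ∀ s t : ℝ, Psi J A (Function.update h u s) p (Function.update q u t)
      = C + Gf (p u) r0 r1 r2 r3 r4 r5 s t := by
    intro s t
    rw [hC, hr0, hr1, hr2, hr3, hr4, hr5]
    exact Psi_update hJ hu h p q s t
  have hsum : ∀ t : ℝ, ∑ w ∈ A, Real.exp (2 * Function.update q u t w)
      = Real.exp (2 * t) + ∑ w ∈ A.erase u, Real.exp (2 * q w) := by
    intro t
    rw [← Finset.add_sum_erase A _ hu]
    congr 1
    · simp
    · refine Finset.sum_congr rfl (fun w hw => ?_)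
      rw [Function.update_of_ne (Finset.ne_of_mem_erase hw)]
  have hself : Psi J A h p q = C + Gf (p u) r0 r1 r2 r3 r4 r5 (h u) (q u) := by
    have := hupd (h u) (q u)
    rwa [Function.update_eq_self, Function.update_eq_self] at this
  have hselfs : ∑ w ∈ A, Real.exp (2 * q w)
      = Real.exp (2 * q u) + ∑ w ∈ A.erase u, Real.exp (2 * q w) := by
    have := hsum (q u)
    rwa [Function.update_eq_self] at this
  have hloc : ∀ s ∈ Set.Icc (-H) H, ∀ t ∈ Set.Icc 0 Q,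
      Gf (p u) r0 r1 r2 r3 r4 r5 s t + η * Real.exp (2 * t)
        ≤ Gf (p u) r0 r1 r2 r3 r4 r5 (h u) (q u) + η * Real.exp (2 * q u) := by
    intro s hs t ht
    have hy : (Function.update h u s, Function.update q u t) ∈ K := by
      rw [hmem]
      refine ⟨fun w => ?_, fun w => ?_⟩
      · by_cases hw : w = u
        · subst hw; simpa using hs
        · simp only; rw [Function.update_of_ne hw]; exact hhb w
      · by_cases hw : w = u
        · subst hw; simpa using ht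
        · simp only; rw [Function.update_of_ne hw]; exact hqb w
    have a := hmax' _ hy
    simp only at a
    rw [hupd, hsum, hself, hselfs] at a
    linarith
  have hmax_s : IsLocalMax (fun s => Gf (p u) r0 r1 r2 r3 r4 r5 s (q u)) (h u) := by
    filter_upwards [Icc_mem_nhds (hlt u hu).1 (hlt u hu).2] with s hs
    have := hloc s hs (q u) (hqb u)
    linarith
  have hmax_t : IsLocalMax (fun t => Gf (p u) r0 r1 r2 r3 r4 r5 (h u) t + η * Real.exp (2 * t))
      (q u) := by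
    filter_upwards [Icc_mem_nhds huq (hqlt u hu)] with t ht
    exact hloc (h u) (hhb u) t ht
  have d1 := hmax_s.hasDerivAt_eq_zero (Gf_deriv_s (p u) r0 r1 r2 r3 r4 r5 (h u) (q u))
  have hexp : ∀ t : ℝ, HasDerivAt (fun t => η * Real.exp (2 * t)) (2 * (η * Real.exp (2 * t))) t := by
    intro t
    have : HasDerivAt (fun t : ℝ => 2 * t) 2 t := by
      simpa using (hasDerivAt_id t).const_mul (2:ℝ)
    exact ((this.exp).const_mul η).congr_deriv (by ring)
  have hg1 : ∀ t : ℝ, HasDerivAt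
      (fun t => Gf (p u) r0 r1 r2 r3 r4 r5 (h u) t + η * Real.exp (2 * t))
      (Gt (p u) r0 r1 r2 r3 r4 r5 (h u) t + 2 * (η * Real.exp (2 * t))) t := fun t =>
    (Gf_deriv_t (p u) r0 r1 r2 r3 r4 r5 (h u) t).add (hexp t)
  have d2 := hmax_t.hasDerivAt_eq_zero (hg1 (q u))
  have hg2 := (Gt_deriv_t (p u) r0 r1 r2 r3 r4 r5 (h u) (q u)).add ((hexp (q u)).const_mul 2)
  have d3 := isLocalMax_second hg1 hg2 hmax_t
  unfold Gt at d2
  -- inequalities
  have hk : ∀ w ∈ A, 0 ≤ (p + q) w := fun w hw => add_nonneg (hp' w hw) (hqA w hw)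
  have hG := gamma_of_Psi hJ hu (IH u hu) hk h
  rw [mag_eq_tanh hJ _ hu, mag_eq_tanh hJ _ hu, mag_eq_tanh hJ _ hu] at hG
  simp only [Pi.add_apply, Pi.sub_apply] at hG
  rw [← hr0, ← hr1, ← hr2] at hG
  have hT := T0_add_T5 hJ hu hp' (Q := Q) (hqb u).1 (hqb u).2
  rw [← hr0, ← hr5] at hT
  have hE : η * Real.exp (2 * q u) ≤ Real.sinh (2 * p u) / Real.cosh (p u + Q + jt J A u) ^ 2 := by
    refine le_trans ?_ (hη1 u hu)
    apply mul_le_mul_of_nonneg_left _ hη0.le
    exact Real.exp_le_exp.2 (by linarith [(hqb u).2])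
  exact alg_contra (E := η * Real.exp (2 * q u)) d1 (by linarith) (by linarith) hG
    (hE.trans hT) (mul_pos hη0 (Real.exp_pos _)) (tanh_lt_one' _)

/-- **Ding–Song–Sun type inequality** -/
theorem Psi_nonpos {J : V → V → ℝ} (hJ : Coup J) (A : Finset V) :
    ∀ h p q : V → ℝ, (∀ u ∈ A, 0 ≤ p u) → (∀ u ∈ A, 0 ≤ q u) → Psi J A h p q ≤ 0 := by
  induction A using Finset.strongInduction with
  | H A ih =>
    intro h p q hp hq
    have IH : ∀ u ∈ A, ∀ h p q : V → ℝ, (∀ w ∈ A.erase u, 0 ≤ p w) →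
        (∀ w ∈ A.erase u, 0 ≤ q w) → Psi J (A.erase u) h p q ≤ 0 :=
      fun u hu => ih (A.erase u) (Finset.erase_ssubset hu)
    have c1 : Continuous (fun t : ℝ => ((h, (fun u => p u + t), q) :
        (V → ℝ) × (V → ℝ) × (V → ℝ))) := by fun_prop
    have hc : Continuous (fun t : ℝ => Psi J A h (fun u => p u + t) q) := by
      have c2 := (continuous_Psi J A).comp c1
      simpa only [Function.comp_def] using c2
    have e0 : (fun u => p u + (0:ℝ)) = p := by funext u; simp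
    have hlim : Tendsto (fun t : ℝ => Psi J A h (fun u => p u + t) q)
        (nhdsWithin 0 (Set.Ioi 0)) (nhds (Psi J A h p q)) := by
      have h3 : Tendsto (fun t : ℝ => Psi J A h (fun u => p u + t) q) (nhds 0)
          (nhds (Psi J A h (fun u => p u + (0:ℝ)) q)) := hc.tendsto 0
      rw [e0] at h3
      exact h3.mono_left nhdsWithin_le_nhds
    refine le_of_tendsto hlim ?_
    filter_upwards [self_mem_nhdsWithin] with t ht
    exact Psi_nonpos_aux hJ IH h _ q (fun w hw => add_pos_of_nonneg_of_pos (hp w hw) ht) hq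

theorem mag_gamma {J : V → V → ℝ} (hJ : Coup J) {A : Finset V} {v : V} (hv : v ∈ A)
    {k : V → ℝ} (hk : ∀ u ∈ A, 0 ≤ k u) (h : V → ℝ) :
    mag J A (k + h) v + mag J A (k - h) v ≤ 2 * mag J A k v :=
  gamma_of_Psi hJ hv (Psi_nonpos hJ (A.erase v)) hk h

/-- the influence of a boundary perturbation is maximal in zero field -/
theorem mag_dss {J : V → V → ℝ} (hJ : Coup J) {A : Finset V} {v : V} (hv : v ∈ A)
    {b : V → ℝ} (hb : ∀ u ∈ A, 0 ≤ b u) (h : V → ℝ) :
    mag J A (h + b) v - mag J A (h - b) v ≤ 2 * mag J A b v := by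
  have h1 := mag_gamma hJ hv hb h
  have e1 : mag J A (b - h) v = - mag J A (h - b) v := by
    rw [← mag_neg hJ _ hv]; congr 1; ring
  rw [e1, add_comm b h] at h1
  linarith

end Pool.Agent.P6ac95e
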