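import Mathlib

/-!
# Definitions: Ising model on the square lattice, its projection to a line, Gibbs measures

Spins are Booleans, `true` standing for `+1` and `false` for `-1`.
-/

set_option autoImplicit false

open MeasureTheory Filter Topology

namespace Pool.Agent.P6ac95e

/-- numerical value of a spin -/
def spin (b : Bool) : ℝ := if b then 1 else -1

/-- the four nearest neighbours of a site of the square lattice -/
noncomputable def nbs (x : ℤ × ℤ) : Finset (ℤ × ℤ) :=
  {(x.1 + 1, x.2), (x.1 - 1, x.2), (x.1, x.2 + 1), (x.1, x.2 - 1)}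

/-- Ising energy (zero external field) of `σ` in the finite volume `Λ`: minus the sum of
`σ x * σ y` over all nearest neighbour bonds `{x, y}` meeting `Λ`.  A bond inside `Λ` is met
twice in the first sum, whence the factor `1/2`; the second sum runs over the bonds joining `Λ`
to its complement. -/
noncomputable def energy (Λ : Finset (ℤ × ℤ)) (σ : ℤ × ℤ → Bool) : ℝ :=
  -((1 / 2) * ∑ x ∈ Λ, ∑ y ∈ nbs x ∩ Λ, spin (σ x) * spin (σ y)
    + ∑ x ∈ Λ, ∑ y ∈ nbs x \ Λ, spin (σ x) * spin (σ y))

/-- the configuration which inside `Λ` is plus exactly on `S`, and is plus outside `Λ` -/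
def plusConf (Λ S : Finset (ℤ × ℤ)) : ℤ × ℤ → Bool := fun x => decide (x ∈ S ∨ x ∉ Λ)

/-- Boltzmann weight -/
noncomputable def plusWeight (β : ℝ) (Λ S : Finset (ℤ × ℤ)) : ℝ :=
  Real.exp (-β * energy Λ (plusConf Λ S))

/-- finite-volume Gibbs measure in `Λ` with plus boundary condition -/
noncomputable def plusMeasure (β : ℝ) (Λ : Finset (ℤ × ℤ)) : Measure (ℤ × ℤ → Bool) :=
  ∑ S ∈ Λ.powerset,
    ENNReal.ofReal (plusWeight β Λ S / ∑ T ∈ Λ.powerset, plusWeight β Λ T)
      • Measure.dirac (plusConf Λ S)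

lemma plusWeight_pos (β : ℝ) (Λ S : Finset (ℤ × ℤ)) : 0 < plusWeight β Λ S := Real.exp_pos _

lemma plusWeight_sum_pos (β : ℝ) (Λ : Finset (ℤ × ℤ)) :
    0 < ∑ T ∈ Λ.powerset, plusWeight β Λ T :=
  Finset.sum_pos (fun T _ => plusWeight_pos β Λ T) ⟨∅, Finset.empty_mem_powerset _⟩

instance (β : ℝ) (Λ : Finset (ℤ × ℤ)) : IsProbabilityMeasure (plusMeasure β Λ) := by
  constructor
  unfold plusMeasure
  rw [Measure.coe_finsetSum, Finset.sum_apply]
  simp only [Measure.smul_apply, measure_univ, smul_eq_mul, mul_one]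
  rw [← ENNReal.ofReal_sum_of_nonneg
    (fun S _ => (div_pos (plusWeight_pos β Λ S) (plusWeight_sum_pos β Λ)).le),
    ← Finset.sum_div, div_self (plusWeight_sum_pos β Λ).ne', ENNReal.ofReal_one]

/-- `plusMeasure` as a probability measure -/
noncomputable def plusProb (β : ℝ) (Λ : Finset (ℤ × ℤ)) : ProbabilityMeasure (ℤ × ℤ → Bool) :=
  ⟨plusMeasure β Λ, inferInstance⟩

/-- `μ` is the plus phase at inverse temperature `β` and zero field: the weak limit of the
finite-volume Gibbs measures with plus boundary condition, as the volume increases to `ℤ²` along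
the directed set of all finite subsets. -/
def IsPlusPhase (β : ℝ) (μ : ProbabilityMeasure (ℤ × ℤ → Bool)) : Prop :=
  Tendsto (plusProb β) atTop (𝓝 μ)

/-- restriction of a configuration to the line `ℤ × {0}` -/
def lineProj (σ : ℤ × ℤ → Bool) : ℤ → Bool := fun i => σ (i, 0)

/-- marginal of `μ` on the line -/
noncomputable def lineMarginal (μ : ProbabilityMeasure (ℤ × ℤ → Bool)) : Measure (ℤ → Bool) :=
  (μ : Measure (ℤ × ℤ → Bool)).map lineProj

/-- A specification on `{-1,+1}^ℤ`: proper probability kernels `γ Λ` from the σ-algebra of the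
complement of `Λ` to the full σ-algebra, with the compatibility `γ Δ (γ Λ) = γ Δ` for `Λ ⊆ Δ`. -/
structure Specification where
  γ : Finset ℤ → (ℤ → Bool) → Measure (ℤ → Bool)
  prob : ∀ Λ ω, IsProbabilityMeasure (γ Λ ω)
  meas : ∀ (Λ : Finset ℤ) (B : Set (ℤ → Bool)), MeasurableSet B →
    Measurable[cylinderEvents ((Λ : Set ℤ)ᶜ)] (fun ω => γ Λ ω B)
  proper : ∀ (Λ : Finset ℤ) (B : Set (ℤ → Bool)),
    MeasurableSet[cylinderEvents ((Λ : Set ℤ)ᶜ)] B → ∀ ω, γ Λ ω B = B.indicator 1 ω
  compat : ∀ Λ Δ : Finset ℤ, Λ ⊆ Δ → ∀ ω (B : Set (ℤ → Bool)), MeasurableSet B →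
    ∫⁻ σ, γ Λ σ B ∂(γ Δ ω) = γ Δ ω B

/-- each kernel is continuous in the boundary condition, everywhere -/
def Specification.IsQuasilocal (s : Specification) : Prop :=
  ∀ (Λ : Finset ℤ) (f : (ℤ → Bool) → ℝ), Continuous f → Continuous (fun ω => ∫ σ, f σ ∂(s.γ Λ ω))

/-- uniform non-nullness: the kernels of `Λ` give every configuration in `Λ` a probability
bounded below uniformly in the boundary condition -/
def Specification.IsUniformlyNonNull (s : Specification) : Prop :=
  ∀ Λ : Finset ℤ, ∃ c : ℝ, 0 < c ∧ ∀ ω η : ℤ → Bool,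
    ENNReal.ofReal c ≤ s.γ Λ ω {σ | ∀ i ∈ Λ, σ i = η i}

/-- `ν` is consistent with the specification (DLR equations) -/
def Specification.IsConsistent (s : Specification) (ν : Measure (ℤ → Bool)) : Prop :=
  ∀ (Λ : Finset ℤ) (B : Set (ℤ → Bool)), MeasurableSet B → ∫⁻ ω, s.γ Λ ω B ∂ν = ν B

/-- Gibbs measures: probability measures consistent with a uniformly non-null quasilocal
specification -/
def IsGibbs (ν : Measure (ℤ → Bool)) : Prop :=
  IsProbabilityMeasure ν ∧
    ∃ s : Specification, s.IsUniformlyNonNull ∧ s.IsQuasilocal ∧ s.IsConsistent ν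

/-- translation of configurations by one lattice site -/
def shiftConf (σ : ℤ → Bool) : ℤ → Bool := fun i => σ (i + 1)

/-- the past `(σ_{-1}, σ_{-2}, ...)` of a configuration -/
def past (σ : ℤ → Bool) : ℕ → Bool := fun n => σ (-1 - n)

/-- `ν` is a regular `g`-measure: it is a translation invariant probability measure and there are
strictly positive continuous functions `g a`, `a ∈ {-1,+1}`, on the space of pasts, summing
to one, such that `g a` evaluated at the past is a version of the conditional probability of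
`σ 0 = a` given `σ (-1), σ (-2), ...`. -/
def IsRegularGMeasure (ν : Measure (ℤ → Bool)) : Prop :=
  IsProbabilityMeasure ν ∧ ν.map shiftConf = ν ∧
  ∃ g : Bool → (ℕ → Bool) → ℝ, (∀ a, Continuous (g a)) ∧ (∀ a ξ, 0 < g a ξ) ∧
    (∀ ξ, g true ξ + g false ξ = 1) ∧
    ∀ a : Bool, ν[{σ : ℤ → Bool | σ 0 = a}.indicator (fun _ => (1 : ℝ)) |
        cylinderEvents (Set.Iio (0 : ℤ))] =ᵐ[ν] fun σ => g a (past σ)

/-- critical inverse temperature -/
noncomputable def βc : ℝ := (1 / 2) * Real.log (1 + Real.sqrt 2)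

end Pool.Agent.P6ac95e
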