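import Mathlib

set_option autoImplicit false

namespace Pool.Agent.P6ac95e

open Real

lemma tanh_mono' {x y : ℝ} (h : x ≤ y) : tanh x ≤ tanh y := by
  rw [tanh_eq_sinh_div_cosh, tanh_eq_sinh_div_cosh, div_le_div_iff₀ (cosh_pos x) (cosh_pos y)]
  have h1 : 0 ≤ sinh (y - x) := sinh_nonneg_iff.2 (by linarith)
  rw [sinh_sub] at h1
  linarith

lemma tanh_neg' (x : ℝ) : tanh (-x) = - tanh x := by
  rw [tanh_eq_sinh_div_cosh, tanh_eq_sinh_div_cosh, sinh_neg, cosh_neg]; ring

lemma tanh_zero' : tanh (0:ℝ) = 0 := by simp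

lemma tanh_nonneg' {x : ℝ} (h : 0 ≤ x) : 0 ≤ tanh x := by
  have := tanh_mono' h; rwa [tanh_zero'] at this

lemma tanh_add_tanh (x y : ℝ) : tanh x + tanh y = sinh (x + y) / (cosh x * cosh y) := by
  have h1 := (cosh_pos x).ne'
  have h2 := (cosh_pos y).ne'
  rw [tanh_eq_sinh_div_cosh, tanh_eq_sinh_div_cosh, sinh_add]
  field_simp

lemma tanh_sq_lt_one (x : ℝ) : tanh x ^ 2 < 1 := by
  have h1 := cosh_pos x
  rw [tanh_eq_sinh_div_cosh, div_pow, div_lt_one (by positivity)]
  have := cosh_sq x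
  linarith

lemma abs_tanh_lt_one (x : ℝ) : |tanh x| < 1 := by
  have := tanh_sq_lt_one x
  exact (sq_lt_one_iff_abs_lt_one _).1 this

lemma tanh_lt_one' (x : ℝ) : tanh x < 1 := (abs_lt.1 (abs_tanh_lt_one x)).2
lemma neg_one_lt_tanh' (x : ℝ) : -1 < tanh x := (abs_lt.1 (abs_tanh_lt_one x)).1

lemma tanh_add_le {y1 y2 Y : ℝ} (h : y1 + y2 ≤ 2 * Y) (hY : 0 ≤ Y) :
    tanh y1 + tanh y2 ≤ 2 * tanh Y := by
  by_cases h0 : y1 + y2 ≤ 0
  · have h1 : tanh y1 + tanh y2 ≤ 0 := by
      have : tanh y1 ≤ tanh (-y2) := tanh_mono' (by linarith)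
      rw [tanh_neg'] at this; linarith
    have h2 := tanh_nonneg' hY
    linarith
  · push Not at h0
    set a := (y1 + y2) / 2 with ha
    have ha0 : 0 < a := by rw [ha]; linarith
    have h1 : tanh y1 + tanh y2 ≤ 2 * tanh a := by
      have e : 2 * tanh a = tanh a + tanh a := by ring
      rw [e, tanh_add_tanh, tanh_add_tanh]
      have e2 : y1 + y2 = a + a := by rw [ha]; ring
      rw [e2]
      have hs : 0 ≤ sinh (a + a) := sinh_nonneg_iff.2 (by linarith)
      apply div_le_div_of_nonneg_left hs (mul_pos (cosh_pos a) (cosh_pos a))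
      -- cosh a ^2 ≤ cosh y1 cosh y2
      set b := (y1 - y2) / 2 with hb
      have e3 : y1 = a + b := by rw [ha, hb]; ring
      have e4 : y2 = a - b := by rw [ha, hb]; ring
      rw [e3, e4, cosh_add, cosh_sub]
      have f1 := cosh_sq a
      have f2 := cosh_sq b
      nlinarith [sq_nonneg (sinh b), sq_nonneg (sinh a), f1, f2]
    have h2 : tanh a ≤ tanh Y := tanh_mono' (by rw [ha]; linarith)
    linarith

/-- log cosh -/
noncomputable def lc (t : ℝ) : ℝ := Real.log (cosh t)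

lemma hasDerivAt_lc (t : ℝ) : HasDerivAt lc (tanh t) t := by
  have := (hasDerivAt_cosh t).log (cosh_pos t).ne'
  rwa [← tanh_eq_sinh_div_cosh] at this

lemma hasDerivAt_tanh' (t : ℝ) : HasDerivAt tanh (1 - tanh t ^ 2) t := by
  have h1 : HasDerivAt (fun x => sinh x / cosh x)
      ((cosh t * cosh t - sinh t * sinh t) / cosh t ^ 2) t :=
    (hasDerivAt_sinh t).div (hasDerivAt_cosh t) (cosh_pos t).ne'
  have e : (fun x => sinh x / cosh x) = tanh := by
    funext x; rw [tanh_eq_sinh_div_cosh]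
  rw [e] at h1
  convert h1 using 1
  rw [tanh_eq_sinh_div_cosh]
  have := (cosh_pos t).ne'
  field_simp

/-- decomposition of `log (e^t P + e^{-t} N)` -/
lemma log_two_exp {P N : ℝ} (hP : 0 < P) (hN : 0 < N) (t : ℝ) :
    Real.log (Real.exp t * P + Real.exp (-t) * N)
      = Real.log 2 + (Real.log P + Real.log N) / 2 + lc (t + (Real.log P - Real.log N) / 2) := by
  obtain ⟨p, hp⟩ : ∃ p, P = Real.exp p := ⟨Real.log P, (Real.exp_log hP).symm⟩
  obtain ⟨n, hn⟩ : ∃ n, N = Real.exp n := ⟨Real.log N, (Real.exp_log hN).symm⟩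
  rw [hp, hn, Real.log_exp, Real.log_exp]
  have e1 : Real.exp t * Real.exp p + Real.exp (-t) * Real.exp n
      = 2 * Real.exp ((p + n) / 2) * cosh (t + (p - n) / 2) := by
    rw [cosh_eq]
    have g1 : Real.exp t * Real.exp p
        = Real.exp ((p + n) / 2) * Real.exp (t + (p - n) / 2) := by
      rw [← Real.exp_add, ← Real.exp_add]; ring_nf
    have g2 : Real.exp (-t) * Real.exp n
        = Real.exp ((p + n) / 2) * Real.exp (-(t + (p - n) / 2)) := by
      rw [← Real.exp_add, ← Real.exp_add]; ring_nf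
    rw [g1, g2]; ring
  rw [e1, Real.log_mul (by positivity) (cosh_pos _).ne', Real.log_mul (by norm_num)
    (Real.exp_pos _).ne', Real.log_exp]
  rfl

end Pool.Agent.P6ac95e
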