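import Pool.Agent.Lib.P6ac95e.GKS
import Pool.Agent.Lib.P6ac95e.Hyp

set_option autoImplicit false
open Finset

namespace Pool.Agent.P6ac95e

variable {V : Type*} [DecidableEq V]

lemma four_num {u v r s : ℝ} (hs : 0 < s) (hus : u ≤ s) (hvs : v ≤ s) (h : u * v ≤ r * s) :
    u + v ≤ r + s := by
  have h1 : 0 ≤ (s - u) * (s - v) := mul_nonneg (by linarith) (by linarith)
  have h2 : s * (u + v) ≤ s * (r + s) := by nlinarith
  exact le_of_mul_le_mul_left h2 hs

/-- log-supermodularity of the partition function in the fields -/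
lemma Z_sm {J : V → V → ℝ} (hJ : Coup J) (A : Finset V) :
    ∀ x y j : V → ℝ, (∀ u ∈ A, x u ≤ y u) → (∀ u ∈ A, 0 ≤ j u) →
      Z J A (x + j) * Z J A y ≤ Z J A x * Z J A (y + j) := by
  induction A using Finset.induction_on with
  | empty => intro x y j _ _; simp [Z_empty]
  | insert a A ha ih =>
    intro x y j hxy hj
    have hxy' : ∀ u ∈ A, x u ≤ y u := fun u hu => hxy u (Finset.mem_insert_of_mem hu)
    have hj' : ∀ u ∈ A, 0 ≤ j u := fun u hu => hj u (Finset.mem_insert_of_mem hu)
    have hxa : x a ≤ y a := hxy a (Finset.mem_insert_self a A)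
    have hja : 0 ≤ j a := hj a (Finset.mem_insert_self a A)
    have hJa : ∀ u, 0 ≤ J a u := fun u => hJ.nonneg a u
    rw [Z_insert J hJ.symm hJ.diag ha, Z_insert J hJ.symm hJ.diag ha,
      Z_insert J hJ.symm hJ.diag ha, Z_insert J hJ.symm hJ.diag ha]
    have I1 := ih (x + J a) (y + J a) j (fun u hu => by simpa using hxy' u hu) hj'
    have I2 := ih (x - J a) (y - J a) j (fun u hu => by simpa using hxy' u hu) hj'
    have I3 := ih (x - J a) (y + J a) j
      (fun u hu => by have := hxy' u hu; have := hJa u; simp only [Pi.sub_apply, Pi.add_apply]; linarith) hj'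
    have I4 := ih (x - J a) (y - J a) (j + J a + J a) (fun u hu => by simpa using hxy' u hu)
      (fun u hu => by
        have := hj' u hu; have := hJa u; simp only [Pi.add_apply]; linarith)
    have I5 : Z J A (x + J a) * Z J A (y - J a + j) ≤ Z J A (x - J a) * Z J A (y + J a + j) := by
      have := ih (x - J a) (y - J a + j) (J a + J a)
        (fun u hu => by
          have := hxy' u hu; have := hj' u hu
          simp only [Pi.sub_apply, Pi.add_apply]; linarith)
        (fun u _ => by have := hJa u; simp only [Pi.add_apply]; linarith)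
      have e1 : x - J a + (J a + J a) = x + J a := by ring
      have e2 : y - J a + j + (J a + J a) = y + J a + j := by ring
      rw [e1, e2] at this; exact this
    have e1 : x + j + J a = x + J a + j := by ring
    have e2 : x + j - J a = x - J a + j := by ring
    have e3 : y + j + J a = y + J a + j := by ring
    have e4 : y + j - J a = y - J a + j := by ring
    have e5 : x - J a + (j + J a + J a) = x + J a + j := by ring
    have e6 : y - J a + (j + J a + J a) = y + J a + j := by ring
    rw [e5, e6] at I4
    rw [e1, e2, e3, e4]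
    simp only [Pi.add_apply]
    set P1 := Z J A (x + J a + j)
    set P2 := Z J A (x - J a + j)
    set Q1 := Z J A (y + J a)
    set Q2 := Z J A (y - J a)
    set R1 := Z J A (x + J a)
    set R2 := Z J A (x - J a)
    set T1 := Z J A (y + J a + j)
    set T2 := Z J A (y - J a + j)
    have hP1 : 0 < P1 := Z_pos _ _ _
    have hP2 : 0 < P2 := Z_pos _ _ _
    have hQ1 : 0 < Q1 := Z_pos _ _ _
    have hQ2 : 0 < Q2 := Z_pos _ _ _
    have hR1 : 0 < R1 := Z_pos _ _ _
    have hR2 : 0 < R2 := Z_pos _ _ _
    have hT1 : 0 < T1 := Z_pos _ _ _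
    have hT2 : 0 < T2 := Z_pos _ _ _
    have c1 : Real.exp (x a + j a) * P1 * (Real.exp (y a) * Q1)
        ≤ Real.exp (x a) * R1 * (Real.exp (y a + j a) * T1) := by
      have : Real.exp (x a + j a) * Real.exp (y a) = Real.exp (x a) * Real.exp (y a + j a) := by
        rw [← Real.exp_add, ← Real.exp_add]; ring_nf
      calc Real.exp (x a + j a) * P1 * (Real.exp (y a) * Q1)
          = (Real.exp (x a + j a) * Real.exp (y a)) * (P1 * Q1) := by ring
        _ ≤ (Real.exp (x a + j a) * Real.exp (y a)) * (R1 * T1) := by gcongr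
        _ = _ := by rw [this]; ring
    have c2 : Real.exp (-(x a + j a)) * P2 * (Real.exp (-y a) * Q2)
        ≤ Real.exp (-x a) * R2 * (Real.exp (-(y a + j a)) * T2) := by
      have : Real.exp (-(x a + j a)) * Real.exp (-y a)
          = Real.exp (-x a) * Real.exp (-(y a + j a)) := by
        rw [← Real.exp_add, ← Real.exp_add]; ring_nf
      calc Real.exp (-(x a + j a)) * P2 * (Real.exp (-y a) * Q2)
          = (Real.exp (-(x a + j a)) * Real.exp (-y a)) * (P2 * Q2) := by ring
        _ ≤ (Real.exp (-(x a + j a)) * Real.exp (-y a)) * (R2 * T2) := by gcongr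
        _ = _ := by rw [this]; ring
    have c3 : Real.exp (x a + j a) * P1 * (Real.exp (-y a) * Q2)
        + Real.exp (-(x a + j a)) * P2 * (Real.exp (y a) * Q1)
        ≤ Real.exp (x a) * R1 * (Real.exp (-(y a + j a)) * T2)
          + Real.exp (-x a) * R2 * (Real.exp (y a + j a) * T1) := by
      apply four_num
      · positivity
      · calc Real.exp (x a + j a) * P1 * (Real.exp (-y a) * Q2)
            = Real.exp (x a + j a - y a) * (P1 * Q2) := by
              rw [sub_eq_add_neg, Real.exp_add (x a + j a)]; ring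
          _ ≤ Real.exp (y a + j a - x a) * (R2 * T1) := by
              apply mul_le_mul (Real.exp_le_exp.2 (by linarith)) I4 (by positivity)
                (Real.exp_pos _).le
          _ = _ := by rw [sub_eq_add_neg, Real.exp_add (y a + j a)]; ring
      · calc Real.exp (-(x a + j a)) * P2 * (Real.exp (y a) * Q1)
            = Real.exp (y a - (x a + j a)) * (P2 * Q1) := by
              rw [sub_eq_add_neg, Real.exp_add (y a)]; ring
          _ ≤ Real.exp (y a + j a - x a) * (R2 * T1) := by
              apply mul_le_mul (Real.exp_le_exp.2 (by linarith)) I3 (by positivity)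
                (Real.exp_pos _).le
          _ = _ := by rw [sub_eq_add_neg, Real.exp_add (y a + j a)]; ring
      · have f1 : Real.exp (x a + j a) * Real.exp (-y a)
            * (Real.exp (-(x a + j a)) * Real.exp (y a)) = 1 := by
          rw [← Real.exp_add, ← Real.exp_add, ← Real.exp_add]
          have : x a + j a + -y a + (-(x a + j a) + y a) = 0 := by ring
          rw [this, Real.exp_zero]
        have f2 : Real.exp (x a) * Real.exp (-(y a + j a))
            * (Real.exp (-x a) * Real.exp (y a + j a)) = 1 := by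
          rw [← Real.exp_add, ← Real.exp_add, ← Real.exp_add]
          have : x a + -(y a + j a) + (-x a + (y a + j a)) = 0 := by ring
          rw [this, Real.exp_zero]
        calc Real.exp (x a + j a) * P1 * (Real.exp (-y a) * Q2)
            * (Real.exp (-(x a + j a)) * P2 * (Real.exp (y a) * Q1))
            = (Real.exp (x a + j a) * Real.exp (-y a)
              * (Real.exp (-(x a + j a)) * Real.exp (y a))) * ((P1 * Q1) * (P2 * Q2)) := by ring
          _ = (P1 * Q1) * (P2 * Q2) := by rw [f1, one_mul]
          _ ≤ (R1 * T1) * (R2 * T2) := by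
              apply mul_le_mul I1 I2 (by positivity) (by positivity)
          _ = (Real.exp (x a) * Real.exp (-(y a + j a))
            * (Real.exp (-x a) * Real.exp (y a + j a))) * ((R1 * T1) * (R2 * T2)) := by
              rw [f2, one_mul]
          _ = _ := by ring
    nlinarith [c1, c2, c3]

/-- effective field at `v` produced by the other spins -/
noncomputable def rr (J : V → V → ℝ) (A : Finset V) (x : V → ℝ) (v : V) : ℝ :=
  (Real.log (Z J (A.erase v) (x + J v)) - Real.log (Z J (A.erase v) (x - J v))) / 2

lemma mag_eq_tanh {J : V → V → ℝ} (hJ : Coup J) {A : Finset V} (x : V → ℝ) {v : V}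
    (hv : v ∈ A) : mag J A x v = Real.tanh (x v + rr J A x v) := by
  have ha : v ∉ A.erase v := Finset.notMem_erase v A
  have hA : insert v (A.erase v) = A := Finset.insert_erase hv
  unfold mag
  have h1 : Z J A x = Real.exp (x v) * Z J (A.erase v) (x + J v)
      + Real.exp (-x v) * Z J (A.erase v) (x - J v) := by
    conv_lhs => rw [← hA]
    exact Z_insert J hJ.symm hJ.diag ha x
  have h2 : Zf J A x (fun S => sp S v) = Real.exp (x v) * Z J (A.erase v) (x + J v)
      - Real.exp (-x v) * Z J (A.erase v) (x - J v) := by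
    conv_lhs => rw [← hA]
    rw [Zf_insert J hJ.symm hJ.diag ha x]
    have g1 : Zf J (A.erase v) (x + J v) (fun S => sp (insert v S) v) = Z J (A.erase v) (x + J v) := by
      unfold Z Zf
      exact Finset.sum_congr rfl (fun S _ => by simp only [sp_insert_self])
    have g2 : Zf J (A.erase v) (x - J v) (fun S => sp S v) = - Z J (A.erase v) (x - J v) := by
      unfold Z Zf
      rw [← Finset.sum_neg_distrib]
      refine Finset.sum_congr rfl (fun S hS => ?_)
      have h0 : sp S v = -1 := sp_notMem (fun h => ha ((Finset.mem_powerset.1 hS) h))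
      simp only [h0]; ring
    rw [g1, g2]; ring
  rw [h1, h2]
  set P := Z J (A.erase v) (x + J v) with hP
  set N := Z J (A.erase v) (x - J v) with hN
  have hPp : 0 < P := Z_pos _ _ _
  have hNp : 0 < N := Z_pos _ _ _
  have hr : rr J A x v = (Real.log P - Real.log N) / 2 := rfl
  rw [Real.tanh_eq_sinh_div_cosh, Real.sinh_eq, Real.cosh_eq, hr]
  obtain ⟨p, hp⟩ : ∃ p, P = Real.exp p := ⟨Real.log P, (Real.exp_log hPp).symm⟩
  obtain ⟨n, hn⟩ : ∃ n, N = Real.exp n := ⟨Real.log N, (Real.exp_log hNp).symm⟩
  rw [hp, hn, Real.log_exp, Real.log_exp]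
  have e1 : Real.exp (x v) * Real.exp p
      = Real.exp ((p + n) / 2) * Real.exp (x v + (p - n) / 2) := by
    rw [← Real.exp_add, ← Real.exp_add]; ring_nf
  have e2 : Real.exp (-x v) * Real.exp n
      = Real.exp ((p + n) / 2) * Real.exp (-(x v + (p - n) / 2)) := by
    rw [← Real.exp_add, ← Real.exp_add]; ring_nf
  rw [e1, e2]
  have h3 : Real.exp ((p + n) / 2) ≠ 0 := (Real.exp_pos _).ne'
  have h4 : Real.exp (x v + (p - n) / 2) + Real.exp (-(x v + (p - n) / 2)) ≠ 0 := by positivity
  field_simp

lemma Z_erase_ratio_mono {J : V → V → ℝ} (hJ : Coup J) {A : Finset V} {x y : V → ℝ} {v : V}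
    (h : ∀ u ∈ A.erase v, x u ≤ y u) : rr J A x v ≤ rr J A y v := by
  have hs := Z_sm hJ (A.erase v) (x - J v) (y - J v) (J v + J v)
    (fun u hu => by simpa using h u hu)
    (fun u _ => by have := hJ.nonneg v u; simp only [Pi.add_apply]; linarith)
  have e1 : x - J v + (J v + J v) = x + J v := by ring
  have e2 : y - J v + (J v + J v) = y + J v := by ring
  rw [e1, e2] at hs
  have := Real.log_le_log (mul_pos (Z_pos _ _ _) (Z_pos _ _ _)) hs
  rw [Real.log_mul (Z_pos _ _ _).ne' (Z_pos _ _ _).ne',
    Real.log_mul (Z_pos _ _ _).ne' (Z_pos _ _ _).ne'] at this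
  unfold rr; linarith

/-- the magnetisation is monotone in the fields (fields of arbitrary sign) -/
lemma mag_mono {J : V → V → ℝ} (hJ : Coup J) {A : Finset V} {x y : V → ℝ} {v : V}
    (hv : v ∈ A) (h : ∀ u ∈ A, x u ≤ y u) : mag J A x v ≤ mag J A y v := by
  rw [mag_eq_tanh hJ x hv, mag_eq_tanh hJ y hv]
  have := Z_erase_ratio_mono hJ (A := A) (v := v) (x := x) (y := y)
    (fun u hu => h u (Finset.mem_of_mem_erase hu))
  exact tanh_mono' (by linarith [h v hv])

end Pool.Agent.P6ac95e
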