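import Pool.Agent.Lib.P6ac95e.DSS4

set_option autoImplicit false
open Finset

namespace Pool.Agent.P6ac95e

variable {V : Type*} [DecidableEq V]

lemma sum_powerset_union {A B : Finset V} (hd : Disjoint A B) (G : Finset V → ℝ) :
    ∑ S ∈ (A ∪ B).powerset, G S = ∑ T ∈ B.powerset, ∑ S ∈ A.powerset, G (S ∪ T) := by
  rw [← Finset.sum_product' B.powerset A.powerset (fun T S => G (S ∪ T))]
  refine Finset.sum_nbij' (fun S => (S ∩ B, S ∩ A)) (fun p => p.2 ∪ p.1) ?_ ?_ ?_ ?_ ?_
  · intro S _
    rw [Finset.mem_product, Finset.mem_powerset, Finset.mem_powerset]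
    exact ⟨Finset.inter_subset_right, Finset.inter_subset_right⟩
  · rintro ⟨T, S⟩ h
    rw [Finset.mem_product, Finset.mem_powerset, Finset.mem_powerset] at h
    rw [Finset.mem_powerset]
    exact Finset.union_subset_union h.2 h.1
  · intro S hS
    rw [Finset.mem_powerset] at hS
    simp only
    rw [← Finset.inter_union_distrib_left]
    exact Finset.inter_eq_left.2 hS
  · rintro ⟨T, S⟩ h
    rw [Finset.mem_product, Finset.mem_powerset, Finset.mem_powerset] at h
    simp only at h ⊢
    have h1 : (S ∪ T) ∩ B = T := by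
      rw [Finset.union_inter_distrib_right, Finset.inter_eq_left.2 h.1]
      have : S ∩ B = ∅ := Finset.disjoint_iff_inter_eq_empty.1 (hd.mono_left h.2)
      rw [this, Finset.empty_union]
    have h2 : (S ∪ T) ∩ A = S := by
      rw [Finset.union_inter_distrib_right, Finset.inter_eq_left.2 h.2]
      have : T ∩ A = ∅ := Finset.disjoint_iff_inter_eq_empty.1 (hd.symm.mono_left h.1)
      rw [this, Finset.union_empty]
    rw [h1, h2]
  · intro S hS
    rw [Finset.mem_powerset] at hS
    simp only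
    rw [← Finset.inter_union_distrib_left, Finset.inter_eq_left.2 hS]

lemma ham_union (J : V → V → ℝ) (hs : ∀ u w, J u w = J w u) {A B : Finset V}
    (hd : Disjoint A B) (x : V → ℝ) (S : Finset V) :
    ham J (A ∪ B) x S = ham J B x S
      + ham J A (fun u => x u + ∑ w ∈ B, J u w * sp S w) S := by
  unfold ham
  rw [Finset.sum_union hd, Finset.sum_union hd]
  have h1 : ∀ u, ∑ w ∈ A ∪ B, J u w * (sp S u * sp S w)
      = ∑ w ∈ A, J u w * (sp S u * sp S w) + ∑ w ∈ B, J u w * (sp S u * sp S w) :=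
    fun u => Finset.sum_union hd
  simp only [h1, Finset.sum_add_distrib]
  have h2 : ∑ u ∈ B, ∑ w ∈ A, J u w * (sp S u * sp S w)
      = ∑ u ∈ A, ∑ w ∈ B, J u w * (sp S u * sp S w) := by
    rw [Finset.sum_comm]
    exact Finset.sum_congr rfl (fun u _ => Finset.sum_congr rfl (fun w _ => by
      rw [hs w u]; ring))
  have h3 : ∑ u ∈ A, (x u + ∑ w ∈ B, J u w * sp S w) * sp S u
      = ∑ u ∈ A, x u * sp S u + ∑ u ∈ A, ∑ w ∈ B, J u w * (sp S u * sp S w) := by
    rw [← Finset.sum_add_distrib]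
    refine Finset.sum_congr rfl (fun u _ => ?_)
    rw [add_mul, Finset.sum_mul]
    congr 1
    exact Finset.sum_congr rfl (fun w _ => by ring)
  rw [h2, h3]
  ring

/-- field created by the spins of `B` in the configuration `T` -/
noncomputable def cfield (J : V → V → ℝ) (B : Finset V) (T : Finset V) (u : V) : ℝ :=
  ∑ w ∈ B, J u w * sp T w

lemma sp_union_left {A B S T : Finset V} (hd : Disjoint A B) (hT : T ⊆ B) {u : V} (hu : u ∈ A) :
    sp (S ∪ T) u = sp S u := by
  have : u ∉ T := fun h => Finset.disjoint_left.1 hd hu (hT h)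
  unfold sp
  by_cases h : u ∈ S <;> simp [h, this]

lemma sp_union_right {A B S T : Finset V} (hd : Disjoint A B) (hS : S ⊆ A) {u : V} (hu : u ∈ B) :
    sp (S ∪ T) u = sp T u := by
  have : u ∉ S := fun h => Finset.disjoint_left.1 hd (hS h) hu
  unfold sp
  by_cases h : u ∈ T <;> simp [h, this]

lemma ham_union' (J : V → V → ℝ) (hs : ∀ u w, J u w = J w u) {A B : Finset V}
    (hd : Disjoint A B) (x : V → ℝ) {S T : Finset V} (hS : S ⊆ A) (hT : T ⊆ B) :
    ham J (A ∪ B) x (S ∪ T) = ham J B x T + ham J A (x + cfield J B T) S := by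
  rw [ham_union J hs hd]
  congr 1
  · exact ham_congr_spin J B x (fun u hu => sp_union_right hd hS hu)
  · rw [ham_congr_spin J A _ (S := S ∪ T) (T := S) (fun u hu => sp_union_left hd hT hu)]
    apply ham_congr_field
    intro u _
    simp only [Pi.add_apply, cfield]
    congr 1
    exact Finset.sum_congr rfl (fun w hw => by rw [sp_union_right hd hS hw])

lemma Zf_union (J : V → V → ℝ) (hs : ∀ u w, J u w = J w u) {A B : Finset V}
    (hd : Disjoint A B) (x : V → ℝ) (F : Finset V → ℝ) :
    Zf J (A ∪ B) x F = ∑ T ∈ B.powerset, Real.exp (ham J B x T)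
      * Zf J A (x + cfield J B T) (fun S => F (S ∪ T)) := by
  unfold Zf
  rw [sum_powerset_union hd]
  refine Finset.sum_congr rfl (fun T hT => ?_)
  rw [Finset.mul_sum]
  refine Finset.sum_congr rfl (fun S hS => ?_)
  rw [ham_union' J hs hd x (Finset.mem_powerset.1 hS) (Finset.mem_powerset.1 hT), Real.exp_add]
  ring

lemma Z_union (J : V → V → ℝ) (hs : ∀ u w, J u w = J w u) {A B : Finset V}
    (hd : Disjoint A B) (x : V → ℝ) :
    Z J (A ∪ B) x = ∑ T ∈ B.powerset, Real.exp (ham J B x T) * Z J A (x + cfield J B T) :=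
  Zf_union J hs hd x _

/-- averaging over the spins of `B` -/
lemma averaging_le (J : V → V → ℝ) (hs : ∀ u w, J u w = J w u) {A B : Finset V}
    (hd : Disjoint A B) (x : V → ℝ) (F : Finset V → ℝ) {C : ℝ}
    (h : ∀ T ⊆ B, Zf J A (x + cfield J B T) (fun S => F (S ∪ T)) ≤ C * Z J A (x + cfield J B T)) :
    Zf J (A ∪ B) x F ≤ C * Z J (A ∪ B) x := by
  rw [Zf_union J hs hd, Z_union J hs hd, Finset.mul_sum]
  apply Finset.sum_le_sum
  intro T hT
  have := mul_le_mul_of_nonneg_left (h T (Finset.mem_powerset.1 hT))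
    (Real.exp_pos (ham J B x T)).le
  linarith

lemma averaging_ge (J : V → V → ℝ) (hs : ∀ u w, J u w = J w u) {A B : Finset V}
    (hd : Disjoint A B) (x : V → ℝ) (F : Finset V → ℝ) {C : ℝ}
    (h : ∀ T ⊆ B, C * Z J A (x + cfield J B T) ≤ Zf J A (x + cfield J B T) (fun S => F (S ∪ T))) :
    C * Z J (A ∪ B) x ≤ Zf J (A ∪ B) x F := by
  rw [Zf_union J hs hd, Z_union J hs hd, Finset.mul_sum]
  apply Finset.sum_le_sum
  intro T hT
  have := mul_le_mul_of_nonneg_left (h T (Finset.mem_powerset.1 hT))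
    (Real.exp_pos (ham J B x T)).le
  linarith

lemma cfield_le {J : V → V → ℝ} (hJ : Coup J) (B T : Finset V) (u : V) :
    cfield J B T u ≤ ∑ w ∈ B, J u w := by
  unfold cfield
  apply Finset.sum_le_sum
  intro w _
  have h1 := hJ.nonneg u w
  have h2 := (abs_le.1 (abs_sp T w).le).2
  nlinarith

lemma le_cfield {J : V → V → ℝ} (hJ : Coup J) (B T : Finset V) (u : V) :
    - ∑ w ∈ B, J u w ≤ cfield J B T u := by
  unfold cfield
  rw [← Finset.sum_neg_distrib]
  apply Finset.sum_le_sum
  intro w _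
  have h1 := hJ.nonneg u w
  have h2 := (abs_le.1 (abs_sp T w).le).1
  nlinarith

lemma Zf_sp_union {J : V → V → ℝ} {A B : Finset V} (hd : Disjoint A B) {T : Finset V}
    (hT : T ⊆ B) {v : V} (hv : v ∈ A) (x : V → ℝ) :
    Zf J A x (fun S => sp (S ∪ T) v) = mag J A x v * Z J A x := by
  unfold mag
  rw [div_mul_cancel₀ _ (Z_pos _ _ _).ne']
  unfold Zf
  exact Finset.sum_congr rfl (fun S _ => by simp only [sp_union_left hd hT hv])

lemma mag_union_le {J : V → V → ℝ} (hJ : Coup J) {A B : Finset V} (hd : Disjoint A B)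
    {x y : V → ℝ} {v : V} (hv : v ∈ A) (hy : ∀ u ∈ A, x u + ∑ w ∈ B, J u w ≤ y u) :
    mag J (A ∪ B) x v ≤ mag J A y v := by
  have h := averaging_le J hJ.symm hd x (fun S => sp S v) (C := mag J A y v) (by
    intro T hT
    rw [Zf_sp_union hd hT hv]
    apply mul_le_mul_of_nonneg_right _ (Z_pos _ _ _).le
    apply mag_mono hJ hv
    intro u hu
    have := cfield_le hJ B T u
    have := hy u hu
    simp only [Pi.add_apply]; linarith)
  unfold mag at h ⊢
  rw [div_le_iff₀ (Z_pos _ _ _)]
  exact h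

lemma le_mag_union {J : V → V → ℝ} (hJ : Coup J) {A B : Finset V} (hd : Disjoint A B)
    {x y : V → ℝ} {v : V} (hv : v ∈ A) (hy : ∀ u ∈ A, y u ≤ x u - ∑ w ∈ B, J u w) :
    mag J A y v ≤ mag J (A ∪ B) x v := by
  have h := averaging_ge J hJ.symm hd x (fun S => sp S v) (C := mag J A y v) (by
    intro T hT
    rw [Zf_sp_union hd hT hv]
    apply mul_le_mul_of_nonneg_right _ (Z_pos _ _ _).le
    apply mag_mono hJ hv
    intro u hu
    have := le_cfield hJ B T u
    have := hy u hu
    simp only [Pi.add_apply]; linarith)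
  unfold mag at h ⊢
  rw [le_div_iff₀ (Z_pos _ _ _)]
  exact h

/-- derivative of `psi` along a line of fields -/
lemma hasDerivAt_psi (J : V → V → ℝ) (A : Finset V) (x e : V → ℝ) (s : ℝ) :
    HasDerivAt (fun s : ℝ => psi J A (x + s • e)) (∑ u ∈ A, e u * mag J A (x + s • e) u) s := by
  have hham : ∀ S : Finset V, HasDerivAt (fun s : ℝ => ham J A (x + s • e) S)
      (∑ u ∈ A, e u * sp S u) s := by
    intro S
    unfold ham
    have h1 : HasDerivAt (fun s : ℝ => ∑ u ∈ A, (x + s • e) u * sp S u)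
        (∑ u ∈ A, e u * sp S u) s := by
      apply HasDerivAt.fun_sum
      intro u _
      have h2 : HasDerivAt (fun s : ℝ => (x + s • e) u) (e u) s := by
        have : HasDerivAt (fun s : ℝ => x u + s * e u) (e u) s := by
          simpa using ((hasDerivAt_id s).mul_const (e u)).const_add (x u)
        simpa [Pi.add_apply, Pi.smul_apply, smul_eq_mul] using this
      exact h2.mul_const _
    exact h1.const_add _
  have hZ : HasDerivAt (fun s : ℝ => Z J A (x + s • e))
      (∑ S ∈ A.powerset, Real.exp (ham J A (x + s • e) S) * ∑ u ∈ A, e u * sp S u) s := by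
    unfold Z Zf
    simp only [mul_one]
    apply HasDerivAt.fun_sum
    intro S _
    exact (hham S).exp
  have h := hZ.log (Z_pos _ _ _).ne'
  unfold psi
  refine h.congr_deriv ?_
  rw [div_eq_iff (Z_pos _ _ _).ne', Finset.sum_mul]
  have h3 : ∀ u ∈ A, e u * mag J A (x + s • e) u * Z J A (x + s • e)
      = ∑ S ∈ A.powerset, e u * (Real.exp (ham J A (x + s • e) S) * sp S u) := by
    intro u _
    unfold mag
    rw [mul_assoc, div_mul_cancel₀ _ (Z_pos _ _ _).ne', ← Finset.mul_sum]
    rfl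
  rw [Finset.sum_congr rfl h3, Finset.sum_comm]
  refine Finset.sum_congr rfl (fun S _ => ?_)
  rw [Finset.mul_sum]
  exact Finset.sum_congr rfl (fun u _ => by ring)

end Pool.Agent.P6ac95e
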