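import Pool.Agent.Lib.P6ac95e.Basic

set_option autoImplicit false
open Finset

namespace Pool.Agent.P6ac95e

variable {V : Type*} [DecidableEq V]

/-- product of the spins over `U` -/
noncomputable def chi (U : Finset V) (S : Finset V) : ℝ := ∏ u ∈ U, sp S u

/-- nonnegative Walsh coefficients -/
def PT (A : Finset V) (f : Finset V → ℝ) : Prop :=
  ∀ U ⊆ A, 0 ≤ ∑ S ∈ A.powerset, chi U S * f S

/-- multipliers preserving nonnegativity of Walsh coefficients -/
def Pos (A : Finset V) (g : Finset V → ℝ) : Prop :=
  ∀ f, PT A f → PT A (fun S => g S * f S)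

lemma PT_one (A : Finset V) : PT A (fun _ => 1) := by
  intro U hU
  have h : ∀ S ∈ A.powerset, chi U S * 1
      = (∏ _i ∈ S, (1:ℝ)) * ∏ i ∈ A \ S, (if i ∈ U then (-1:ℝ) else 1) := by
    intro S hS
    have hSA : S ⊆ A := Finset.mem_powerset.1 hS
    rw [Finset.prod_const_one, one_mul, mul_one]
    unfold chi
    rw [← Finset.prod_filter]
    have : U.filter (fun u => u ∉ S) = (A \ S).filter (fun u => u ∈ U) := by
      ext u; simp only [Finset.mem_filter, Finset.mem_sdiff]
      constructor
      · rintro ⟨h1, h2⟩; exact ⟨⟨hU h1, h2⟩, h1⟩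
      · rintro ⟨⟨_, h2⟩, h3⟩; exact ⟨h3, h2⟩
    rw [← this, Finset.prod_filter]
    refine Finset.prod_congr rfl (fun u _ => ?_)
    unfold sp
    by_cases h : u ∈ S <;> simp [h]
  rw [Finset.sum_congr rfl h, ← Finset.prod_add]
  apply Finset.prod_nonneg
  intro i _
  split_ifs <;> norm_num

lemma Pos.pt {A : Finset V} {g : Finset V → ℝ} (h : Pos A g) : PT A g := by
  have := h _ (PT_one A)
  simpa using this

lemma Pos_const {A : Finset V} {c : ℝ} (hc : 0 ≤ c) : Pos A (fun _ => c) := by
  intro f hf U hU
  have : ∑ S ∈ A.powerset, chi U S * (c * f S) = c * ∑ S ∈ A.powerset, chi U S * f S := by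
    rw [Finset.mul_sum]; exact Finset.sum_congr rfl (fun S _ => by ring)
  rw [this]; exact mul_nonneg hc (hf U hU)

lemma Pos.add {A : Finset V} {g h : Finset V → ℝ} (hg : Pos A g) (hh : Pos A h) :
    Pos A (fun S => g S + h S) := by
  intro f hf U hU
  have : ∑ S ∈ A.powerset, chi U S * ((g S + h S) * f S)
      = ∑ S ∈ A.powerset, chi U S * (g S * f S) + ∑ S ∈ A.powerset, chi U S * (h S * f S) := by
    rw [← Finset.sum_add_distrib]; exact Finset.sum_congr rfl (fun S _ => by ring)
  rw [this]; exact add_nonneg (hg f hf U hU) (hh f hf U hU)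

lemma Pos.mul {A : Finset V} {g h : Finset V → ℝ} (hg : Pos A g) (hh : Pos A h) :
    Pos A (fun S => g S * h S) := by
  intro f hf U hU
  have := hg _ (hh f hf) U hU
  simpa [mul_assoc] using this

lemma Pos.pow {A : Finset V} {g : Finset V → ℝ} (hg : Pos A g) (n : ℕ) :
    Pos A (fun S => g S ^ n) := by
  induction n with
  | zero => simpa using Pos_const (A := A) zero_le_one
  | succ n ih =>
    have := ih.mul hg
    simpa [pow_succ] using this

lemma Pos_sum {A : Finset V} {ι : Type*} (s : Finset ι) (g : ι → Finset V → ℝ)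
    (h : ∀ i ∈ s, Pos A (g i)) : Pos A (fun S => ∑ i ∈ s, g i S) := by
  classical
  induction s using Finset.induction_on with
  | empty => simpa using Pos_const (A := A) le_rfl
  | insert a s ha ih =>
    have h1 := (h a (Finset.mem_insert_self _ _)).add
      (ih (fun i hi => h i (Finset.mem_insert_of_mem hi)))
    simpa [Finset.sum_insert ha] using h1

lemma Pos_sp {A : Finset V} {w : V} (hw : w ∈ A) : Pos A (fun S => sp S w) := by
  intro f hf U hU
  by_cases h : w ∈ U
  · have : ∑ S ∈ A.powerset, chi U S * (sp S w * f S)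
        = ∑ S ∈ A.powerset, chi (U.erase w) S * f S := by
      refine Finset.sum_congr rfl (fun S _ => ?_)
      have : chi U S = sp S w * chi (U.erase w) S := by
        unfold chi; rw [Finset.mul_prod_erase U (fun u => sp S u) h]
      rw [this]
      have h2 := sp_mul_self S w
      calc sp S w * chi (U.erase w) S * (sp S w * f S)
          = (sp S w * sp S w) * (chi (U.erase w) S * f S) := by ring
        _ = _ := by rw [h2, one_mul]
    rw [this]
    exact hf _ ((Finset.erase_subset _ _).trans hU)
  · have : ∑ S ∈ A.powerset, chi U S * (sp S w * f S)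
        = ∑ S ∈ A.powerset, chi (insert w U) S * f S := by
      refine Finset.sum_congr rfl (fun S _ => ?_)
      have : chi (insert w U) S = sp S w * chi U S := by
        unfold chi; rw [Finset.prod_insert h]
      rw [this]; ring
    rw [this]
    exact hf _ (Finset.insert_subset hw hU)

lemma Pos_chi {A U : Finset V} (hU : U ⊆ A) : Pos A (chi U) := by
  induction U using Finset.induction_on with
  | empty =>
    have : chi (∅ : Finset V) = fun _ => (1:ℝ) := by funext S; simp [chi]
    rw [this]; exact Pos_const zero_le_one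
  | insert a U ha ih =>
    have h1 := (Pos_sp (hU (Finset.mem_insert_self a U))).mul
      (ih ((Finset.subset_insert a U).trans hU))
    have : chi (insert a U) = fun S => sp S a * chi U S := by
      funext S; unfold chi; rw [Finset.prod_insert ha]
    rw [this]; exact h1

lemma Pos_lim {A : Finset V} {g : Finset V → ℝ} {gn : ℕ → Finset V → ℝ}
    (hn : ∀ n, Pos A (gn n))
    (hl : ∀ S, Filter.Tendsto (fun n => gn n S) Filter.atTop (nhds (g S))) : Pos A g := by
  intro f hf U hU
  have : Filter.Tendsto (fun n => ∑ S ∈ A.powerset, chi U S * (gn n S * f S)) Filter.atTop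
      (nhds (∑ S ∈ A.powerset, chi U S * (g S * f S))) := by
    apply tendsto_finsetSum
    intro S _
    exact ((hl S).mul_const _).const_mul _
  exact ge_of_tendsto' this (fun n => hn n f hf U hU)

lemma Pos.exp {A : Finset V} {g : Finset V → ℝ} (hg : Pos A g) :
    Pos A (fun S => Real.exp (g S)) := by
  refine Pos_lim (gn := fun n S => (1 + g S / n) ^ n) (fun n => ?_) (fun S => ?_)
  · have h1 : Pos A (fun S => 1 + g S / n) := by
      have h2 : Pos A (fun S => (1 / (n:ℝ)) * g S) := (Pos_const (by positivity)).mul hg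
      have h3 := (Pos_const (A := A) zero_le_one).add h2
      have : (fun S => 1 + g S / n) = fun S => (1:ℝ) + (1 / (n:ℝ)) * g S := by
        funext S; ring
      rw [this]; exact h3
    exact h1.pow n
  · exact Real.tendsto_one_add_div_pow_exp (g S)

lemma Pos.sinh {A : Finset V} {g : Finset V → ℝ} (hg : Pos A g) :
    Pos A (fun S => Real.sinh (g S)) := by
  refine Pos_lim (gn := fun n S => ∑ i ∈ Finset.range n,
    (1 / (Nat.factorial (2 * i + 1) : ℝ)) * (g S) ^ (2 * i + 1)) (fun n => ?_) (fun S => ?_)
  · apply Pos_sum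
    intro i _
    exact (Pos_const (by positivity)).mul (hg.pow _)
  · have := (Real.hasSum_sinh (g S)).tendsto_sum_nat
    refine this.congr (fun n => Finset.sum_congr rfl (fun i _ => ?_))
    ring

/-- if `f ± g` is dominated then `exp (f+g) - exp (f-g)` has nonnegative Walsh coefficients -/
lemma Pos_exp_sub {A : Finset V} {f g : Finset V → ℝ} (hf : Pos A f) (hg : Pos A g) :
    Pos A (fun S => Real.exp (f S + g S) - Real.exp (f S - g S)) := by
  have h := (hf.exp).mul ((Pos_const (A := A) zero_le_two).mul hg.sinh)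
  have : (fun S => Real.exp (f S + g S) - Real.exp (f S - g S))
      = fun S => Real.exp (f S) * (2 * Real.sinh (g S)) := by
    funext S
    rw [Real.exp_add, sub_eq_add_neg (f S), Real.exp_add, Real.sinh_eq]; ring
  rw [this]; exact h

lemma Pos_ham {A : Finset V} {J : V → V → ℝ} {x : V → ℝ} (hJ : ∀ u ∈ A, ∀ w ∈ A, 0 ≤ J u w)
    (hx : ∀ u ∈ A, 0 ≤ x u) : Pos A (ham J A x) := by
  unfold ham
  apply Pos.add
  · apply Pos.mul (Pos_const (by norm_num))
    apply Pos_sum; intro u hu
    apply Pos_sum; intro w hw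
    exact (Pos_const (hJ u hu w hw)).mul ((Pos_sp hu).mul (Pos_sp hw))
  · apply Pos_sum; intro u hu
    exact (Pos_const (hx u hu)).mul (Pos_sp hu)

lemma PT.nonneg {A : Finset V} {f : Finset V → ℝ} (h : PT A f) : 0 ≤ ∑ S ∈ A.powerset, f S := by
  have := h ∅ (Finset.empty_subset _)
  simpa [chi] using this

/-- first Griffiths inequality -/
lemma gks1 {A : Finset V} {J : V → V → ℝ} {x : V → ℝ} (hJ : ∀ u ∈ A, ∀ w ∈ A, 0 ≤ J u w)
    (hx : ∀ u ∈ A, 0 ≤ x u) {g : Finset V → ℝ} (hg : Pos A g) : 0 ≤ Zf J A x g := by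
  have := ((Pos_ham hJ hx).exp.mul hg).pt.nonneg
  exact this

/-- sign function of a flip set -/
noncomputable def eps (T : Finset V) (u : V) : ℝ := if u ∈ T then -1 else 1

lemma sp_symmDiff (S T : Finset V) (u : V) : sp (symmDiff S T) u = eps T u * sp S u := by
  unfold sp eps
  by_cases h1 : u ∈ S <;> by_cases h2 : u ∈ T <;> simp [Finset.mem_symmDiff, h1, h2]

lemma abs_eps (T : Finset V) (u : V) : |eps T u| = 1 := by
  unfold eps; split_ifs <;> norm_num

lemma eps_mul_self (T : Finset V) (u : V) : eps T u * eps T u = 1 := by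
  unfold eps; split_ifs <;> norm_num

lemma sum_powerset_symmDiff {A : Finset V} {S : Finset V} (hS : S ⊆ A) (f : Finset V → ℝ) :
    ∑ T ∈ A.powerset, f (symmDiff S T) = ∑ T ∈ A.powerset, f T := by
  have hmem : ∀ T ∈ A.powerset, symmDiff S T ∈ A.powerset := by
    intro T hT
    rw [Finset.mem_powerset] at hT ⊢
    intro u hu
    rcases Finset.mem_symmDiff.1 hu with h | h
    · exact hS h.1
    · exact hT h.1
  refine Finset.sum_nbij' (fun T => symmDiff S T) (fun T => symmDiff S T) hmem hmem ?_ ?_ ?_
  · intro T _; exact symmDiff_symmDiff_cancel_left S T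
  · intro T _; exact symmDiff_symmDiff_cancel_left S T
  · intro T _; rfl

/-- duplicated sum -/
lemma dup_sum {A : Finset V} (F : Finset V → Finset V → ℝ) :
    ∑ S ∈ A.powerset, ∑ S' ∈ A.powerset, F S S'
      = ∑ T ∈ A.powerset, ∑ S ∈ A.powerset, F S (symmDiff S T) := by
  rw [Finset.sum_comm (s := A.powerset) (t := A.powerset) (f := fun T S => F S (symmDiff S T))]
  refine Finset.sum_congr rfl (fun S hS => ?_)
  exact (sum_powerset_symmDiff (Finset.mem_powerset.1 hS) (F S)).symm

lemma ham_dup (J : V → V → ℝ) (A : Finset V) (k k' : V → ℝ) (S T : Finset V) :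
    ham J A k S + ham J A k' (symmDiff S T)
      = ham (fun u w => J u w * (1 + eps T u * eps T w)) A (fun u => k u + eps T u * k' u) S := by
  unfold ham
  have h1 : ∑ u ∈ A, ∑ w ∈ A, J u w * (1 + eps T u * eps T w) * (sp S u * sp S w)
      = ∑ u ∈ A, ∑ w ∈ A, J u w * (sp S u * sp S w)
        + ∑ u ∈ A, ∑ w ∈ A, J u w * (sp (symmDiff S T) u * sp (symmDiff S T) w) := by
    rw [← Finset.sum_add_distrib]
    refine Finset.sum_congr rfl (fun u _ => ?_)
    rw [← Finset.sum_add_distrib]
    refine Finset.sum_congr rfl (fun w _ => ?_)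
    rw [sp_symmDiff, sp_symmDiff]; ring
  have h2 : ∑ u ∈ A, (k u + eps T u * k' u) * sp S u
      = ∑ u ∈ A, k u * sp S u + ∑ u ∈ A, k' u * sp (symmDiff S T) u := by
    rw [← Finset.sum_add_distrib]
    refine Finset.sum_congr rfl (fun u _ => ?_)
    rw [sp_symmDiff]; ring
  rw [h1, h2]; ring

/-- Ginibre's form of Griffiths' second inequality: comparison of the expectations of a spin
product in fields `k` and `k'` with `|k'| ≤ k`. -/
lemma ginibre {A : Finset V} {J : V → V → ℝ} (hJ : ∀ u w, 0 ≤ J u w) {k k' : V → ℝ}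
    (hk : ∀ u ∈ A, |k' u| ≤ k u) {U : Finset V} (hU : U ⊆ A) :
    Z J A k * Zf J A k' (chi U) ≤ Z J A k' * Zf J A k (chi U) := by
  rw [← sub_nonneg]
  have e : Z J A k' * Zf J A k (chi U) - Z J A k * Zf J A k' (chi U)
      = ∑ T ∈ A.powerset, ∑ S ∈ A.powerset,
        Real.exp (ham J A k S + ham J A k' (symmDiff S T)) * (chi U S - chi U (symmDiff S T)) := by
    rw [← dup_sum (fun S S' => Real.exp (ham J A k S + ham J A k' S') * (chi U S - chi U S'))]
    unfold Z Zf
    rw [mul_comm (∑ S ∈ A.powerset, Real.exp (ham J A k' S) * 1), Finset.sum_mul_sum,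
      Finset.sum_mul_sum, ← Finset.sum_sub_distrib]
    refine Finset.sum_congr rfl (fun S _ => ?_)
    rw [← Finset.sum_sub_distrib]
    refine Finset.sum_congr rfl (fun S' _ => ?_)
    rw [Real.exp_add]; ring
  rw [e]
  apply Finset.sum_nonneg
  intro T hT
  have hc : ∀ S, chi U (symmDiff S T) = (∏ u ∈ U, eps T u) * chi U S := by
    intro S; unfold chi
    rw [← Finset.prod_mul_distrib]
    exact Finset.prod_congr rfl (fun u _ => sp_symmDiff S T u)
  have h1 : ∑ S ∈ A.powerset, Real.exp (ham J A k S + ham J A k' (symmDiff S T))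
        * (chi U S - chi U (symmDiff S T))
      = Zf (fun u w => J u w * (1 + eps T u * eps T w)) A (fun u => k u + eps T u * k' u)
        (fun S => (1 - ∏ u ∈ U, eps T u) * chi U S) := by
    unfold Zf
    refine Finset.sum_congr rfl (fun S _ => ?_)
    rw [ham_dup, hc]; ring
  rw [h1]
  apply gks1
  · intro u _ w _
    apply mul_nonneg (hJ u w)
    unfold eps; split_ifs <;> norm_num
  · intro u hu
    have h2 := hk u hu
    have h3 := abs_le.1 h2
    unfold eps; split_ifs <;> linarith [h3.1, h3.2]
  · apply Pos.mul _ (Pos_chi hU)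
    apply Pos_const
    have : |∏ u ∈ U, eps T u| = 1 := by
      rw [Finset.abs_prod]; exact Finset.prod_eq_one (fun u _ => abs_eps T u)
    have := (abs_le.1 this.le).2
    linarith

/-- the interaction of `a` with the rest together with the field at `a` -/
noncomputable def link (J : V → V → ℝ) (A : Finset V) (a : V) (t : ℝ) (S : Finset V) : ℝ :=
  sp S a * t + ∑ u ∈ A, J a u * (sp S a * sp S u)

lemma ham_insert' (J : V → V → ℝ) (hs : ∀ u w, J u w = J w u) (hd : ∀ u, J u u = 0)
    {A : Finset V} {a : V} (ha : a ∉ A) (x : V → ℝ) (S : Finset V) :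
    ham J (insert a A) x S = ham J A x S + link J A a (x a) S := by
  rw [ham_insert J hs hd ha]
  unfold ham link
  have h2 : ∑ u ∈ A, (x u + sp S a * J a u) * sp S u
      = ∑ u ∈ A, x u * sp S u + ∑ u ∈ A, J a u * (sp S a * sp S u) := by
    rw [← Finset.sum_add_distrib]
    refine Finset.sum_congr rfl (fun u hu => ?_)
    ring
  rw [h2]; ring

/-- adding a vertex: `Z_{A+a}/Z_A` is larger in the field `k` than in `k'` when `|k'| ≤ k`. -/
lemma gks_add_vertex {A : Finset V} {J : V → V → ℝ} (hJ : Coup J) {a : V} (ha : a ∉ A)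
    {k k' : V → ℝ} (hk : ∀ u ∈ insert a A, |k' u| ≤ k u) :
    Z J A k * Z J (insert a A) k' ≤ Z J A k' * Z J (insert a A) k := by
  -- work on the set insert a A for both copies, the spin at `a` being free in one of them
  set B := insert a A with hB
  have hfree : ∀ x : V → ℝ, ∑ S ∈ B.powerset, Real.exp (ham J A x S) = 2 * Z J A x := by
    intro x
    rw [hB, Finset.sum_powerset_insert ha]
    unfold Z Zf
    rw [two_mul]
    congr 1
    · exact Finset.sum_congr rfl (fun S _ => by ring)
    · refine Finset.sum_congr rfl (fun S _ => ?_)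
      rw [ham_congr_spin J A x (S := insert a S) (T := S)]
      · ring
      · intro u hu; exact sp_insert_ne S (fun h => ha (h ▸ hu))
  have hfull : ∀ x : V → ℝ, Z J B x
      = ∑ S ∈ B.powerset, Real.exp (ham J A x S) * Real.exp (link J A a (x a) S) := by
    intro x
    unfold Z Zf
    refine Finset.sum_congr rfl (fun S _ => ?_)
    rw [mul_one, hB, ham_insert' J hJ.symm hJ.diag ha, Real.exp_add]
  have key : 0 ≤ (∑ S ∈ B.powerset, Real.exp (ham J A k' S)) * Z J B k
      - (∑ S ∈ B.powerset, Real.exp (ham J A k S)) * Z J B k' := by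
    have e : (∑ S ∈ B.powerset, Real.exp (ham J A k' S)) * Z J B k
      - (∑ S ∈ B.powerset, Real.exp (ham J A k S)) * Z J B k'
      = ∑ T ∈ B.powerset, ∑ S ∈ B.powerset,
        Real.exp (ham J A k S + ham J A k' (symmDiff S T))
          * (Real.exp (link J A a (k a) S) - Real.exp (link J A a (k' a) (symmDiff S T))) := by
      rw [← dup_sum (fun S S' => Real.exp (ham J A k S + ham J A k' S')
          * (Real.exp (link J A a (k a) S) - Real.exp (link J A a (k' a) S')))]
      rw [hfull, hfull, mul_comm (∑ S ∈ B.powerset, Real.exp (ham J A k' S)),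
        Finset.sum_mul_sum, Finset.sum_mul_sum, ← Finset.sum_sub_distrib]
      refine Finset.sum_congr rfl (fun S _ => ?_)
      rw [← Finset.sum_sub_distrib]
      refine Finset.sum_congr rfl (fun S' _ => ?_)
      rw [Real.exp_add]; ring
    rw [e]
    apply Finset.sum_nonneg
    intro T _
    -- coefficients
    set f : Finset V → ℝ := fun S =>
      sp S a * ((k a + eps T a * k' a) / 2)
        + ∑ u ∈ A, J a u * ((1 + eps T a * eps T u) / 2) * (sp S a * sp S u) with hf
    set g : Finset V → ℝ := fun S =>
      sp S a * ((k a - eps T a * k' a) / 2)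
        + ∑ u ∈ A, J a u * ((1 - eps T a * eps T u) / 2) * (sp S a * sp S u) with hg
    have hfg1 : ∀ S, link J A a (k a) S = f S + g S := by
      intro S; simp only [hf, hg, link]
      have : ∑ u ∈ A, J a u * (sp S a * sp S u)
          = ∑ u ∈ A, J a u * ((1 + eps T a * eps T u) / 2) * (sp S a * sp S u)
            + ∑ u ∈ A, J a u * ((1 - eps T a * eps T u) / 2) * (sp S a * sp S u) := by
        rw [← Finset.sum_add_distrib]; exact Finset.sum_congr rfl (fun u _ => by ring)
      rw [this]; ring
    have hfg2 : ∀ S, link J A a (k' a) (symmDiff S T) = f S - g S := by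
      intro S; simp only [hf, hg, link, sp_symmDiff]
      have : ∑ u ∈ A, J a u * (eps T a * sp S a * (eps T u * sp S u))
          = ∑ u ∈ A, J a u * ((1 + eps T a * eps T u) / 2) * (sp S a * sp S u)
            - ∑ u ∈ A, J a u * ((1 - eps T a * eps T u) / 2) * (sp S a * sp S u) := by
        rw [← Finset.sum_sub_distrib]; exact Finset.sum_congr rfl (fun u _ => by ring)
      rw [this]; ring
    have haB : a ∈ B := Finset.mem_insert_self a A
    have hAB : ∀ u ∈ A, u ∈ B := fun u hu => Finset.mem_insert_of_mem hu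
    have hka := abs_le.1 (hk a haB)
    have hfP : Pos B f := by
      apply Pos.add
      · apply (Pos_sp haB).mul (Pos_const _)
        unfold eps; split_ifs <;> linarith [hka.1, hka.2]
      · apply Pos_sum; intro u hu
        apply Pos.mul (Pos_const _) ((Pos_sp haB).mul (Pos_sp (hAB u hu)))
        apply mul_nonneg (hJ.nonneg a u)
        unfold eps; split_ifs <;> norm_num
    have hgP : Pos B g := by
      apply Pos.add
      · apply (Pos_sp haB).mul (Pos_const _)
        unfold eps; split_ifs <;> linarith [hka.1, hka.2]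
      · apply Pos_sum; intro u hu
        apply Pos.mul (Pos_const _) ((Pos_sp haB).mul (Pos_sp (hAB u hu)))
        apply mul_nonneg (hJ.nonneg a u)
        unfold eps; split_ifs <;> norm_num
    have hP := Pos_exp_sub hfP hgP
    have hH : Pos B (ham (fun u w => J u w * (1 + eps T u * eps T w)) A
        (fun u => k u + eps T u * k' u)) := by
      unfold ham
      apply Pos.add
      · apply Pos.mul (Pos_const (by norm_num))
        apply Pos_sum; intro u hu
        apply Pos_sum; intro w hw
        refine (Pos_const ?_).mul ((Pos_sp (hAB u hu)).mul (Pos_sp (hAB w hw)))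
        apply mul_nonneg (hJ.nonneg u w)
        unfold eps; split_ifs <;> norm_num
      · apply Pos_sum; intro u hu
        refine (Pos_const ?_).mul (Pos_sp (hAB u hu))
        have h3 := abs_le.1 (hk u (hAB u hu))
        change 0 ≤ k u + eps T u * k' u
        unfold eps; split_ifs <;> linarith [h3.1, h3.2]
    have := (hH.exp.mul hP).pt.nonneg
    refine le_of_le_of_eq this (Finset.sum_congr rfl (fun S _ => ?_))
    rw [ham_dup, hfg1, hfg2]
  rw [hfree, hfree] at key
  linarith

end Pool.Agent.P6ac95e
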