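import Pool.Agent.Lib.P6ac95e.GKS

set_option autoImplicit false
open Finset

namespace Pool.Agent.P6ac95e

/-- a finite spin network: edges `E` with ends `p`, `q`; live vertices `A`; the other
vertices carry the fixed value `c`. -/
structure Net (ι P : Type*) where
  E : Finset ι
  p : ι → P
  q : ι → P
  A : Finset P
  c : P → ℝ

namespace Net

variable {ι P : Type*} [DecidableEq ι] [DecidableEq P] (N : Net ι P) (β : ℝ)

/-- spin at `x` -/
noncomputable def sv (S : Finset P) (x : P) : ℝ := if x ∈ N.A then sp S x else N.c x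

/-- Boltzmann weight with edge signs `τ` -/
noncomputable def wt (τ : ι → ℝ) (S : Finset P) : ℝ :=
  Real.exp (β * ∑ e ∈ N.E, τ e * (N.sv S (N.p e) * N.sv S (N.q e)))

noncomputable def M (τ : ι → ℝ) (x : P) : ℝ := ∑ S ∈ N.A.powerset, N.wt β τ S * N.sv S x

noncomputable def ZZ (τ : ι → ℝ) : ℝ := ∑ S ∈ N.A.powerset, N.wt β τ S

omit [DecidableEq ι] in
lemma sv_sq_of {S : Finset P} {x : P} (h : x ∈ N.A ∨ N.c x = 1) : N.sv S x ^ 2 = 1 := by
  unfold sv
  split_ifs with h1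
  · exact sp_sq S x
  · rcases h with h | h
    · exact absurd h h1
    · rw [h]; norm_num

omit [DecidableEq ι] in
lemma M_one {τ : ι → ℝ} {x : P} (hx : x ∉ N.A) (hc : N.c x = 1) : N.M β τ x = N.ZZ β τ := by
  unfold M ZZ
  refine Finset.sum_congr rfl (fun S _ => ?_)
  unfold sv; rw [if_neg hx, hc, mul_one]

omit [DecidableEq ι] in
lemma M_zero {τ : ι → ℝ} {x : P} (hx : x ∉ N.A) (hc : N.c x = 0) : N.M β τ x = 0 := by
  unfold M
  refine Finset.sum_eq_zero (fun S _ => ?_)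
  unfold sv; rw [if_neg hx, hc, mul_zero]

omit [DecidableEq ι] in
lemma wt_congr {τ τ' : ι → ℝ} (h : ∀ e ∈ N.E, τ e = τ' e ∨
    (N.p e ∉ N.A ∧ N.c (N.p e) = 0) ∨ (N.q e ∉ N.A ∧ N.c (N.q e) = 0)) (S : Finset P) :
    N.wt β τ S = N.wt β τ' S := by
  unfold wt
  congr 2
  refine Finset.sum_congr rfl (fun e he => ?_)
  rcases h e he with h | h | h
  · rw [h]
  · have : N.sv S (N.p e) = 0 := by unfold sv; rw [if_neg h.1, h.2]
    rw [this]; ring
  · have : N.sv S (N.q e) = 0 := by unfold sv; rw [if_neg h.1, h.2]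
    rw [this]; ring

omit [DecidableEq ι] in
lemma M_congr {τ τ' : ι → ℝ} (h : ∀ e ∈ N.E, τ e = τ' e ∨
    (N.p e ∉ N.A ∧ N.c (N.p e) = 0) ∨ (N.q e ∉ N.A ∧ N.c (N.q e) = 0)) (x : P) :
    N.M β τ x = N.M β τ' x := by
  unfold M
  exact Finset.sum_congr rfl (fun S _ => by rw [N.wt_congr β h S])

/-- flipping the sign of one edge -/
noncomputable def flip (τ : ι → ℝ) (e : ι) : ι → ℝ := Function.update τ e (-τ e)

lemma flip_self (τ : ι → ℝ) (e : ι) : flip τ e e = -τ e := by simp [flip]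

lemma flip_ne (τ : ι → ℝ) {e f : ι} (h : f ≠ e) : flip τ e f = τ f := by simp [flip, h]

lemma flip_flip (τ : ι → ℝ) (e : ι) : flip (flip τ e) e = τ := by
  funext f
  by_cases h : f = e
  · subst h; rw [flip_self, flip_self, neg_neg]
  · rw [flip_ne _ h, flip_ne _ h]

lemma flip_apply (τ : ι → ℝ) (e f : ι) : flip τ e f = if f = e then -τ f else τ f := by
  by_cases h : f = e
  · subst h; rw [flip_self, if_pos rfl]
  · rw [flip_ne _ h, if_neg h]

lemma wt_flip {τ : ι → ℝ} {e : ι} (he : e ∈ N.E) (S : Finset P) :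
    N.wt β (flip τ e) S
      = N.wt β τ S * Real.exp (-(2 * β * (τ e * (N.sv S (N.p e) * N.sv S (N.q e))))) := by
  unfold wt
  rw [← Real.exp_add]
  congr 1
  rw [← Finset.add_sum_erase N.E _ he, ← Finset.add_sum_erase N.E _ he, flip_self]
  have : ∑ f ∈ N.E.erase e, flip τ e f * (N.sv S (N.p f) * N.sv S (N.q f))
      = ∑ f ∈ N.E.erase e, τ f * (N.sv S (N.p f) * N.sv S (N.q f)) := by
    refine Finset.sum_congr rfl (fun f hf => ?_)
    rw [flip_ne _ (Finset.ne_of_mem_erase hf)]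
  rw [this]; ring

lemma exp_sign {σ : ℝ} (h : σ ^ 2 = 1) (t : ℝ) :
    Real.exp (-(t * σ)) = Real.cosh t - σ * Real.sinh t := by
  have : σ = 1 ∨ σ = -1 := sq_eq_one_iff.1 h
  rcases this with h | h
  · rw [h, Real.cosh_eq, Real.sinh_eq]; ring_nf
  · rw [h, Real.cosh_eq, Real.sinh_eq]; ring_nf

lemma M_flip_p {τ : ι → ℝ} {e : ι} (he : e ∈ N.E) (hτ : τ e ^ 2 = 1)
    (hp : N.p e ∈ N.A ∨ N.c (N.p e) = 1) (hq : N.q e ∈ N.A ∨ N.c (N.q e) = 1) :
    N.M β (flip τ e) (N.p e)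
      = Real.cosh (2 * β) * N.M β τ (N.p e) - τ e * Real.sinh (2 * β) * N.M β τ (N.q e) := by
  unfold M
  rw [Finset.mul_sum, Finset.mul_sum, ← Finset.sum_sub_distrib]
  refine Finset.sum_congr rfl (fun S _ => ?_)
  have h1 := N.sv_sq_of (S := S) hp
  have h2 := N.sv_sq_of (S := S) hq
  rw [N.wt_flip β he, exp_sign (by rw [mul_pow, mul_pow, hτ, h1, h2]; norm_num)]
  have : N.sv S (N.p e) * N.sv S (N.q e) * N.sv S (N.p e) = N.sv S (N.q e) := by
    rw [show N.sv S (N.p e) * N.sv S (N.q e) * N.sv S (N.p e)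
      = N.sv S (N.p e) ^ 2 * N.sv S (N.q e) by ring, h1, one_mul]
  linear_combination (-(N.wt β τ S * τ e * Real.sinh (2 * β))) * this

lemma M_flip_q {τ : ι → ℝ} {e : ι} (he : e ∈ N.E) (hτ : τ e ^ 2 = 1)
    (hp : N.p e ∈ N.A ∨ N.c (N.p e) = 1) (hq : N.q e ∈ N.A ∨ N.c (N.q e) = 1) :
    N.M β (flip τ e) (N.q e)
      = Real.cosh (2 * β) * N.M β τ (N.q e) - τ e * Real.sinh (2 * β) * N.M β τ (N.p e) := by
  unfold M
  rw [Finset.mul_sum, Finset.mul_sum, ← Finset.sum_sub_distrib]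
  refine Finset.sum_congr rfl (fun S _ => ?_)
  have h1 := N.sv_sq_of (S := S) hp
  have h2 := N.sv_sq_of (S := S) hq
  rw [N.wt_flip β he, exp_sign (by rw [mul_pow, mul_pow, hτ, h1, h2]; norm_num)]
  have : N.sv S (N.p e) * N.sv S (N.q e) * N.sv S (N.q e) = N.sv S (N.p e) := by
    rw [show N.sv S (N.p e) * N.sv S (N.q e) * N.sv S (N.q e)
      = N.sv S (N.q e) ^ 2 * N.sv S (N.p e) by ring, h2, one_mul]
  linear_combination (-(N.wt β τ S * τ e * Real.sinh (2 * β))) * this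

/-- flips of inactive edges do nothing -/
lemma M_flip_inactive {τ : ι → ℝ} {e : ι} (he : e ∉ N.E ∨
    (N.p e ∉ N.A ∧ N.c (N.p e) = 0) ∨ (N.q e ∉ N.A ∧ N.c (N.q e) = 0)) (x : P) :
    N.M β (flip τ e) x = N.M β τ x := by
  apply N.M_congr
  intro f hf
  by_cases h : f = e
  · subst h
    rcases he with he | he
    · exact absurd hf he
    · exact Or.inr he
  · left; exact flip_ne _ h

/-- gauge transformation -/
noncomputable def gauge (T : Finset P) (τ : ι → ℝ) : ι → ℝ :=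
  fun e => eps T (N.p e) * eps T (N.q e) * τ e

omit [DecidableEq ι] in
lemma sv_symmDiff {T : Finset P} (hT : ∀ x ∈ T, x ∈ N.A ∨ N.c x = 0) (S : Finset P) (x : P) :
    N.sv (symmDiff (T ∩ N.A) S) x = eps T x * N.sv S x := by
  unfold sv
  split_ifs with h
  · rw [symmDiff_comm, sp_symmDiff]
    congr 1
    unfold eps
    by_cases hx : x ∈ T
    · rw [if_pos (Finset.mem_inter.2 ⟨hx, h⟩), if_pos hx]
    · rw [if_neg (fun h' => hx (Finset.mem_inter.1 h').1), if_neg hx]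
  · by_cases hx : x ∈ T
    · rcases hT x hx with h' | h'
      · exact absurd h' h
      · rw [h']; ring
    · unfold eps; rw [if_neg hx]; ring

omit [DecidableEq ι] in
lemma wt_gauge {T : Finset P} (hT : ∀ x ∈ T, x ∈ N.A ∨ N.c x = 0) (τ : ι → ℝ) (S : Finset P) :
    N.wt β (N.gauge T τ) S = N.wt β τ (symmDiff (T ∩ N.A) S) := by
  unfold wt
  congr 2
  refine Finset.sum_congr rfl (fun e _ => ?_)
  rw [N.sv_symmDiff hT, N.sv_symmDiff hT]
  unfold gauge; ring

omit [DecidableEq ι] in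
lemma M_gauge {T : Finset P} (hT : ∀ x ∈ T, x ∈ N.A ∨ N.c x = 0) (τ : ι → ℝ) (x : P) :
    N.M β (N.gauge T τ) x = eps T x * N.M β τ x := by
  have h1 : N.M β (N.gauge T τ) x = eps T x *
      ∑ S ∈ N.A.powerset, N.wt β τ (symmDiff (T ∩ N.A) S) * N.sv (symmDiff (T ∩ N.A) S) x := by
    unfold M
    rw [Finset.mul_sum]
    refine Finset.sum_congr rfl (fun S _ => ?_)
    rw [N.wt_gauge β hT, N.sv_symmDiff hT]
    have := eps_mul_self T x
    linear_combination (-(N.wt β τ (symmDiff (T ∩ N.A) S) * N.sv S x)) * this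
  rw [h1]
  congr 1
  exact sum_powerset_symmDiff (A := N.A) (S := T ∩ N.A) Finset.inter_subset_right
    (fun S => N.wt β τ S * N.sv S x)

/-- gauge equivalence on the edges of the network -/
def Geq (τ τ' : ι → ℝ) : Prop :=
  ∃ T : Finset P, (∀ x ∈ T, x ∈ N.A ∨ N.c x = 0) ∧ ∀ e ∈ N.E, τ' e = N.gauge T τ e

omit [DecidableEq ι] in
lemma Geq.refl (τ : ι → ℝ) : N.Geq τ τ :=
  ⟨∅, by simp, fun e _ => by simp [gauge, eps]⟩

omit [DecidableEq ι] in
lemma eps_symmDiff (T T' : Finset P) (x : P) : eps (symmDiff T T') x = eps T x * eps T' x := by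
  unfold eps
  by_cases h1 : x ∈ T <;> by_cases h2 : x ∈ T' <;> simp [Finset.mem_symmDiff, h1, h2]

omit [DecidableEq ι] in
lemma Geq.symm {N : Net ι P} {τ τ' : ι → ℝ} (h : N.Geq τ τ') : N.Geq τ' τ := by
  obtain ⟨T, hT, h⟩ := h
  refine ⟨T, hT, fun e he => ?_⟩
  unfold gauge at *
  rw [h e he]
  have h1 := eps_mul_self T (N.p e)
  have h2 := eps_mul_self T (N.q e)
  calc τ e = (eps T (N.p e) * eps T (N.p e)) * (eps T (N.q e) * eps T (N.q e)) * τ e := by
        rw [h1, h2]; ring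
    _ = _ := by ring

omit [DecidableEq ι] in
lemma Geq.trans {N : Net ι P} {τ τ' τ'' : ι → ℝ} (h : N.Geq τ τ') (h' : N.Geq τ' τ'') :
    N.Geq τ τ'' := by
  obtain ⟨T, hT, h⟩ := h
  obtain ⟨T', hT', h'⟩ := h'
  refine ⟨symmDiff T T', ?_, fun e he => ?_⟩
  · intro x hx
    rcases Finset.mem_symmDiff.1 hx with h | h
    · exact hT x h.1
    · exact hT' x h.1
  · rw [h' e he]
    unfold gauge at *
    rw [h e he, eps_symmDiff, eps_symmDiff]; ring

lemma Geq.flip {N : Net ι P} {τ τ' : ι → ℝ} (h : N.Geq τ τ') (f : ι) :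
    N.Geq (flip τ f) (Net.flip τ' f) := by
  obtain ⟨T, hT, h⟩ := h
  refine ⟨T, hT, fun e he => ?_⟩
  unfold gauge at *
  rw [flip_apply, flip_apply]
  split_ifs
  · rw [h e he]; ring
  · rw [h e he]

omit [DecidableEq ι] in
lemma Geq.M_sq {N : Net ι P} {τ τ' : ι → ℝ} (h : N.Geq τ τ') (x : P) :
    N.M β τ' x ^ 2 = N.M β τ x ^ 2 := by
  obtain ⟨T, hT, h⟩ := h
  have h1 : N.M β τ' x = N.M β (N.gauge T τ) x := N.M_congr β (fun e he => Or.inl (h e he)) x
  rw [h1, N.M_gauge β hT, mul_pow]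
  have := eps_mul_self T x
  rw [show eps T x ^ 2 = 1 by rw [sq]; exact this, one_mul]

end Net
end Pool.Agent.P6ac95e
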