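import Pool.Agent.Lib.P6ac95e.KC1

set_option autoImplicit false
open Finset

namespace Pool.Agent.P6ac95e

/-- lattice edges: `(true,i,j)` joins `(i,j)` and `(i+1,j)`, `(false,i,j)` joins `(i,j)`
and `(i,j+1)` -/
abbrev Edg := Bool × ℤ × ℤ

/-- the box of radius `n` with the half-line `{(i,0) : i ≤ a}` removed, plus spins outside -/
noncomputable def net (n a : ℤ) : Net Edg (ℤ × ℤ) where
  E := ({true} ×ˢ (Finset.Icc (-n-1) n ×ˢ Finset.Icc (-n) n)) ∪
    ({false} ×ˢ (Finset.Icc (-n) n ×ˢ Finset.Icc (-n-1) n))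
  p := fun e => e.2
  q := fun e => if e.1 then (e.2.1 + 1, e.2.2) else (e.2.1, e.2.2 + 1)
  A := (Finset.Icc (-n) n ×ˢ Finset.Icc (-n) n).filter (fun x => ¬ (x.2 = 0 ∧ x.1 ≤ a))
  c := fun x => if x.2 = 0 ∧ x.1 ≤ a then 0 else 1

variable {n a : ℤ}

lemma net_p (e : Edg) : (net n a).p e = e.2 := rfl
lemma net_q_true (i j : ℤ) : (net n a).q (true, i, j) = (i + 1, j) := rfl
lemma net_q_false (i j : ℤ) : (net n a).q (false, i, j) = (i, j + 1) := rfl

lemma mem_E_true {i j : ℤ} : ((true, i, j) : Edg) ∈ (net n a).E ↔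
    (-n-1 ≤ i ∧ i ≤ n) ∧ (-n ≤ j ∧ j ≤ n) := by
  simp [net]

lemma mem_E_false {i j : ℤ} : ((false, i, j) : Edg) ∈ (net n a).E ↔
    (-n ≤ i ∧ i ≤ n) ∧ (-n-1 ≤ j ∧ j ≤ n) := by
  simp [net]

lemma mem_A {i j : ℤ} : ((i, j) : ℤ × ℤ) ∈ (net n a).A ↔
    ((-n ≤ i ∧ i ≤ n) ∧ (-n ≤ j ∧ j ≤ n)) ∧ ¬ (j = 0 ∧ i ≤ a) := by
  simp [net]

lemma c_zero {i j : ℤ} (h : j = 0 ∧ i ≤ a) : (net n a).c (i, j) = 0 := by
  simp only [net]; rw [if_pos h]

lemma c_one {i j : ℤ} (h : ¬ (j = 0 ∧ i ≤ a)) : (net n a).c (i, j) = 1 := by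
  simp only [net]; rw [if_neg h]

lemma removed {i j : ℤ} (h : j = 0 ∧ i ≤ a) :
    ((i, j) : ℤ × ℤ) ∉ (net n a).A ∧ (net n a).c (i, j) = 0 :=
  ⟨fun h' => (mem_A.1 h').2 h, c_zero h⟩

lemma not_removed {i j : ℤ} (h : ¬ (j = 0 ∧ i ≤ a)) :
    ((i, j) : ℤ × ℤ) ∈ (net n a).A ∨ (net n a).c (i, j) = 1 := Or.inr (c_one h)

/-- the sign field of the face with lower left corner `(i,j)` -/
noncomputable def tau (i j : ℤ) (e : Edg) : ℝ :=
  if e.1 then (if e.2.1 = i ∧ ((1 ≤ e.2.2 ∧ e.2.2 ≤ j) ∨ (j + 1 ≤ e.2.2 ∧ e.2.2 ≤ 0)) then -1 else 1)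
  else (if e.2.2 = 0 ∧ e.2.1 ≤ i then -1 else 1)

lemma tau_true (i j i' j' : ℤ) : tau i j (true, i', j')
    = if i' = i ∧ ((1 ≤ j' ∧ j' ≤ j) ∨ (j + 1 ≤ j' ∧ j' ≤ 0)) then -1 else 1 := rfl

lemma tau_false (i j i' j' : ℤ) : tau i j (false, i', j')
    = if j' = 0 ∧ i' ≤ i then -1 else 1 := rfl

lemma tau_sq (i j : ℤ) (e : Edg) : tau i j e ^ 2 = 1 := by
  unfold tau; split_ifs <;> norm_num

lemma tau_flip_h (i j : ℤ) : tau i j = Net.flip (tau i (j - 1)) (true, i, j) := by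
  funext e
  obtain ⟨b, i', j'⟩ := e
  rw [Net.flip_apply]
  cases b
  · rw [if_neg (by simp), tau_false, tau_false]
  · rw [tau_true, tau_true]
    simp only [Prod.mk.injEq, true_and]
    split_ifs <;> first | rfl | (exfalso; omega) | norm_num

lemma tau_flip_v {i j : ℤ} (hi : -n ≤ i ∧ i ≤ n) (hj : -n-1 ≤ j ∧ j ≤ n) :
    (net n a).Geq (Net.flip (tau (i - 1) j) (false, i, j)) (tau i j) := by
  refine ⟨{i} ×ˢ (Finset.Icc 1 j ∪ Finset.Icc (j + 1) 0), ?_, ?_⟩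
  · rintro ⟨x1, x2⟩ hx
    simp only [Finset.mem_product, Finset.mem_singleton, Finset.mem_union, Finset.mem_Icc] at hx
    obtain ⟨h1, h2⟩ := hx
    subst h1
    by_cases hr : x2 = 0 ∧ x1 ≤ a
    · exact Or.inr (c_zero hr)
    · exact Or.inl (mem_A.2 ⟨⟨hi, by omega⟩, hr⟩)
  · rintro ⟨b, i', j'⟩ _
    unfold Net.gauge eps
    rw [Net.flip_apply]
    cases b
    · rw [net_p, net_q_false, tau_false, tau_false]
      simp only [Finset.mem_product, Finset.mem_singleton, Finset.mem_union, Finset.mem_Icc,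
        Prod.mk.injEq, true_and]
      split_ifs <;> first | rfl | (exfalso; omega) | norm_num
    · rw [net_p, net_q_true, tau_true, tau_true, if_neg (by simp : ¬ ((true, i', j') : Edg) = (false, i, j))]
      simp only [Finset.mem_product, Finset.mem_singleton, Finset.mem_union, Finset.mem_Icc]
      split_ifs <;> first | rfl | (exfalso; omega) | norm_num

/-- faces touching the removed line from above or below carry no disorder -/
lemma M_tau_slit (β : ℝ) {i j : ℤ} (hi : i ≤ a) (hj : j = 0 ∨ j = -1) (x : ℤ × ℤ) :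
    (net n a).M β (tau i j) x = (net n a).M β (fun _ => 1) x := by
  apply Net.M_congr
  rintro ⟨b, i', j'⟩ _
  cases b
  · rw [tau_false]
    split_ifs with h
    · right; left
      rw [net_p]; exact removed ⟨h.1, by omega⟩
    · left; rfl
  · rw [tau_true]
    split_ifs with h
    · right; left
      rw [net_p]; exact removed ⟨by omega, by omega⟩
    · left; rfl

end Pool.Agent.P6ac95e
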