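import Pool.Agent.Lib.P6ac95e.KC2

set_option autoImplicit false
open Finset

namespace Pool.Agent.P6ac95e

variable {n a : ℤ}

/-- squared observable of the face `(i,j)` -/
noncomputable def FF (n a : ℤ) (β : ℝ) (i j : ℤ) (x : ℤ × ℤ) : ℝ :=
  (net n a).M β (tau i j) x ^ 2

lemma FF_removed (β : ℝ) (i j : ℤ) {k l : ℤ} (h : l = 0 ∧ k ≤ a) : FF n a β i j (k, l) = 0 := by
  unfold FF
  rw [Net.M_zero _ _ (removed h).1 (removed h).2]; norm_num

lemma FF_out (β : ℝ) (i j : ℤ) {k l : ℤ} (h : ¬ (l = 0 ∧ k ≤ a))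
    (h' : ((k, l) : ℤ × ℤ) ∉ (net n a).A) :
    FF n a β i j (k, l) = (net n a).ZZ β (tau i j) ^ 2 := by
  unfold FF
  rw [Net.M_one _ _ h' (c_one h)]

lemma ok_or (x : ℤ × ℤ) : (x ∉ (net n a).A ∧ (net n a).c x = 0) ∨
    (x ∈ (net n a).A ∨ (net n a).c x = 1) := by
  obtain ⟨k, l⟩ := x
  by_cases h : l = 0 ∧ k ≤ a
  · exact Or.inl (removed h)
  · exact Or.inr (not_removed h)

lemma flip_diff (β : ℝ) {τ : Edg → ℝ} {e : Edg} (hτ : τ e ^ 2 = 1) :
    (net n a).M β (Net.flip τ e) ((net n a).q e) ^ 2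
      - (net n a).M β (Net.flip τ e) ((net n a).p e) ^ 2
    = (net n a).M β τ ((net n a).q e) ^ 2 - (net n a).M β τ ((net n a).p e) ^ 2 := by
  by_cases he : e ∈ (net n a).E
  · rcases ok_or (n := n) (a := a) ((net n a).p e) with h1 | h1
    · rw [Net.M_flip_inactive _ _ (Or.inr (Or.inl h1)), Net.M_flip_inactive _ _ (Or.inr (Or.inl h1))]
    · rcases ok_or (n := n) (a := a) ((net n a).q e) with h2 | h2
      · rw [Net.M_flip_inactive _ _ (Or.inr (Or.inr h2)),
          Net.M_flip_inactive _ _ (Or.inr (Or.inr h2))]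
      · rw [Net.M_flip_p _ _ he hτ h1 h2, Net.M_flip_q _ _ he hτ h1 h2]
        have hc := Real.cosh_sq (2 * β)
        linear_combination ((net n a).M β τ ((net n a).q e) ^ 2
          - (net n a).M β τ ((net n a).p e) ^ 2) * hc
          + Real.sinh (2 * β) ^ 2 * ((net n a).M β τ ((net n a).p e) ^ 2
          - (net n a).M β τ ((net n a).q e) ^ 2) * hτ
  · rw [Net.M_flip_inactive _ _ (Or.inl he), Net.M_flip_inactive _ _ (Or.inl he)]

lemma G2 (β : ℝ) (i j : ℤ) : FF n a β i j (i + 1, j) - FF n a β i j (i, j)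
    = FF n a β i (j - 1) (i + 1, j) - FF n a β i (j - 1) (i, j) := by
  have h := flip_diff (n := n) (a := a) β (τ := tau i (j - 1)) (e := (true, i, j)) (tau_sq _ _ _)
  rw [net_p, net_q_true, ← tau_flip_h] at h
  exact h

lemma G1 (hn : 0 ≤ n) (β : ℝ) (i j : ℤ) : FF n a β i j (i, j + 1) - FF n a β i j (i, j)
    = FF n a β (i - 1) j (i, j + 1) - FF n a β (i - 1) j (i, j) := by
  by_cases hr : (-n ≤ i ∧ i ≤ n) ∧ (-n-1 ≤ j ∧ j ≤ n)
  · have hg := tau_flip_v (a := a) hr.1 hr.2
    unfold FF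
    rw [hg.M_sq β, hg.M_sq β]
    have h := flip_diff (n := n) (a := a) β (τ := tau (i - 1) j) (e := (false, i, j))
      (tau_sq _ _ _)
    rw [net_p, net_q_false] at h
    exact h
  · by_cases hs : (j = 0 ∨ j = -1) ∧ i ≤ a
    · unfold FF
      rw [M_tau_slit β hs.2 hs.1, M_tau_slit β hs.2 hs.1,
        M_tau_slit β (i := i - 1) (by omega) hs.1, M_tau_slit β (i := i - 1) (by omega) hs.1]
    · have h1 : ¬ (j = 0 ∧ i ≤ a) := by omega
      have h2 : ¬ (j + 1 = 0 ∧ i ≤ a) := by omega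
      have h3 : ((i, j) : ℤ × ℤ) ∉ (net n a).A := by
        rw [mem_A]; omega
      have h4 : ((i, j + 1) : ℤ × ℤ) ∉ (net n a).A := by
        rw [mem_A]; omega
      rw [FF_out β i j h1 h3, FF_out β i j h2 h4, FF_out β (i-1) j h1 h3,
        FF_out β (i-1) j h2 h4]
      ring

lemma exists_primitive (g : ℤ → ℝ) : ∃ G : ℤ → ℝ, G 0 = 0 ∧ ∀ i, G (i + 1) - G i = g i := by
  refine ⟨fun i => ∑ k ∈ Finset.Ico 0 i, g k - ∑ k ∈ Finset.Ico i 0, g k, by simp, fun i => ?_⟩
  simp only
  rcases le_or_gt 0 i with h | h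
  · have e1 : Finset.Ico 0 (i + 1) = insert i (Finset.Ico 0 i) := by
      ext k; simp only [Finset.mem_Ico, Finset.mem_insert]; omega
    have e2 : Finset.Ico i 0 = ∅ := by
      ext k; simp only [Finset.mem_Ico]; simp; omega
    have e3 : Finset.Ico (i + 1) 0 = ∅ := by
      ext k; simp only [Finset.mem_Ico]; simp; omega
    rw [e1, e2, e3, Finset.sum_insert (by simp)]
    ring
  · have e1 : Finset.Ico i 0 = insert i (Finset.Ico (i + 1) 0) := by
      ext k; simp only [Finset.mem_Ico, Finset.mem_insert]; omega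
    have e2 : Finset.Ico 0 i = ∅ := by
      ext k; simp only [Finset.mem_Ico]; simp; omega
    have e3 : Finset.Ico 0 (i + 1) = ∅ := by
      ext k; simp only [Finset.mem_Ico]; simp; omega
    rw [e1, e2, e3, Finset.sum_insert (by simp)]
    ring

lemma int_const {g : ℤ → ℝ} (h : ∀ i, g (i + 1) = g i) (i j : ℤ) : g i = g j := by
  have key : ∀ i, g i = g 0 := by
    intro i
    induction i using Int.induction_on with
    | zero => rfl
    | succ k ih => rw [h]; exact ih
    | pred k ih =>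
      have := h (-(k:ℤ) - 1)
      rw [sub_add_cancel] at this
      rw [← this]; exact ih
  rw [key i, key j]

lemma exists_potential (θh θv : ℤ → ℤ → ℝ)
    (hcurl : ∀ i j, θh i j + θv (i + 1) j = θv i j + θh i (j + 1)) :
    ∃ H : ℤ → ℤ → ℝ, (∀ i j, H (i + 1) j - H i j = θh i j) ∧
      ∀ i j, H i (j + 1) - H i j = θv i j := by
  obtain ⟨G0, _, hG0⟩ := exists_primitive (fun i => θh i 0)
  choose G hG1 hG2 using fun i => exists_primitive (θv i)
  refine ⟨fun i j => G0 i + G i j, fun i j => ?_, fun i j => ?_⟩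
  · have hc := int_const (g := fun j => G0 (i + 1) + G (i + 1) j - (G0 i + G i j) - θh i j)
      (fun j => by
        have h1 := hG2 (i + 1) j
        have h2 := hG2 i j
        have h3 := hcurl i j
        linarith) j 0
    rw [hG1, hG1] at hc
    have h4 := hG0 i
    linarith
  · have h2 := hG2 i j
    linarith

theorem exists_H (hn : 0 ≤ n) (ha : -n - 1 ≤ a ∧ a ≤ n) (β : ℝ) : ∃ H : ℤ → ℤ → ℝ,
    (∀ i j, H (i + 1) j - H i j = FF n a β i j (i + 1, j) - FF n a β i j (i, j)) ∧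
    (∀ i j, H i (j + 1) - H i j = FF n a β i j (i, j + 1) - FF n a β i j (i, j)) ∧
    (∀ i, i ≤ a → H i 0 = 0) ∧
    (∀ i, i ≤ a → H i 1 = (net n a).M β (fun _ => 1) (i, 1) ^ 2) ∧
    (∀ i, i ≤ a → H i (-1) = (net n a).M β (fun _ => 1) (i, -1) ^ 2) ∧
    (H (a + 1) 0 = (net n a).M β (fun _ => 1) (a + 1, 0) ^ 2) ∧
    (∀ i j, (i = -n-1 ∨ i = n+1 ∨ j = -n-1 ∨ j = n+1) → ¬ (j = 0 ∧ i ≤ a) →
      H i j = (net n a).ZZ β (fun _ => 1) ^ 2) := by
  obtain ⟨H0, hh, hv⟩ := exists_potential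
    (fun i j => FF n a β i j (i + 1, j) - FF n a β i j (i, j))
    (fun i j => FF n a β i j (i, j + 1) - FF n a β i j (i, j)) (fun i j => by
      have h1 := G1 (a := a) hn β (i + 1) j
      have h2 := G2 (n := n) (a := a) β i (j + 1)
      rw [add_sub_cancel_right] at h1 h2
      linarith)
  obtain ⟨H, hH⟩ : ∃ H : ℤ → ℤ → ℝ, H = fun i j => H0 i j - H0 a 0 := ⟨_, rfl⟩
  have dh : ∀ i j, H (i + 1) j - H i j = FF n a β i j (i + 1, j) - FF n a β i j (i, j) := by
    intro i j; rw [hH, ← hh]; ring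
  have dv : ∀ i j, H i (j + 1) - H i j = FF n a β i j (i, j + 1) - FF n a β i j (i, j) := by
    intro i j; rw [hH, ← hv]; ring
  have hR : ∀ i, i ≤ a → H i 0 = 0 := by
    intro i hi
    induction i, hi using Int.leInductionDown with
    | base => rw [hH]; ring
    | pred k hk ih =>
      have := dh (k - 1) 0
      rw [sub_add_cancel, FF_removed β _ _ ⟨rfl, hk⟩, FF_removed β _ _ ⟨rfl, by omega⟩, ih] at this
      linarith
  have hE1 : ∀ i, i ≤ a → H i 1 = (net n a).M β (fun _ => 1) (i, 1) ^ 2 := by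
    intro i hi
    have := dv i 0
    rw [zero_add, FF_removed β _ _ ⟨rfl, hi⟩, hR i hi] at this
    unfold FF at this
    rw [M_tau_slit β hi (Or.inl rfl)] at this
    linarith
  have hE2 : ∀ i, i ≤ a → H i (-1) = (net n a).M β (fun _ => 1) (i, -1) ^ 2 := by
    intro i hi
    have := dv i (-1)
    rw [show (-1:ℤ) + 1 = 0 by norm_num, FF_removed β _ _ ⟨rfl, hi⟩, hR i hi] at this
    unfold FF at this
    rw [M_tau_slit β hi (Or.inr rfl)] at this
    linarith
  have hE3 : H (a + 1) 0 = (net n a).M β (fun _ => 1) (a + 1, 0) ^ 2 := by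
    have := dh a 0
    rw [FF_removed β _ _ ⟨rfl, le_refl a⟩, hR a le_rfl] at this
    unfold FF at this
    rw [M_tau_slit β le_rfl (Or.inl rfl)] at this
    linarith
  have nA : ∀ i j, (i = -n-1 ∨ i = n+1 ∨ j = -n-1 ∨ j = n+1) →
      ((i, j) : ℤ × ℤ) ∉ (net n a).A := by
    intro i j h; rw [mem_A]; omega
  -- left side, above the line
  have w1 : ∀ j, 1 ≤ j → H (-n-1) j = (net n a).ZZ β (fun _ => 1) ^ 2 := by
    intro j hj
    induction j, hj using Int.leInduction with
    | base => rw [hE1 _ ha.1, Net.M_one _ _ (nA _ _ (Or.inl rfl)) (c_one (by omega))]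
    | succ k hk ih =>
      have := dv (-n-1) k
      rw [FF_out β _ _ (by omega) (nA _ _ (Or.inl rfl)), FF_out β _ _ (by omega)
        (nA _ _ (Or.inl rfl))] at this
      linarith
  have w2 : ∀ j, j ≤ -1 → H (-n-1) j = (net n a).ZZ β (fun _ => 1) ^ 2 := by
    intro j hj
    induction j, hj using Int.leInductionDown with
    | base => rw [hE2 _ ha.1, Net.M_one _ _ (nA _ _ (Or.inl rfl)) (c_one (by omega))]
    | pred k hk ih =>
      have := dv (-n-1) (k - 1)
      rw [sub_add_cancel, FF_out β _ _ (by omega) (nA _ _ (Or.inl rfl)), FF_out β _ _ (by omega)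
        (nA _ _ (Or.inl rfl))] at this
      linarith
  have w3 : ∀ i, H i (n + 1) = (net n a).ZZ β (fun _ => 1) ^ 2 := by
    intro i
    rw [int_const (g := fun i => H i (n + 1)) (fun i => ?_) i (-n-1)]
    · exact w1 _ (by omega)
    · have := dh i (n + 1)
      rw [FF_out β _ _ (by omega) (nA _ _ (by omega)), FF_out β _ _ (by omega)
        (nA _ _ (by omega))] at this
      linarith
  have w4 : ∀ i, H i (-n-1) = (net n a).ZZ β (fun _ => 1) ^ 2 := by
    intro i
    rw [int_const (g := fun i => H i (-n-1)) (fun i => ?_) i (-n-1)]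
    · exact w2 _ (by omega)
    · have := dh i (-n-1)
      rw [FF_out β _ _ (by omega) (nA _ _ (by omega)), FF_out β _ _ (by omega)
        (nA _ _ (by omega))] at this
      linarith
  have w5 : ∀ j, H (n + 1) j = (net n a).ZZ β (fun _ => 1) ^ 2 := by
    intro j
    rw [int_const (g := fun j => H (n + 1) j) (fun j => ?_) j (n + 1)]
    · exact w3 _
    · have := dv (n + 1) j
      rw [FF_out β _ _ (by omega) (nA _ _ (by omega)), FF_out β _ _ (by omega)
        (nA _ _ (by omega))] at this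
      linarith
  refine ⟨H, dh, dv, hR, hE1, hE2, hE3, ?_⟩
  intro i j hij hr
  rcases hij with h | h | h | h
  · subst h
    rcases lt_trichotomy j 0 with h1 | h1 | h1
    · exact w2 j (by omega)
    · exact absurd ⟨h1, ha.1⟩ hr
    · exact w1 j (by omega)
  · subst h; exact w5 j
  · subst h; exact w4 i
  · subst h; exact w3 i

end Pool.Agent.P6ac95e
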