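import Pool.Agent.Lib.P6ac95e.KC3

set_option autoImplicit false
open Finset

namespace Pool.Agent.P6ac95e

variable {n a : ℤ}

lemma cosh_crit {β : ℝ} (hS : Real.sinh (2 * β) = 1) : Real.cosh (2 * β) = Real.sqrt 2 := by
  have h := Real.cosh_sq (2 * β)
  rw [hS] at h
  rw [show (Real.sqrt 2) = Real.sqrt (Real.cosh (2 * β) ^ 2) by rw [h]; norm_num,
    Real.sqrt_sq (Real.cosh_pos _).le]

lemma step_active {β : ℝ} (hS : Real.sinh (2 * β) = 1) {τ : Edg → ℝ} {e : Edg} {x y : ℤ × ℤ}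
    (he : e ∈ (net n a).E) (hτ : τ e ^ 2 = 1)
    (hxy : ((net n a).p e = x ∧ (net n a).q e = y) ∨ ((net n a).p e = y ∧ (net n a).q e = x))
    (hx : x ∈ (net n a).A ∨ (net n a).c x = 1) (hy : y ∈ (net n a).A ∨ (net n a).c y = 1) :
    (net n a).M β τ y ^ 2
      = (Real.sqrt 2 * (net n a).M β τ x - (net n a).M β (Net.flip τ e) x) ^ 2 := by
  rcases hxy with ⟨h1, h2⟩ | ⟨h1, h2⟩
  · subst h1; subst h2
    rw [Net.M_flip_p _ _ he hτ hx hy, cosh_crit hS, hS]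
    linear_combination (-((net n a).M β τ ((net n a).q e)) ^ 2) * hτ
  · subst h1; subst h2
    rw [Net.M_flip_q _ _ he hτ hy hx, cosh_crit hS, hS]
    linear_combination (-((net n a).M β τ ((net n a).p e)) ^ 2) * hτ

lemma step_removed {β : ℝ} {τ : Edg → ℝ} {e : Edg} {x y : ℤ × ℤ}
    (hxy : ((net n a).p e = x ∧ (net n a).q e = y) ∨ ((net n a).p e = y ∧ (net n a).q e = x))
    (hy : y ∉ (net n a).A ∧ (net n a).c y = 0) :
    (net n a).M β (Net.flip τ e) x = (net n a).M β τ x ∧ (net n a).M β τ y = 0 := by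
  refine ⟨?_, Net.M_zero _ _ hy.1 hy.2⟩
  apply Net.M_flip_inactive
  rcases hxy with ⟨h1, h2⟩ | ⟨h1, h2⟩
  · right; right; rw [h2]; exact hy
  · right; left; rw [h1]; exact hy

lemma flip_sq {τ : Edg → ℝ} (h : ∀ e, τ e ^ 2 = 1) (f e : Edg) : Net.flip τ f e ^ 2 = 1 := by
  rw [Net.flip_apply]; split_ifs
  · rw [neg_sq]; exact h e
  · exact h e

/-- going once around a vertex multiplies the observable by `-1` -/
lemma around (β : ℝ) {i j : ℤ} (hA : ((i, j) : ℤ × ℤ) ∈ (net n a).A) (τ : Edg → ℝ) :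
    (net n a).M β (Net.flip (Net.flip (Net.flip (Net.flip τ (false, i, j)) (true, i - 1, j))
      (false, i, j - 1)) (true, i, j)) (i, j) = - (net n a).M β τ (i, j) := by
  have h1 : (net n a).M β (Net.flip (Net.flip (Net.flip (Net.flip τ (false, i, j))
      (true, i - 1, j)) (false, i, j - 1)) (true, i, j)) (i, j)
      = (net n a).M β ((net n a).gauge {(i, j)} τ) (i, j) := by
    apply Net.M_congr
    rintro ⟨b, i', j'⟩ _
    left
    rw [Net.flip_apply, Net.flip_apply, Net.flip_apply, Net.flip_apply]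
    unfold Net.gauge eps
    cases b
    · rw [net_p, net_q_false,
        if_neg (by simp : ¬ ((false, i', j') : Edg) = (true, i, j)),
        if_neg (by simp : ¬ ((false, i', j') : Edg) = (true, i - 1, j))]
      simp only [Finset.mem_singleton, Prod.mk.injEq, true_and]
      split_ifs <;> first | (exfalso; omega) | ring
    · rw [net_p, net_q_true,
        if_neg (by simp : ¬ ((true, i', j') : Edg) = (false, i, j)),
        if_neg (by simp : ¬ ((true, i', j') : Edg) = (false, i, j - 1))]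
      simp only [Finset.mem_singleton, Prod.mk.injEq, true_and]
      split_ifs <;> first | (exfalso; omega) | ring
  rw [h1, Net.M_gauge]
  · unfold eps; rw [if_pos (Finset.mem_singleton_self _)]; ring
  · intro x hx
    rw [Finset.mem_singleton] at hx
    subst hx
    exact Or.inl hA

lemma alg4 (s x0 x1 x2 x3 x4 : ℝ) (hs : s ^ 2 = 2) (h4 : x4 = - x0) :
    0 ≤ ((s * x0 - x1) ^ 2 - x0 ^ 2) + ((s * x1 - x2) ^ 2 - x1 ^ 2)
      + ((s * x2 - x3) ^ 2 - x2 ^ 2) + ((s * x3 - x4) ^ 2 - x3 ^ 2) := by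
  subst h4
  have : ((s * x0 - x1) ^ 2 - x0 ^ 2) + ((s * x1 - x2) ^ 2 - x1 ^ 2)
      + ((s * x2 - x3) ^ 2 - x2 ^ 2) + ((s * x3 - -x0) ^ 2 - x3 ^ 2)
      = (s * x0 - x1 + x3) ^ 2 + (s * x2 - x1 - x3) ^ 2
        + (s ^ 2 - 2) * (x1 ^ 2 + x3 ^ 2) := by ring
  rw [this, hs]
  nlinarith [sq_nonneg (s * x0 - x1 + x3), sq_nonneg (s * x2 - x1 - x3)]

lemma alg3 (s x0 x1 x2 x3 : ℝ) (hs : s ^ 2 = 2) (hs0 : 0 ≤ s) (hs2 : s ≤ 2) (h3 : x3 = - x0) :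
    (2 - s) * x0 ^ 2 ≤ ((s * x0 - x1) ^ 2 - x0 ^ 2) + ((s * x1 - x2) ^ 2 - x1 ^ 2)
      + ((s * x2 - x3) ^ 2 - x2 ^ 2) ∧
    (2 - s) * x1 ^ 2 ≤ ((s * x0 - x1) ^ 2 - x0 ^ 2) + ((s * x1 - x2) ^ 2 - x1 ^ 2)
      + ((s * x2 - x3) ^ 2 - x2 ^ 2) ∧
    (2 - s) * x2 ^ 2 ≤ ((s * x0 - x1) ^ 2 - x0 ^ 2) + ((s * x1 - x2) ^ 2 - x1 ^ 2)
      + ((s * x2 - x3) ^ 2 - x2 ^ 2) := by
  subst h3
  have : ((s * x0 - x1) ^ 2 - x0 ^ 2) + ((s * x1 - x2) ^ 2 - x1 ^ 2)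
      + ((s * x2 - -x0) ^ 2 - x2 ^ 2)
      = s * (x0 - x1 + x2) ^ 2 + (2 - s) * x0 ^ 2 + (2 - s) * x1 ^ 2 + (2 - s) * x2 ^ 2
        + (s ^ 2 - 2) * (x0 ^ 2 + x1 ^ 2 + x2 ^ 2) := by ring
  rw [this, hs]
  have a0 : 0 ≤ s * (x0 - x1 + x2) ^ 2 := mul_nonneg hs0 (sq_nonneg _)
  have a1 : 0 ≤ (2 - s) * x0 ^ 2 := mul_nonneg (by linarith) (sq_nonneg _)
  have a2 : 0 ≤ (2 - s) * x1 ^ 2 := mul_nonneg (by linarith) (sq_nonneg _)
  have a3 : 0 ≤ (2 - s) * x2 ^ 2 := mul_nonneg (by linarith) (sq_nonneg _)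
  refine ⟨by linarith, by linarith, by linarith⟩

theorem subharm {β : ℝ} (hS : Real.sinh (2 * β) = 1) {H : ℤ → ℤ → ℝ} (hn : 0 ≤ n)
    (dh : ∀ i j, H (i + 1) j - H i j = FF n a β i j (i + 1, j) - FF n a β i j (i, j))
    (dv : ∀ i j, H i (j + 1) - H i j = FF n a β i j (i, j + 1) - FF n a β i j (i, j))
    (hR : ∀ i, i ≤ a → H i 0 = 0) {i j : ℤ} (hA : ((i, j) : ℤ × ℤ) ∈ (net n a).A) :
    ((¬ (j = -1 ∧ i ≤ a) ∧ ¬ (j = 1 ∧ i ≤ a) ∧ ¬ (j = 0 ∧ i = a + 1)) →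
      0 ≤ (H i (j + 1) - H i j) + (H (i - 1) j - H i j) + (H i (j - 1) - H i j)
        + (H (i + 1) j - H i j)) ∧
    ((j = -1 ∧ i ≤ a) → (2 - Real.sqrt 2) * H i j
      ≤ (H (i - 1) j - H i j) + (H i (j - 1) - H i j) + (H (i + 1) j - H i j)) ∧
    ((j = 1 ∧ i ≤ a) → (2 - Real.sqrt 2) * H i j
      ≤ (H i (j + 1) - H i j) + (H (i - 1) j - H i j) + (H (i + 1) j - H i j)) ∧
    ((j = 0 ∧ i = a + 1) → (2 - Real.sqrt 2) * H i j
      ≤ (H i (j + 1) - H i j) + (H i (j - 1) - H i j) + (H (i + 1) j - H i j)) := by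
  have hA' := mem_A.1 hA
  have hok : ((i, j) : ℤ × ℤ) ∈ (net n a).A ∨ (net n a).c (i, j) = 1 := Or.inl hA
  obtain ⟨τ0, hτ0⟩ : ∃ τ, τ = tau i j := ⟨_, rfl⟩
  obtain ⟨τ1, hτ1⟩ : ∃ τ, τ = Net.flip τ0 (false, i, j) := ⟨_, rfl⟩
  obtain ⟨τ2, hτ2⟩ : ∃ τ, τ = Net.flip τ1 (true, i - 1, j) := ⟨_, rfl⟩
  obtain ⟨τ3, hτ3⟩ : ∃ τ, τ = Net.flip τ2 (false, i, j - 1) := ⟨_, rfl⟩
  have s0 : ∀ e, τ0 e ^ 2 = 1 := fun e => by rw [hτ0]; exact tau_sq _ _ _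
  have s1 : ∀ e, τ1 e ^ 2 = 1 := fun e => by rw [hτ1]; exact flip_sq s0 _ _
  have s2 : ∀ e, τ2 e ^ 2 = 1 := fun e => by rw [hτ2]; exact flip_sq s1 _ _
  have s3 : ∀ e, τ3 e ^ 2 = 1 := fun e => by rw [hτ3]; exact flip_sq s2 _ _
  -- gauge equivalences
  have g1 : (net n a).Geq (tau (i - 1) j) τ1 := by
    have := (tau_flip_v (n := n) (a := a) (i := i) (j := j) hA'.1.1 ⟨by omega, by omega⟩).flip
      (false, i, j)
    rw [Net.flip_flip] at this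
    rw [hτ1, hτ0]; exact this
  have g2 : (net n a).Geq (tau (i - 1) (j - 1)) τ2 := by
    have := g1.flip (true, i - 1, j)
    rw [tau_flip_h (i - 1) j, Net.flip_flip] at this
    rw [hτ2]; exact this
  have g3 : (net n a).Geq (tau i (j - 1)) τ3 := by
    have h1 := g2.flip (false, i, j - 1)
    have h2 := tau_flip_v (n := n) (a := a) (i := i) (j := j - 1) hA'.1.1 ⟨by omega, by omega⟩
    rw [hτ3]
    exact h2.symm.trans h1
  obtain ⟨x0, hx0⟩ : ∃ x, x = (net n a).M β τ0 (i, j) := ⟨_, rfl⟩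
  obtain ⟨x1, hx1⟩ : ∃ x, x = (net n a).M β τ1 (i, j) := ⟨_, rfl⟩
  obtain ⟨x2, hx2⟩ : ∃ x, x = (net n a).M β τ2 (i, j) := ⟨_, rfl⟩
  obtain ⟨x3, hx3⟩ : ∃ x, x = (net n a).M β τ3 (i, j) := ⟨_, rfl⟩
  obtain ⟨x4, hx4⟩ : ∃ x, x = (net n a).M β (Net.flip τ3 (true, i, j)) (i, j) := ⟨_, rfl⟩
  have h40 : x4 = - x0 := by
    rw [hx4, hx0, hτ3, hτ2, hτ1]; exact around β hA τ0
  -- increments
  have D1 : H i (j + 1) - H i j = (net n a).M β τ0 (i, j + 1) ^ 2 - x0 ^ 2 := by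
    rw [dv, hx0, hτ0]; rfl
  have D2 : H (i - 1) j - H i j = (net n a).M β τ1 (i - 1, j) ^ 2 - x1 ^ 2 := by
    have h1 := dh (i - 1) j
    rw [sub_add_cancel] at h1
    rw [hx1, g1.M_sq β, g1.M_sq β]
    unfold FF at h1
    linarith
  have D3 : H i (j - 1) - H i j = (net n a).M β τ2 (i, j - 1) ^ 2 - x2 ^ 2 := by
    have h1 := dv i (j - 1)
    rw [G1 hn β i (j - 1), sub_add_cancel] at h1
    rw [hx2, g2.M_sq β, g2.M_sq β]
    unfold FF at h1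
    linarith
  have D4 : H (i + 1) j - H i j = (net n a).M β τ3 (i + 1, j) ^ 2 - x3 ^ 2 := by
    have h1 := dh i j
    rw [G2 β i j] at h1
    rw [hx3, g3.M_sq β, g3.M_sq β]
    unfold FF at h1
    linarith
  -- ends of the four edges
  have p1 : ((net n a).p (false, i, j) = (i, j) ∧ (net n a).q (false, i, j) = (i, j + 1)) ∨
      ((net n a).p (false, i, j) = (i, j + 1) ∧ (net n a).q (false, i, j) = (i, j)) :=
    Or.inl ⟨rfl, rfl⟩
  have p2 : ((net n a).p (true, i - 1, j) = (i, j) ∧ (net n a).q (true, i - 1, j) = (i - 1, j)) ∨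
      ((net n a).p (true, i - 1, j) = (i - 1, j) ∧ (net n a).q (true, i - 1, j) = (i, j)) :=
    Or.inr ⟨rfl, by rw [net_q_true, sub_add_cancel]⟩
  have p3 : ((net n a).p (false, i, j - 1) = (i, j) ∧ (net n a).q (false, i, j - 1) = (i, j - 1)) ∨
      ((net n a).p (false, i, j - 1) = (i, j - 1) ∧ (net n a).q (false, i, j - 1) = (i, j)) :=
    Or.inr ⟨rfl, by rw [net_q_false, sub_add_cancel]⟩
  have p4 : ((net n a).p (true, i, j) = (i, j) ∧ (net n a).q (true, i, j) = (i + 1, j)) ∨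
      ((net n a).p (true, i, j) = (i + 1, j) ∧ (net n a).q (true, i, j) = (i, j)) :=
    Or.inl ⟨rfl, rfl⟩
  have e1 : ((false, i, j) : Edg) ∈ (net n a).E := mem_E_false.2 ⟨hA'.1.1, by omega⟩
  have e2 : ((true, i - 1, j) : Edg) ∈ (net n a).E := mem_E_true.2 ⟨by omega, hA'.1.2⟩
  have e3 : ((false, i, j - 1) : Edg) ∈ (net n a).E := mem_E_false.2 ⟨hA'.1.1, by omega⟩
  have e4 : ((true, i, j) : Edg) ∈ (net n a).E := mem_E_true.2 ⟨by omega, hA'.1.2⟩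
  have act1 : ¬ (j + 1 = 0 ∧ i ≤ a) →
      H i (j + 1) - H i j = (Real.sqrt 2 * x0 - x1) ^ 2 - x0 ^ 2 := by
    intro h
    rw [D1, step_active hS e1 (s0 _) p1 hok (not_removed h), ← hτ1, ← hx0, ← hx1]
  have act2 : ¬ (j = 0 ∧ i - 1 ≤ a) →
      H (i - 1) j - H i j = (Real.sqrt 2 * x1 - x2) ^ 2 - x1 ^ 2 := by
    intro h
    rw [D2, step_active hS e2 (s1 _) p2 hok (not_removed h), ← hτ2, ← hx1, ← hx2]
  have act3 : ¬ (j - 1 = 0 ∧ i ≤ a) →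
      H i (j - 1) - H i j = (Real.sqrt 2 * x2 - x3) ^ 2 - x2 ^ 2 := by
    intro h
    rw [D3, step_active hS e3 (s2 _) p3 hok (not_removed h), ← hτ3, ← hx2, ← hx3]
  have act4 : H (i + 1) j - H i j = (Real.sqrt 2 * x3 - x4) ^ 2 - x3 ^ 2 := by
    have h : ¬ (j = 0 ∧ i + 1 ≤ a) := by omega
    rw [D4, step_active hS e4 (s3 _) p4 hok (not_removed h), ← hx4, ← hx3]
  have rs2 : Real.sqrt 2 ^ 2 = 2 := Real.sq_sqrt (by norm_num)
  have rs0 : 0 ≤ Real.sqrt 2 := Real.sqrt_nonneg 2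
  have rs1 : Real.sqrt 2 ≤ 2 := by nlinarith
  refine ⟨fun hc => ?_, fun hc => ?_, fun hc => ?_, fun hc => ?_⟩
  · rw [act1 (by omega), act2 (by omega), act3 (by omega), act4]
    exact alg4 _ x0 x1 x2 x3 x4 rs2 h40
  · have hr : j + 1 = 0 ∧ i ≤ a := by omega
    have h1 := step_removed (β := β) (τ := τ0) p1 (removed hr)
    rw [← hτ1, ← hx1, ← hx0] at h1
    have hH : H i j = x0 ^ 2 := by
      have h2 : H i (j + 1) = 0 := by rw [hr.1]; exact hR i hr.2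
      rw [h2, h1.2] at D1
      linarith
    rw [act2 (by omega), act3 (by omega), act4, hH, h1.1]
    exact (alg3 _ x0 x2 x3 x4 rs2 rs0 rs1 h40).1
  · have hr : j - 1 = 0 ∧ i ≤ a := by omega
    have h1 := step_removed (β := β) (τ := τ2) p3 (removed hr)
    rw [← hτ3, ← hx3, ← hx2] at h1
    have hH : H i j = x2 ^ 2 := by
      have h2 : H i (j - 1) = 0 := by rw [hr.1]; exact hR i hr.2
      rw [h2, h1.2] at D3
      linarith
    rw [act1 (by omega), act2 (by omega), act4, hH, h1.1]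
    exact (alg3 _ x0 x1 x2 x4 rs2 rs0 rs1 h40).2.2
  · have hr : j = 0 ∧ i - 1 ≤ a := by omega
    have h1 := step_removed (β := β) (τ := τ1) p2 (removed hr)
    rw [← hτ2, ← hx2, ← hx1] at h1
    have hH : H i j = x1 ^ 2 := by
      have h2 : H (i - 1) j = 0 := by rw [hr.1]; exact hR _ hr.2
      rw [h2, h1.2] at D2
      linarith
    rw [act1 (by omega), act3 (by omega), act4, hH, h1.1]
    exact (alg3 _ x0 x1 x3 x4 rs2 rs0 rs1 h40).2.1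

end Pool.Agent.P6ac95e
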