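import Pool.Agent.Lib.P6ac95e.KC4
import Pool.Agent.Lib.P6ac95e.Defs

set_option autoImplicit false
open Finset

namespace Pool.Agent.P6ac95e

lemma energy_ineq {P : Type*} (G : Finset P) (k : P → P → ℝ) (hk : ∀ x y, k x y = k y x)
    (hk0 : ∀ x y, 0 ≤ k x y) (u φ r : P → ℝ) (hu : ∀ x ∈ G, 0 ≤ u x ∧ u x ≤ 1)
    (hsub : ∀ x ∈ G, φ x ≠ 0 → r x * u x ≤ ∑ y ∈ G, k x y * (u y - u x)) :
    ∑ x ∈ G, r x * (φ x) ^ 2 * (u x) ^ 2
      ≤ (1/2) * ∑ x ∈ G, ∑ y ∈ G, k x y * (φ x - φ y) ^ 2 := by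
  have S1 : ∑ x ∈ G, r x * (φ x) ^ 2 * (u x) ^ 2
      ≤ ∑ x ∈ G, ∑ y ∈ G, k x y * ((φ x) ^ 2 * u x * (u y - u x)) := by
    apply Finset.sum_le_sum
    intro x hx
    have e : ∑ y ∈ G, k x y * ((φ x) ^ 2 * u x * (u y - u x))
        = (φ x) ^ 2 * u x * ∑ y ∈ G, k x y * (u y - u x) := by
      rw [Finset.mul_sum]; exact Finset.sum_congr rfl (fun y _ => by ring)
    rw [e]
    by_cases h : φ x = 0
    · rw [h]; simp
    · have h1 := mul_le_mul_of_nonneg_left (hsub x hx h)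
        (mul_nonneg (sq_nonneg (φ x)) (hu x hx).1)
      calc r x * (φ x) ^ 2 * (u x) ^ 2 = φ x ^ 2 * u x * (r x * u x) := by ring
        _ ≤ _ := h1
  have S2 : ∑ x ∈ G, ∑ y ∈ G, k x y * ((φ x) ^ 2 * u x * (u y - u x))
      = ∑ x ∈ G, ∑ y ∈ G, k x y * ((φ y) ^ 2 * u y * (u x - u y)) := by
    rw [Finset.sum_comm]
    exact Finset.sum_congr rfl (fun x _ => Finset.sum_congr rfl (fun y _ => by rw [hk y x]))
  have S3 : ∑ x ∈ G, ∑ y ∈ G, k x y * ((φ x) ^ 2 * u x * (u y - u x))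
      + ∑ x ∈ G, ∑ y ∈ G, k x y * ((φ y) ^ 2 * u y * (u x - u y))
      ≤ ∑ x ∈ G, ∑ y ∈ G, k x y * (φ x - φ y) ^ 2 := by
    rw [← Finset.sum_add_distrib]
    apply Finset.sum_le_sum
    intro x hx
    rw [← Finset.sum_add_distrib]
    apply Finset.sum_le_sum
    intro y hy
    rw [← mul_add]
    apply mul_le_mul_of_nonneg_left _ (hk0 x y)
    have h1 : (φ x) ^ 2 * u x * (u y - u x) + (φ y) ^ 2 * u y * (u x - u y)
        = u x * u y * (φ x - φ y) ^ 2 - (φ x * u x - φ y * u y) ^ 2 := by ring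
    rw [h1]
    have h2 : u x * u y ≤ 1 := mul_le_one₀ (hu x hx).2 (hu y hy).1 (hu y hy).2
    have h3 : u x * u y * (φ x - φ y) ^ 2 ≤ 1 * (φ x - φ y) ^ 2 :=
      mul_le_mul_of_nonneg_right h2 (sq_nonneg _)
    nlinarith [sq_nonneg (φ x * u x - φ y * u y)]
  linarith

variable {n a : ℤ}

/-- maximum principle -/
theorem max_principle {H : ℤ → ℤ → ℝ} (hn : 0 ≤ n) {z : ℝ} (hz : 0 < z)
    (hR : ∀ i, i ≤ a → H i 0 = 0)
    (hW : ∀ i j, (i = -n-1 ∨ i = n+1 ∨ j = -n-1 ∨ j = n+1) → ¬ (j = 0 ∧ i ≤ a) → H i j = z)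
    (hs : ∀ i j, ((i, j) : ℤ × ℤ) ∈ (net n a).A →
    ((¬ (j = -1 ∧ i ≤ a) ∧ ¬ (j = 1 ∧ i ≤ a) ∧ ¬ (j = 0 ∧ i = a + 1)) →
      0 ≤ (H i (j + 1) - H i j) + (H (i - 1) j - H i j) + (H i (j - 1) - H i j)
        + (H (i + 1) j - H i j)) ∧
    ((j = -1 ∧ i ≤ a) → (2 - Real.sqrt 2) * H i j
      ≤ (H (i - 1) j - H i j) + (H i (j - 1) - H i j) + (H (i + 1) j - H i j)) ∧
    ((j = 1 ∧ i ≤ a) → (2 - Real.sqrt 2) * H i j
      ≤ (H i (j + 1) - H i j) + (H (i - 1) j - H i j) + (H (i + 1) j - H i j)) ∧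
    ((j = 0 ∧ i = a + 1) → (2 - Real.sqrt 2) * H i j
      ≤ (H i (j + 1) - H i j) + (H i (j - 1) - H i j) + (H (i + 1) j - H i j))) :
    ∀ i j, (-n-1 ≤ i ∧ i ≤ n+1) → (-n-1 ≤ j ∧ j ≤ n+1) → H i j ≤ z := by
  -- it suffices to treat the box
  suffices hbox : ∀ i j, (-n ≤ i ∧ i ≤ n) → (-n ≤ j ∧ j ≤ n) → H i j ≤ z by
    intro i j hi hj
    by_cases hr : j = 0 ∧ i ≤ a
    · rw [hr.1, hR i hr.2]; exact hz.le
    · by_cases h : (i = -n-1 ∨ i = n+1 ∨ j = -n-1 ∨ j = n+1)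
      · exact (hW i j h hr).le
      · exact hbox i j (by omega) (by omega)
  by_contra hcon
  push Not at hcon
  obtain ⟨i0, j0, hi0, hj0, hlt⟩ := hcon
  obtain ⟨B, hB⟩ : ∃ B : Finset (ℤ × ℤ), B = Finset.Icc (-n) n ×ˢ Finset.Icc (-n) n := ⟨_, rfl⟩
  have hmemB : ∀ i j, ((i, j) : ℤ × ℤ) ∈ B ↔ (-n ≤ i ∧ i ≤ n) ∧ (-n ≤ j ∧ j ≤ n) := by
    intro i j; rw [hB]; simp
  have hne : B.Nonempty := ⟨(i0, j0), (hmemB _ _).2 ⟨hi0, hj0⟩⟩
  obtain ⟨⟨i1, j1⟩, hm1, hmax1⟩ := Finset.exists_max_image B (fun x => H x.1 x.2) hne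
  obtain ⟨m, hm⟩ : ∃ m, m = H i1 j1 := ⟨_, rfl⟩
  have hzm : z < m := by
    have := hmax1 (i0, j0) ((hmemB _ _).2 ⟨hi0, hj0⟩)
    simp only at this
    rw [hm]; linarith
  have hne2 : (B.filter (fun x => H x.1 x.2 = m)).Nonempty :=
    ⟨(i1, j1), by rw [Finset.mem_filter]; exact ⟨hm1, hm.symm⟩⟩
  obtain ⟨⟨i, j⟩, hmem2, hmax2⟩ := Finset.exists_max_image _ (fun x : ℤ × ℤ => x.2) hne2
  rw [Finset.mem_filter] at hmem2
  obtain ⟨hijB, hHm⟩ := hmem2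
  simp only at hHm
  have hij := (hmemB _ _).1 hijB
  have hle : ∀ k l, (-n-1 ≤ k ∧ k ≤ n+1) → (-n-1 ≤ l ∧ l ≤ n+1) → H k l ≤ m := by
    intro k l hk hl
    by_cases hr : l = 0 ∧ k ≤ a
    · rw [hr.1, hR k hr.2]; linarith
    · by_cases h : (k = -n-1 ∨ k = n+1 ∨ l = -n-1 ∨ l = n+1)
      · rw [hW k l h hr]; exact hzm.le
      · have := hmax1 (k, l) ((hmemB _ _).2 ⟨by omega, by omega⟩)
        rw [hm]; exact this
  have hup : H i (j + 1) < m := by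
    by_cases hr : j + 1 = 0 ∧ i ≤ a
    · rw [hr.1, hR i hr.2]; linarith
    · by_cases h : (i = -n-1 ∨ i = n+1 ∨ j + 1 = -n-1 ∨ j + 1 = n+1)
      · rw [hW _ _ h hr]; exact hzm
      · rcases lt_or_eq_of_le (hle i (j + 1) (by omega) (by omega)) with h1 | h1
        · exact h1
        · exfalso
          have := hmax2 (i, j + 1) (by
            rw [Finset.mem_filter]; exact ⟨(hmemB _ _).2 ⟨by omega, by omega⟩, h1⟩)
          simp only at this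
          omega
  have hA : ((i, j) : ℤ × ℤ) ∈ (net n a).A := by
    rw [mem_A]
    refine ⟨hij, fun hr => ?_⟩
    rw [hr.1, hR i hr.2] at hHm
    linarith
  have rs2 : Real.sqrt 2 ^ 2 = 2 := Real.sq_sqrt (by norm_num)
  have rs0 : 0 ≤ Real.sqrt 2 := Real.sqrt_nonneg 2
  have rs1 : Real.sqrt 2 < 2 := by nlinarith
  have hpos : 0 < (2 - Real.sqrt 2) * H i j := mul_pos (by linarith) (by rw [hHm]; linarith)
  have q1 := hle i (j + 1) (by omega) (by omega)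
  have q2 := hle (i - 1) j (by omega) (by omega)
  have q3 := hle i (j - 1) (by omega) (by omega)
  have q4 := hle (i + 1) j (by omega) (by omega)
  obtain ⟨c1, c2, c3, c4⟩ := hs i j hA
  by_cases k2 : j = -1 ∧ i ≤ a
  · have := c2 k2; linarith
  by_cases k3 : j = 1 ∧ i ≤ a
  · have := c3 k3; linarith
  by_cases k4 : j = 0 ∧ i = a + 1
  · have := c4 k4; linarith
  have := c1 ⟨k2, k3, k4⟩
  linarith

lemma mem_nbs {x y : ℤ × ℤ} : y ∈ nbs x ↔ (y.1 = x.1 + 1 ∧ y.2 = x.2) ∨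
    (y.1 = x.1 - 1 ∧ y.2 = x.2) ∨ (y.1 = x.1 ∧ y.2 = x.2 + 1) ∨ (y.1 = x.1 ∧ y.2 = x.2 - 1) := by
  obtain ⟨y1, y2⟩ := y
  simp [nbs, Prod.mk.injEq]

lemma nbs_symm {x y : ℤ × ℤ} : y ∈ nbs x ↔ x ∈ nbs y := by
  rw [mem_nbs, mem_nbs]; omega

lemma sum_nbs (x : ℤ × ℤ) (f : ℤ × ℤ → ℝ) : ∑ y ∈ nbs x, f y
    = f (x.1 + 1, x.2) + f (x.1 - 1, x.2) + f (x.1, x.2 + 1) + f (x.1, x.2 - 1) := by
  unfold nbs
  rw [Finset.sum_insert, Finset.sum_insert, Finset.sum_insert, Finset.sum_singleton]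
  · ring
  · simp only [Finset.mem_singleton, Prod.mk.injEq]; omega
  · simp only [Finset.mem_insert, Finset.mem_singleton, Prod.mk.injEq]; omega
  · simp only [Finset.mem_insert, Finset.mem_singleton, Prod.mk.injEq]; omega

lemma sum_ite_nbs {G : Finset (ℤ × ℤ)} {x : ℤ × ℤ} (h : nbs x ⊆ G) (f : ℤ × ℤ → ℝ) :
    ∑ y ∈ G, (if y ∈ nbs x then f y else 0)
    = f (x.1 + 1, x.2) + f (x.1 - 1, x.2) + f (x.1, x.2 + 1) + f (x.1, x.2 - 1) := by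
  rw [Finset.sum_ite_mem, Finset.inter_eq_right.2 h, sum_nbs]

/-- square boxes -/
noncomputable def bx (c : ℤ × ℤ) (L : ℤ) : Finset (ℤ × ℤ) :=
  Finset.Icc (c.1 - L) (c.1 + L) ×ˢ Finset.Icc (c.2 - L) (c.2 + L)

lemma mem_bx {c x : ℤ × ℤ} {L : ℤ} : x ∈ bx c L ↔
    (c.1 - L ≤ x.1 ∧ x.1 ≤ c.1 + L) ∧ (c.2 - L ≤ x.2 ∧ x.2 ≤ c.2 + L) := by
  simp [bx]

/-- sup distance -/
noncomputable def nu (c x : ℤ × ℤ) : ℕ := max (x.1 - c.1).natAbs (x.2 - c.2).natAbs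

lemma nu_le {c x : ℤ × ℤ} {r : ℕ} : nu c x ≤ r ↔ x ∈ bx c r := by
  unfold nu
  rw [mem_bx, max_le_iff]
  omega

lemma nu_nbs {c x y : ℤ × ℤ} (h : y ∈ nbs x) : nu c y ≤ nu c x + 1 := by
  have h1 : x ∈ bx c (nu c x : ℕ) := nu_le.1 le_rfl
  rw [nu_le]
  rw [mem_nbs] at h
  rw [mem_bx] at h1 ⊢
  push_cast
  omega

lemma card_bx (c : ℤ × ℤ) (L : ℕ) : (bx c L).card = (2 * L + 1) ^ 2 := by
  unfold bx
  rw [Finset.card_product, Int.card_Icc, Int.card_Icc, sq]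
  congr 1 <;> omega

lemma sum_bx (c : ℤ × ℤ) (g : ℕ → ℝ) (L : ℕ) : ∑ x ∈ bx c L, g (nu c x)
    = g 0 + ∑ r ∈ Finset.range L, 8 * (r + 1) * g (r + 1) := by
  induction L with
  | zero =>
    have h : bx c ((0:ℕ) : ℤ) = {c} := by
      ext x
      rw [mem_bx, Finset.mem_singleton, Prod.ext_iff]
      push_cast; omega
    rw [h]; simp [nu]
  | succ L ih =>
    have hsub : bx c (L : ℤ) ⊆ bx c ((L + 1 : ℕ) : ℤ) := by
      intro x hx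
      rw [mem_bx] at hx ⊢
      push_cast; omega
    rw [← Finset.sum_sdiff hsub, ih, Finset.sum_range_succ]
    have h1 : ∑ x ∈ bx c ((L + 1 : ℕ) : ℤ) \ bx c (L : ℤ), g (nu c x)
        = ∑ x ∈ bx c ((L + 1 : ℕ) : ℤ) \ bx c (L : ℤ), g (L + 1) := by
      refine Finset.sum_congr rfl (fun x hx => ?_)
      rw [Finset.mem_sdiff] at hx
      have h2 := nu_le.2 hx.1
      have h3 : ¬ nu c x ≤ L := fun h => hx.2 (nu_le.1 h)
      congr 1; omega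
    rw [h1, Finset.sum_const, Finset.card_sdiff_of_subset hsub, card_bx, card_bx, nsmul_eq_mul,
      Nat.cast_sub (Nat.pow_le_pow_left (by omega) 2)]
    push_cast
    ring

end Pool.Agent.P6ac95e
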