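import Pool.Agent.Lib.P6ac95e.KC5

set_option autoImplicit false
open Finset

namespace Pool.Agent.P6ac95e

/-- harmonic numbers -/
noncomputable def hh (L : ℕ) : ℝ := ∑ r ∈ Finset.range L, 1 / ((r : ℝ) + 1)

lemma hh_zero : hh 0 = 0 := by simp [hh]

lemma hh_succ (L : ℕ) : hh (L + 1) = hh L + 1 / ((L : ℝ) + 1) := by
  unfold hh; rw [Finset.sum_range_succ]

lemma hh_mono {r s : ℕ} (h : r ≤ s) : hh r ≤ hh s := by
  unfold hh
  apply Finset.sum_le_sum_of_subset_of_nonneg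
  · exact Finset.range_mono h
  · intro i _ _; positivity

lemma one_le_hh {L : ℕ} (hL : 1 ≤ L) : 1 ≤ hh L := by
  have := hh_mono hL
  rw [show (1:ℕ) = 0 + 1 by norm_num, hh_succ, hh_zero] at this
  norm_num at this
  exact this

lemma tendsto_hh : Filter.Tendsto hh Filter.atTop Filter.atTop := by
  have := Real.tendsto_sum_range_one_div_nat_succ_atTop
  unfold hh
  simpa using this

/-- radial cutoff -/
noncomputable def cut (L r : ℕ) : ℝ := max (1 - hh r / hh L) 0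

lemma cut_zero (L : ℕ) : cut L 0 = 1 := by
  unfold cut; rw [hh_zero]; simp

lemma cut_ge {L r : ℕ} (hL : 1 ≤ L) (h : L ≤ r) : cut L r = 0 := by
  unfold cut
  have h1 := one_le_hh hL
  have h2 := hh_mono h
  apply max_eq_right
  rw [sub_nonpos, le_div_iff₀ (by linarith)]
  linarith

lemma cut_diff {L : ℕ} (hL : 1 ≤ L) (r : ℕ) :
    |cut L r - cut L (r + 1)| ≤ 1 / (((r : ℝ) + 1) * hh L) := by
  have h1 := one_le_hh hL
  unfold cut
  refine (abs_max_sub_max_le_abs _ _ _).trans ?_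
  rw [hh_succ]
  have : (1 - hh r / hh L) - (1 - (hh r + 1 / ((r:ℝ) + 1)) / hh L)
      = 1 / (((r : ℝ) + 1) * hh L) := by
    field_simp
    ring
  rw [this, abs_of_nonneg (by positivity)]

noncomputable def dd (L r : ℕ) : ℝ := 1 / ((max (r : ℝ) 1) * hh L)

lemma dd_nonneg (L r : ℕ) (hL : 1 ≤ L) : 0 ≤ dd L r := by
  have h1 := one_le_hh hL
  unfold dd
  positivity

lemma cut_adj {L : ℕ} (hL : 1 ≤ L) {r s : ℕ} (h1 : s ≤ r + 1) (h2 : r ≤ s + 1) :
    |cut L r - cut L s| ≤ dd L r := by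
  have h0 := one_le_hh hL
  rcases lt_trichotomy r s with h | h | h
  · have hs : s = r + 1 := by omega
    subst hs
    refine (cut_diff hL r).trans ?_
    unfold dd
    apply one_div_le_one_div_of_le (by positivity)
    apply mul_le_mul_of_nonneg_right _ (by linarith)
    rw [max_le_iff]
    constructor
    · linarith
    · have : (0:ℝ) ≤ r := Nat.cast_nonneg r
      linarith
  · subst h; rw [sub_self, abs_zero]; exact dd_nonneg L r hL
  · have hs : r = s + 1 := by omega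
    subst hs
    rw [abs_sub_comm]
    refine (cut_diff hL s).trans ?_
    unfold dd
    apply one_div_le_one_div_of_le (by positivity)
    apply mul_le_mul_of_nonneg_right _ (by linarith)
    have : (0:ℝ) ≤ s := Nat.cast_nonneg s
    rw [max_le_iff]
    push_cast
    constructor <;> linarith

lemma sum_dd (c : ℤ × ℤ) {L : ℕ} (hL : 1 ≤ L) :
    ∑ x ∈ bx c L, (dd L (nu c x)) ^ 2 ≤ 9 / hh L := by
  have h0 := one_le_hh hL
  rw [sum_bx c (fun r => (dd L r) ^ 2) L]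
  have h1 : ∑ r ∈ Finset.range L, 8 * ((r:ℝ) + 1) * (dd L (r + 1)) ^ 2 = 8 / hh L := by
    have : ∀ r ∈ Finset.range L, 8 * ((r:ℝ) + 1) * (dd L (r + 1)) ^ 2
        = (8 / hh L ^ 2) * (1 / ((r:ℝ) + 1)) := by
      intro r _
      unfold dd
      have h2 : max (((r + 1 : ℕ)) : ℝ) 1 = (r:ℝ) + 1 := by
        push_cast
        apply max_eq_left
        have : (0:ℝ) ≤ r := Nat.cast_nonneg r
        linarith
      rw [h2]
      have : (r:ℝ) + 1 ≠ 0 := by positivity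
      field_simp
    rw [Finset.sum_congr rfl this, ← Finset.mul_sum]
    change 8 / hh L ^ 2 * hh L = _
    field_simp
  rw [h1]
  have h2 : dd L 0 ^ 2 = 1 / hh L ^ 2 := by
    unfold dd; simp
  rw [h2]
  have h3 : 1 / hh L ^ 2 ≤ 1 / hh L := by
    apply one_div_le_one_div_of_le (by linarith)
    nlinarith
  calc 1 / hh L ^ 2 + 8 / hh L ≤ 1 / hh L + 8 / hh L := by linarith
    _ = 9 / hh L := by ring

lemma sub_aux {a : ℤ} {H : ℤ → ℤ → ℝ} {z : ℝ} (hz : 0 < z) {u : ℤ × ℤ → ℝ}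
    (huH : ∀ x : ℤ × ℤ, H x.1 x.2 / z ≤ u x) {x : ℤ × ℤ} (hux : u x = H x.1 x.2 / z)
    (hrx : ¬ (x.2 = 0 ∧ x.1 ≤ a))
    (s1 : (¬ (x.2 = -1 ∧ x.1 ≤ a) ∧ ¬ (x.2 = 1 ∧ x.1 ≤ a) ∧ ¬ (x.2 = 0 ∧ x.1 = a + 1)) →
      0 ≤ (H x.1 (x.2 + 1) - H x.1 x.2) + (H (x.1 - 1) x.2 - H x.1 x.2)
        + (H x.1 (x.2 - 1) - H x.1 x.2) + (H (x.1 + 1) x.2 - H x.1 x.2))
    (s2 : (x.2 = -1 ∧ x.1 ≤ a) → (2 - Real.sqrt 2) * H x.1 x.2
      ≤ (H (x.1 - 1) x.2 - H x.1 x.2) + (H x.1 (x.2 - 1) - H x.1 x.2)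
        + (H (x.1 + 1) x.2 - H x.1 x.2))
    (s3 : (x.2 = 1 ∧ x.1 ≤ a) → (2 - Real.sqrt 2) * H x.1 x.2
      ≤ (H x.1 (x.2 + 1) - H x.1 x.2) + (H (x.1 - 1) x.2 - H x.1 x.2)
        + (H (x.1 + 1) x.2 - H x.1 x.2))
    (s4 : (x.2 = 0 ∧ x.1 = a + 1) → (2 - Real.sqrt 2) * H x.1 x.2
      ≤ (H x.1 (x.2 + 1) - H x.1 x.2) + (H x.1 (x.2 - 1) - H x.1 x.2)
        + (H (x.1 + 1) x.2 - H x.1 x.2)) :
    (if (x.2 = -1 ∧ x.1 ≤ a) ∨ (x.2 = 1 ∧ x.1 ≤ a) ∨ (x.2 = 0 ∧ x.1 = a + 1)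
      then 2 - Real.sqrt 2 else 0) * u x
    ≤ (if ¬ (x.2 = 0 ∧ x.1 + 1 ≤ a) then u (x.1 + 1, x.2) - u x else 0)
      + (if ¬ (x.2 = 0 ∧ x.1 - 1 ≤ a) then u (x.1 - 1, x.2) - u x else 0)
      + (if ¬ (x.2 + 1 = 0 ∧ x.1 ≤ a) then u (x.1, x.2 + 1) - u x else 0)
      + (if ¬ (x.2 - 1 = 0 ∧ x.1 ≤ a) then u (x.1, x.2 - 1) - u x else 0) := by
  have y1 := huH (x.1 + 1, x.2)
  have y2 := huH (x.1 - 1, x.2)
  have y3 := huH (x.1, x.2 + 1)
  have y4 := huH (x.1, x.2 - 1)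
  simp only at y1 y2 y3 y4
  have hdiv : ∀ {p q : ℝ}, p ≤ q → p / z ≤ q / z := fun h =>
    div_le_div_of_nonneg_right h hz.le
  by_cases k2 : x.2 = -1 ∧ x.1 ≤ a
  · rw [if_pos (Or.inl k2), if_pos (by omega), if_pos (by omega), if_neg (by omega),
      if_pos (by omega), hux]
    have := hdiv (s2 k2)
    have e : (H (x.1 - 1) x.2 - H x.1 x.2 + (H x.1 (x.2 - 1) - H x.1 x.2)
        + (H (x.1 + 1) x.2 - H x.1 x.2)) / z
        = H (x.1 - 1) x.2 / z - H x.1 x.2 / z + (H x.1 (x.2 - 1) / z - H x.1 x.2 / z)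
        + (H (x.1 + 1) x.2 / z - H x.1 x.2 / z) := by ring
    rw [e, mul_div_assoc] at this
    linarith
  by_cases k3 : x.2 = 1 ∧ x.1 ≤ a
  · rw [if_pos (Or.inr (Or.inl k3)), if_pos (by omega), if_pos (by omega),
      if_pos (by omega), if_neg (by omega), hux]
    have := hdiv (s3 k3)
    have e : (H x.1 (x.2 + 1) - H x.1 x.2 + (H (x.1 - 1) x.2 - H x.1 x.2)
        + (H (x.1 + 1) x.2 - H x.1 x.2)) / z
        = H x.1 (x.2 + 1) / z - H x.1 x.2 / z + (H (x.1 - 1) x.2 / z - H x.1 x.2 / z)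
        + (H (x.1 + 1) x.2 / z - H x.1 x.2 / z) := by ring
    rw [e, mul_div_assoc] at this
    linarith
  by_cases k4 : x.2 = 0 ∧ x.1 = a + 1
  · rw [if_pos (Or.inr (Or.inr k4)), if_pos (by omega), if_neg (by omega),
      if_pos (by omega), if_pos (by omega), hux]
    have := hdiv (s4 k4)
    have e : (H x.1 (x.2 + 1) - H x.1 x.2 + (H x.1 (x.2 - 1) - H x.1 x.2)
        + (H (x.1 + 1) x.2 - H x.1 x.2)) / z
        = H x.1 (x.2 + 1) / z - H x.1 x.2 / z + (H x.1 (x.2 - 1) / z - H x.1 x.2 / z)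
        + (H (x.1 + 1) x.2 / z - H x.1 x.2 / z) := by ring
    rw [e, mul_div_assoc] at this
    linarith
  · have k5 : ¬ ((x.2 = -1 ∧ x.1 ≤ a) ∨ (x.2 = 1 ∧ x.1 ≤ a) ∨ (x.2 = 0 ∧ x.1 = a + 1)) := by
      rintro (h | h | h)
      · exact k2 h
      · exact k3 h
      · exact k4 h
    rw [if_neg k5, if_pos (by omega), if_pos (by omega),
      if_pos (by omega), if_pos (by omega), hux]
    have := hdiv (s1 ⟨k2, k3, k4⟩)
    have e : (H x.1 (x.2 + 1) - H x.1 x.2 + (H (x.1 - 1) x.2 - H x.1 x.2)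
        + (H x.1 (x.2 - 1) - H x.1 x.2)
        + (H (x.1 + 1) x.2 - H x.1 x.2)) / z
        = H x.1 (x.2 + 1) / z - H x.1 x.2 / z + (H (x.1 - 1) x.2 / z - H x.1 x.2 / z)
        + (H x.1 (x.2 - 1) / z - H x.1 x.2 / z)
        + (H (x.1 + 1) x.2 / z - H x.1 x.2 / z) := by ring
    rw [e, zero_div] at this
    linarith

variable {n a : ℤ}

/-- **Decay of the critical magnetisation next to a free slit** -/
theorem crit_bound {β : ℝ} (hS : Real.sinh (2 * β) = 1) (hn : 0 ≤ n) (ha : -n - 1 ≤ a ∧ a ≤ n)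
    {c : ℤ × ℤ} {L : ℕ} (hL : 1 ≤ L)
    (hc : (c.2 = -1 ∧ c.1 ≤ a) ∨ (c.2 = 1 ∧ c.1 ≤ a) ∨ (c.2 = 0 ∧ c.1 = a + 1))
    (hbx : ∀ x ∈ bx c L, (-n ≤ x.1 ∧ x.1 ≤ n) ∧ (-n ≤ x.2 ∧ x.2 ≤ n)) :
    (net n a).M β (fun _ => 1) c ^ 4 ≤ 36 / hh L * (net n a).ZZ β (fun _ => 1) ^ 4 := by
  obtain ⟨H, dh, dv, hR, hE1, hE2, hE3, hW⟩ := exists_H hn ha β
  have hsub := fun i j hA => subharm (i := i) (j := j) hS hn dh dv hR hA
  have hZ : 0 < (net n a).ZZ β (fun _ => 1) := by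
    unfold Net.ZZ Net.wt
    exact Finset.sum_pos (fun S _ => Real.exp_pos _) ⟨∅, Finset.empty_mem_powerset _⟩
  obtain ⟨z, hzdef⟩ : ∃ z, z = (net n a).ZZ β (fun _ => 1) ^ 2 := ⟨_, rfl⟩
  have hz : 0 < z := by rw [hzdef]; positivity
  rw [← hzdef] at hW
  have hmax := max_principle (a := a) hn hz hR hW hsub
  -- the value at c
  have hHc : H c.1 c.2 = (net n a).M β (fun _ => 1) c ^ 2 := by
    rcases hc with ⟨h1, h2⟩ | ⟨h1, h2⟩ | ⟨h1, h2⟩
    · rw [h1, hE2 _ h2, ← h1]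
    · rw [h1, hE1 _ h2, ← h1]
    · rw [h1, h2, hE3, ← h1, ← h2]
  obtain ⟨G, hG⟩ : ∃ G : Finset (ℤ × ℤ), G = Finset.Icc (-n-1) (n+1) ×ˢ Finset.Icc (-n-1) (n+1) :=
    ⟨_, rfl⟩
  have hmemG : ∀ x : ℤ × ℤ, x ∈ G ↔ (-n-1 ≤ x.1 ∧ x.1 ≤ n+1) ∧ (-n-1 ≤ x.2 ∧ x.2 ≤ n+1) := by
    intro x; rw [hG]; simp
  have hnbG : ∀ x ∈ bx c L, nbs x ⊆ G := by
    intro x hx y hy
    have := hbx x hx
    rw [mem_nbs] at hy
    rw [hmemG]; omega
  have hbG : bx c L ⊆ G := by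
    intro x hx
    have := hbx x hx
    rw [hmemG]; omega
  obtain ⟨nr, hnr⟩ : ∃ nr : ℤ × ℤ → Prop, nr = fun x => ¬ (x.2 = 0 ∧ x.1 ≤ a) := ⟨_, rfl⟩
  classical
  obtain ⟨k, hk⟩ : ∃ k : ℤ × ℤ → ℤ × ℤ → ℝ,
    k = fun x y => if y ∈ nbs x then (if nr x ∧ nr y then 1 else 0) else 0 := ⟨_, rfl⟩
  obtain ⟨u, hu⟩ : ∃ u : ℤ × ℤ → ℝ, u = fun x => max (H x.1 x.2) 0 / z := ⟨_, rfl⟩
  obtain ⟨φ, hφ⟩ : ∃ φ : ℤ × ℤ → ℝ, φ = fun x => cut L (nu c x) := ⟨_, rfl⟩
  obtain ⟨r, hr⟩ : ∃ r : ℤ × ℤ → ℝ, r = fun x =>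
    if (x.2 = -1 ∧ x.1 ≤ a) ∨ (x.2 = 1 ∧ x.1 ≤ a) ∨ (x.2 = 0 ∧ x.1 = a + 1)
      then 2 - Real.sqrt 2 else 0 := ⟨_, rfl⟩
  have rs2 : Real.sqrt 2 ^ 2 = 2 := Real.sq_sqrt (by norm_num)
  have rs0 : 0 ≤ Real.sqrt 2 := Real.sqrt_nonneg 2
  have rs1 : Real.sqrt 2 < 3/2 := by nlinarith
  have hr0 : ∀ x, 0 ≤ r x := by
    intro x; rw [hr]; simp only; split_ifs <;> linarith
  have hu0 : ∀ x, 0 ≤ u x := by
    intro x; rw [hu]; exact div_nonneg (le_max_right _ _) hz.le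
  have hu1 : ∀ x ∈ G, u x ≤ 1 := by
    intro x hx
    rw [hmemG] at hx
    rw [hu]
    simp only
    rw [div_le_one hz, max_le_iff]
    exact ⟨hmax _ _ hx.1 hx.2, hz.le⟩
  have huH : ∀ x, H x.1 x.2 / z ≤ u x := by
    intro x; rw [hu]; exact div_le_div_of_nonneg_right (le_max_left _ _) hz.le
  have hE := energy_ineq G k (by
      intro x y
      rw [hk]; simp only
      have := @nbs_symm x y
      by_cases h : y ∈ nbs x
      · rw [if_pos h, if_pos (this.1 h)]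
        by_cases h' : nr x ∧ nr y
        · rw [if_pos h', if_pos h'.symm]
        · rw [if_neg h', if_neg (fun h'' => h' h''.symm)]
      · rw [if_neg h, if_neg (fun h' => h (this.2 h'))])
    (by
      intro x y
      rw [hk]; simp only
      split_ifs <;> norm_num)
    u φ r (fun x hx => ⟨hu0 x, hu1 x hx⟩) (by
      intro x hx hφx
      have hxb : x ∈ bx c L := by
        rw [← nu_le]
        by_contra hcon
        apply hφx
        rw [hφ]
        exact cut_ge hL (by omega)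
      have hbox := hbx x hxb
      have hsum : ∑ y ∈ G, k x y * (u y - u x)
          = ∑ y ∈ G, (if y ∈ nbs x then (if nr x ∧ nr y then (u y - u x) else 0) else 0) := by
        refine Finset.sum_congr rfl (fun y _ => ?_)
        rw [hk]; simp only
        split_ifs <;> ring
      rw [hsum, sum_ite_nbs (hnbG x hxb)]
      by_cases hrx : nr x
      · simp only [hrx, true_and]
        have hA : ((x.1, x.2) : ℤ × ℤ) ∈ (net n a).A := mem_A.2 ⟨hbox, by rw [hnr] at hrx; exact hrx⟩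
        obtain ⟨s1, s2, s3, s4⟩ := hsub x.1 x.2 hA
        by_cases hHx : 0 < H x.1 x.2
        · have hux : u x = H x.1 x.2 / z := by
            rw [hu]; simp only; rw [max_eq_left hHx.le]
          rw [hr, hnr]
          rw [hnr] at hrx
          convert sub_aux hz huH hux hrx s1 s2 s3 s4
        · have hux : u x = 0 := by
            rw [hu]; simp only; rw [max_eq_right (not_lt.1 hHx), zero_div]
          rw [hux, mul_zero]
          have z1 := hu0 (x.1 + 1, x.2)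
          have z2 := hu0 (x.1 - 1, x.2)
          have z3 := hu0 (x.1, x.2 + 1)
          have z4 := hu0 (x.1, x.2 - 1)
          apply add_nonneg
          · apply add_nonneg
            · apply add_nonneg
              · split_ifs <;> linarith
              · split_ifs <;> linarith
            · split_ifs <;> linarith
          · split_ifs <;> linarith
      · have hrx' : x.2 = 0 ∧ x.1 ≤ a := by
          rw [hnr] at hrx; simpa using hrx
        have hux : u x = 0 := by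
          rw [hu]; simp only; rw [hrx'.1, hR _ hrx'.2]; simp
        rw [hux, mul_zero]
        simp [hrx])
  -- the energy
  have hEn : ∑ x ∈ G, ∑ y ∈ G, k x y * (φ x - φ y) ^ 2 ≤ 36 / hh L := by
    have h1 : ∀ x ∈ G, ∑ y ∈ G, k x y * (φ x - φ y) ^ 2
        ≤ if x ∈ bx c L then 4 * (dd L (nu c x)) ^ 2 else 0 := by
      intro x hx
      have h2 : ∑ y ∈ G, k x y * (φ x - φ y) ^ 2
          ≤ ∑ y ∈ G, (if y ∈ nbs x then (φ x - φ y) ^ 2 else 0) := by
        apply Finset.sum_le_sum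
        intro y _
        rw [hk]; simp only
        have := sq_nonneg (φ x - φ y)
        split_ifs <;> linarith
      refine h2.trans ?_
      by_cases hxb : x ∈ bx c L
      · rw [if_pos hxb, sum_ite_nbs (hnbG x hxb)]
        have h3 : ∀ y ∈ nbs x, (φ x - φ y) ^ 2 ≤ (dd L (nu c x)) ^ 2 := by
          intro y hy
          have h4 := nu_nbs (c := c) hy
          have h5 := nu_nbs (c := c) (nbs_symm.1 hy)
          have h6 := cut_adj hL h4 h5
          rw [← sq_abs]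
          rw [hφ]
          exact pow_le_pow_left₀ (abs_nonneg _) h6 2
        have a1 := h3 (x.1 + 1, x.2) (mem_nbs.2 (by simp))
        have a2 := h3 (x.1 - 1, x.2) (mem_nbs.2 (by simp))
        have a3 := h3 (x.1, x.2 + 1) (mem_nbs.2 (by simp))
        have a4 := h3 (x.1, x.2 - 1) (mem_nbs.2 (by simp))
        linarith
      · rw [if_neg hxb]
        have hnx : ¬ nu c x ≤ L := fun h => hxb (nu_le.1 h)
        apply le_of_eq
        apply Finset.sum_eq_zero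
        intro y _
        by_cases hy : y ∈ nbs x
        · rw [if_pos hy, hφ]
          have h4 := nu_nbs (c := c) (nbs_symm.1 hy)
          simp only
          rw [cut_ge hL (by omega), cut_ge hL (by omega)]; norm_num
        · rw [if_neg hy]
    refine (Finset.sum_le_sum h1).trans ?_
    rw [Finset.sum_ite_mem, Finset.inter_eq_right.2 hbG, ← Finset.mul_sum]
    have := sum_dd c hL
    calc 4 * ∑ x ∈ bx c L, dd L (nu c x) ^ 2 ≤ 4 * (9 / hh L) := by linarith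
      _ = 36 / hh L := by ring
  have hcG : c ∈ G := hbG (by rw [mem_bx]; omega)
  have hsingle : r c * (φ c) ^ 2 * (u c) ^ 2 ≤ ∑ x ∈ G, r x * (φ x) ^ 2 * (u x) ^ 2 :=
    Finset.single_le_sum (f := fun x => r x * (φ x) ^ 2 * (u x) ^ 2)
      (fun x _ => mul_nonneg (mul_nonneg (hr0 x) (sq_nonneg _)) (sq_nonneg _)) hcG
  have hrc : r c = 2 - Real.sqrt 2 := by
    rw [hr]; simp only; rw [if_pos hc]
  have hφc : φ c = 1 := by
    rw [hφ]; simp only
    have : nu c c = 0 := by simp [nu]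
    rw [this, cut_zero]
  have huc : u c = (net n a).M β (fun _ => 1) c ^ 2 / z := by
    rw [hu]; simp only; rw [hHc, max_eq_left (sq_nonneg _)]
  rw [hrc, hφc, huc] at hsingle
  have hfin : (1/2) * ((net n a).M β (fun _ => 1) c ^ 2 / z) ^ 2 ≤ (1/2) * (36 / hh L) := by
    have h1 : (1/2) * ((net n a).M β (fun _ => 1) c ^ 2 / z) ^ 2
        ≤ (2 - Real.sqrt 2) * 1 ^ 2 * ((net n a).M β (fun _ => 1) c ^ 2 / z) ^ 2 := by
      apply mul_le_mul_of_nonneg_right _ (sq_nonneg _)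
      linarith
    linarith
  have hfin2 : ((net n a).M β (fun _ => 1) c ^ 2 / z) ^ 2 ≤ 36 / hh L := by linarith
  rw [div_pow, div_le_iff₀ (by positivity), hzdef] at hfin2
  calc (net n a).M β (fun _ => 1) c ^ 4 = ((net n a).M β (fun _ => 1) c ^ 2) ^ 2 := by ring
    _ ≤ _ := hfin2
    _ = _ := by ring

end Pool.Agent.P6ac95e
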