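import Pool.Agent.Lib.P6ac95e.KC6
import Pool.Agent.Lib.P6ac95e.Fin1

set_option autoImplicit false
open Finset

namespace Pool.Agent.P6ac95e

/-- nearest neighbour coupling -/
noncomputable def Jn (β : ℝ) (u w : ℤ × ℤ) : ℝ := if w ∈ nbs u then β else 0

lemma self_notMem_nbs (u : ℤ × ℤ) : u ∉ nbs u := by
  rw [mem_nbs]; omega

lemma Jn_coup {β : ℝ} (hβ : 0 ≤ β) : Coup (Jn β) where
  symm := fun u w => by
    unfold Jn
    by_cases h : w ∈ nbs u
    · rw [if_pos h, if_pos (nbs_symm.1 h)]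
    · rw [if_neg h, if_neg (fun h' => h (nbs_symm.1 h'))]
  diag := fun u => by unfold Jn; rw [if_neg (self_notMem_nbs u)]
  nonneg := fun u w => by unfold Jn; split_ifs <;> linarith

/-- field created by plus spins outside `Λ` -/
noncomputable def bfield (β : ℝ) (Λ : Finset (ℤ × ℤ)) (u : ℤ × ℤ) : ℝ :=
  β * ((nbs u \ Λ).card : ℝ)

noncomputable def box (n : ℤ) : Finset (ℤ × ℤ) := Finset.Icc (-n) n ×ˢ Finset.Icc (-n) n

lemma mem_box {n : ℤ} {x : ℤ × ℤ} : x ∈ box n ↔
    (-n ≤ x.1 ∧ x.1 ≤ n) ∧ (-n ≤ x.2 ∧ x.2 ≤ n) := by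
  simp [box]

lemma dir_sum (B E : Finset (ℤ × ℤ)) (t : (ℤ × ℤ) ≃ (ℤ × ℤ)) (F : ℤ × ℤ → ℝ)
    (h : ∀ u, u ∈ E ↔ u ∈ B ∨ t u ∈ B) :
    ∑ u ∈ E, F u = ∑ u ∈ B, (if t u ∈ B then (1/2 : ℝ) else 1) * F u
      + ∑ u ∈ B, (if t.symm u ∈ B then (1/2 : ℝ) else 1) * F (t.symm u) := by
  have h1 : ∑ u ∈ B, (if t u ∈ B then (1/2 : ℝ) else 1) * F u
      = ∑ u ∈ E, if u ∈ B then (if t u ∈ B then (1/2 : ℝ) else 1) * F u else 0 := by
    rw [Finset.sum_ite_mem]
    congr 1
    ext u
    rw [Finset.mem_inter, h]; tauto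
  have h2 : ∑ u ∈ B, (if t.symm u ∈ B then (1/2 : ℝ) else 1) * F (t.symm u)
      = ∑ u ∈ E, if t u ∈ B then (if u ∈ B then (1/2 : ℝ) else 1) * F u else 0 := by
    rw [← Finset.sum_filter]
    refine Finset.sum_nbij' (fun u => t.symm u) (fun u => t u) ?_ ?_ ?_ ?_ ?_
    · intro u hu
      rw [Finset.mem_filter, h]
      simp [hu]
    · intro u hu
      rw [Finset.mem_filter] at hu
      exact hu.2
    · intro u _; simp
    · intro u _; simp
    · intro u _; rfl
  rw [h1, h2, ← Finset.sum_add_distrib]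
  refine Finset.sum_congr rfl (fun u hu => ?_)
  rw [h] at hu
  by_cases c1 : u ∈ B <;> by_cases c2 : t u ∈ B
  · simp only [c1, c2, if_true]; ring
  · simp only [c1, c2, if_true, if_false]; ring
  · simp only [c1, c2, if_true, if_false]; ring
  · exact absurd hu (by tauto)

/-- horizontal shift -/
def shH : (ℤ × ℤ) ≃ (ℤ × ℤ) where
  toFun := fun x => (x.1 + 1, x.2)
  invFun := fun x => (x.1 - 1, x.2)
  left_inv := fun x => by simp
  right_inv := fun x => by simp

def shV : (ℤ × ℤ) ≃ (ℤ × ℤ) where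
  toFun := fun x => (x.1, x.2 + 1)
  invFun := fun x => (x.1, x.2 - 1)
  left_inv := fun x => by simp
  right_inv := fun x => by simp

variable {n a : ℤ}

lemma net_edge_sum (hn : 0 ≤ n) (s : ℤ × ℤ → ℝ) :
    ∑ e ∈ (net n a).E, s ((net n a).p e) * s ((net n a).q e)
      = ∑ u ∈ box n, ∑ w ∈ nbs u, (if w ∈ box n then (1/2 : ℝ) else 1) * (s u * s w) := by
  have e1 : ∑ e ∈ (net n a).E, s ((net n a).p e) * s ((net n a).q e)
      = ∑ u ∈ (Finset.Icc (-n-1) n ×ˢ Finset.Icc (-n) n), s u * s (shH u)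
        + ∑ u ∈ (Finset.Icc (-n) n ×ˢ Finset.Icc (-n-1) n), s u * s (shV u) := by
    unfold net
    simp only
    rw [Finset.sum_union]
    · rw [Finset.sum_product, Finset.sum_product, Finset.sum_singleton, Finset.sum_singleton]
      rfl
    · rw [Finset.disjoint_left]
      intro e he he'
      rw [Finset.mem_product, Finset.mem_singleton] at he he'
      rw [he.1] at he'
      exact absurd he'.1 (by simp)
  rw [e1, dir_sum (box n) _ shH (fun u => s u * s (shH u)) (by
      intro u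
      rw [mem_box, mem_box]
      simp only [Finset.mem_product, Finset.mem_Icc, shH, Equiv.coe_fn_mk]
      omega),
    dir_sum (box n) _ shV (fun u => s u * s (shV u)) (by
      intro u
      rw [mem_box, mem_box]
      simp only [Finset.mem_product, Finset.mem_Icc, shV, Equiv.coe_fn_mk]
      omega)]
  rw [← Finset.sum_add_distrib, ← Finset.sum_add_distrib, ← Finset.sum_add_distrib]
  refine Finset.sum_congr rfl (fun u _ => ?_)
  rw [sum_nbs]
  simp only [Equiv.apply_symm_apply]
  have a1 : shH u = (u.1 + 1, u.2) := rfl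
  have a2 : shV u = (u.1, u.2 + 1) := rfl
  have a3 : shH.symm u = (u.1 - 1, u.2) := rfl
  have a4 : shV.symm u = (u.1, u.2 - 1) := rfl
  rw [a1, a2, a3, a4]
  ring

lemma net_A_sub : (net n a).A ⊆ box n := by
  intro x hx
  have : ((x.1, x.2) : ℤ × ℤ) ∈ (net n a).A := hx
  rw [mem_A] at this
  rw [mem_box]; exact this.1

lemma net_ham (hn : 0 ≤ n) (ha : -n ≤ a ∧ a ≤ n) (β : ℝ) (S : Finset (ℤ × ℤ)) :
    β * ∑ e ∈ (net n a).E, (1:ℝ) * ((net n a).sv S ((net n a).p e) * (net n a).sv S ((net n a).q e))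
      = ham (Jn β) (net n a).A (bfield β (box n)) S := by
  simp only [one_mul]
  rw [net_edge_sum hn ((net n a).sv S)]
  have h1 : ∑ u ∈ box n, ∑ w ∈ nbs u, (if w ∈ box n then (1/2 : ℝ) else 1)
        * ((net n a).sv S u * (net n a).sv S w)
      = ∑ u ∈ (net n a).A, ∑ w ∈ nbs u, (if w ∈ box n then (1/2 : ℝ) else 1)
        * (sp S u * (net n a).sv S w) := by
    symm
    rw [← Finset.sum_subset (net_A_sub (n := n) (a := a))]
    · refine Finset.sum_congr rfl (fun u hu => Finset.sum_congr rfl (fun w _ => ?_))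
      have : (net n a).sv S u = sp S u := by unfold Net.sv; rw [if_pos hu]
      rw [this]
    · intro u hu hu'
      have h0 : (net n a).sv S u = 0 := by
        unfold Net.sv
        rw [if_neg hu']
        have : ¬ ((u.1, u.2) : ℤ × ℤ) ∈ (net n a).A := hu'
        rw [mem_A] at this
        rw [mem_box] at hu
        have h3 : u.2 = 0 ∧ u.1 ≤ a := by
          by_contra hcon
          exact this ⟨hu, hcon⟩
        exact c_zero h3
      apply Finset.sum_eq_zero
      intro w _
      rw [h0]; ring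
  rw [h1]
  have h2 : ∀ u ∈ (net n a).A, ∑ w ∈ nbs u, (if w ∈ box n then (1/2 : ℝ) else 1)
        * (sp S u * (net n a).sv S w)
      = (1/2) * ∑ w ∈ (net n a).A, (if w ∈ nbs u then sp S u * sp S w else 0)
        + ((nbs u \ box n).card : ℝ) * sp S u := by
    intro u hu
    have h3 : ∀ w ∈ nbs u, (if w ∈ box n then (1/2 : ℝ) else 1) * (sp S u * (net n a).sv S w)
        = (if w ∈ (net n a).A then (1/2) * (sp S u * sp S w) else 0)
          + (if w ∈ nbs u \ box n then sp S u else 0) := by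
      intro w hw
      by_cases hwA : w ∈ (net n a).A
      · have hwb := net_A_sub hwA
        have hs : (net n a).sv S w = sp S w := by unfold Net.sv; rw [if_pos hwA]
        rw [if_pos hwb, if_pos hwA, hs, if_neg (by rw [Finset.mem_sdiff]; tauto)]
        ring
      · have hs : (net n a).sv S w = (net n a).c w := by unfold Net.sv; rw [if_neg hwA]
        rw [if_neg hwA, hs]
        by_cases hwb : w ∈ box n
        · have : ¬ ((w.1, w.2) : ℤ × ℤ) ∈ (net n a).A := hwA
          rw [mem_A] at this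
          have hwb' := hwb
          rw [mem_box] at hwb'
          have h3 : w.2 = 0 ∧ w.1 ≤ a := by
            by_contra hcon
            exact this ⟨hwb', hcon⟩
          have hc : (net n a).c w = 0 := c_zero h3
          rw [hc, if_pos hwb, if_neg (by rw [Finset.mem_sdiff]; tauto)]
          ring
        · have hc : (net n a).c w = 1 := by
            apply c_one (i := w.1) (j := w.2)
            intro hr
            have hu' : ((u.1, u.2) : ℤ × ℤ) ∈ (net n a).A := hu
            rw [mem_A] at hu'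
            rw [mem_box] at hwb
            rw [mem_nbs] at hw
            omega
          rw [hc, if_neg hwb, if_pos (by rw [Finset.mem_sdiff]; exact ⟨hw, hwb⟩)]
          ring
    rw [Finset.sum_congr rfl h3, Finset.sum_add_distrib]
    congr 1
    · rw [Finset.sum_ite_mem, Finset.sum_ite_mem, Finset.inter_comm, Finset.mul_sum]
    · rw [Finset.sum_ite_mem, Finset.inter_eq_right.2 Finset.sdiff_subset, Finset.sum_const,
        nsmul_eq_mul]
  rw [Finset.sum_congr rfl h2, Finset.sum_add_distrib]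
  unfold ham
  rw [mul_add]
  congr 1
  · rw [← Finset.mul_sum, ← mul_assoc, mul_comm β, mul_assoc, Finset.mul_sum]
    congr 1
    refine Finset.sum_congr rfl (fun u _ => ?_)
    rw [Finset.mul_sum]
    refine Finset.sum_congr rfl (fun w _ => ?_)
    unfold Jn
    split_ifs <;> ring
  · rw [Finset.mul_sum]
    refine Finset.sum_congr rfl (fun u _ => ?_)
    unfold bfield; ring

lemma net_wt (hn : 0 ≤ n) (ha : -n ≤ a ∧ a ≤ n) (β : ℝ) (S : Finset (ℤ × ℤ)) :
    (net n a).wt β (fun _ => 1) S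
      = Real.exp (ham (Jn β) (net n a).A (bfield β (box n)) S) := by
  rw [← net_ham hn ha]; rfl

/-- **critical bound, magnetisation form** -/
theorem crit_mag {β : ℝ} (hS : Real.sinh (2 * β) = 1) (hn : 0 ≤ n) (ha : -n ≤ a ∧ a ≤ n)
    {c : ℤ × ℤ} {L : ℕ} (hL : 1 ≤ L)
    (hc : (c.2 = -1 ∧ c.1 ≤ a) ∨ (c.2 = 1 ∧ c.1 ≤ a) ∨ (c.2 = 0 ∧ c.1 = a + 1))
    (hbx : bx c L ⊆ box n) :
    mag (Jn β) (net n a).A (bfield β (box n)) c ^ 4 ≤ 36 / hh L := by
  have hcb : c ∈ box n := hbx (by rw [mem_bx]; omega)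
  have hcA : c ∈ (net n a).A := by
    have : ((c.1, c.2) : ℤ × ℤ) ∈ (net n a).A := by
      rw [mem_A]
      rw [mem_box] at hcb
      exact ⟨hcb, by omega⟩
    exact this
  have h := crit_bound hS hn (a := a) ⟨by omega, ha.2⟩ hL hc
    (fun x hx => mem_box.1 (hbx hx))
  have hZ : (net n a).ZZ β (fun _ => 1) = Z (Jn β) (net n a).A (bfield β (box n)) := by
    unfold Net.ZZ Z Zf
    exact Finset.sum_congr rfl (fun S _ => by rw [net_wt hn ha, mul_one])
  have hM : (net n a).M β (fun _ => 1) c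
      = Zf (Jn β) (net n a).A (bfield β (box n)) (fun S => sp S c) := by
    unfold Net.M Zf
    refine Finset.sum_congr rfl (fun S _ => ?_)
    rw [net_wt hn ha]
    unfold Net.sv; rw [if_pos hcA]
  rw [hZ, hM] at h
  unfold mag
  rw [div_pow, div_le_iff₀ (pow_pos (Z_pos _ _ _) 4)]
  exact h

end Pool.Agent.P6ac95e
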