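import Pool.Agent.Lib.P6ac95e.Lat1

set_option autoImplicit false
open Finset

namespace Pool.Agent.P6ac95e

/-- the box of radius `n` without the frozen sites `(i,0)`, `F i` -/
noncomputable def VF (n : ℤ) (F : ℤ → Prop) [DecidablePred F] : Finset (ℤ × ℤ) :=
  (box n).filter (fun x => ¬ (x.2 = 0 ∧ F x.1))

lemma mem_VF {n : ℤ} {F : ℤ → Prop} [DecidablePred F] {x : ℤ × ℤ} :
    x ∈ VF n F ↔ x ∈ box n ∧ ¬ (x.2 = 0 ∧ F x.1) := by
  unfold VF; rw [Finset.mem_filter]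

lemma VF_eq_net {n a : ℤ} {F : ℤ → Prop} [DecidablePred F]
    (h : ∀ i, -n ≤ i → i ≤ n → (F i ↔ i ≤ a)) : VF n F = (net n a).A := by
  ext x
  obtain ⟨i, j⟩ := x
  rw [mem_VF, mem_A, mem_box]
  constructor
  · rintro ⟨h1, h2⟩
    exact ⟨h1, fun h3 => h2 ⟨h3.1, (h i h1.1.1 h1.1.2).2 h3.2⟩⟩
  · rintro ⟨h1, h2⟩
    exact ⟨h1, fun h3 => h2 ⟨h3.1, (h i h1.1.1 h1.1.2).1 h3.2⟩⟩

lemma box_mono {n n' : ℤ} (h : n ≤ n') : box n ⊆ box n' := by
  intro x hx; rw [mem_box] at *; omega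

lemma VF_mono {n n' : ℤ} (h : n ≤ n') (F : ℤ → Prop) [DecidablePred F] : VF n F ⊆ VF n' F := by
  intro x hx
  rw [mem_VF] at *
  exact ⟨box_mono h hx.1, hx.2⟩

lemma bfield_nonneg {β : ℝ} (hβ : 0 ≤ β) (Λ : Finset (ℤ × ℤ)) (u : ℤ × ℤ) :
    0 ≤ bfield β Λ u := by
  unfold bfield; positivity

lemma nbs_sub_box {n n' : ℤ} (h : n < n') {u : ℤ × ℤ} (hu : u ∈ box n) : nbs u ⊆ box n' := by
  intro w hw
  rw [mem_nbs] at hw
  rw [mem_box] at *
  omega

lemma bfield_zero {β : ℝ} {n n' : ℤ} (h : n < n') {u : ℤ × ℤ} (hu : u ∈ box n) :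
    bfield β (box n') u = 0 := by
  unfold bfield
  rw [Finset.sdiff_eq_empty_iff_subset.2 (nbs_sub_box h hu)]
  simp

lemma sum_Jn (β : ℝ) (B : Finset (ℤ × ℤ)) (u : ℤ × ℤ) :
    ∑ w ∈ B, Jn β u w = β * ((B ∩ nbs u).card : ℝ) := by
  unfold Jn
  rw [Finset.sum_ite_mem, Finset.sum_const, nsmul_eq_mul, mul_comm]

lemma sum_Jn_le {β : ℝ} (hβ : 0 ≤ β) {n n' : ℤ} (F : ℤ → Prop) [DecidablePred F] (u : ℤ × ℤ) :
    ∑ w ∈ VF n' F \ VF n F, Jn β u w ≤ bfield β (box n) u := by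
  rw [sum_Jn]
  unfold bfield
  apply mul_le_mul_of_nonneg_left _ hβ
  have : (VF n' F \ VF n F) ∩ nbs u ⊆ nbs u \ box n := by
    intro w hw
    rw [Finset.mem_inter, Finset.mem_sdiff, mem_VF, mem_VF] at hw
    rw [Finset.mem_sdiff]
    refine ⟨hw.2, fun hb => hw.1.2 ⟨hb, hw.1.1.2⟩⟩
  exact_mod_cast Finset.card_le_card this

/-- comparison of two boxes -/
theorem mag_cauchy {β : ℝ} (hβ : 0 ≤ β) {n n' : ℤ} (h : n < n') {F : ℤ → Prop} [DecidablePred F]
    {c : ℤ × ℤ} (hc : c ∈ VF n F) (g : ℤ × ℤ → ℝ) :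
    |mag (Jn β) (VF n' F) (bfield β (box n') + g) c
      - mag (Jn β) (VF n F) (bfield β (box n) + g) c|
    ≤ 2 * mag (Jn β) (VF n F) (bfield β (box n)) c := by
  have hJ := Jn_coup hβ
  have hun : VF n F ∪ (VF n' F \ VF n F) = VF n' F :=
    Finset.union_sdiff_of_subset (VF_mono h.le F)
  have hd : Disjoint (VF n F) (VF n' F \ VF n F) := Finset.disjoint_sdiff
  have hz : ∀ u ∈ VF n F, bfield β (box n') u = 0 := fun u hu =>
    bfield_zero h (mem_VF.1 hu).1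
  have up : mag (Jn β) (VF n' F) (bfield β (box n') + g) c
      ≤ mag (Jn β) (VF n F) (bfield β (box n) + g) c := by
    rw [← hun]
    apply mag_union_le hJ hd hc
    intro u hu
    have := sum_Jn_le hβ (n := n) (n' := n') F u
    simp only [Pi.add_apply]
    rw [hz u hu]; linarith
  have lo : mag (Jn β) (VF n F) (g - bfield β (box n)) c
      ≤ mag (Jn β) (VF n' F) (bfield β (box n') + g) c := by
    rw [← hun]
    apply le_mag_union hJ hd hc
    intro u hu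
    have := sum_Jn_le hβ (n := n) (n' := n') F u
    simp only [Pi.add_apply, Pi.sub_apply]
    rw [hz u hu]; linarith
  have hdss := mag_dss hJ hc (b := bfield β (box n)) (fun u _ => bfield_nonneg hβ _ u) g
  rw [add_comm g] at hdss
  rw [abs_le]
  constructor
  · linarith
  · have : 0 ≤ mag (Jn β) (VF n F) (bfield β (box n) + g) c
        - mag (Jn β) (VF n F) (g - bfield β (box n)) c := by linarith
    linarith

/-- comparison of field increments of `psi` in two boxes -/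
theorem psi_cauchy {β : ℝ} (hβ : 0 ≤ β) {n n' : ℤ} (h : n < n') {F : ℤ → Prop} [DecidablePred F]
    {e : ℤ × ℤ → ℝ} (he : ∀ u, 0 ≤ e u) (he' : ∀ u ∈ VF n' F, u ∉ VF n F → e u = 0)
    (g : ℤ × ℤ → ℝ) :
    |(psi (Jn β) (VF n' F) (bfield β (box n') + g + e)
        - psi (Jn β) (VF n' F) (bfield β (box n') + g - e))
      - (psi (Jn β) (VF n F) (bfield β (box n) + g + e)
        - psi (Jn β) (VF n F) (bfield β (box n) + g - e))|
    ≤ 4 * ∑ u ∈ VF n F, e u * mag (Jn β) (VF n F) (bfield β (box n)) u := by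
  obtain ⟨G, hG⟩ : ∃ G : ℝ → ℝ, G = fun s =>
    psi (Jn β) (VF n' F) (bfield β (box n') + g + s • e)
      - psi (Jn β) (VF n F) (bfield β (box n) + g + s • e) := ⟨_, rfl⟩
  obtain ⟨C, hC⟩ : ∃ C, C = ∑ u ∈ VF n F, e u * (2 * mag (Jn β) (VF n F) (bfield β (box n)) u) :=
    ⟨_, rfl⟩
  have hder : ∀ s : ℝ, HasDerivAt G
      (∑ u ∈ VF n' F, e u * mag (Jn β) (VF n' F) (bfield β (box n') + g + s • e) u
        - ∑ u ∈ VF n F, e u * mag (Jn β) (VF n F) (bfield β (box n) + g + s • e) u) s := by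
    intro s
    rw [hG]
    exact (hasDerivAt_psi _ _ _ _ s).sub (hasDerivAt_psi _ _ _ _ s)
  have hbd : ∀ s : ℝ, ‖∑ u ∈ VF n' F, e u * mag (Jn β) (VF n' F) (bfield β (box n') + g + s • e) u
        - ∑ u ∈ VF n F, e u * mag (Jn β) (VF n F) (bfield β (box n) + g + s • e) u‖ ≤ C := by
    intro s
    have h1 : ∑ u ∈ VF n' F, e u * mag (Jn β) (VF n' F) (bfield β (box n') + g + s • e) u
        = ∑ u ∈ VF n F, e u * mag (Jn β) (VF n' F) (bfield β (box n') + g + s • e) u := by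
      symm
      apply Finset.sum_subset (VF_mono h.le F)
      intro u hu hu'
      rw [he' u hu hu', zero_mul]
    rw [h1, ← Finset.sum_sub_distrib, Real.norm_eq_abs, hC]
    refine (Finset.abs_sum_le_sum_abs _ _).trans ?_
    apply Finset.sum_le_sum
    intro u hu
    rw [← mul_sub, abs_mul, abs_of_nonneg (he u)]
    apply mul_le_mul_of_nonneg_left _ (he u)
    have := mag_cauchy hβ h hu (g + s • e)
    rwa [← add_assoc, ← add_assoc] at this
  have hmv := (convex_univ (𝕜 := ℝ) (E := ℝ)).norm_image_sub_le_of_norm_hasDerivWithin_le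
    (f := G) (C := C) (fun s _ => (hder s).hasDerivWithinAt) (fun s _ => hbd s)
    (Set.mem_univ (-1)) (Set.mem_univ 1)
  have e1 : G 1 - G (-1) = (psi (Jn β) (VF n' F) (bfield β (box n') + g + e)
        - psi (Jn β) (VF n' F) (bfield β (box n') + g - e))
      - (psi (Jn β) (VF n F) (bfield β (box n) + g + e)
        - psi (Jn β) (VF n F) (bfield β (box n) + g - e)) := by
    rw [hG]
    simp only [one_smul, neg_smul, ← sub_eq_add_neg]
    ring
  rw [← e1, ← Real.norm_eq_abs]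
  refine hmv.trans ?_
  rw [hC]
  have : ‖(1:ℝ) - -1‖ = 2 := by norm_num
  rw [this, Finset.mul_sum, Finset.sum_mul]
  apply le_of_eq
  exact Finset.sum_congr rfl (fun u _ => by ring)

lemma mag_le_of_pow {m δ : ℝ} (hδ : 0 < δ) (h : m ^ 4 ≤ δ ^ 4) : m ≤ δ := by
  by_contra hcon
  push Not at hcon
  have := pow_lt_pow_left₀ hcon hδ.le (n := 4) (by norm_num)
  linarith

/-- the critical magnetisation next to the frozen line tends to zero -/
theorem crit_eventually {β : ℝ} (hS : Real.sinh (2 * β) = 1) {c : ℤ × ℤ} {F : ℤ → Prop}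
    [DecidablePred F] (a : ℤ → ℤ)
    (ha : ∀ n, 1 ≤ n → -n ≤ a n ∧ a n ≤ n)
    (hF : ∀ n, 1 ≤ n → ∀ i, -n ≤ i → i ≤ n → (F i ↔ i ≤ a n))
    (hc : ∃ N : ℤ, ∀ n, N ≤ n →
      (c.2 = -1 ∧ c.1 ≤ a n) ∨ (c.2 = 1 ∧ c.1 ≤ a n) ∨ (c.2 = 0 ∧ c.1 = a n + 1))
    {δ : ℝ} (hδ : 0 < δ) :
    ∃ N : ℤ, ∀ n, N ≤ n → mag (Jn β) (VF n F) (bfield β (box n)) c ≤ δ := by
  obtain ⟨N0, hN0⟩ := hc
  have hev : ∀ᶠ L : ℕ in Filter.atTop, 36 / hh L ≤ δ ^ 4 := by
    have := (tendsto_hh.eventually_ge_atTop (36 / δ ^ 4)).and (Filter.eventually_ge_atTop 1)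
    filter_upwards [this] with L hL
    have h1 := one_le_hh hL.2
    rw [div_le_iff₀ (by linarith)]
    have h2 := hL.1
    rw [div_le_iff₀ (by positivity)] at h2
    linarith
  obtain ⟨L, hL1, hL2⟩ := (hev.and (Filter.eventually_ge_atTop 1)).exists
  refine ⟨max (max N0 1) (|c.1| + |c.2| + L), fun n hn => ?_⟩
  have hn0 : N0 ≤ n := (le_max_left _ _).trans ((le_max_left _ _).trans hn)
  have hn1 : 1 ≤ n := (le_max_right _ _).trans ((le_max_left _ _).trans hn)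
  have hn2 : |c.1| + |c.2| + L ≤ n := (le_max_right _ _).trans hn
  have hbx : bx c L ⊆ box n := by
    intro x hx
    rw [mem_bx] at hx
    rw [mem_box]
    have h1 := neg_abs_le c.1
    have h2 := le_abs_self c.1
    have h3 := neg_abs_le c.2
    have h4 := le_abs_self c.2
    have h5 := abs_nonneg c.1
    have h6 := abs_nonneg c.2
    omega
  have := crit_mag hS (n := n) (a := a n) (by omega) (ha n hn1) (c := c) hL2 (hN0 n hn0) hbx
  rw [← VF_eq_net (hF n hn1)] at this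
  exact mag_le_of_pow hδ (this.trans hL1)

end Pool.Agent.P6ac95e
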