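import Pool.Agent.Lib.P6ac95e.Spec2
import Pool.Agent.Lib.P6ac95e.Lat2

set_option autoImplicit false

open MeasureTheory Filter Topology Finset

namespace Pool.Agent.P6ac95e

/-! ### finite-volume plus measures in terms of `ham` -/

lemma spin_decide (S : Finset (ℤ × ℤ)) (x : ℤ × ℤ) : spin (decide (x ∈ S)) = sp S x := by
  unfold spin sp
  by_cases h : x ∈ S <;> simp [h]

lemma spin_plusConf_in {Λ S : Finset (ℤ × ℤ)} {x : ℤ × ℤ} (h : x ∈ Λ) :
    spin (plusConf Λ S x) = sp S x := by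
  rw [← spin_decide]
  unfold plusConf
  congr 1
  simp [h]

lemma spin_plusConf_out {Λ S : Finset (ℤ × ℤ)} {x : ℤ × ℤ} (h : x ∉ Λ) :
    spin (plusConf Λ S x) = 1 := by
  unfold plusConf spin
  simp [h]

lemma plusWeight_eq (β : ℝ) (Λ S : Finset (ℤ × ℤ)) :
    plusWeight β Λ S = Real.exp (ham (Jn β) Λ (bfield β Λ) S) := by
  unfold plusWeight energy ham
  congr 1
  have h1 : ∑ x ∈ Λ, ∑ y ∈ nbs x ∩ Λ, spin (plusConf Λ S x) * spin (plusConf Λ S y)
      = ∑ x ∈ Λ, ∑ y ∈ Λ, (if y ∈ nbs x then sp S x * sp S y else 0) := by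
    refine Finset.sum_congr rfl (fun x hx => ?_)
    rw [Finset.sum_ite_mem, Finset.inter_comm]
    refine Finset.sum_congr rfl (fun y hy => ?_)
    rw [spin_plusConf_in hx, spin_plusConf_in (Finset.mem_inter.1 hy).1]
  have h2 : ∑ x ∈ Λ, ∑ y ∈ nbs x \ Λ, spin (plusConf Λ S x) * spin (plusConf Λ S y)
      = ∑ x ∈ Λ, ((nbs x \ Λ).card : ℝ) * sp S x := by
    refine Finset.sum_congr rfl (fun x hx => ?_)
    have : ∀ y ∈ nbs x \ Λ, spin (plusConf Λ S x) * spin (plusConf Λ S y) = sp S x := by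
      intro y hy
      rw [spin_plusConf_in hx, spin_plusConf_out (Finset.mem_sdiff.1 hy).2, mul_one]
    rw [Finset.sum_congr rfl this, Finset.sum_const, nsmul_eq_mul]
  rw [h1, h2]
  have h3 : ∑ u ∈ Λ, ∑ w ∈ Λ, Jn β u w * (sp S u * sp S w)
      = β * ∑ x ∈ Λ, ∑ y ∈ Λ, (if y ∈ nbs x then sp S x * sp S y else 0) := by
    rw [Finset.mul_sum]
    refine Finset.sum_congr rfl (fun u _ => ?_)
    rw [Finset.mul_sum]
    refine Finset.sum_congr rfl (fun w _ => ?_)
    unfold Jn; split_ifs <;> ring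
  have h4 : ∑ u ∈ Λ, bfield β Λ u * sp S u = β * ∑ x ∈ Λ, ((nbs x \ Λ).card : ℝ) * sp S x := by
    rw [Finset.mul_sum]
    refine Finset.sum_congr rfl (fun u _ => ?_)
    unfold bfield; ring
  rw [h3, h4]
  ring

/-- expectations under the plus measure -/
lemma plusMeasure_integral (β : ℝ) (Λ : Finset (ℤ × ℤ)) (f : (ℤ × ℤ → Bool) → ℝ) :
    ∫ σ, f σ ∂(plusMeasure β Λ)
      = Zf (Jn β) Λ (bfield β Λ) (fun S => f (plusConf Λ S)) / Z (Jn β) Λ (bfield β Λ) := by
  unfold plusMeasure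
  have hint : ∀ S ∈ Λ.powerset, Integrable f
      (ENNReal.ofReal (plusWeight β Λ S / ∑ T ∈ Λ.powerset, plusWeight β Λ T)
        • Measure.dirac (plusConf Λ S)) := by
    intro S _
    apply Integrable.smul_measure _ ENNReal.ofReal_ne_top
    exact integrable_dirac (by simp)
  rw [integral_finsetSum_measure hint]
  unfold Z Zf
  rw [Finset.sum_div]
  refine Finset.sum_congr rfl (fun S _ => ?_)
  rw [integral_smul_measure, integral_dirac, ENNReal.toReal_ofReal
    (div_pos (plusWeight_pos β Λ S) (plusWeight_sum_pos β Λ)).le, smul_eq_mul, plusWeight_eq]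
  have : ∑ T ∈ Λ.powerset, plusWeight β Λ T
      = ∑ T ∈ Λ.powerset, Real.exp (ham (Jn β) Λ (bfield β Λ) T) * 1 := by
    refine Finset.sum_congr rfl (fun T _ => ?_)
    rw [plusWeight_eq, mul_one]
  rw [this]; ring

lemma measurable_lineProj : Measurable lineProj := by
  unfold lineProj
  rw [measurable_pi_iff]
  intro i
  exact measurable_pi_apply (i, 0)

lemma continuous_lineProj : Continuous lineProj := by
  unfold lineProj
  exact continuous_pi (fun i => continuous_apply (i, 0))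

/-! ### line configurations -/

/-- a set of sites of the line -/
def emb (T : Finset ℤ) : Finset (ℤ × ℤ) := T ×ˢ {0}

lemma mem_emb {T : Finset ℤ} {x : ℤ × ℤ} : x ∈ emb T ↔ x.1 ∈ T ∧ x.2 = 0 := by
  unfold emb; rw [Finset.mem_product, Finset.mem_singleton]

lemma sum_powerset_emb (I : Finset ℤ) (G : Finset (ℤ × ℤ) → ℝ) :
    ∑ S ∈ (emb I).powerset, G S = ∑ T ∈ I.powerset, G (emb T) := by
  symm
  refine Finset.sum_nbij' (fun T => emb T) (fun S => S.image Prod.fst) ?_ ?_ ?_ ?_ ?_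
  · intro T hT
    rw [Finset.mem_powerset] at *
    intro x hx
    rw [mem_emb] at *
    exact ⟨hT hx.1, hx.2⟩
  · intro S hS
    rw [Finset.mem_powerset] at *
    intro i hi
    rw [Finset.mem_image] at hi
    obtain ⟨x, hx, rfl⟩ := hi
    exact (mem_emb.1 (hS hx)).1
  · intro T _
    ext i
    rw [Finset.mem_image]
    constructor
    · rintro ⟨x, hx, rfl⟩
      exact (mem_emb.1 hx).1
    · intro hi
      exact ⟨(i, 0), mem_emb.2 ⟨hi, rfl⟩, rfl⟩
  · intro S hS
    rw [Finset.mem_powerset] at hS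
    ext x
    rw [mem_emb, Finset.mem_image]
    constructor
    · rintro ⟨⟨y, hy, h1⟩, h2⟩
      have h3 := (mem_emb.1 (hS hy)).2
      have : x = y := by
        rw [Prod.ext_iff]; exact ⟨h1.symm, by rw [h2, h3]⟩
      rw [this]; exact hy
    · intro hx
      exact ⟨⟨x, hx, rfl⟩, (mem_emb.1 (hS hx)).2⟩
  · intro T _; rfl

/-- frozen sites -/
noncomputable def lineF (n : ℤ) (F : ℤ → Prop) [DecidablePred F] : Finset ℤ :=
  (Finset.Icc (-n) n).filter F

lemma mem_lineF {n : ℤ} {F : ℤ → Prop} [DecidablePred F] {i : ℤ} :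
    i ∈ lineF n F ↔ (-n ≤ i ∧ i ≤ n) ∧ F i := by
  unfold lineF; rw [Finset.mem_filter, Finset.mem_Icc]

lemma box_split {n : ℤ} (hn : 0 ≤ n) (F : ℤ → Prop) [DecidablePred F] :
    VF n F ∪ emb (lineF n F) = box n ∧ Disjoint (VF n F) (emb (lineF n F)) := by
  constructor
  · ext x
    rw [Finset.mem_union, mem_VF, mem_emb, mem_lineF, mem_box]
    constructor
    · rintro (h | h)
      · exact h.1
      · exact ⟨h.1.1, by omega⟩
    · intro h
      by_cases hx : x.2 = 0 ∧ F x.1
      · right; exact ⟨⟨h.1, hx.2⟩, hx.1⟩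
      · left; exact ⟨h, hx⟩
  · rw [Finset.disjoint_left]
    intro x hx hx'
    rw [mem_VF] at hx
    rw [mem_emb, mem_lineF] at hx'
    exact hx.2 ⟨hx'.2, hx'.1.2⟩

/-- the set of plus sites of `ω` among the frozen sites -/
noncomputable def plusSet (I : Finset ℤ) (ω : ℤ → Bool) : Finset ℤ := I.filter (fun i => ω i = true)

lemma sp_emb_plusSet {I : Finset ℤ} {ω : ℤ → Bool} {x : ℤ × ℤ} (h1 : x.1 ∈ I) (h2 : x.2 = 0) :
    sp (emb (plusSet I ω)) x = spin (ω x.1) := by
  unfold sp spin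
  have : x ∈ emb (plusSet I ω) ↔ ω x.1 = true := by
    rw [mem_emb, plusSet, Finset.mem_filter]; tauto
  by_cases h : ω x.1 = true
  · rw [if_pos (this.2 h), if_pos h]
  · rw [if_neg (fun h' => h (this.1 h')), if_neg h]

/-- unnormalised weight of the spins of `ω` on the frozen sites of the box -/
noncomputable def WL (β : ℝ) (F : ℤ → Prop) [DecidablePred F] (n : ℤ) (ω : ℤ → Bool) : ℝ :=
  Real.exp (ham (Jn β) (emb (lineF n F)) (bfield β (box n)) (emb (plusSet (lineF n F) ω)))
    * Z (Jn β) (VF n F) (bfield β (box n) + cfield (Jn β) (emb (lineF n F))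
        (emb (plusSet (lineF n F) ω)))

lemma WL_pos (β : ℝ) (F : ℤ → Prop) [DecidablePred F] (n : ℤ) (ω : ℤ → Bool) :
    0 < WL β F n ω := mul_pos (Real.exp_pos _) (Z_pos _ _ _)

lemma plusSet_glue {I T : Finset ℤ} (hT : T ⊆ I) (ω : ℤ → Bool) :
    plusSet I (glue I T ω) = T := by
  ext i
  unfold plusSet
  rw [Finset.mem_filter]
  constructor
  · rintro ⟨h1, h2⟩
    rw [glue_on h1] at h2
    simpa using h2
  · intro h
    refine ⟨hT h, ?_⟩
    rw [glue_on (hT h)]
    simpa using h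

lemma plusSet_congr {I : Finset ℤ} {ω ω' : ℤ → Bool} (h : ∀ i ∈ I, ω i = ω' i) :
    plusSet I ω = plusSet I ω' := by
  unfold plusSet
  exact Finset.filter_congr (fun i hi => by rw [h i hi])

lemma plusSet_eq_glue (I : Finset ℤ) (ω : ℤ → Bool) : glue I (plusSet I ω) ω = ω := by
  funext i
  by_cases hi : i ∈ I
  · rw [glue_on hi]
    unfold plusSet
    cases h : ω i <;> simp [hi, h]
  · rw [glue_off hi]

/-- functions depending on finitely many spins are continuous -/
lemma continuous_of_local {X : Type*} [TopologicalSpace X] (I : Finset ℤ) (f : (ℤ → Bool) → X)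
    (h : ∀ ω ω', (∀ i ∈ I, ω i = ω' i) → f ω = f ω') : Continuous f := by
  rw [continuous_iff_continuousAt]
  intro ω
  have hev : ∀ᶠ ω' in 𝓝 ω, ∀ i ∈ I, ω' i = ω i := by
    rw [Filter.eventually_all_finset]
    intro i _
    have : Tendsto (fun ω' : ℤ → Bool => ω' i) (𝓝 ω) (𝓝 (ω i)) := (continuous_apply i).tendsto ω
    have h2 : ∀ᶠ b in 𝓝 (ω i), b = ω i := by
      rw [nhds_discrete]; exact Filter.eventually_pure.2 rfl
    exact this.eventually h2
  have : Tendsto f (𝓝 ω) (𝓝 (f ω)) := by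
    apply tendsto_const_nhds.congr'
    filter_upwards [hev] with ω' h'
    exact (h ω' ω h').symm
  exact this

lemma WL_local (β : ℝ) (F : ℤ → Prop) [DecidablePred F] (n : ℤ) (ω ω' : ℤ → Bool)
    (h : ∀ i ∈ lineF n F, ω i = ω' i) : WL β F n ω = WL β F n ω' := by
  unfold WL; rw [plusSet_congr h]

lemma WL_cont (β : ℝ) (F : ℤ → Prop) [DecidablePred F] (n : ℤ) : Continuous (WL β F n) :=
  continuous_of_local (lineF n F) _ (WL_local β F n)

/-- law of the spins on the frozen sites -/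
lemma plus_frozen {β : ℝ} (hβ : 0 ≤ β) {n : ℤ} (hn : 0 ≤ n) (F : ℤ → Prop) [DecidablePred F]
    (f : (ℤ → Bool) → ℝ) (hf : ∀ ω ω', (∀ i, F i → ω i = ω' i) → f ω = f ω') :
    Zf (Jn β) (box n) (bfield β (box n)) (fun S => f (lineProj (plusConf (box n) S)))
      = ∑ T ∈ (lineF n F).powerset, WL β F n (glue (lineF n F) T (fun _ => true))
        * f (glue (lineF n F) T (fun _ => true)) := by
  have hJ := Jn_coup hβ
  obtain ⟨hu, hd⟩ := box_split hn F
  conv_lhs => rw [← hu]
  rw [Zf_union (Jn β) hJ.symm hd, sum_powerset_emb]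
  refine Finset.sum_congr rfl (fun T hT => ?_)
  rw [Finset.mem_powerset] at hT
  unfold WL
  rw [plusSet_glue hT, hu]
  have hconf : ∀ S ∈ (VF n F).powerset, f (lineProj (plusConf (box n) (S ∪ emb T)))
      = f (glue (lineF n F) T (fun _ => true)) := by
    intro S hS
    rw [Finset.mem_powerset] at hS
    apply hf
    intro i hi
    unfold lineProj plusConf
    by_cases hin : (i, (0:ℤ)) ∈ box n
    · have hin' : i ∈ lineF n F := by
        rw [mem_lineF]; rw [mem_box] at hin; exact ⟨hin.1, hi⟩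
      rw [glue_on hin']
      have hnS : (i, (0:ℤ)) ∉ S := fun h => by
        have := hS h
        rw [mem_VF] at this
        exact this.2 ⟨rfl, hi⟩
      have : (i, (0:ℤ)) ∈ emb T ↔ i ∈ T := by rw [mem_emb]; simp
      simp [hnS, this, hin]
    · have hin' : i ∉ lineF n F := by
        intro h
        rw [mem_lineF] at h
        apply hin
        rw [mem_box]; exact ⟨h.1, by simp only; omega⟩
      rw [glue_off hin']
      simp [hin]
  have hZ : Zf (Jn β) (VF n F) (bfield β (box n) + cfield (Jn β) (emb (lineF n F)) (emb T))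
      (fun S => f (lineProj (plusConf (box n) (S ∪ emb T))))
      = Z (Jn β) (VF n F) (bfield β (box n) + cfield (Jn β) (emb (lineF n F)) (emb T))
        * f (glue (lineF n F) T (fun _ => true)) := by
    unfold Z Zf
    rw [Finset.sum_mul]
    refine Finset.sum_congr rfl (fun S hS => ?_)
    simp only
    rw [hconf S hS]; ring
  rw [hZ]
  ring

end Pool.Agent.P6ac95e
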