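import Pool.Agent.Lib.P6ac95e.Line1

set_option autoImplicit false

open MeasureTheory Filter Topology Finset

namespace Pool.Agent.P6ac95e

/-- field on the off-line sites created by the line spins other than the one at `x` -/
noncomputable def gfield (β : ℝ) (x : ℤ) (ω : ℤ → Bool) (u : ℤ × ℤ) : ℝ :=
  ∑ w ∈ nbs u, (if w.2 = 0 ∧ w.1 ≠ x then β * spin (ω w.1) else 0)

lemma sum_Jn_mul (β : ℝ) (E : Finset (ℤ × ℤ)) (u : ℤ × ℤ) (f : ℤ × ℤ → ℝ) :
    ∑ w ∈ E, Jn β u w * f w = ∑ w ∈ nbs u, (if w ∈ E then β * f w else 0) := by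
  have h : ∀ w ∈ E, Jn β u w * f w = if w ∈ nbs u then β * f w else 0 := by
    intro w _; unfold Jn; split_ifs <;> ring
  rw [Finset.sum_congr rfl h, Finset.sum_ite_mem, Finset.sum_ite_mem, Finset.inter_comm]

instance : DecidablePred (fun _ : ℤ => True) := fun _ => isTrue trivial

lemma log_WL_diff {β : ℝ} (hβ : 0 ≤ β) {n x : ℤ} (hx : |x| + 1 ≤ n) (ω : ℤ → Bool) :
    Real.log (WL β (fun _ => True) n (Function.update ω x true))
      - Real.log (WL β (fun _ => True) n (Function.update ω x false))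
    = 2 * β * (spin (ω (x + 1)) + spin (ω (x - 1)))
      + (psi (Jn β) (VF n (fun _ => True)) (bfield β (box n) + gfield β x ω + Jn β (x, 0))
        - psi (Jn β) (VF n (fun _ => True)) (bfield β (box n) + gfield β x ω - Jn β (x, 0))) := by
  have hJ := Jn_coup hβ
  have hx1 := neg_abs_le x
  have hx2 := le_abs_self x
  have hx3 := abs_nonneg x
  obtain ⟨I, hI⟩ : ∃ I, I = lineF n (fun _ => True) := ⟨_, rfl⟩
  have hmI : ∀ i, i ∈ I ↔ (-n ≤ i ∧ i ≤ n) := by
    intro i; rw [hI, mem_lineF]; simp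
  have hxI : x ∈ I := (hmI x).2 ⟨by omega, by omega⟩
  have haE : ((x, 0) : ℤ × ℤ) ∈ emb I := mem_emb.2 ⟨hxI, rfl⟩
  obtain ⟨E0, hE0⟩ : ∃ E0, E0 = (emb I).erase (x, 0) := ⟨_, rfl⟩
  have hE : insert ((x, 0) : ℤ × ℤ) E0 = emb I := by rw [hE0]; exact Finset.insert_erase haE
  have haE0 : ((x, 0) : ℤ × ℤ) ∉ E0 := by rw [hE0]; exact Finset.notMem_erase _ _
  have hmE0 : ∀ w : ℤ × ℤ, w ∈ E0 ↔ (-n ≤ w.1 ∧ w.1 ≤ n) ∧ w.2 = 0 ∧ w.1 ≠ x := by
    intro w
    rw [hE0, Finset.mem_erase, mem_emb, hmI, ne_eq, Prod.ext_iff]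
    simp only
    constructor
    · rintro ⟨h1, h2, h3⟩
      exact ⟨h2, h3, fun h4 => h1 ⟨h4, h3⟩⟩
    · rintro ⟨h1, h2, h3⟩
      exact ⟨fun h4 => h3 h4.1, h1, h2⟩
  -- the key computation for a given value of the spin at x
  have key : ∀ (b : Bool), Real.log (WL β (fun _ => True) n (Function.update ω x b))
      = (ham (Jn β) E0 0 (emb (plusSet I ω)) + ∑ u ∈ E0, bfield β (box n) u * spin (ω u.1))
        + spin b * (β * (spin (ω (x + 1)) + spin (ω (x - 1))) + bfield β (box n) (x, 0))
        + psi (Jn β) (VF n (fun _ => True))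
          (bfield β (box n) + gfield β x ω + spin b • Jn β (x, 0)) := by
    intro b
    obtain ⟨P, hP⟩ : ∃ P, P = emb (plusSet I (Function.update ω x b)) := ⟨_, rfl⟩
    have hsp : ∀ w ∈ E0, sp P w = spin (ω w.1) := by
      intro w hw
      rw [hmE0] at hw
      rw [hP, sp_emb_plusSet ((hmI _).2 hw.1) hw.2.1, Function.update_of_ne hw.2.2]
    have hspa : sp P (x, 0) = spin b := by
      rw [hP, sp_emb_plusSet hxI rfl, Function.update_self]
    have hsp0 : ∀ w ∈ E0, sp (emb (plusSet I ω)) w = spin (ω w.1) := by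
      intro w hw
      rw [hmE0] at hw
      rw [sp_emb_plusSet ((hmI _).2 hw.1) hw.2.1]
    -- interaction of a with the line
    have hline : ∑ u ∈ E0, Jn β (x, 0) u * spin (ω u.1)
        = β * (spin (ω (x + 1)) + spin (ω (x - 1))) := by
      have c1 : ((x + 1, 0) : ℤ × ℤ) ∈ E0 :=
        (hmE0 _).2 ⟨⟨by simp only; omega, by simp only; omega⟩, rfl, by simp only; omega⟩
      have c2 : ((x - 1, 0) : ℤ × ℤ) ∈ E0 :=
        (hmE0 _).2 ⟨⟨by simp only; omega, by simp only; omega⟩, rfl, by simp only; omega⟩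
      have c3 : ((x, 0 + 1) : ℤ × ℤ) ∉ E0 := fun h => by
        have := ((hmE0 _).1 h).2.1
        simp only at this; omega
      have c4 : ((x, 0 - 1) : ℤ × ℤ) ∉ E0 := fun h => by
        have := ((hmE0 _).1 h).2.1
        simp only at this; omega
      have hs4 := sum_nbs (x, 0) (fun w => if w ∈ E0 then β * spin (ω w.1) else 0)
      simp only at hs4
      rw [if_pos c1, if_pos c2, if_neg c3, if_neg c4] at hs4
      rw [sum_Jn_mul β E0 (x, 0) (fun w => spin (ω w.1)), hs4]
      ring
    have hham : ham (Jn β) (emb I) (bfield β (box n)) P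
        = (ham (Jn β) E0 0 (emb (plusSet I ω)) + ∑ u ∈ E0, bfield β (box n) u * spin (ω u.1))
        + spin b * (β * (spin (ω (x + 1)) + spin (ω (x - 1))) + bfield β (box n) (x, 0)) := by
      rw [← hE, ham_insert (Jn β) hJ.symm hJ.diag haE0, hspa]
      have h1 : ham (Jn β) E0 (fun u => bfield β (box n) u + spin b * Jn β (x, 0) u) P
          = ham (Jn β) E0 0 (emb (plusSet I ω)) + ∑ u ∈ E0, bfield β (box n) u * spin (ω u.1)
            + spin b * ∑ u ∈ E0, Jn β (x, 0) u * spin (ω u.1) := by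
        unfold ham
        have q : ∑ u ∈ E0, ∑ w ∈ E0, Jn β u w * (sp P u * sp P w)
            = ∑ u ∈ E0, ∑ w ∈ E0, Jn β u w * (sp (emb (plusSet I ω)) u
              * sp (emb (plusSet I ω)) w) := by
          refine Finset.sum_congr rfl (fun u hu => Finset.sum_congr rfl (fun w hw => ?_))
          rw [hsp u hu, hsp w hw, hsp0 u hu, hsp0 w hw]
        have q2 : ∑ u ∈ E0, (bfield β (box n) u + spin b * Jn β (x, 0) u) * sp P u
            = ∑ u ∈ E0, bfield β (box n) u * spin (ω u.1)
              + spin b * ∑ u ∈ E0, Jn β (x, 0) u * spin (ω u.1) := by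
          rw [Finset.mul_sum, ← Finset.sum_add_distrib]
          refine Finset.sum_congr rfl (fun u hu => ?_)
          rw [hsp u hu]; ring
        have q3 : ∑ u ∈ E0, (0 : ℤ × ℤ → ℝ) u * sp (emb (plusSet I ω)) u = 0 := by simp
        rw [q, q2, q3]; ring
      rw [h1, hline]; ring
    have hpsi : psi (Jn β) (VF n (fun _ => True))
        (bfield β (box n) + cfield (Jn β) (emb I) P)
        = psi (Jn β) (VF n (fun _ => True))
          (bfield β (box n) + gfield β x ω + spin b • Jn β (x, 0)) := by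
      apply psi_congr
      intro u hu
      rw [mem_VF, mem_box] at hu
      simp only [Pi.add_apply, Pi.smul_apply, smul_eq_mul]
      have h1 : cfield (Jn β) (emb I) P u = Jn β u (x, 0) * spin b
          + ∑ w ∈ E0, Jn β u w * spin (ω w.1) := by
        unfold cfield
        rw [← hE, Finset.sum_insert haE0, hspa]
        congr 1
        exact Finset.sum_congr rfl (fun w hw => by rw [hsp w hw])
      have h2 : ∑ w ∈ E0, Jn β u w * spin (ω w.1) = gfield β x ω u := by
        rw [sum_Jn_mul β E0 u (fun w => spin (ω w.1))]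
        unfold gfield
        refine Finset.sum_congr rfl (fun w hw => ?_)
        rw [mem_nbs] at hw
        have : w ∈ E0 ↔ w.2 = 0 ∧ w.1 ≠ x := by
          rw [hmE0]
          have hu2 : u.2 ≠ 0 := fun h => hu.2 ⟨h, trivial⟩
          constructor
          · intro h; exact h.2
          · intro h; exact ⟨by omega, h⟩
        by_cases hw' : w.2 = 0 ∧ w.1 ≠ x
        · rw [if_pos (this.2 hw'), if_pos hw']
        · rw [if_neg (fun h => hw' (this.1 h)), if_neg hw']
      rw [h1, h2, hJ.symm u (x, 0)]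
      ring
    unfold WL
    rw [Real.log_mul (Real.exp_pos _).ne' (Z_pos _ _ _).ne', Real.log_exp, ← hI, ← hP, hham]
    congr 1
  rw [key true, key false]
  have s1 : spin true = 1 := rfl
  have s2 : spin false = -1 := rfl
  have hb : bfield β (box n) (x, 0) = 0 := by
    have : ((x, 0) : ℤ × ℤ) ∈ box (n - 1) := by rw [mem_box]; simp only; omega
    exact bfield_zero (by omega) this
  rw [s1, s2, hb, one_smul, neg_one_smul, ← sub_eq_add_neg]
  ring

lemma nbs_card_le (u : ℤ × ℤ) : (nbs u).card ≤ 4 := by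
  unfold nbs; exact Finset.card_le_four

/-- the uniform Cauchy property for the full line -/
lemma WL_cauchy {β : ℝ} (hβ : 0 < β) (hS : Real.sinh (2 * β) = 1) (x : ℤ) {ε : ℝ} (hε : 0 < ε) :
    ∃ N : ℤ, ∀ n n' : ℤ, N ≤ n → n < n' → ∀ ω : ℤ → Bool,
    |(Real.log (WL β (fun _ => True) n' (Function.update ω x true))
        - Real.log (WL β (fun _ => True) n' (Function.update ω x false)))
      - (Real.log (WL β (fun _ => True) n (Function.update ω x true))
        - Real.log (WL β (fun _ => True) n (Function.update ω x false)))| ≤ ε := by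
  have hJ := Jn_coup hβ.le
  obtain ⟨δ, hδ0, hδ⟩ : ∃ δ : ℝ, 0 < δ ∧ 16 * β * δ ≤ ε := by
    refine ⟨ε / (16 * β), by positivity, ?_⟩
    rw [mul_div_cancel₀ _ (by positivity)]
  have hF : ∀ n : ℤ, 1 ≤ n → ∀ i, -n ≤ i → i ≤ n → (True ↔ i ≤ n) :=
    fun n _ i _ h2 => ⟨fun _ => h2, fun _ => trivial⟩
  obtain ⟨N1, hN1⟩ := crit_eventually (c := (x, 1)) (F := fun _ => True) hS (fun n => n)
    (fun n hn => ⟨by omega, le_rfl⟩) hF
    ⟨x, fun n hn => Or.inr (Or.inl ⟨rfl, hn⟩)⟩ hδ0
  obtain ⟨N2, hN2⟩ := crit_eventually (c := (x, -1)) (F := fun _ => True) hS (fun n => n)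
    (fun n hn => ⟨by omega, le_rfl⟩) hF
    ⟨x, fun n hn => Or.inl ⟨rfl, hn⟩⟩ hδ0
  refine ⟨max (max N1 N2) (|x| + 1), fun n n' hn hnn' ω => ?_⟩
  have hn1 : N1 ≤ n := (le_max_left _ _).trans ((le_max_left _ _).trans hn)
  have hn2 : N2 ≤ n := (le_max_right _ _).trans ((le_max_left _ _).trans hn)
  have hn3 : |x| + 1 ≤ n := (le_max_right _ _).trans hn
  have hx1 := neg_abs_le x
  have hx2 := le_abs_self x
  rw [log_WL_diff hβ.le hn3, log_WL_diff hβ.le (hn3.trans hnn'.le)]
  have hpc := psi_cauchy hβ.le hnn' (F := fun _ => True) (e := Jn β (x, 0))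
    (fun u => hJ.nonneg _ _) (by
      intro u hu hu'
      unfold Jn
      rw [if_neg]
      intro hnb
      apply hu'
      rw [mem_VF] at hu ⊢
      refine ⟨?_, hu.2⟩
      rw [mem_nbs] at hnb
      rw [mem_box]
      simp only at hnb
      omega) (gfield β x ω)
  have hsum : ∑ u ∈ VF n (fun _ => True), Jn β (x, 0) u
      * mag (Jn β) (VF n (fun _ => True)) (bfield β (box n)) u ≤ 4 * (β * δ) := by
    calc ∑ u ∈ VF n (fun _ => True), Jn β (x, 0) u
          * mag (Jn β) (VF n (fun _ => True)) (bfield β (box n)) u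
        ≤ ∑ u ∈ VF n (fun _ => True), (if u ∈ nbs (x, 0) then β * δ else 0) := by
          apply Finset.sum_le_sum
          intro u hu
          unfold Jn
          by_cases h : u ∈ nbs (x, 0)
          · rw [if_pos h, if_pos h]
            apply mul_le_mul_of_nonneg_left _ hβ.le
            rw [mem_VF] at hu
            have hu2 : u.2 ≠ 0 := fun h => hu.2 ⟨h, trivial⟩
            rw [mem_nbs] at h
            simp only at h
            have : u = (x, 1) ∨ u = (x, -1) := by
              rw [Prod.ext_iff, Prod.ext_iff]; simp only; omega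
            rcases this with h | h
            · rw [h]; exact hN1 n hn1
            · rw [h]; exact hN2 n hn2
          · rw [if_neg h, if_neg h, zero_mul]
      _ = ((VF n (fun _ => True) ∩ nbs (x, 0)).card : ℝ) * (β * δ) := by
          rw [Finset.sum_ite_mem, Finset.sum_const, nsmul_eq_mul]
      _ ≤ 4 * (β * δ) := by
          apply mul_le_mul_of_nonneg_right _ (by positivity)
          have h1 := (Finset.card_le_card (Finset.inter_subset_right
            (s₁ := VF n (fun _ => True)) (s₂ := nbs (x, 0)))).trans (nbs_card_le (x, 0))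
          exact_mod_cast h1
  have e : ∀ A B C : ℝ, (A + B) - (A + C) = B - C := fun A B C => by ring
  rw [e]
  refine hpc.trans ?_
  linarith

/-- the weights of the projection -/
noncomputable def lineData {β : ℝ} (hβ : 0 < β) (hS : Real.sinh (2 * β) = 1) : WData where
  W := fun m => WL β (fun _ => True) (m : ℤ)
  pos := fun m ω => WL_pos _ _ _ _
  cont := fun m => WL_cont _ _ _
  cauchy := by
    intro x ε hε
    obtain ⟨N, hN⟩ := WL_cauchy hβ hS x hε
    refine ⟨N.toNat, fun m hm m' hm' ω => ?_⟩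
    have h1 : N ≤ (m : ℤ) := by have := Int.self_le_toNat N; omega
    have h2 : N ≤ (m' : ℤ) := by have := Int.self_le_toNat N; omega
    rcases lt_trichotomy m m' with h | h | h
    · exact hN m m' h1 (by exact_mod_cast h) ω
    · rw [h, sub_self, abs_zero]; exact hε.le
    · rw [abs_sub_comm]
      exact hN m' m h2 (by exact_mod_cast h) ω

/-- finite-volume marginal on the line -/
noncomputable def nuBox (β : ℝ) (m : ℕ) : ProbabilityMeasure (ℤ → Bool) :=
  (plusProb β (box (m : ℤ))).map measurable_lineProj.aemeasurable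

lemma nuBox_integral {β : ℝ} (hβ : 0 < β) (hS : Real.sinh (2 * β) = 1) (m : ℕ)
    (f : (ℤ → Bool) → ℝ) (hf : Continuous f) :
    ∫ ω, f ω ∂(nuBox β m : Measure (ℤ → Bool))
      = ∑ T ∈ (lineF (m : ℤ) (fun _ => True)).powerset,
        (lineData hβ hS).pm m (lineF (m : ℤ) (fun _ => True)) T (fun _ => true)
          * f (glue (lineF (m : ℤ) (fun _ => True)) T (fun _ => true)) := by
  have h1 : ∫ ω, f ω ∂(nuBox β m : Measure (ℤ → Bool))
      = ∫ σ, f (lineProj σ) ∂(plusMeasure β (box (m : ℤ))) := by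
    unfold nuBox
    rw [ProbabilityMeasure.toMeasure_map]
    rw [integral_map measurable_lineProj.aemeasurable hf.measurable.aestronglyMeasurable]
    rfl
  have hn : (0:ℤ) ≤ (m : ℤ) := Int.natCast_nonneg m
  rw [h1, plusMeasure_integral β (box (m:ℤ)) (fun σ => f (lineProj σ)),
    plus_frozen hβ.le hn (fun _ => True) f (fun ω ω' h => by
      have : ω = ω' := funext (fun i => h i trivial)
      rw [this])]
  have hZ : Z (Jn β) (box (m:ℤ)) (bfield β (box (m:ℤ)))
      = ∑ T ∈ (lineF (m : ℤ) (fun _ => True)).powerset,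
        WL β (fun _ => True) (m:ℤ) (glue (lineF (m : ℤ) (fun _ => True)) T (fun _ => true)) := by
    have := plus_frozen hβ.le hn (fun _ => True) (fun _ => 1) (fun _ _ _ => rfl)
    simp only [mul_one] at this
    exact this
  rw [hZ, Finset.sum_div]
  refine Finset.sum_congr rfl (fun T _ => ?_)
  unfold WData.pm
  change _ = WL β (fun _ => True) (m:ℤ) _ / (∑ T' ∈ (lineF (m : ℤ) (fun _ => True)).powerset,
    WL β (fun _ => True) (m:ℤ) _) * _
  ring

lemma nuBox_DLR {β : ℝ} (hβ : 0 < β) (hS : Real.sinh (2 * β) = 1) (Λ : Finset ℤ) :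
    ∃ N, ∀ m ≥ N, ∀ f : (ℤ → Bool) → ℝ, Continuous f →
      ∫ ω, ∑ T ∈ Λ.powerset, (lineData hβ hS).pm m Λ T ω * f (glue Λ T ω)
          ∂(nuBox β m : Measure (ℤ → Bool))
        = ∫ ω, f ω ∂(nuBox β m : Measure (ℤ → Bool)) := by
  obtain ⟨N, hN⟩ : ∃ N : ℕ, ∀ i ∈ Λ, |i| ≤ N := by
    refine ⟨Λ.sup Int.natAbs, fun i hi => ?_⟩
    have := Finset.le_sup (f := Int.natAbs) hi
    rw [Int.abs_eq_natAbs]
    exact_mod_cast this
  refine ⟨N, fun m hm f hf => ?_⟩
  have hΛ : Λ ⊆ lineF (m : ℤ) (fun _ => True) := by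
    intro i hi
    rw [mem_lineF]
    have h1 := hN i hi
    have h2 := neg_abs_le i
    have h3 := le_abs_self i
    have h4 : (N:ℤ) ≤ m := by exact_mod_cast hm
    exact ⟨by omega, trivial⟩
  have hK : Continuous (fun ω => ∑ T ∈ Λ.powerset, (lineData hβ hS).pm m Λ T ω
      * f (glue Λ T ω)) := by
    refine continuous_finsetSum _ (fun T _ => Continuous.mul ?_ (hf.comp (continuous_glue Λ T)))
    unfold WData.pm
    apply Continuous.div
    · exact ((lineData hβ hS).cont m).comp (continuous_glue Λ T)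
    · exact continuous_finsetSum _ (fun T' _ =>
        ((lineData hβ hS).cont m).comp (continuous_glue Λ T'))
    · intro ω
      exact (Finset.sum_pos (fun T' _ => (lineData hβ hS).pos m _)
        ⟨∅, Finset.empty_mem_powerset _⟩).ne'
  rw [nuBox_integral hβ hS m _ hK, nuBox_integral hβ hS m _ hf]
  exact (lineData hβ hS).compat_pm m hΛ (fun _ => true) f

/-- **Q1, given the plus phase**: the projection of the plus phase at criticality is Gibbs -/
theorem line_gibbs {β : ℝ} (hβ : 0 < β) (hS : Real.sinh (2 * β) = 1)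
    (μ : ProbabilityMeasure (ℤ × ℤ → Bool))
    (hμ : Tendsto (fun m : ℕ => plusProb β (box (m : ℤ))) atTop (𝓝 μ)) :
    IsGibbs (lineMarginal μ) := by
  refine ⟨Measure.isProbabilityMeasure_map measurable_lineProj.aemeasurable,
    (lineData hβ hS).spec, (lineData hβ hS).spec_nonnull, (lineData hβ hS).spec_quasilocal, ?_⟩
  have hν : Tendsto (nuBox β) atTop (𝓝 (μ.map measurable_lineProj.aemeasurable)) := by
    unfold nuBox
    exact ((ProbabilityMeasure.continuous_map continuous_lineProj).tendsto μ).comp hμ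
  have := (lineData hβ hS).spec_consistent (μ.map measurable_lineProj.aemeasurable) (nuBox β) hν
    (nuBox_DLR hβ hS)
  rw [ProbabilityMeasure.toMeasure_map] at this
  exact this

end Pool.Agent.P6ac95e
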