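import Pool.Agent.Lib.P6ac95e.Line2

set_option autoImplicit false

open MeasureTheory Filter Topology Finset

namespace Pool.Agent.P6ac95e

/-- sites of the past -/
def Neg (i : ℤ) : Prop := i < 0

instance : DecidablePred Neg := fun i => inferInstanceAs (Decidable (i < 0))

/-- field created by the past -/
noncomputable def pfield (β : ℝ) (ω : ℤ → Bool) (u : ℤ × ℤ) : ℝ :=
  ∑ w ∈ nbs u, (if w.2 = 0 ∧ w.1 < 0 then β * spin (ω w.1) else 0)

/-- magnetisation of the origin given the past, in the box of radius `n` -/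
noncomputable def GP (β : ℝ) (n : ℤ) (ω : ℤ → Bool) : ℝ :=
  mag (Jn β) (VF n Neg) (bfield β (box n) + pfield β ω) (0, 0)

lemma origin_mem {n : ℤ} (hn : 0 ≤ n) : ((0, 0) : ℤ × ℤ) ∈ VF n Neg := by
  rw [mem_VF, mem_box]
  refine ⟨⟨⟨by simp only; omega, hn⟩, ⟨by simp only; omega, hn⟩⟩, ?_⟩
  rintro ⟨_, h⟩
  exact absurd h (lt_irrefl _)

lemma continuous_mag (J : ℤ × ℤ → ℤ × ℤ → ℝ) (A : Finset (ℤ × ℤ)) (v : ℤ × ℤ) :
    Continuous (fun x : ℤ × ℤ → ℝ => mag J A x v) := by
  unfold mag
  apply Continuous.div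
  · unfold Zf ham
    fun_prop
  · exact continuous_Z J A
  · intro x; exact (Z_pos _ _ _).ne'

lemma continuous_spin : Continuous spin := continuous_of_discreteTopology

lemma continuous_pfield (β : ℝ) : Continuous (pfield β) := by
  unfold pfield
  apply continuous_pi
  intro u
  apply continuous_finsetSum
  intro w _
  by_cases h : w.2 = 0 ∧ w.1 < 0
  · simp only [h, and_self, if_true]
    exact continuous_const.mul (continuous_spin.comp (continuous_apply w.1))
  · simp only [h, if_false]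
    exact continuous_const

lemma GP_cont (β : ℝ) (n : ℤ) : Continuous (GP β n) := by
  have h : Continuous (fun ω : ℤ → Bool => bfield β (box n) + pfield β ω) :=
    continuous_const.add (continuous_pfield β)
  exact (continuous_mag (Jn β) (VF n Neg) (0, 0)).comp h

lemma GP_past (β : ℝ) (n : ℤ) {ω ω' : ℤ → Bool} (h : ∀ i < 0, ω i = ω' i) :
    GP β n ω = GP β n ω' := by
  unfold GP
  have : pfield β ω = pfield β ω' := by
    funext u
    unfold pfield
    refine Finset.sum_congr rfl (fun w _ => ?_)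
    by_cases hw : w.2 = 0 ∧ w.1 < 0
    · rw [if_pos hw, if_pos hw, h _ hw.2]
    · rw [if_neg hw, if_neg hw]
  rw [this]

lemma GP_cauchy {β : ℝ} (hβ : 0 < β) (hS : Real.sinh (2 * β) = 1) {ε : ℝ} (hε : 0 < ε) :
    ∃ N : ℤ, ∀ n n' : ℤ, N ≤ n → n < n' → ∀ ω : ℤ → Bool, |GP β n' ω - GP β n ω| ≤ ε := by
  obtain ⟨N, hN⟩ := crit_eventually (c := (0, 0)) (F := Neg) hS (fun _ => -1)
    (fun n hn => ⟨by omega, by omega⟩)
    (fun n _ i _ _ => by unfold Neg; omega)
    ⟨0, fun n _ => Or.inr (Or.inr ⟨rfl, by norm_num⟩)⟩ (δ := ε / 2) (by linarith)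
  refine ⟨max N 0, fun n n' hn hnn' ω => ?_⟩
  have h1 := mag_cauchy hβ.le hnn' (F := Neg) (c := (0, 0))
    (origin_mem ((le_max_right _ _).trans hn)) (pfield β ω)
  have h2 := hN n ((le_max_left _ _).trans hn)
  unfold GP
  linarith

/-- uniform bound -/
lemma GP_bound {β : ℝ} (hβ : 0 < β) {n : ℤ} (hn : 0 ≤ n) (ω : ℤ → Bool) :
    |GP β n ω| ≤ Real.tanh (12 * β) := by
  have hJ := Jn_coup hβ.le
  unfold GP
  rw [mag_eq_tanh hJ _ (origin_mem hn)]
  have hr := abs_rr_le hJ (VF n Neg) (bfield β (box n) + pfield β ω) (0, 0)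
  have hjt : jt (Jn β) (VF n Neg) (0, 0) ≤ 4 * β := by
    unfold jt
    rw [sum_Jn, mul_comm]
    apply mul_le_mul_of_nonneg_right _ hβ.le
    have := (Finset.card_le_card (Finset.inter_subset_right
      (s₁ := (VF n Neg).erase (0, 0)) (s₂ := nbs (0, 0)))).trans (nbs_card_le (0, 0))
    exact_mod_cast this
  have hb : |bfield β (box n) (0, 0)| ≤ 4 * β := by
    rw [abs_of_nonneg (bfield_nonneg hβ.le _ _)]
    unfold bfield
    rw [mul_comm]
    apply mul_le_mul_of_nonneg_right _ hβ.le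
    have := (Finset.card_le_card (Finset.sdiff_subset
      (s := nbs (0, 0)) (t := box n))).trans (nbs_card_le (0, 0))
    exact_mod_cast this
  have hp : |pfield β ω (0, 0)| ≤ 4 * β := by
    unfold pfield
    refine (Finset.abs_sum_le_sum_abs _ _).trans ?_
    have : ∀ w ∈ nbs (0, 0), |if w.2 = 0 ∧ w.1 < 0 then β * spin (ω w.1) else 0| ≤ β := by
      intro w _
      split_ifs
      · rw [abs_mul, abs_of_pos hβ]
        have : |spin (ω w.1)| = 1 := by
          unfold spin; cases ω w.1 <;> simp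
        rw [this, mul_one]
      · rw [abs_zero]; exact hβ.le
    refine (Finset.sum_le_sum this).trans ?_
    rw [Finset.sum_const, nsmul_eq_mul]
    apply mul_le_mul_of_nonneg_right _ hβ.le
    exact_mod_cast nbs_card_le (0, 0)
  have h0 : |(bfield β (box n) + pfield β ω) (0, 0)
      + rr (Jn β) (VF n Neg) (bfield β (box n) + pfield β ω) (0, 0)| ≤ 12 * β := by
    simp only [Pi.add_apply]
    rw [abs_le] at *
    constructor
    · linarith [hb.1, hp.1, hr.1]
    · linarith [hb.2, hp.2, hr.2]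
  rw [abs_le] at h0 ⊢
  constructor
  · rw [← tanh_neg']
    exact tanh_mono' (by linarith [h0.1])
  · exact tanh_mono' h0.2

/-- the limiting magnetisation given the past -/
lemma exists_GP_lim {β : ℝ} (hβ : 0 < β) (hS : Real.sinh (2 * β) = 1) :
    ∃ G : (ℤ → Bool) → ℝ, Continuous G ∧
      (∀ ε > 0, ∃ N : ℕ, ∀ m ≥ N, ∀ ω, |GP β (m : ℤ) ω - G ω| ≤ ε) ∧
      (∀ ω ω', (∀ i < 0, ω i = ω' i) → G ω = G ω') ∧ ∀ ω, |G ω| < 1 := by
  obtain ⟨G, hG1, hG2⟩ := unif_limit (fun m : ℕ => GP β (m : ℤ)) (fun m => GP_cont β m) (by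
    intro ε hε
    obtain ⟨N, hN⟩ := GP_cauchy hβ hS hε
    refine ⟨N.toNat, fun m hm m' hm' ω => ?_⟩
    have h1 : N ≤ (m : ℤ) := by have := Int.self_le_toNat N; omega
    have h2 : N ≤ (m' : ℤ) := by have := Int.self_le_toNat N; omega
    rcases lt_trichotomy m m' with h | h | h
    · exact hN m m' h1 (by exact_mod_cast h) ω
    · rw [h, sub_self, abs_zero]; exact hε.le
    · rw [abs_sub_comm]
      exact hN m' m h2 (by exact_mod_cast h) ω)
  have hlim : ∀ ω, Tendsto (fun m : ℕ => GP β (m : ℤ) ω) atTop (𝓝 (G ω)) := by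
    intro ω
    rw [Metric.tendsto_atTop]
    intro ε hε
    obtain ⟨N, hN⟩ := hG2 (ε / 2) (by linarith)
    refine ⟨N, fun m hm => ?_⟩
    rw [Real.dist_eq]
    have := hN m hm ω
    linarith
  refine ⟨G, hG1, hG2, fun ω ω' h => ?_, fun ω => ?_⟩
  · refine tendsto_nhds_unique (hlim ω) ?_
    have e : (fun m : ℕ => GP β (m : ℤ) ω) = fun m : ℕ => GP β (m : ℤ) ω' := by
      funext m; exact GP_past β _ h
    rw [e]; exact hlim ω'
  · have h1 : |G ω| ≤ Real.tanh (12 * β) := by
      refine le_of_tendsto (hlim ω).abs ?_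
      filter_upwards with m
      exact GP_bound hβ (Int.natCast_nonneg m) ω
    exact lt_of_le_of_lt h1 (tanh_lt_one' _)

/-- for configurations seen from the box, the field of the past -/
lemma pfield_eq {β : ℝ} {n : ℤ} (hn : 1 ≤ n) (ω : ℤ → Bool) {u : ℤ × ℤ} (hu : u ∈ VF n Neg) :
    cfield (Jn β) (emb (lineF n Neg)) (emb (plusSet (lineF n Neg) ω)) u = pfield β ω u := by
  unfold cfield pfield
  have h1 : ∑ w ∈ emb (lineF n Neg), Jn β u w * sp (emb (plusSet (lineF n Neg) ω)) w
      = ∑ w ∈ emb (lineF n Neg), Jn β u w * spin (ω w.1) := by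
    refine Finset.sum_congr rfl (fun w hw => ?_)
    rw [mem_emb] at hw
    rw [sp_emb_plusSet hw.1 hw.2]
  rw [h1, sum_Jn_mul β (emb (lineF n Neg)) u (fun w => spin (ω w.1))]
  refine Finset.sum_congr rfl (fun w hw => ?_)
  rw [mem_nbs] at hw
  rw [mem_VF, mem_box] at hu
  unfold Neg at hu
  have : w ∈ emb (lineF n Neg) ↔ w.2 = 0 ∧ w.1 < 0 := by
    rw [mem_emb, mem_lineF]
    unfold Neg
    omega
  by_cases hw' : w.2 = 0 ∧ w.1 < 0
  · rw [if_pos (this.2 hw'), if_pos hw']
  · rw [if_neg (fun h => hw' (this.1 h)), if_neg hw']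

/-- finite-volume identity -/
lemma plus_past {β : ℝ} (hβ : 0 < β) {n : ℤ} (hn : 1 ≤ n)
    (f : (ℤ → Bool) → ℝ) (hf : ∀ ω ω', (∀ i < 0, ω i = ω' i) → f ω = f ω') :
    Zf (Jn β) (box n) (bfield β (box n))
      (fun S => f (lineProj (plusConf (box n) S)) * spin (lineProj (plusConf (box n) S) 0))
      = Zf (Jn β) (box n) (bfield β (box n))
      (fun S => f (lineProj (plusConf (box n) S)) * GP β n (lineProj (plusConf (box n) S))) := by
  have hJ := Jn_coup hβ.le
  have hn0 : 0 ≤ n := by omega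
  rw [plus_frozen hβ.le hn0 Neg (fun ω => f ω * GP β n ω) (fun ω ω' h => by
    rw [hf ω ω' h, GP_past β n h])]
  obtain ⟨hu, hd⟩ := box_split hn0 Neg
  conv_lhs => rw [← hu]
  rw [Zf_union (Jn β) hJ.symm hd, sum_powerset_emb]
  refine Finset.sum_congr rfl (fun T hT => ?_)
  rw [Finset.mem_powerset] at hT
  unfold WL
  rw [plusSet_glue hT, hu]
  have hconf : ∀ S ∈ (VF n Neg).powerset, f (lineProj (plusConf (box n) (S ∪ emb T)))
      = f (glue (lineF n Neg) T (fun _ => true)) := by
    intro S hS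
    rw [Finset.mem_powerset] at hS
    apply hf
    intro i hi
    unfold lineProj plusConf
    by_cases hin : (i, (0:ℤ)) ∈ box n
    · have hin' : i ∈ lineF n Neg := by
        rw [mem_lineF]; rw [mem_box] at hin; exact ⟨hin.1, hi⟩
      rw [glue_on hin']
      have hnS : (i, (0:ℤ)) ∉ S := fun h => by
        have := hS h
        rw [mem_VF] at this
        exact this.2 ⟨rfl, hi⟩
      have : (i, (0:ℤ)) ∈ emb T ↔ i ∈ T := by rw [mem_emb]; simp
      simp [hnS, this, hin]
    · have hin' : i ∉ lineF n Neg := by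
        intro h
        rw [mem_lineF] at h
        apply hin
        rw [mem_box]; exact ⟨h.1, by simp only; omega⟩
      rw [glue_off hin']
      simp [hin]
  have hspin : ∀ S ∈ (VF n Neg).powerset, spin (lineProj (plusConf (box n) (S ∪ emb T)) 0)
      = sp S (0, 0) := by
    intro S _
    unfold lineProj
    have hb : ((0, 0) : ℤ × ℤ) ∈ box n := (mem_VF.1 (origin_mem hn0)).1
    rw [spin_plusConf_in hb]
    exact sp_union_left hd (by
      intro x hx
      rw [mem_emb] at *
      exact ⟨hT hx.1, hx.2⟩) (origin_mem hn0)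
  have hG : GP β n (glue (lineF n Neg) T (fun _ => true))
      = mag (Jn β) (VF n Neg) (bfield β (box n) + cfield (Jn β) (emb (lineF n Neg)) (emb T))
        (0, 0) := by
    unfold GP
    have : ∀ u ∈ VF n Neg, (bfield β (box n) + pfield β (glue (lineF n Neg) T (fun _ => true))) u
        = (bfield β (box n) + cfield (Jn β) (emb (lineF n Neg)) (emb T)) u := by
      intro u hu
      simp only [Pi.add_apply]
      rw [← pfield_eq hn _ hu, plusSet_glue hT]
    unfold mag
    rw [Zf_congr_field (Jn β) (VF n Neg) _ this, Z_congr_field (Jn β) (VF n Neg) this]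
  have hZ : Zf (Jn β) (VF n Neg) (bfield β (box n) + cfield (Jn β) (emb (lineF n Neg)) (emb T))
      (fun S => f (lineProj (plusConf (box n) (S ∪ emb T)))
        * spin (lineProj (plusConf (box n) (S ∪ emb T)) 0))
      = f (glue (lineF n Neg) T (fun _ => true))
        * (mag (Jn β) (VF n Neg) (bfield β (box n) + cfield (Jn β) (emb (lineF n Neg)) (emb T))
        (0, 0) * Z (Jn β) (VF n Neg)
          (bfield β (box n) + cfield (Jn β) (emb (lineF n Neg)) (emb T))) := by
    unfold mag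
    rw [div_mul_cancel₀ _ (Z_pos _ _ _).ne']
    unfold Zf
    rw [Finset.mul_sum]
    refine Finset.sum_congr rfl (fun S hS => ?_)
    simp only
    rw [hconf S hS, hspin S hS]; ring
  rw [hZ, hG]
  ring

end Pool.Agent.P6ac95e
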