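import Pool.Agent.Lib.P6ac95e.Line1

set_option autoImplicit false

open MeasureTheory Filter Topology Finset

namespace Pool.Agent.P6ac95e

/-- indicator of all plus on `U`, as a product -/
noncomputable def fU (U : Finset (ℤ × ℤ)) (σ : ℤ × ℤ → Bool) : ℝ :=
  ∏ x ∈ U, (1 + spin (σ x)) / 2

/-- all plus on `U` -/
def CU (U : Finset (ℤ × ℤ)) : Set (ℤ × ℤ → Bool) := {σ | ∀ x ∈ U, σ x = true}

lemma fU_eq (U : Finset (ℤ × ℤ)) : fU U = (CU U).indicator (fun _ => (1:ℝ)) := by
  funext σ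
  by_cases h : σ ∈ CU U
  · rw [Set.indicator_of_mem h]
    unfold fU
    apply Finset.prod_eq_one
    intro x hx
    have : σ x = true := h x hx
    rw [this]; unfold spin; norm_num
  · rw [Set.indicator_of_notMem h]
    unfold CU at h
    simp only [Set.mem_ofPred_eq, not_forall] at h
    obtain ⟨x, hx, hσ⟩ := h
    unfold fU
    apply Finset.prod_eq_zero hx
    have : σ x = false := by simpa using hσ
    rw [this]; unfold spin; norm_num

lemma fU_cont (U : Finset (ℤ × ℤ)) : Continuous (fU U) := by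
  unfold fU
  apply continuous_finsetProd
  intro x _
  have h1 : Continuous (fun b : Bool => (1 + spin b) / 2) := continuous_of_discreteTopology
  exact h1.comp (continuous_apply x)

lemma CU_meas (U : Finset (ℤ × ℤ)) : MeasurableSet (CU U) := by
  have : CU U = ⋂ x ∈ U, (fun σ : ℤ × ℤ → Bool => σ x) ⁻¹' {true} := by
    ext σ; simp [CU]
  rw [this]
  exact Finset.measurableSet_biInter _ (fun i _ =>
    measurable_pi_apply i (measurableSet_singleton _))

/-- the product over `U` expands in characters -/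
lemma prod_expand (U : Finset (ℤ × ℤ)) (S : Finset (ℤ × ℤ)) :
    ∏ x ∈ U, (1 + sp S x) / 2 = ((1:ℝ)/2) ^ U.card * ∑ U' ∈ U.powerset, chi U' S := by
  have h : ∀ x ∈ U, (1 + sp S x) / 2 = (1/2) * (sp S x + 1) := fun x _ => by ring
  rw [Finset.prod_congr rfl h, Finset.prod_mul_distrib, Finset.prod_const, Finset.prod_add]
  congr 1
  refine Finset.sum_congr rfl (fun U' _ => ?_)
  simp [chi]

lemma fU_plusConf {U Λ : Finset (ℤ × ℤ)} (hU : U ⊆ Λ) (S : Finset (ℤ × ℤ)) :
    fU U (plusConf Λ S) = ∏ x ∈ U, (1 + sp S x) / 2 := by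
  unfold fU
  exact Finset.prod_congr rfl (fun x hx => by rw [spin_plusConf_in (hU hx)])

lemma Zf_fU (J : ℤ × ℤ → ℤ × ℤ → ℝ) (A : Finset (ℤ × ℤ)) (k : ℤ × ℤ → ℝ) (U : Finset (ℤ × ℤ)) :
    Zf J A k (fun S => ∏ x ∈ U, (1 + sp S x) / 2)
      = ((1:ℝ)/2) ^ U.card * ∑ U' ∈ U.powerset, Zf J A k (chi U') := by
  unfold Zf
  simp only [prod_expand]
  rw [Finset.sum_comm, Finset.mul_sum]
  refine Finset.sum_congr rfl (fun S _ => ?_)
  rw [← Finset.mul_sum]; ring

/-- monotonicity in the volume -/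
lemma plus_antitone {β : ℝ} (hβ : 0 ≤ β) {U Λ Λ' : Finset (ℤ × ℤ)} (hU : U ⊆ Λ) (h : Λ ⊆ Λ') :
    ∫ σ, fU U σ ∂(plusMeasure β Λ') ≤ ∫ σ, fU U σ ∂(plusMeasure β Λ) := by
  have hJ := Jn_coup hβ
  rw [plusMeasure_integral, plusMeasure_integral, div_le_iff₀ (Z_pos _ _ _)]
  have hun : Λ ∪ (Λ' \ Λ) = Λ' := Finset.union_sdiff_of_subset h
  have hd : Disjoint Λ (Λ' \ Λ) := Finset.disjoint_sdiff
  have e1 : Zf (Jn β) Λ (bfield β Λ) (fun S => fU U (plusConf Λ S))
      = Zf (Jn β) Λ (bfield β Λ) (fun S => ∏ x ∈ U, (1 + sp S x) / 2) := by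
    unfold Zf
    exact Finset.sum_congr rfl (fun S _ => by simp only [fU_plusConf hU])
  rw [e1]
  have key := averaging_le (Jn β) hJ.symm hd (bfield β Λ') (fun S => fU U (plusConf Λ' S))
    (C := Zf (Jn β) Λ (bfield β Λ) (fun S => ∏ x ∈ U, (1 + sp S x) / 2)
      / Z (Jn β) Λ (bfield β Λ)) (by
    intro T hT
    have e2 : Zf (Jn β) Λ (bfield β Λ' + cfield (Jn β) (Λ' \ Λ) T)
        (fun S => fU U (plusConf Λ' (S ∪ T)))
        = Zf (Jn β) Λ (bfield β Λ' + cfield (Jn β) (Λ' \ Λ) T)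
        (fun S => ∏ x ∈ U, (1 + sp S x) / 2) := by
      unfold Zf
      refine Finset.sum_congr rfl (fun S _ => ?_)
      simp only [fU_plusConf (hU.trans h)]
      congr 1
      refine Finset.prod_congr rfl (fun x hx => ?_)
      rw [sp_union_left hd hT (hU hx)]
    rw [e2, div_mul_eq_mul_div, le_div_iff₀ (Z_pos _ _ _), Zf_fU, Zf_fU, mul_assoc, mul_assoc]
    apply mul_le_mul_of_nonneg_left _ (by positivity)
    rw [Finset.sum_mul, Finset.sum_mul]
    apply Finset.sum_le_sum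
    intro U' hU'
    have hU'Λ : U' ⊆ Λ := (Finset.mem_powerset.1 hU').trans hU
    have hg := ginibre (A := Λ) (J := Jn β) hJ.nonneg (k := bfield β Λ)
      (k' := bfield β Λ' + cfield (Jn β) (Λ' \ Λ) T) (by
        intro u hu
        simp only [Pi.add_apply]
        have h1 := cfield_le hJ (Λ' \ Λ) T u
        have h2 := le_cfield hJ (Λ' \ Λ) T u
        have h3 := bfield_nonneg hβ Λ' u
        have h4 : bfield β Λ' u + ∑ w ∈ Λ' \ Λ, Jn β u w = bfield β Λ u := by
          rw [sum_Jn]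
          unfold bfield
          rw [← mul_add]
          congr 1
          have hcard : (nbs u \ Λ).card = (nbs u \ Λ').card + ((Λ' \ Λ) ∩ nbs u).card := by
            rw [← Finset.card_union_of_disjoint]
            · congr 1
              ext w
              simp only [Finset.mem_sdiff, Finset.mem_union, Finset.mem_inter]
              have := @h w
              tauto
            · rw [Finset.disjoint_left]
              intro w hw hw'
              simp only [Finset.mem_sdiff, Finset.mem_inter] at hw hw'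
              exact hw.2 hw'.1.1
          rw [hcard]; push_cast; ring
        rw [abs_le]
        constructor <;> linarith) hU'Λ
    linarith)
  rw [hun] at key
  exact key

lemma fU_integral_nonneg (β : ℝ) (U Λ : Finset (ℤ × ℤ)) :
    0 ≤ ∫ σ, fU U σ ∂(plusMeasure β Λ) := by
  apply integral_nonneg
  intro σ
  rw [fU_eq]
  exact Set.indicator_nonneg (fun _ _ => zero_le_one) σ

lemma fU_tendsto {β : ℝ} (hβ : 0 ≤ β) (U : Finset (ℤ × ℤ)) :
    ∃ m : ℝ, Tendsto (fun Λ : Finset (ℤ × ℤ) => ∫ σ, fU U σ ∂(plusMeasure β Λ)) atTop (𝓝 m) := by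
  have hanti : Antitone (fun Λ : Finset (ℤ × ℤ) => ∫ σ, fU U σ ∂(plusMeasure β (Λ ∪ U))) := by
    intro Λ Λ' h
    exact plus_antitone hβ Finset.subset_union_right (Finset.union_subset_union_left h)
  have hb : BddBelow (Set.range (fun Λ : Finset (ℤ × ℤ) =>
      ∫ σ, fU U σ ∂(plusMeasure β (Λ ∪ U)))) := by
    refine ⟨0, ?_⟩
    rintro _ ⟨Λ, rfl⟩
    exact fU_integral_nonneg β U _
  refine ⟨_, (tendsto_atTop_ciInf hanti hb).congr' ?_⟩
  filter_upwards [eventually_ge_atTop U] with Λ hΛ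
  have : Λ ∪ U = Λ := Finset.union_eq_left.2 hΛ
  rw [this]

lemma pi_eq_generate : (MeasurableSpace.pi : MeasurableSpace (ℤ × ℤ → Bool))
    = MeasurableSpace.generateFrom (Set.range CU) := by
  apply le_antisymm
  · unfold MeasurableSpace.pi
    apply iSup_le
    intro x
    rw [← measurable_iff_comap_le]
    apply measurable_to_bool
    apply MeasurableSpace.measurableSet_generateFrom
    refine ⟨{x}, ?_⟩
    ext σ; simp [CU]
  · apply MeasurableSpace.generateFrom_le
    rintro _ ⟨U, rfl⟩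
    exact CU_meas U

lemma ext_of_fU {μ ν : Measure (ℤ × ℤ → Bool)} [IsProbabilityMeasure μ] [IsProbabilityMeasure ν]
    (h : ∀ U, ∫ σ, fU U σ ∂μ = ∫ σ, fU U σ ∂ν) : μ = ν := by
  apply ext_of_generate_finite (Set.range CU) pi_eq_generate
  · rintro _ ⟨U, rfl⟩ _ ⟨U', rfl⟩ _
    refine ⟨U ∪ U', ?_⟩
    ext σ
    simp only [CU, Set.mem_ofPred_eq, Set.mem_inter_iff, Finset.mem_union]
    constructor
    · intro h; exact ⟨fun x hx => h x (Or.inl hx), fun x hx => h x (Or.inr hx)⟩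
    · rintro ⟨h1, h2⟩ x (hx | hx)
      · exact h1 x hx
      · exact h2 x hx
  · rintro _ ⟨U, rfl⟩
    have := h U
    rw [fU_eq, integral_indicator_const _ (CU_meas U), integral_indicator_const _ (CU_meas U)] at this
    simp only [smul_eq_mul, mul_one] at this
    rw [measureReal_def, measureReal_def] at this
    exact (ENNReal.toReal_eq_toReal_iff' (measure_ne_top _ _) (measure_ne_top _ _)).1 this
  · simp

/-- **existence of the plus phase** -/
theorem exists_plusPhase {β : ℝ} (hβ : 0 ≤ β) : ∃ μ, IsPlusPhase β μ := by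
  choose m hm using fun U => fU_tendsto hβ U
  obtain ⟨μ, hμ⟩ := exists_clusterPt_of_compactSpace
    (Filter.map (plusProb β) (atTop : Filter (Finset (ℤ × ℤ))))
  have hcont : ∀ U, Continuous (fun ρ : ProbabilityMeasure (ℤ × ℤ → Bool) =>
      ∫ σ, fU U σ ∂(ρ : Measure (ℤ × ℤ → Bool))) := by
    intro U
    rw [continuous_iff_continuousAt]
    intro ρ
    have h1 : Tendsto (fun ρ : ProbabilityMeasure (ℤ × ℤ → Bool) => ρ) (𝓝 ρ) (𝓝 ρ) := tendsto_id
    rw [ProbabilityMeasure.tendsto_iff_forall_integral_tendsto] at h1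
    exact h1 (BoundedContinuousFunction.mkOfCompact ⟨_, fU_cont U⟩)
  have key : ∀ ρ : ProbabilityMeasure (ℤ × ℤ → Bool),
      ClusterPt ρ (Filter.map (plusProb β) (atTop : Filter (Finset (ℤ × ℤ)))) →
      ∀ U, ∫ σ, fU U σ ∂(ρ : Measure (ℤ × ℤ → Bool)) = m U := by
    intro ρ hρ U
    have h1 : MapClusterPt ρ atTop (plusProb β) := hρ
    have h2 := h1.tendsto_comp ((hcont U).tendsto ρ)
    have h3 : Filter.map ((fun ρ : ProbabilityMeasure (ℤ × ℤ → Bool) =>
      ∫ σ, fU U σ ∂(ρ : Measure (ℤ × ℤ → Bool))) ∘ (plusProb β)) atTop ≤ 𝓝 (m U) := hm U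
    have h4 : (𝓝 (∫ σ, fU U σ ∂(ρ : Measure (ℤ × ℤ → Bool))) ⊓ 𝓝 (m U)).NeBot :=
      h2.neBot.mono (inf_le_inf_left _ h3)
    exact eq_of_nhds_neBot h4
  refine ⟨μ, ?_⟩
  apply le_nhds_of_unique_clusterPt
  intro ρ hρ
  have h : (ρ : Measure (ℤ × ℤ → Bool)) = (μ : Measure (ℤ × ℤ → Bool)) :=
    ext_of_fU (fun U => by rw [key ρ hρ U, key μ hμ U])
  exact Subtype.ext h

lemma tendsto_box : Tendsto (fun m : ℕ => box (m : ℤ)) atTop atTop := by
  rw [tendsto_atTop]
  intro Λ
  obtain ⟨N, hN⟩ : ∃ N : ℕ, ∀ x ∈ Λ, x.1.natAbs ≤ N ∧ x.2.natAbs ≤ N := by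
    refine ⟨Λ.sup (fun x => max x.1.natAbs x.2.natAbs), fun x hx => ?_⟩
    have := Finset.le_sup (f := fun x : ℤ × ℤ => max x.1.natAbs x.2.natAbs) hx
    exact ⟨(le_max_left _ _).trans this, (le_max_right _ _).trans this⟩
  filter_upwards [eventually_ge_atTop N] with m hm
  intro x hx
  have := hN x hx
  rw [mem_box]
  omega

lemma plusPhase_box {β : ℝ} {μ : ProbabilityMeasure (ℤ × ℤ → Bool)} (h : IsPlusPhase β μ) :
    Tendsto (fun m : ℕ => plusProb β (box (m : ℤ))) atTop (𝓝 μ) :=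
  Filter.Tendsto.comp h tendsto_box

lemma βc_pos : 0 < βc := by
  unfold βc
  have : 0 < Real.log (1 + Real.sqrt 2) := Real.log_pos (by
    have : 0 < Real.sqrt 2 := Real.sqrt_pos.2 (by norm_num)
    linarith)
  linarith

lemma sinh_βc : Real.sinh (2 * βc) = 1 := by
  unfold βc
  have h0 : 0 < 1 + Real.sqrt 2 := by positivity
  rw [← mul_assoc, show (2:ℝ) * (1/2) = 1 by norm_num, one_mul, Real.sinh_eq, Real.exp_neg,
    Real.exp_log h0]
  have h2 : Real.sqrt 2 ^ 2 = 2 := Real.sq_sqrt (by norm_num)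
  field_simp
  nlinarith

end Pool.Agent.P6ac95e
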