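import Pool.Agent.Lib.P6ac95e.Past1
import Pool.Agent.Lib.P6ac95e.Plus

set_option autoImplicit false

open MeasureTheory Filter Topology Finset

namespace Pool.Agent.P6ac95e

lemma plus_past_integral {β : ℝ} (hβ : 0 < β) {m : ℕ} (hm : 1 ≤ m)
    (f : (ℤ → Bool) → ℝ) (hfc : Continuous f) (hf : ∀ ω ω', (∀ i < 0, ω i = ω' i) → f ω = f ω') :
    ∫ ω, f ω * spin (ω 0) ∂(nuBox β m : Measure (ℤ → Bool))
      = ∫ ω, f ω * GP β (m : ℤ) ω ∂(nuBox β m : Measure (ℤ → Bool)) := by
  have hn : (1:ℤ) ≤ (m : ℤ) := by exact_mod_cast hm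
  have hc0 : Continuous (fun ω : ℤ → Bool => spin (ω 0)) :=
    continuous_spin.comp (continuous_apply 0)
  have h1 : ∀ g : (ℤ → Bool) → ℝ, Continuous g →
      ∫ ω, g ω ∂(nuBox β m : Measure (ℤ → Bool))
      = ∫ σ, g (lineProj σ) ∂(plusMeasure β (box (m : ℤ))) := by
    intro g hg
    unfold nuBox
    rw [ProbabilityMeasure.toMeasure_map]
    rw [integral_map measurable_lineProj.aemeasurable hg.measurable.aestronglyMeasurable]
    rfl
  have hfs : Continuous (fun ω => f ω * spin (ω 0)) := hfc.mul hc0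
  have hfg : Continuous (fun ω => f ω * GP β (m : ℤ) ω) := hfc.mul (GP_cont β m)
  rw [h1 (fun ω => f ω * spin (ω 0)) hfs, h1 (fun ω => f ω * GP β (m : ℤ) ω) hfg,
    plusMeasure_integral β (box (m:ℤ)) (fun σ => f (lineProj σ) * spin (lineProj σ 0)),
    plusMeasure_integral β (box (m:ℤ)) (fun σ => f (lineProj σ) * GP β (m:ℤ) (lineProj σ)),
    plus_past hβ hn f hf]

lemma cont_bdd {X : Type*} [TopologicalSpace X] [CompactSpace X] [Nonempty X] {f : X → ℝ}
    (hf : Continuous f) : ∃ C, 0 ≤ C ∧ ∀ x, |f x| ≤ C := by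
  obtain ⟨x0, _, h⟩ := isCompact_univ.exists_isMaxOn (Set.univ_nonempty (α := X))
    (hf.abs).continuousOn
  exact ⟨|f x0|, abs_nonneg _, fun x => h (Set.mem_univ x)⟩

lemma limit_identity {β : ℝ} (hβ : 0 < β)
    {G : (ℤ → Bool) → ℝ} (hGc : Continuous G)
    (hG : ∀ ε > 0, ∃ N : ℕ, ∀ m ≥ N, ∀ ω, |GP β (m : ℤ) ω - G ω| ≤ ε)
    (ν : ProbabilityMeasure (ℤ → Bool)) (hν : Tendsto (nuBox β) atTop (𝓝 ν))
    (f : (ℤ → Bool) → ℝ) (hfc : Continuous f)
    (hf : ∀ ω ω', (∀ i < 0, ω i = ω' i) → f ω = f ω') :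
    ∫ ω, f ω * spin (ω 0) ∂(ν : Measure (ℤ → Bool))
      = ∫ ω, f ω * G ω ∂(ν : Measure (ℤ → Bool)) := by
  have hc0 : Continuous (fun ω : ℤ → Bool => spin (ω 0)) :=
    continuous_spin.comp (continuous_apply 0)
  have hfs : Continuous (fun ω => f ω * spin (ω 0)) := hfc.mul hc0
  have hfG : Continuous (fun ω => f ω * G ω) := hfc.mul hGc
  rw [ProbabilityMeasure.tendsto_iff_forall_integral_tendsto] at hν
  have t1 := hν (BoundedContinuousFunction.mkOfCompact ⟨fun ω => f ω * spin (ω 0), hfs⟩)
  have t2 := hν (BoundedContinuousFunction.mkOfCompact ⟨fun ω => f ω * G ω, hfG⟩)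
  simp only [BoundedContinuousFunction.mkOfCompact_apply, ContinuousMap.coe_mk] at t1 t2
  obtain ⟨C, hC0, hC⟩ := cont_bdd hfc
  have t3 : Tendsto (fun m => ∫ ω, f ω * G ω ∂(nuBox β m : Measure (ℤ → Bool))
      - ∫ ω, f ω * spin (ω 0) ∂(nuBox β m : Measure (ℤ → Bool))) atTop (𝓝 0) := by
    rw [Metric.tendsto_atTop]
    intro ε hε
    obtain ⟨N, hN⟩ := hG (ε / (2 * (C + 1))) (by positivity)
    refine ⟨max N 1, fun m hm => ?_⟩
    rw [Real.dist_eq, sub_zero, plus_past_integral hβ ((le_max_right _ _).trans hm) f hfc hf,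
      ← integral_sub]
    · have hb : ∀ ω, ‖f ω * G ω - f ω * GP β (m : ℤ) ω‖ ≤ ε / 2 := by
        intro ω
        rw [← mul_sub, norm_mul, Real.norm_eq_abs, Real.norm_eq_abs, abs_sub_comm]
        have h1 := hN m ((le_max_left _ _).trans hm) ω
        calc |f ω| * |GP β (m : ℤ) ω - G ω| ≤ C * (ε / (2 * (C + 1))) :=
              mul_le_mul (hC ω) h1 (abs_nonneg _) hC0
          _ = (ε / 2) * (C / (C + 1)) := by field_simp
          _ ≤ (ε / 2) * 1 := by
              apply mul_le_mul_of_nonneg_left _ (by linarith)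
              rw [div_le_one (by linarith)]; linarith
          _ = ε / 2 := mul_one _
      have := norm_integral_le_of_norm_le_const (μ := (nuBox β m : Measure (ℤ → Bool)))
        (C := ε / 2) (Eventually.of_forall hb)
      simp only [probReal_univ, mul_one] at this
      rw [Real.norm_eq_abs] at this
      linarith
    · exact (BoundedContinuousFunction.mkOfCompact ⟨_, hfc.mul hGc⟩).integrable _
    · exact (BoundedContinuousFunction.mkOfCompact ⟨_, hfc.mul (GP_cont β m)⟩).integrable _
  have := tendsto_nhds_unique t3 (t2.sub t1)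
  linarith

/-! ### pasts -/

/-- a configuration with given past -/
def ext (ξ : ℕ → Bool) : ℤ → Bool := fun i => if i < 0 then ξ (-1 - i).toNat else true

lemma continuous_ext : Continuous ext := by
  unfold ext
  apply continuous_pi
  intro i
  by_cases h : i < 0
  · simp only [h, if_true]; exact continuous_apply _
  · simp only [h, if_false]; exact continuous_const

lemma ext_past (σ : ℤ → Bool) : ∀ i < 0, ext (past σ) i = σ i := by
  intro i hi
  unfold ext past
  rw [if_pos hi]
  congr 1
  have : 0 ≤ -1 - i := by omega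
  rw [Int.toNat_of_nonneg this]; ring

lemma measurable_past : @Measurable _ _ (cylinderEvents (Set.Iio (0 : ℤ))) _ past := by
  rw [@measurable_pi_iff]
  intro n
  unfold past
  apply measurable_cylinderEvent_apply
  rw [Set.mem_Iio]
  omega

/-- all plus on `U` -/
def CV (U : Finset ℤ) : Set (ℤ → Bool) := {σ | ∀ x ∈ U, σ x = true}

lemma CV_meas (U : Finset ℤ) (hU : ∀ x ∈ U, x < 0) :
    MeasurableSet[cylinderEvents (Set.Iio (0 : ℤ))] (CV U) := by
  have : CV U = ⋂ x ∈ U, (fun σ : ℤ → Bool => σ x) ⁻¹' {true} := by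
    ext σ; simp [CV]
  rw [this]
  refine @Finset.measurableSet_biInter _ _ (cylinderEvents (Set.Iio (0 : ℤ))) _ _ (fun i hi => ?_)
  exact (measurable_cylinderEvent_apply (X := fun _ : ℤ => Bool) (Δ := Set.Iio (0 : ℤ)) (i := i)
    (hU i hi)) (measurableSet_singleton true)

lemma cyl_eq_generate : (cylinderEvents (Set.Iio (0 : ℤ)) : MeasurableSpace (ℤ → Bool))
    = MeasurableSpace.generateFrom (CV '' {U | ∀ x ∈ U, x < 0}) := by
  apply le_antisymm
  · unfold cylinderEvents
    apply iSup₂_le
    intro x hx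
    rw [← measurable_iff_comap_le]
    apply measurable_to_bool
    apply MeasurableSpace.measurableSet_generateFrom
    refine ⟨{x}, ?_, ?_⟩
    · intro y hy
      rw [Finset.mem_singleton] at hy
      rw [hy]; exact hx
    · ext σ; simp [CV]
  · apply MeasurableSpace.generateFrom_le
    rintro _ ⟨U, hU, rfl⟩
    exact CV_meas U hU

lemma CV_indicator_cont (U : Finset ℤ) :
    Continuous ((CV U).indicator (fun _ => (1 : ℝ))) := by
  apply continuous_of_local U
  intro ω ω' h
  have : ω ∈ CV U ↔ ω' ∈ CV U := by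
    unfold CV
    simp only [Set.mem_ofPred_eq]
    exact forall₂_congr (fun i hi => by rw [h i hi])
  by_cases h1 : ω ∈ CV U
  · rw [Set.indicator_of_mem h1, Set.indicator_of_mem (this.1 h1)]
  · rw [Set.indicator_of_notMem h1, Set.indicator_of_notMem (fun h2 => h1 (this.2 h2))]

/-- from continuous test functions to the conditional expectation -/
lemma condExp_of_identity (ν : Measure (ℤ → Bool)) [IsProbabilityMeasure ν]
    {φ : (ℤ → Bool) → ℝ} (hφ : Continuous φ) {g : (ℕ → Bool) → ℝ} (hg : Continuous g)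
    (hid : ∀ f : (ℤ → Bool) → ℝ, Continuous f → (∀ ω ω', (∀ i < 0, ω i = ω' i) → f ω = f ω') →
      ∫ ω, f ω * φ ω ∂ν = ∫ ω, f ω * g (past ω) ∂ν) :
    ν[φ | cylinderEvents (Set.Iio (0 : ℤ))] =ᵐ[ν] fun σ => g (past σ) := by
  have hle : (cylinderEvents (Set.Iio (0 : ℤ)) : MeasurableSpace (ℤ → Bool))
      ≤ MeasurableSpace.pi := cylinderEvents_le_pi
  have hpast : Measurable past := measurable_past.mono hle le_rfl
  have hgp : @Measurable _ _ (cylinderEvents (Set.Iio (0 : ℤ))) _ (fun σ => g (past σ)) :=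
    hg.measurable.comp measurable_past
  obtain ⟨C, hC0, hC⟩ := cont_bdd hg
  have hint1 : Integrable φ ν :=
    (BoundedContinuousFunction.mkOfCompact ⟨_, hφ⟩).integrable _
  have hint2 : Integrable (fun σ => g (past σ)) ν := by
    apply Integrable.of_bound (hg.measurable.comp hpast).aestronglyMeasurable C
    filter_upwards with σ
    exact hC _
  symm
  apply ae_eq_condExp_of_forall_setIntegral_eq hle hint1
  · intro s _ _; exact hint2.integrableOn
  · intro s hs _
    induction s, hs using MeasurableSpace.induction_on_inter cyl_eq_generate with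
    | h_inter =>
      rintro _ ⟨U, hU, rfl⟩ _ ⟨U', hU', rfl⟩ _
      refine ⟨U ∪ U', ?_, ?_⟩
      · intro x hx
        rcases Finset.mem_union.1 hx with h | h
        · exact hU x h
        · exact hU' x h
      · ext σ
        simp only [CV, Set.mem_ofPred_eq, Set.mem_inter_iff, Finset.mem_union]
        constructor
        · intro h; exact ⟨fun x hx => h x (Or.inl hx), fun x hx => h x (Or.inr hx)⟩
        · rintro ⟨h1, h2⟩ x (hx | hx)
          · exact h1 x hx
          · exact h2 x hx
    | empty => simp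
    | basic s hs =>
      obtain ⟨U, hU, rfl⟩ := hs
      have hm : MeasurableSet (CV U) := hle _ (CV_meas U hU)
      rw [← integral_indicator hm, ← integral_indicator hm]
      have h1 : ∀ ψ : (ℤ → Bool) → ℝ, (CV U).indicator ψ
          = fun ω => (CV U).indicator (fun _ => (1:ℝ)) ω * ψ ω := by
        intro ψ; funext ω
        by_cases h : ω ∈ CV U
        · rw [Set.indicator_of_mem h, Set.indicator_of_mem h, one_mul]
        · rw [Set.indicator_of_notMem h, Set.indicator_of_notMem h, zero_mul]
      rw [h1 (fun ω => g (past ω)), h1 φ]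
      refine (hid _ (CV_indicator_cont U) ?_).symm
      intro ω ω' h
      have : ω ∈ CV U ↔ ω' ∈ CV U := by
        unfold CV
        simp only [Set.mem_ofPred_eq]
        exact forall₂_congr (fun i hi => by rw [h i (hU i hi)])
      by_cases h1 : ω ∈ CV U
      · rw [Set.indicator_of_mem h1, Set.indicator_of_mem (this.1 h1)]
      · rw [Set.indicator_of_notMem h1, Set.indicator_of_notMem (fun h2 => h1 (this.2 h2))]
    | compl s hs ih =>
      have hm : MeasurableSet s := hle _ hs
      have htot : ∫ ω, g (past ω) ∂ν = ∫ ω, φ ω ∂ν := by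
        have := hid (fun _ => 1) continuous_const (fun _ _ _ => rfl)
        simp only [one_mul] at this
        exact this.symm
      have e1 := integral_add_compl hm hint1
      have e2 := integral_add_compl hm hint2
      have := ih (measure_lt_top _ _)
      linarith
    | iUnion s hd hs ih =>
      have hm : ∀ i, MeasurableSet (s i) := fun i => hle _ (hs i)
      rw [integral_iUnion hm hd hint2.integrableOn, integral_iUnion hm hd hint1.integrableOn]
      congr 1
      funext i
      exact ih i (measure_lt_top _ _)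
  · exact hgp.stronglyMeasurable.aestronglyMeasurable

end Pool.Agent.P6ac95e
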