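import Pool.Agent.Lib.P6ac95e.Past2

set_option autoImplicit false

open MeasureTheory Filter Topology Finset

namespace Pool.Agent.P6ac95e

/-- horizontal translation of configurations of the plane -/
def sh2 (σ : ℤ × ℤ → Bool) : ℤ × ℤ → Bool := fun x => σ (shH x)

lemma continuous_sh2 : Continuous sh2 := by
  unfold sh2
  exact continuous_pi (fun x => continuous_apply (shH x))

lemma nbs_shH (x : ℤ × ℤ) : nbs (shH x) = (nbs x).map shH.toEmbedding := by
  ext y
  rw [Finset.mem_map, mem_nbs]
  constructor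
  · intro h
    refine ⟨shH.symm y, ?_, by simp⟩
    rw [mem_nbs]
    change (y.1 - 1 = x.1 + 1 ∧ y.2 = x.2) ∨ (y.1 - 1 = x.1 - 1 ∧ y.2 = x.2) ∨
      (y.1 - 1 = x.1 ∧ y.2 = x.2 + 1) ∨ (y.1 - 1 = x.1 ∧ y.2 = x.2 - 1)
    change (y.1 = x.1 + 1 + 1 ∧ y.2 = x.2) ∨ (y.1 = x.1 + 1 - 1 ∧ y.2 = x.2) ∨
      (y.1 = x.1 + 1 ∧ y.2 = x.2 + 1) ∨ (y.1 = x.1 + 1 ∧ y.2 = x.2 - 1) at h
    omega
  · rintro ⟨z, hz, rfl⟩
    rw [mem_nbs] at hz
    change (z.1 + 1 = x.1 + 1 + 1 ∧ z.2 = x.2) ∨ (z.1 + 1 = x.1 + 1 - 1 ∧ z.2 = x.2) ∨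
      (z.1 + 1 = x.1 + 1 ∧ z.2 = x.2 + 1) ∨ (z.1 + 1 = x.1 + 1 ∧ z.2 = x.2 - 1)
    omega

lemma plusConf_shift (Λ S : Finset (ℤ × ℤ)) (x : ℤ × ℤ) :
    plusConf (Λ.map shH.toEmbedding) (S.map shH.toEmbedding) (shH x) = plusConf Λ S x := by
  unfold plusConf
  have h : ∀ T : Finset (ℤ × ℤ), shH x ∈ T.map shH.toEmbedding ↔ x ∈ T := by
    intro T
    rw [Finset.mem_map_equiv, Equiv.symm_apply_apply]
  simp only [h]

lemma plusWeight_shift (β : ℝ) (Λ S : Finset (ℤ × ℤ)) :
    plusWeight β (Λ.map shH.toEmbedding) (S.map shH.toEmbedding) = plusWeight β Λ S := by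
  unfold plusWeight energy
  have e : ∀ x, shH.toEmbedding x = shH x := fun _ => rfl
  rw [Finset.sum_map, Finset.sum_map]
  congr 2
  congr 1
  congr 1
  · congr 1
    refine Finset.sum_congr rfl (fun x _ => ?_)
    rw [e, nbs_shH, ← Finset.map_inter, Finset.sum_map]
    refine Finset.sum_congr rfl (fun y _ => ?_)
    rw [e, plusConf_shift, plusConf_shift]
  · refine Finset.sum_congr rfl (fun x _ => ?_)
    rw [e, nbs_shH, ← Finset.map_sdiff, Finset.sum_map]
    refine Finset.sum_congr rfl (fun y _ => ?_)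
    rw [e, plusConf_shift, plusConf_shift]

lemma sum_powerset_map (Λ : Finset (ℤ × ℤ)) (F : Finset (ℤ × ℤ) → ℝ) :
    ∑ S ∈ (Λ.map shH.toEmbedding).powerset, F S
      = ∑ S ∈ Λ.powerset, F (S.map shH.toEmbedding) := by
  symm
  refine Finset.sum_nbij' (fun S => S.map shH.toEmbedding) (fun S => S.map shH.symm.toEmbedding)
    ?_ ?_ ?_ ?_ ?_
  · intro S hS
    rw [Finset.mem_powerset] at *
    exact Finset.map_subset_map.2 hS
  · intro S hS
    rw [Finset.mem_powerset] at *
    intro x hx
    rw [Finset.mem_map_equiv] at hx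
    have := hS hx
    rw [Finset.mem_map_equiv] at this
    simpa using this
  · intro S _
    ext x; simp [Finset.mem_map_equiv]
  · intro S _
    ext x; simp [Finset.mem_map_equiv]
  · intro S _; rfl

lemma plusMeasure_integral' (β : ℝ) (Λ : Finset (ℤ × ℤ)) (f : (ℤ × ℤ → Bool) → ℝ) :
    ∫ σ, f σ ∂(plusMeasure β Λ)
      = (∑ S ∈ Λ.powerset, plusWeight β Λ S * f (plusConf Λ S))
        / ∑ S ∈ Λ.powerset, plusWeight β Λ S := by
  rw [plusMeasure_integral]
  unfold Zf Z Zf
  simp only [mul_one, plusWeight_eq]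

lemma plus_shift_integral (β : ℝ) (Λ : Finset (ℤ × ℤ)) (f : (ℤ × ℤ → Bool) → ℝ) :
    ∫ σ, f (sh2 σ) ∂(plusMeasure β (Λ.map shH.toEmbedding)) = ∫ σ, f σ ∂(plusMeasure β Λ) := by
  rw [plusMeasure_integral' β (Λ.map shH.toEmbedding) (fun σ => f (sh2 σ)),
    plusMeasure_integral', sum_powerset_map, sum_powerset_map]
  have h : ∀ S, sh2 (plusConf (Λ.map shH.toEmbedding) (S.map shH.toEmbedding)) = plusConf Λ S := by
    intro S; funext x
    exact plusConf_shift Λ S x
  simp only [plusWeight_shift, h]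

lemma plusProb_shift (β : ℝ) (Λ : Finset (ℤ × ℤ)) :
    (plusProb β (Λ.map shH.toEmbedding)).map continuous_sh2.measurable.aemeasurable
      = plusProb β Λ := by
  apply Subtype.ext
  change ((plusProb β (Λ.map shH.toEmbedding)).map continuous_sh2.measurable.aemeasurable :
    Measure (ℤ × ℤ → Bool)) = (plusProb β Λ : Measure (ℤ × ℤ → Bool))
  rw [ProbabilityMeasure.toMeasure_map]
  have : IsProbabilityMeasure (Measure.map sh2
      (plusProb β (Λ.map shH.toEmbedding) : Measure (ℤ × ℤ → Bool))) :=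
    Measure.isProbabilityMeasure_map continuous_sh2.measurable.aemeasurable
  apply ext_of_forall_integral_eq_of_IsFiniteMeasure
  intro f
  rw [integral_map continuous_sh2.measurable.aemeasurable
    f.continuous.measurable.aestronglyMeasurable]
  exact plus_shift_integral β Λ f

lemma tendsto_map_shH : Tendsto (fun Λ : Finset (ℤ × ℤ) => Λ.map shH.toEmbedding) atTop atTop := by
  rw [tendsto_atTop]
  intro Λ0
  filter_upwards [eventually_ge_atTop (Λ0.map shH.symm.toEmbedding)] with Λ hΛ
  intro x hx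
  rw [Finset.mem_map_equiv]
  apply hΛ
  rw [Finset.mem_map_equiv]
  simpa using hx

lemma plusPhase_shift {β : ℝ} {μ : ProbabilityMeasure (ℤ × ℤ → Bool)} (h : IsPlusPhase β μ) :
    μ.map continuous_sh2.measurable.aemeasurable = μ := by
  have h1 : Tendsto (fun Λ : Finset (ℤ × ℤ) => plusProb β (Λ.map shH.toEmbedding)) atTop (𝓝 μ) :=
    Filter.Tendsto.comp h tendsto_map_shH
  have h2 := ((ProbabilityMeasure.continuous_map continuous_sh2).tendsto μ).comp h1
  have e : ((fun ν : ProbabilityMeasure (ℤ × ℤ → Bool) =>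
      ν.map continuous_sh2.measurable.aemeasurable) ∘
      fun Λ : Finset (ℤ × ℤ) => plusProb β (Λ.map shH.toEmbedding)) = plusProb β := by
    funext Λ
    exact plusProb_shift β Λ
  have h3 : Tendsto (plusProb β) atTop (𝓝 (μ.map continuous_sh2.measurable.aemeasurable)) := by
    rw [← e]; exact h2
  exact tendsto_nhds_unique h3 h

lemma measurable_shiftConf : Measurable shiftConf := by
  unfold shiftConf
  rw [measurable_pi_iff]
  intro i
  exact measurable_pi_apply (i + 1)

lemma lineMarginal_prob (μ : ProbabilityMeasure (ℤ × ℤ → Bool)) :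
    IsProbabilityMeasure (lineMarginal μ) :=
  Measure.isProbabilityMeasure_map measurable_lineProj.aemeasurable

lemma lineMarginal_shift {β : ℝ} {μ : ProbabilityMeasure (ℤ × ℤ → Bool)} (h : IsPlusPhase β μ) :
    (lineMarginal μ).map shiftConf = lineMarginal μ := by
  have h1 := congrArg (fun ρ : ProbabilityMeasure (ℤ × ℤ → Bool) =>
    (ρ : Measure (ℤ × ℤ → Bool))) (plusPhase_shift h)
  simp only [ProbabilityMeasure.toMeasure_map] at h1
  unfold lineMarginal
  rw [Measure.map_map measurable_shiftConf measurable_lineProj]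
  have e : shiftConf ∘ lineProj = lineProj ∘ sh2 := by
    funext σ i
    simp [shiftConf, lineProj, sh2, shH]
  rw [e, ← Measure.map_map measurable_lineProj continuous_sh2.measurable, h1]

/-- **Q2, given the plus phase** -/
theorem line_regular {β : ℝ} (hβ : 0 < β) (hS : Real.sinh (2 * β) = 1)
    (μ : ProbabilityMeasure (ℤ × ℤ → Bool)) (hμ : IsPlusPhase β μ) :
    IsRegularGMeasure (lineMarginal μ) := by
  have hprob := lineMarginal_prob μ
  refine ⟨hprob, lineMarginal_shift hμ, ?_⟩
  obtain ⟨G, hGc, hGlim, hGpast, hG1⟩ := exists_GP_lim hβ hS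
  have hspin : ∀ a : Bool, |spin a| = 1 := by
    intro a; unfold spin; cases a <;> simp
  have hν : Tendsto (nuBox β) atTop (𝓝 (μ.map measurable_lineProj.aemeasurable)) := by
    unfold nuBox
    exact ((ProbabilityMeasure.continuous_map continuous_lineProj).tendsto μ).comp
      (plusPhase_box hμ)
  have hid := fun f hfc hf => limit_identity hβ hGc hGlim
    (μ.map measurable_lineProj.aemeasurable) hν f hfc hf
  rw [ProbabilityMeasure.toMeasure_map] at hid
  change ∀ f : (ℤ → Bool) → ℝ, Continuous f → (∀ ω ω', (∀ i < 0, ω i = ω' i) → f ω = f ω') →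
    ∫ ω, f ω * spin (ω 0) ∂(lineMarginal μ) = ∫ ω, f ω * G ω ∂(lineMarginal μ) at hid
  refine ⟨fun a ξ => (1 + spin a * G (ext ξ)) / 2, ?_, ?_, ?_, ?_⟩
  · intro a
    exact (continuous_const.add (continuous_const.mul (hGc.comp continuous_ext))).div_const 2
  · intro a ξ
    have h1 : |spin a * G (ext ξ)| < 1 := by
      rw [abs_mul, hspin, one_mul]; exact hG1 _
    have := (abs_lt.1 h1).1
    simp only
    linarith
  · intro ξ
    have s1 : spin true = 1 := rfl
    have s2 : spin false = -1 := rfl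
    simp only [s1, s2]
    ring
  · intro a
    have hc0 : Continuous (fun ω : ℤ → Bool => spin (ω 0)) :=
      continuous_spin.comp (continuous_apply 0)
    have hφ : ({σ : ℤ → Bool | σ 0 = a}.indicator (fun _ => (1 : ℝ)))
        = fun σ => (1 + spin a * spin (σ 0)) / 2 := by
      funext σ
      by_cases h : σ 0 = a
      · rw [Set.indicator_of_mem (show σ ∈ {σ : ℤ → Bool | σ 0 = a} from h), h]
        unfold spin; cases a <;> norm_num
      · rw [Set.indicator_of_notMem (show σ ∉ {σ : ℤ → Bool | σ 0 = a} from h)]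
        unfold spin
        cases a <;> cases h0 : σ 0 <;> simp_all
    rw [hφ]
    refine condExp_of_identity (lineMarginal μ) (φ := fun σ => (1 + spin a * spin (σ 0)) / 2)
      ?_ (g := fun ξ => (1 + spin a * G (ext ξ)) / 2) ?_ ?_
    · exact (continuous_const.add (continuous_const.mul hc0)).div_const 2
    · exact (continuous_const.add (continuous_const.mul (hGc.comp continuous_ext))).div_const 2
    · intro f hfc hf
      have hint : ∀ g : (ℤ → Bool) → ℝ, Continuous g → Integrable g (lineMarginal μ) :=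
        fun g hg => (BoundedContinuousFunction.mkOfCompact ⟨g, hg⟩).integrable _
      have e1 : ∀ ω : ℤ → Bool, f ω * ((1 + spin a * spin (ω 0)) / 2)
          = (1/2) * f ω + (spin a / 2) * (f ω * spin (ω 0)) := fun ω => by ring
      have e2 : ∀ ω : ℤ → Bool, f ω * ((1 + spin a * G (ext (past ω))) / 2)
          = (1/2) * f ω + (spin a / 2) * (f ω * G ω) := by
        intro ω
        rw [hGpast (ext (past ω)) ω (ext_past ω)]; ring
      simp only [e1, e2]
      have i1 : Integrable (fun ω : ℤ → Bool => f ω * spin (ω 0)) (lineMarginal μ) :=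
        hint (fun ω => f ω * spin (ω 0)) (hfc.mul hc0)
      have i2 : Integrable (fun ω : ℤ → Bool => f ω * G ω) (lineMarginal μ) :=
        hint (fun ω => f ω * G ω) (hfc.mul hGc)
      rw [integral_add ((hint f hfc).const_mul _) (i1.const_mul _),
        integral_add ((hint f hfc).const_mul _) (i2.const_mul _),
        integral_const_mul, integral_const_mul, integral_const_mul, hid f hfc hf]

end Pool.Agent.P6ac95e
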