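import Pool.Agent.Lib.P6ac95e.Defs

set_option autoImplicit false

open MeasureTheory Filter Topology Finset

namespace Pool.Agent.P6ac95e

/-- replace the spins in `Λ` by those of `T` -/
def glue (Λ T : Finset ℤ) (ω : ℤ → Bool) : ℤ → Bool :=
  fun i => if i ∈ Λ then decide (i ∈ T) else ω i

lemma glue_insert {Λ T : Finset ℤ} {x : ℤ} (hx : x ∈ Λ) (ω : ℤ → Bool) :
    glue Λ (insert x T) ω = Function.update (glue Λ T ω) x true := by
  funext i
  by_cases h : i = x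
  · subst h
    rw [Function.update_self]
    unfold glue
    rw [if_pos hx]; simp
  · rw [Function.update_of_ne h]
    unfold glue
    by_cases hi : i ∈ Λ
    · rw [if_pos hi, if_pos hi]
      simp [Finset.mem_insert, h]
    · rw [if_neg hi, if_neg hi]

lemma glue_erase {Λ T : Finset ℤ} {x : ℤ} (hx : x ∈ Λ) (hT : x ∉ T) (ω : ℤ → Bool) :
    glue Λ T ω = Function.update (glue Λ T ω) x false := by
  funext i
  by_cases h : i = x
  · subst h
    rw [Function.update_self]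
    unfold glue
    rw [if_pos hx]; simp [hT]
  · rw [Function.update_of_ne h]

lemma glue_insert_out {Λ T : Finset ℤ} {x : ℤ} (hx : x ∉ Λ) (ω : ℤ → Bool) :
    glue Λ (insert x T) ω = glue Λ T ω := by
  funext i
  unfold glue
  by_cases hi : i ∈ Λ
  · rw [if_pos hi, if_pos hi]
    have : i ≠ x := fun h => hx (h ▸ hi)
    simp [Finset.mem_insert, this]
  · rw [if_neg hi, if_neg hi]

lemma glue_congr {Λ T : Finset ℤ} {ω ω' : ℤ → Bool} (h : ∀ i, i ∉ Λ → ω i = ω' i) :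
    glue Λ T ω = glue Λ T ω' := by
  funext i
  unfold glue
  by_cases hi : i ∈ Λ
  · rw [if_pos hi, if_pos hi]
  · rw [if_neg hi, if_neg hi, h i hi]

lemma glue_off {Λ T : Finset ℤ} {ω : ℤ → Bool} {i : ℤ} (h : i ∉ Λ) : glue Λ T ω i = ω i := by
  unfold glue; rw [if_neg h]

lemma glue_on {Λ T : Finset ℤ} {ω : ℤ → Bool} {i : ℤ} (h : i ∈ Λ) :
    glue Λ T ω i = decide (i ∈ T) := by
  unfold glue; rw [if_pos h]

lemma continuous_glue (Λ T : Finset ℤ) : Continuous (glue Λ T) := by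
  unfold glue
  apply continuous_pi
  intro i
  by_cases hi : i ∈ Λ
  · simp only [hi, if_true]; exact continuous_const
  · simp only [hi, if_false]; exact continuous_apply i

/-- gluing in `Δ` and then in the smaller `Λ` -/
lemma glue_glue {Λ Δ T T' : Finset ℤ} (h : Λ ⊆ Δ) (ω : ℤ → Bool) :
    glue Λ T' (glue Δ T ω) = glue Δ ((T \ Λ) ∪ (T' ∩ Λ)) ω := by
  funext i
  by_cases hi : i ∈ Λ
  · rw [glue_on hi, glue_on (h hi)]
    simp [hi]
  · rw [glue_off hi]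
    by_cases hi' : i ∈ Δ
    · rw [glue_on hi', glue_on hi']; simp [hi]
    · rw [glue_off hi', glue_off hi']

/-- uniform limits of uniformly Cauchy sequences of continuous functions -/
lemma unif_limit {X : Type*} [TopologicalSpace X] (f : ℕ → X → ℝ) (hc : ∀ m, Continuous (f m))
    (hC : ∀ ε > 0, ∃ N, ∀ m ≥ N, ∀ m' ≥ N, ∀ x, |f m' x - f m x| ≤ ε) :
    ∃ g : X → ℝ, Continuous g ∧ ∀ ε > 0, ∃ N, ∀ m ≥ N, ∀ x, |f m x - g x| ≤ ε := by
  have hcau : ∀ x, ∃ y, Tendsto (fun m => f m x) atTop (𝓝 y) := by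
    intro x
    apply cauchySeq_tendsto_of_complete
    rw [Metric.cauchySeq_iff]
    intro ε hε
    obtain ⟨N, hN⟩ := hC (ε / 2) (by linarith)
    refine ⟨N, fun m hm m' hm' => ?_⟩
    rw [Real.dist_eq, abs_sub_comm]
    have := hN m hm m' hm' x
    linarith
  choose g hg using hcau
  have hu : ∀ ε > 0, ∃ N, ∀ m ≥ N, ∀ x, |f m x - g x| ≤ ε := by
    intro ε hε
    obtain ⟨N, hN⟩ := hC ε hε
    refine ⟨N, fun m hm x => ?_⟩
    have h1 : Tendsto (fun m' => |f m x - f m' x|) atTop (𝓝 |f m x - g x|) :=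
      (tendsto_const_nhds.sub (hg x)).abs
    refine le_of_tendsto h1 ?_
    filter_upwards [eventually_ge_atTop N] with m' hm'
    rw [abs_sub_comm]
    exact hN m hm m' hm' x
  refine ⟨g, ?_, hu⟩
  have htu : TendstoUniformly f g atTop := by
    rw [Metric.tendstoUniformly_iff]
    intro ε hε
    obtain ⟨N, hN⟩ := hu (ε / 2) (by linarith)
    filter_upwards [eventually_ge_atTop N] with m hm x
    rw [Real.dist_eq, abs_sub_comm]
    have := hN m hm x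
    linarith
  exact htu.continuous (Frequently.of_forall hc)

/-- weights data -/
structure WData where
  W : ℕ → (ℤ → Bool) → ℝ
  pos : ∀ m ω, 0 < W m ω
  cont : ∀ m, Continuous (W m)
  cauchy : ∀ x : ℤ, ∀ ε > 0, ∃ N, ∀ m ≥ N, ∀ m' ≥ N, ∀ ω : ℤ → Bool,
    |(Real.log (W m' (Function.update ω x true)) - Real.log (W m' (Function.update ω x false)))
      - (Real.log (W m (Function.update ω x true)) - Real.log (W m (Function.update ω x false)))|
    ≤ ε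

namespace WData

variable (D : WData)

noncomputable def LL (m : ℕ) (Λ T : Finset ℤ) (ω : ℤ → Bool) : ℝ :=
  Real.log (D.W m (glue Λ T ω)) - Real.log (D.W m (glue Λ ∅ ω))

lemma LL_cont (m : ℕ) (Λ T : Finset ℤ) : Continuous (D.LL m Λ T) := by
  unfold LL
  exact (((D.cont m).comp (continuous_glue Λ T)).log (fun ω => (D.pos m _).ne')).sub
    (((D.cont m).comp (continuous_glue Λ ∅)).log (fun ω => (D.pos m _).ne'))

lemma LL_cauchy (Λ T : Finset ℤ) :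
    ∀ ε > 0, ∃ N, ∀ m ≥ N, ∀ m' ≥ N, ∀ ω, |D.LL m' Λ T ω - D.LL m Λ T ω| ≤ ε := by
  induction T using Finset.induction_on with
  | empty =>
    intro ε hε
    refine ⟨0, fun m _ m' _ ω => ?_⟩
    unfold LL; simp [hε.le]
  | insert x T hx ih =>
    intro ε hε
    obtain ⟨N1, h1⟩ := ih (ε / 2) (by linarith)
    by_cases hxΛ : x ∈ Λ
    · obtain ⟨N2, h2⟩ := D.cauchy x (ε / 2) (by linarith)
      refine ⟨max N1 N2, fun m hm m' hm' ω => ?_⟩
      have a1 := h1 m (le_trans (le_max_left _ _) hm) m' (le_trans (le_max_left _ _) hm') ω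
      have a2 := h2 m (le_trans (le_max_right _ _) hm) m' (le_trans (le_max_right _ _) hm')
        (glue Λ T ω)
      rw [← glue_insert hxΛ, ← glue_erase hxΛ hx] at a2
      have e : D.LL m' Λ (insert x T) ω - D.LL m Λ (insert x T) ω
          = (D.LL m' Λ T ω - D.LL m Λ T ω)
            + ((Real.log (D.W m' (glue Λ (insert x T) ω)) - Real.log (D.W m' (glue Λ T ω)))
              - (Real.log (D.W m (glue Λ (insert x T) ω)) - Real.log (D.W m (glue Λ T ω)))) := by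
        unfold LL; ring
      rw [e]
      refine (abs_add_le _ _).trans ?_
      linarith
    · refine ⟨N1, fun m hm m' hm' ω => ?_⟩
      have a1 := h1 m hm m' hm' ω
      unfold LL at a1 ⊢
      rw [glue_insert_out hxΛ]
      linarith

lemma exists_lim : ∃ L : Finset ℤ → Finset ℤ → (ℤ → Bool) → ℝ,
    (∀ Λ T, Continuous (L Λ T)) ∧
    ∀ Λ T, ∀ ε > 0, ∃ N, ∀ m ≥ N, ∀ ω, |D.LL m Λ T ω - L Λ T ω| ≤ ε := by
  have h : ∀ Λ T : Finset ℤ, ∃ g : (ℤ → Bool) → ℝ, Continuous g ∧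
      ∀ ε > 0, ∃ N, ∀ m ≥ N, ∀ ω, |D.LL m Λ T ω - g ω| ≤ ε := fun Λ T =>
    unif_limit (fun m => D.LL m Λ T) (fun m => D.LL_cont m Λ T) (D.LL_cauchy Λ T)
  choose L h1 h2 using h
  exact ⟨L, h1, h2⟩

noncomputable def Linf : Finset ℤ → Finset ℤ → (ℤ → Bool) → ℝ := D.exists_lim.choose

lemma Linf_cont (Λ T : Finset ℤ) : Continuous (D.Linf Λ T) := D.exists_lim.choose_spec.1 Λ T

lemma Linf_lim (Λ T : Finset ℤ) :
    ∀ ε > 0, ∃ N, ∀ m ≥ N, ∀ ω, |D.LL m Λ T ω - D.Linf Λ T ω| ≤ ε :=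
  D.exists_lim.choose_spec.2 Λ T

/-- finite-volume probabilities -/
noncomputable def pm (m : ℕ) (Λ T : Finset ℤ) (ω : ℤ → Bool) : ℝ :=
  D.W m (glue Λ T ω) / ∑ T' ∈ Λ.powerset, D.W m (glue Λ T' ω)

/-- limiting probabilities -/
noncomputable def p (Λ T : Finset ℤ) (ω : ℤ → Bool) : ℝ :=
  Real.exp (D.Linf Λ T ω) / ∑ T' ∈ Λ.powerset, Real.exp (D.Linf Λ T' ω)

lemma sum_exp_pos (Λ : Finset ℤ) (f : Finset ℤ → ℝ) : 0 < ∑ T' ∈ Λ.powerset, Real.exp (f T') :=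
  Finset.sum_pos (fun _ _ => Real.exp_pos _) ⟨∅, Finset.empty_mem_powerset _⟩

lemma pm_eq (m : ℕ) (Λ T : Finset ℤ) (ω : ℤ → Bool) :
    D.pm m Λ T ω = Real.exp (D.LL m Λ T ω) / ∑ T' ∈ Λ.powerset, Real.exp (D.LL m Λ T' ω) := by
  have h : ∀ T', Real.exp (D.LL m Λ T' ω) = D.W m (glue Λ T' ω) / D.W m (glue Λ ∅ ω) := by
    intro T'
    unfold LL
    rw [Real.exp_sub, Real.exp_log (D.pos _ _), Real.exp_log (D.pos _ _)]
  unfold pm
  simp only [h]
  rw [← Finset.sum_div]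
  have := (D.pos m (glue Λ ∅ ω)).ne'
  field_simp

lemma p_pos (Λ T : Finset ℤ) (ω : ℤ → Bool) : 0 < D.p Λ T ω :=
  div_pos (Real.exp_pos _) (sum_exp_pos _ _)

lemma p_sum (Λ : Finset ℤ) (ω : ℤ → Bool) : ∑ T ∈ Λ.powerset, D.p Λ T ω = 1 := by
  unfold p
  rw [← Finset.sum_div, div_self (sum_exp_pos _ _).ne']

lemma p_cont (Λ T : Finset ℤ) : Continuous (D.p Λ T) := by
  unfold p
  apply Continuous.div
  · exact Real.continuous_exp.comp (D.Linf_cont Λ T)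
  · exact continuous_finsetSum _ (fun T' _ => Real.continuous_exp.comp (D.Linf_cont Λ T'))
  · intro ω; exact (sum_exp_pos _ _).ne'

lemma p_le_one (Λ T : Finset ℤ) (hT : T ∈ Λ.powerset) (ω : ℤ → Bool) : D.p Λ T ω ≤ 1 := by
  rw [← D.p_sum Λ ω]
  exact Finset.single_le_sum (f := fun T => D.p Λ T ω) (fun T' _ => (D.p_pos Λ T' ω).le) hT

lemma ratio_bound {Λ T : Finset ℤ} {a b : Finset ℤ → ℝ} {ε : ℝ}
    (hT : T ∈ Λ.powerset) (h : ∀ T' ∈ Λ.powerset, |a T' - b T'| ≤ ε) :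
    Real.exp (a T) / ∑ T' ∈ Λ.powerset, Real.exp (a T')
      ≤ Real.exp (2 * ε) * (Real.exp (b T) / ∑ T' ∈ Λ.powerset, Real.exp (b T')) := by
  have h1 : Real.exp (a T) ≤ Real.exp ε * Real.exp (b T) := by
    rw [← Real.exp_add]
    exact Real.exp_le_exp.2 (by linarith [(abs_le.1 (h T hT)).2])
  have h2 : ∑ T' ∈ Λ.powerset, Real.exp (b T')
      ≤ Real.exp ε * ∑ T' ∈ Λ.powerset, Real.exp (a T') := by
    rw [Finset.mul_sum]
    apply Finset.sum_le_sum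
    intro T' hT'
    rw [← Real.exp_add]
    exact Real.exp_le_exp.2 (by linarith [(abs_le.1 (h T' hT')).1])
  have e : Real.exp (2 * ε) = Real.exp ε * Real.exp ε := by rw [← Real.exp_add]; ring_nf
  rw [e, ← mul_div_assoc, div_le_div_iff₀ (sum_exp_pos _ _) (sum_exp_pos _ _)]
  calc Real.exp (a T) * ∑ T' ∈ Λ.powerset, Real.exp (b T')
      ≤ (Real.exp ε * Real.exp (b T)) * (Real.exp ε * ∑ T' ∈ Λ.powerset, Real.exp (a T')) :=
        mul_le_mul h1 h2 (sum_exp_pos _ _).le (by positivity)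
    _ = _ := by ring

/-- uniform convergence of the finite-volume probabilities -/
lemma pm_lim (Λ : Finset ℤ) : ∀ δ > 0, ∃ N, ∀ m ≥ N, ∀ T ∈ Λ.powerset, ∀ ω,
    |D.pm m Λ T ω - D.p Λ T ω| ≤ δ := by
  intro δ hδ
  obtain ⟨ε, hε0, hε⟩ : ∃ ε : ℝ, 0 < ε ∧ Real.exp (2 * ε) - 1 ≤ δ := by
    refine ⟨Real.log (1 + δ) / 2, ?_, ?_⟩
    · exact div_pos (Real.log_pos (by linarith)) (by norm_num)
    · rw [mul_div_cancel₀ _ (by norm_num : (2:ℝ) ≠ 0), Real.exp_log (by linarith)]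
      linarith
  have hN : ∀ T' ∈ Λ.powerset, ∃ N, ∀ m ≥ N, ∀ ω, |D.LL m Λ T' ω - D.Linf Λ T' ω| ≤ ε :=
    fun T' _ => D.Linf_lim Λ T' ε hε0
  have hN' : ∀ᶠ m : ℕ in atTop, ∀ T' ∈ Λ.powerset, ∀ ω,
      |D.LL m Λ T' ω - D.Linf Λ T' ω| ≤ ε := by
    rw [Filter.eventually_all_finset]
    intro T' hT'
    obtain ⟨N, h⟩ := hN T' hT'
    filter_upwards [eventually_ge_atTop N] with m hm using h m hm
  obtain ⟨N, hN⟩ := Filter.eventually_atTop.1 hN'
  refine ⟨N, fun m hm T hT ω => ?_⟩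
  rw [D.pm_eq]
  unfold p
  have a1 := ratio_bound (a := fun T' => D.LL m Λ T' ω) (b := fun T' => D.Linf Λ T' ω) hT
    (fun T' hT' => hN m hm T' hT' ω)
  have a2 := ratio_bound (b := fun T' => D.LL m Λ T' ω) (a := fun T' => D.Linf Λ T' ω) hT
    (fun T' hT' => by rw [abs_sub_comm]; exact hN m hm T' hT' ω)
  obtain ⟨x, hx⟩ : ∃ x, x = Real.exp (D.LL m Λ T ω) / ∑ T' ∈ Λ.powerset, Real.exp (D.LL m Λ T' ω) :=
    ⟨_, rfl⟩
  obtain ⟨y, hy⟩ : ∃ y, y = Real.exp (D.Linf Λ T ω) / ∑ T' ∈ Λ.powerset,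
    Real.exp (D.Linf Λ T' ω) := ⟨_, rfl⟩
  rw [← hx, ← hy] at a1 a2 ⊢
  have hx0 : 0 ≤ x := by rw [hx]; exact (div_pos (Real.exp_pos _) (sum_exp_pos _ _)).le
  have hy0 : 0 ≤ y := by rw [hy]; exact (div_pos (Real.exp_pos _) (sum_exp_pos _ _)).le
  have hx1 : x ≤ 1 := by
    rw [hx, div_le_one (sum_exp_pos _ _)]
    exact Finset.single_le_sum (f := fun T' => Real.exp (D.LL m Λ T' ω))
      (fun _ _ => (Real.exp_pos _).le) hT
  have hy1 : y ≤ 1 := by
    rw [hy, div_le_one (sum_exp_pos _ _)]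
    exact Finset.single_le_sum (f := fun T' => Real.exp (D.Linf Λ T' ω))
      (fun _ _ => (Real.exp_pos _).le) hT
  have he : 1 ≤ Real.exp (2 * ε) := Real.one_le_exp (by linarith)
  rw [abs_le]
  constructor
  · nlinarith
  · nlinarith

lemma pm_tendsto (Λ T : Finset ℤ) (hT : T ∈ Λ.powerset) (ω : ℤ → Bool) :
    Tendsto (fun m => D.pm m Λ T ω) atTop (𝓝 (D.p Λ T ω)) := by
  rw [Metric.tendsto_atTop]
  intro ε hε
  obtain ⟨N, hN⟩ := D.pm_lim Λ (ε / 2) (by linarith)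
  refine ⟨N, fun m hm => ?_⟩
  rw [Real.dist_eq]
  have := hN m hm T hT ω
  linarith

lemma p_congr {Λ T : Finset ℤ} (hT : T ∈ Λ.powerset) {ω ω' : ℤ → Bool}
    (h : ∀ i, i ∉ Λ → ω i = ω' i) : D.p Λ T ω = D.p Λ T ω' := by
  refine tendsto_nhds_unique (D.pm_tendsto Λ T hT ω) ?_
  have e : (fun m => D.pm m Λ T ω) = fun m => D.pm m Λ T ω' := by
    funext m
    unfold pm
    rw [glue_congr (T := T) h]
    congr 1
    exact Finset.sum_congr rfl (fun T' _ => by rw [glue_congr (T := T') h])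
  rw [e]
  exact D.pm_tendsto Λ T hT ω'

/-- detailed balance -/
lemma p_balance {Λ Δ : Finset ℤ} (h : Λ ⊆ Δ) {T1 T2 T2' : Finset ℤ} (h1 : T1 ⊆ Δ \ Λ)
    (h2 : T2 ⊆ Λ) (h2' : T2' ⊆ Λ) (ω : ℤ → Bool) :
    D.p Δ (T2 ∪ T1) ω * D.p Λ T2' (glue Δ T1 ω)
      = D.p Δ (T2' ∪ T1) ω * D.p Λ T2 (glue Δ T1 ω) := by
  have h1' : T1 ⊆ Δ := h1.trans Finset.sdiff_subset
  have m1 : T2 ∪ T1 ∈ Δ.powerset := Finset.mem_powerset.2 (Finset.union_subset (h2.trans h) h1')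
  have m2 : T2' ∪ T1 ∈ Δ.powerset := Finset.mem_powerset.2 (Finset.union_subset (h2'.trans h) h1')
  have m3 : T2 ∈ Λ.powerset := Finset.mem_powerset.2 h2
  have m4 : T2' ∈ Λ.powerset := Finset.mem_powerset.2 h2'
  have t1 := (D.pm_tendsto Δ _ m1 ω).mul (D.pm_tendsto Λ _ m4 (glue Δ T1 ω))
  have t2 := (D.pm_tendsto Δ _ m2 ω).mul (D.pm_tendsto Λ _ m3 (glue Δ T1 ω))
  refine tendsto_nhds_unique t1 ?_
  have e : (fun m => D.pm m Δ (T2 ∪ T1) ω * D.pm m Λ T2' (glue Δ T1 ω))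
      = fun m => D.pm m Δ (T2' ∪ T1) ω * D.pm m Λ T2 (glue Δ T1 ω) := by
    funext m
    unfold pm
    have k : ∀ T ⊆ Λ, glue Λ T (glue Δ T1 ω) = glue Δ (T ∪ T1) ω := by
      intro T hT
      rw [glue_glue h]
      congr 1
      rw [Finset.inter_eq_left.2 hT, Finset.union_comm]
      congr 1
      apply Finset.sdiff_eq_self_of_disjoint
      exact Finset.disjoint_of_subset_left h1 Finset.sdiff_disjoint
    rw [k T2 h2, k T2' h2']
    ring
  rw [e]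
  exact t2

end WData

end Pool.Agent.P6ac95e
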