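import Pool.Agent.Lib.P6ac95e.Spec1
import Pool.Agent.Lib.P6ac95e.Fin1

set_option autoImplicit false

open MeasureTheory Filter Topology Finset

namespace Pool.Agent.P6ac95e

lemma measurable_glue_cyl (Λ T : Finset ℤ) :
    @Measurable _ _ (cylinderEvents ((Λ : Set ℤ)ᶜ)) _ (glue Λ T) := by
  rw [@measurable_pi_iff]
  intro i
  by_cases hi : i ∈ Λ
  · have : (fun ω : ℤ → Bool => glue Λ T ω i) = fun _ => decide (i ∈ T) := by
      funext ω; exact glue_on hi
    rw [this]; exact measurable_const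
  · have : (fun ω : ℤ → Bool => glue Λ T ω i) = fun ω => ω i := by
      funext ω; exact glue_off hi
    rw [this]
    exact measurable_cylinderEvent_apply (by simpa using hi)

lemma measurable_glue (Λ T : Finset ℤ) : Measurable (glue Λ T) :=
  (continuous_glue Λ T).measurable

lemma mem_glue_iff {Λ T : Finset ℤ} {B : Set (ℤ → Bool)}
    (hB : MeasurableSet[cylinderEvents ((Λ : Set ℤ)ᶜ)] B) (ω : ℤ → Bool) :
    glue Λ T ω ∈ B ↔ ω ∈ B := by
  let mG : MeasurableSpace (ℤ → Bool) :=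
    { MeasurableSet' := fun s => ∀ ω, glue Λ T ω ∈ s ↔ ω ∈ s
      measurableSet_empty := by intro ω; simp
      measurableSet_compl := by
        intro s hs ω
        simp only [Set.mem_compl_iff, hs ω]
      measurableSet_iUnion := by
        intro f hf ω
        simp only [Set.mem_iUnion]
        exact exists_congr (fun i => hf i ω) }
  have hle : cylinderEvents (X := fun _ : ℤ => Bool) ((Λ : Set ℤ)ᶜ) ≤ mG := by
    unfold cylinderEvents
    apply iSup₂_le
    intro i hi s hs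
    obtain ⟨C, _, rfl⟩ := hs
    intro ω
    simp only [Set.mem_preimage]
    rw [glue_off (by simpa using hi)]
  exact hle B hB ω

/-- compatibility at the level of functions, abstract form -/
lemma compat_abs (P : Finset ℤ → Finset ℤ → (ℤ → Bool) → ℝ)
    (hsum : ∀ Λ ω, ∑ T ∈ Λ.powerset, P Λ T ω = 1)
    (hcongr : ∀ Λ T, T ∈ Λ.powerset → ∀ ω ω' : ℤ → Bool, (∀ i, i ∉ Λ → ω i = ω' i) →
      P Λ T ω = P Λ T ω')
    (hbal : ∀ Λ Δ, Λ ⊆ Δ → ∀ T1 T2 T2', T1 ⊆ Δ \ Λ → T2 ⊆ Λ → T2' ⊆ Λ → ∀ ω : ℤ → Bool,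
      P Δ (T2 ∪ T1) ω * P Λ T2' (glue Δ T1 ω) = P Δ (T2' ∪ T1) ω * P Λ T2 (glue Δ T1 ω))
    {Λ Δ : Finset ℤ} (h : Λ ⊆ Δ) (ω : ℤ → Bool) (F : (ℤ → Bool) → ℝ) :
    ∑ T ∈ Δ.powerset, P Δ T ω * (∑ T' ∈ Λ.powerset, P Λ T' (glue Δ T ω)
      * F (glue Λ T' (glue Δ T ω)))
    = ∑ T ∈ Δ.powerset, P Δ T ω * F (glue Δ T ω) := by
  have hΔ : Λ ∪ (Δ \ Λ) = Δ := Finset.union_sdiff_of_subset h
  have hd : Disjoint Λ (Δ \ Λ) := Finset.disjoint_sdiff
  rw [← hΔ, sum_powerset_union hd, sum_powerset_union hd, hΔ]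
  refine Finset.sum_congr rfl (fun T1 hT1 => ?_)
  have h1 := Finset.mem_powerset.1 hT1
  have hgg : ∀ T2 ∈ Λ.powerset, ∀ T' ∈ Λ.powerset,
      glue Λ T' (glue Δ (T2 ∪ T1) ω) = glue Δ (T' ∪ T1) ω := by
    intro T2 hT2 T' hT'
    rw [Finset.mem_powerset] at hT2 hT'
    rw [glue_glue h]
    congr 1
    rw [Finset.inter_eq_left.2 hT', Finset.union_sdiff_distrib,
      Finset.sdiff_eq_empty_iff_subset.2 hT2, Finset.empty_union, Finset.union_comm]
    congr 1
    apply Finset.sdiff_eq_self_of_disjoint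
    exact Finset.disjoint_of_subset_left h1 Finset.sdiff_disjoint
  have hpp : ∀ T2 ∈ Λ.powerset, ∀ T' ∈ Λ.powerset,
      P Λ T' (glue Δ (T2 ∪ T1) ω) = P Λ T' (glue Δ T1 ω) := by
    intro T2 hT2 T' hT'
    apply hcongr Λ T' hT'
    intro i hi
    have hi2 : i ∉ T2 := fun h' => hi (Finset.mem_powerset.1 hT2 h')
    by_cases hi' : i ∈ Δ
    · rw [glue_on hi', glue_on hi']; simp [hi2]
    · rw [glue_off hi', glue_off hi']
  calc ∑ T2 ∈ Λ.powerset, P Δ (T2 ∪ T1) ω * (∑ T' ∈ Λ.powerset,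
        P Λ T' (glue Δ (T2 ∪ T1) ω) * F (glue Λ T' (glue Δ (T2 ∪ T1) ω)))
      = ∑ T2 ∈ Λ.powerset, ∑ T' ∈ Λ.powerset,
          P Δ (T' ∪ T1) ω * P Λ T2 (glue Δ T1 ω) * F (glue Δ (T' ∪ T1) ω) := by
        refine Finset.sum_congr rfl (fun T2 hT2 => ?_)
        rw [Finset.mul_sum]
        refine Finset.sum_congr rfl (fun T' hT' => ?_)
        rw [hgg T2 hT2 T' hT', hpp T2 hT2 T' hT', ← mul_assoc,
          hbal Λ Δ h T1 T2 T' h1 (Finset.mem_powerset.1 hT2) (Finset.mem_powerset.1 hT')]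
    _ = ∑ T' ∈ Λ.powerset, P Δ (T' ∪ T1) ω * F (glue Δ (T' ∪ T1) ω) := by
        rw [Finset.sum_comm]
        refine Finset.sum_congr rfl (fun T' _ => ?_)
        have : ∀ T2 ∈ Λ.powerset, P Δ (T' ∪ T1) ω * P Λ T2 (glue Δ T1 ω)
            * F (glue Δ (T' ∪ T1) ω)
            = P Δ (T' ∪ T1) ω * F (glue Δ (T' ∪ T1) ω) * P Λ T2 (glue Δ T1 ω) :=
          fun T2 _ => by ring
        rw [Finset.sum_congr rfl this, ← Finset.mul_sum, hsum, mul_one]

namespace WData

variable (D : WData)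

/-- the limiting kernels -/
noncomputable def ker (Λ : Finset ℤ) (ω : ℤ → Bool) : Measure (ℤ → Bool) :=
  ∑ T ∈ Λ.powerset, ENNReal.ofReal (D.p Λ T ω) • Measure.dirac (glue Λ T ω)

lemma ker_apply (Λ : Finset ℤ) (ω : ℤ → Bool) {B : Set (ℤ → Bool)} (hB : MeasurableSet B) :
    D.ker Λ ω B = ∑ T ∈ Λ.powerset, ENNReal.ofReal (D.p Λ T ω) * B.indicator 1 (glue Λ T ω) := by
  unfold ker
  rw [Measure.coe_finsetSum, Finset.sum_apply]
  refine Finset.sum_congr rfl (fun T _ => ?_)
  rw [Measure.smul_apply, Measure.dirac_apply' _ hB, smul_eq_mul]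

lemma ker_apply' (Λ : Finset ℤ) (ω : ℤ → Bool) {B : Set (ℤ → Bool)} (hB : MeasurableSet B) :
    D.ker Λ ω B = ENNReal.ofReal (∑ T ∈ Λ.powerset, D.p Λ T ω
      * B.indicator (fun _ => (1:ℝ)) (glue Λ T ω)) := by
  rw [D.ker_apply Λ ω hB, ENNReal.ofReal_sum_of_nonneg]
  · refine Finset.sum_congr rfl (fun T _ => ?_)
    by_cases h : glue Λ T ω ∈ B
    · rw [Set.indicator_of_mem h, Set.indicator_of_mem h]; simp
    · rw [Set.indicator_of_notMem h, Set.indicator_of_notMem h]; simp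
  · intro T _
    apply mul_nonneg (D.p_pos Λ T ω).le
    exact Set.indicator_nonneg (fun _ _ => zero_le_one) _

lemma ker_prob (Λ : Finset ℤ) (ω : ℤ → Bool) : IsProbabilityMeasure (D.ker Λ ω) := by
  constructor
  rw [D.ker_apply' Λ ω MeasurableSet.univ]
  simp only [Set.indicator_univ, mul_one]
  rw [D.p_sum, ENNReal.ofReal_one]

lemma ker_integral (Λ : Finset ℤ) (ω : ℤ → Bool) (f : (ℤ → Bool) → ℝ) :
    ∫ σ, f σ ∂(D.ker Λ ω) = ∑ T ∈ Λ.powerset, D.p Λ T ω * f (glue Λ T ω) := by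
  unfold ker
  have hint : ∀ T ∈ Λ.powerset, Integrable f
      (ENNReal.ofReal (D.p Λ T ω) • Measure.dirac (glue Λ T ω)) := by
    intro T _
    apply Integrable.smul_measure _ ENNReal.ofReal_ne_top
    exact integrable_dirac (by simp)
  rw [integral_finsetSum_measure hint]
  refine Finset.sum_congr rfl (fun T _ => ?_)
  rw [integral_smul_measure, integral_dirac, ENNReal.toReal_ofReal (D.p_pos Λ T ω).le,
    smul_eq_mul]

/-- compatibility at the level of functions -/
lemma compat_real {Λ Δ : Finset ℤ} (h : Λ ⊆ Δ) (ω : ℤ → Bool) (F : (ℤ → Bool) → ℝ) :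
    ∑ T ∈ Δ.powerset, D.p Δ T ω * (∑ T' ∈ Λ.powerset, D.p Λ T' (glue Δ T ω)
      * F (glue Λ T' (glue Δ T ω)))
    = ∑ T ∈ Δ.powerset, D.p Δ T ω * F (glue Δ T ω) :=
  compat_abs D.p D.p_sum (fun _ _ hT _ _ h => D.p_congr hT h)
    (fun _ _ h _ _ _ h1 h2 h3 ω => D.p_balance h h1 h2 h3 ω) h ω F

lemma pm_sum (m : ℕ) (Λ : Finset ℤ) (ω : ℤ → Bool) : ∑ T ∈ Λ.powerset, D.pm m Λ T ω = 1 := by
  unfold pm
  rw [← Finset.sum_div, div_self]
  exact (Finset.sum_pos (fun T' _ => D.pos m _) ⟨∅, Finset.empty_mem_powerset _⟩).ne'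

/-- finite-volume compatibility -/
lemma compat_pm (m : ℕ) {Λ Δ : Finset ℤ} (h : Λ ⊆ Δ) (ω : ℤ → Bool) (F : (ℤ → Bool) → ℝ) :
    ∑ T ∈ Δ.powerset, D.pm m Δ T ω * (∑ T' ∈ Λ.powerset, D.pm m Λ T' (glue Δ T ω)
      * F (glue Λ T' (glue Δ T ω)))
    = ∑ T ∈ Δ.powerset, D.pm m Δ T ω * F (glue Δ T ω) := by
  refine compat_abs (D.pm m) (D.pm_sum m) ?_ ?_ h ω F
  · intro Λ T _ ω ω' h
    unfold pm
    rw [glue_congr (T := T) h]
    congr 1
    exact Finset.sum_congr rfl (fun T' _ => by rw [glue_congr (T := T') h])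
  · intro Λ Δ h T1 T2 T2' h1 h2 h2' ω
    unfold pm
    have k : ∀ T ⊆ Λ, glue Λ T (glue Δ T1 ω) = glue Δ (T ∪ T1) ω := by
      intro T hT
      rw [glue_glue h]
      congr 1
      rw [Finset.inter_eq_left.2 hT, Finset.union_comm]
      congr 1
      apply Finset.sdiff_eq_self_of_disjoint
      exact Finset.disjoint_of_subset_left h1 Finset.sdiff_disjoint
    rw [k T2 h2, k T2' h2']
    ring

lemma exists_lower (Λ T : Finset ℤ) : ∃ c : ℝ, 0 < c ∧ ∀ ω, c ≤ D.p Λ T ω := by
  obtain ⟨ω0, _, h⟩ := isCompact_univ.exists_isMinOn (Set.univ_nonempty (α := ℤ → Bool))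
    (D.p_cont Λ T).continuousOn
  exact ⟨D.p Λ T ω0, D.p_pos _ _ _, fun ω => h (Set.mem_univ ω)⟩

/-- the limiting specification -/
noncomputable def spec : Specification where
  γ := D.ker
  prob := D.ker_prob
  meas := by
    intro Λ B hB
    have e : (fun ω => D.ker Λ ω B) = fun ω => ∑ T ∈ Λ.powerset,
        ENNReal.ofReal (D.p Λ T (glue Λ ∅ ω)) * B.indicator 1 (glue Λ T ω) := by
      funext ω
      rw [D.ker_apply Λ ω hB]
      refine Finset.sum_congr rfl (fun T hT => ?_)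
      rw [D.p_congr hT (ω' := glue Λ ∅ ω) (fun i hi => (glue_off hi).symm)]
    rw [e]
    apply Finset.measurable_fun_sum
    intro T _
    apply Measurable.mul
    · exact ENNReal.measurable_ofReal.comp
        ((D.p_cont Λ T).measurable.comp (measurable_glue_cyl Λ ∅))
    · exact (measurable_one.indicator hB).comp (measurable_glue_cyl Λ T)
  proper := by
    intro Λ B hB ω
    have hB' : MeasurableSet B := cylinderEvents_le_pi B hB
    rw [D.ker_apply' Λ ω hB']
    by_cases h : ω ∈ B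
    · rw [Set.indicator_of_mem h]
      have : ∀ T ∈ Λ.powerset, D.p Λ T ω * B.indicator (fun _ => (1:ℝ)) (glue Λ T ω)
          = D.p Λ T ω := by
        intro T _
        rw [Set.indicator_of_mem ((mem_glue_iff hB ω).2 h), mul_one]
      rw [Finset.sum_congr rfl this, D.p_sum]; simp
    · rw [Set.indicator_of_notMem h]
      have : ∀ T ∈ Λ.powerset, D.p Λ T ω * B.indicator (fun _ => (1:ℝ)) (glue Λ T ω)
          = 0 := by
        intro T _
        rw [Set.indicator_of_notMem (fun h' => h ((mem_glue_iff hB ω).1 h')), mul_zero]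
      rw [Finset.sum_congr rfl this]; simp
  compat := by
    intro Λ Δ h ω B hB
    have h1 : ∫⁻ σ, D.ker Λ σ B ∂(D.ker Δ ω)
        = ∑ T ∈ Δ.powerset, ENNReal.ofReal (D.p Δ T ω) * D.ker Λ (glue Δ T ω) B := by
      conv_lhs => unfold ker
      rw [lintegral_finsetSum_measure]
      refine Finset.sum_congr rfl (fun T _ => ?_)
      rw [lintegral_smul_measure, lintegral_dirac, smul_eq_mul]
      rfl
    rw [h1, D.ker_apply' Δ ω hB]
    have h2 : ∀ T ∈ Δ.powerset, ENNReal.ofReal (D.p Δ T ω) * D.ker Λ (glue Δ T ω) B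
        = ENNReal.ofReal (D.p Δ T ω * (∑ T' ∈ Λ.powerset, D.p Λ T' (glue Δ T ω)
      * B.indicator (fun _ => (1:ℝ)) (glue Λ T' (glue Δ T ω)))) := by
      intro T _
      rw [D.ker_apply' Λ _ hB, ENNReal.ofReal_mul (D.p_pos _ _ _).le]
    rw [Finset.sum_congr rfl h2, ← ENNReal.ofReal_sum_of_nonneg, D.compat_real h]
    intro T _
    apply mul_nonneg (D.p_pos _ _ _).le
    apply Finset.sum_nonneg
    intro T' _
    apply mul_nonneg (D.p_pos _ _ _).le
    exact Set.indicator_nonneg (fun _ _ => zero_le_one) _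

lemma spec_quasilocal : D.spec.IsQuasilocal := by
  intro Λ f hf
  have e : (fun ω => ∫ σ, f σ ∂(D.spec.γ Λ ω))
      = fun ω => ∑ T ∈ Λ.powerset, D.p Λ T ω * f (glue Λ T ω) := by
    funext ω; exact D.ker_integral Λ ω f
  rw [e]
  exact continuous_finsetSum _ (fun T _ => (D.p_cont Λ T).mul (hf.comp (continuous_glue Λ T)))

lemma spec_nonnull : D.spec.IsUniformlyNonNull := by
  intro Λ
  choose c hc0 hc using fun T => D.exists_lower Λ T
  have hne : Λ.powerset.Nonempty := ⟨∅, Finset.empty_mem_powerset _⟩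
  refine ⟨Λ.powerset.inf' hne c, ?_, fun ω η => ?_⟩
  · rw [Finset.lt_inf'_iff]
    intro T _; exact hc0 T
  · obtain ⟨T, hT⟩ : ∃ T, T = Λ.filter (fun i => η i = true) := ⟨_, rfl⟩
    have hTp : T ∈ Λ.powerset := by
      rw [hT, Finset.mem_powerset]; exact Finset.filter_subset _ _
    have hmem : glue Λ T ω ∈ {σ : ℤ → Bool | ∀ i ∈ Λ, σ i = η i} := by
      intro i hi
      rw [glue_on hi, hT]
      cases h : η i <;> simp [h, hi]
    have hmeas : MeasurableSet {σ : ℤ → Bool | ∀ i ∈ Λ, σ i = η i} := by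
      have : {σ : ℤ → Bool | ∀ i ∈ Λ, σ i = η i}
          = ⋂ i ∈ Λ, (fun σ : ℤ → Bool => σ i) ⁻¹' {η i} := by
        ext σ; simp
      rw [this]
      exact Finset.measurableSet_biInter _ (fun i _ =>
        measurable_pi_apply i (measurableSet_singleton _))
    change _ ≤ D.ker Λ ω _
    rw [D.ker_apply Λ ω hmeas]
    calc ENNReal.ofReal (Λ.powerset.inf' hne c)
        ≤ ENNReal.ofReal (D.p Λ T ω) :=
          ENNReal.ofReal_le_ofReal ((Finset.inf'_le c hTp).trans (hc T ω))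
      _ = ENNReal.ofReal (D.p Λ T ω)
          * ({σ : ℤ → Bool | ∀ i ∈ Λ, σ i = η i}).indicator 1 (glue Λ T ω) := by
          rw [Set.indicator_of_mem hmem]; simp
      _ ≤ _ := Finset.single_le_sum (f := fun T => ENNReal.ofReal (D.p Λ T ω)
          * ({σ : ℤ → Bool | ∀ i ∈ Λ, σ i = η i}).indicator 1 (glue Λ T ω))
          (fun _ _ => zero_le) hTp

/-- consistency of a weak limit -/
lemma spec_consistent (ν : ProbabilityMeasure (ℤ → Bool))
    (νm : ℕ → ProbabilityMeasure (ℤ → Bool)) (hlim : Tendsto νm atTop (𝓝 ν))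
    (hDLR : ∀ Λ : Finset ℤ, ∃ N, ∀ m ≥ N, ∀ f : (ℤ → Bool) → ℝ, Continuous f →
      ∫ ω, ∑ T ∈ Λ.powerset, D.pm m Λ T ω * f (glue Λ T ω) ∂(νm m : Measure (ℤ → Bool))
        = ∫ ω, f ω ∂(νm m : Measure (ℤ → Bool))) :
    D.spec.IsConsistent (ν : Measure (ℤ → Bool)) := by
  -- integrals of continuous functions
  have hcont : ∀ (Λ : Finset ℤ) (f : (ℤ → Bool) → ℝ), Continuous f →
      ∫ ω, ∑ T ∈ Λ.powerset, D.p Λ T ω * f (glue Λ T ω) ∂(ν : Measure (ℤ → Bool))
        = ∫ ω, f ω ∂(ν : Measure (ℤ → Bool)) := by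
    intro Λ f hf
    have hK : Continuous (fun ω => ∑ T ∈ Λ.powerset, D.p Λ T ω * f (glue Λ T ω)) :=
      continuous_finsetSum _ (fun T _ => (D.p_cont Λ T).mul (hf.comp (continuous_glue Λ T)))
    have hKm : ∀ m, Continuous (fun ω => ∑ T ∈ Λ.powerset, D.pm m Λ T ω * f (glue Λ T ω)) := by
      intro m
      refine continuous_finsetSum _ (fun T _ => Continuous.mul ?_ (hf.comp (continuous_glue Λ T)))
      unfold pm
      apply Continuous.div
      · exact (D.cont m).comp (continuous_glue Λ T)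
      · exact continuous_finsetSum _ (fun T' _ => (D.cont m).comp (continuous_glue Λ T'))
      · intro ω
        exact (Finset.sum_pos (fun T' _ => D.pos m _) ⟨∅, Finset.empty_mem_powerset _⟩).ne'
    rw [ProbabilityMeasure.tendsto_iff_forall_integral_tendsto] at hlim
    have t1 := hlim (BoundedContinuousFunction.mkOfCompact ⟨_, hf⟩)
    have t2 := hlim (BoundedContinuousFunction.mkOfCompact ⟨_, hK⟩)
    simp only [BoundedContinuousFunction.mkOfCompact_apply, ContinuousMap.coe_mk] at t1 t2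
    obtain ⟨Cf, hCf⟩ : ∃ C, ∀ ω, |f ω| ≤ C := by
      obtain ⟨ω0, _, h⟩ := isCompact_univ.exists_isMaxOn (Set.univ_nonempty (α := ℤ → Bool))
        (hf.abs).continuousOn
      exact ⟨|f ω0|, fun ω => h (Set.mem_univ ω)⟩
    have hCf0 : 0 ≤ Cf := (abs_nonneg _).trans (hCf (fun _ => true))
    obtain ⟨N0, hN0⟩ := hDLR Λ
    have t3 : Tendsto (fun m => ∫ ω, ∑ T ∈ Λ.powerset, D.p Λ T ω * f (glue Λ T ω)
        ∂(νm m : Measure (ℤ → Bool)) - ∫ ω, f ω ∂(νm m : Measure (ℤ → Bool))) atTop (𝓝 0) := by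
      rw [Metric.tendsto_atTop]
      intro ε hε
      obtain ⟨N, hN⟩ := D.pm_lim Λ (ε / (2 * ((Λ.powerset.card : ℝ) * Cf + 1)))
        (div_pos hε (by positivity))
      refine ⟨max N N0, fun m hm => ?_⟩
      rw [Real.dist_eq, sub_zero, ← hN0 m (le_trans (le_max_right _ _) hm) f hf,
        ← integral_sub]
      · have hb : ∀ ω, ‖∑ T ∈ Λ.powerset, D.p Λ T ω * f (glue Λ T ω)
            - ∑ T ∈ Λ.powerset, D.pm m Λ T ω * f (glue Λ T ω)‖ ≤ ε / 2 := by
          intro ω
          rw [← Finset.sum_sub_distrib, Real.norm_eq_abs]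
          refine (Finset.abs_sum_le_sum_abs _ _).trans ?_
          have hterm : ∀ T ∈ Λ.powerset, |D.p Λ T ω * f (glue Λ T ω)
              - D.pm m Λ T ω * f (glue Λ T ω)|
              ≤ (ε / (2 * ((Λ.powerset.card : ℝ) * Cf + 1))) * Cf := by
            intro T hT
            rw [← sub_mul, abs_mul, abs_sub_comm]
            exact mul_le_mul (hN m (le_trans (le_max_left _ _) hm) T hT ω) (hCf _)
              (abs_nonneg _) (div_pos hε (by positivity)).le
          refine (Finset.sum_le_sum hterm).trans ?_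
          rw [Finset.sum_const, nsmul_eq_mul]
          have hden : (0:ℝ) < (Λ.powerset.card : ℝ) * Cf + 1 := by positivity
          have : (Λ.powerset.card : ℝ) * (ε / (2 * ((Λ.powerset.card : ℝ) * Cf + 1)) * Cf)
              = (ε / 2) * (((Λ.powerset.card : ℝ) * Cf) / ((Λ.powerset.card : ℝ) * Cf + 1)) := by
            field_simp
          rw [this]
          have h1 : ((Λ.powerset.card : ℝ) * Cf) / ((Λ.powerset.card : ℝ) * Cf + 1) ≤ 1 := by
            rw [div_le_one hden]; linarith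
          nlinarith
        have := norm_integral_le_of_norm_le_const (μ := (νm m : Measure (ℤ → Bool)))
          (C := ε / 2) (Eventually.of_forall hb)
        simp only [probReal_univ, mul_one] at this
        rw [Real.norm_eq_abs] at this
        linarith
      · exact (BoundedContinuousFunction.mkOfCompact ⟨_, hK⟩).integrable _
      · exact (BoundedContinuousFunction.mkOfCompact ⟨_, hKm m⟩).integrable _
    have t4 := t2.sub t1
    have := tendsto_nhds_unique t3 t4
    linarith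
  -- the measure ν γ_Λ
  intro Λ B hB
  obtain ⟨ν', hν'⟩ : ∃ ν' : Measure (ℤ → Bool), ν' = ∑ T ∈ Λ.powerset,
      ((ν : Measure (ℤ → Bool)).withDensity (fun ω => ENNReal.ofReal (D.p Λ T ω))).map
        (glue Λ T) := ⟨_, rfl⟩
  have hpm : ∀ T, Measurable (fun ω => ENNReal.ofReal (D.p Λ T ω)) := fun T =>
    ENNReal.measurable_ofReal.comp (D.p_cont Λ T).measurable
  have happ : ∀ B : Set (ℤ → Bool), MeasurableSet B →
      ν' B = ∫⁻ ω, D.ker Λ ω B ∂(ν : Measure (ℤ → Bool)) := by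
    intro B hB
    have e : (fun ω => D.ker Λ ω B) = fun ω => ∑ T ∈ Λ.powerset,
        ENNReal.ofReal (D.p Λ T ω) * B.indicator 1 (glue Λ T ω) := by
      funext ω; exact D.ker_apply Λ ω hB
    rw [e, lintegral_finsetSum', hν', Measure.coe_finsetSum, Finset.sum_apply]
    · refine Finset.sum_congr rfl (fun T _ => ?_)
      rw [Measure.map_apply (measurable_glue Λ T) hB,
        withDensity_apply _ (measurable_glue Λ T hB), ← lintegral_indicator
          (measurable_glue Λ T hB)]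
      apply lintegral_congr
      intro ω
      by_cases h : glue Λ T ω ∈ B
      · rw [Set.indicator_of_mem (show ω ∈ glue Λ T ⁻¹' B from h), Set.indicator_of_mem h]; simp
      · rw [Set.indicator_of_notMem (show ω ∉ glue Λ T ⁻¹' B from h), Set.indicator_of_notMem h]
        simp
    · intro T _
      exact ((hpm T).mul ((measurable_one.indicator hB).comp (measurable_glue Λ T))).aemeasurable
  have hfin : IsFiniteMeasure ν' := by
    constructor
    rw [happ _ MeasurableSet.univ]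
    have : ∀ ω, D.ker Λ ω Set.univ = 1 := fun ω => (D.ker_prob Λ ω).measure_univ
    simp [this]
  have heq : ν' = (ν : Measure (ℤ → Bool)) := by
    apply ext_of_forall_integral_eq_of_IsFiniteMeasure
    intro f
    rw [← hcont Λ f f.continuous]
    have hint : ∀ T ∈ Λ.powerset, Integrable (fun ω => f ω)
        (((ν : Measure (ℤ → Bool)).withDensity (fun ω => ENNReal.ofReal (D.p Λ T ω))).map
          (glue Λ T)) := by
      intro T hT
      have : IsFiniteMeasure (((ν : Measure (ℤ → Bool)).withDensity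
          (fun ω => ENNReal.ofReal (D.p Λ T ω))).map (glue Λ T)) := by
        constructor
        rw [Measure.map_apply (measurable_glue Λ T) MeasurableSet.univ, Set.preimage_univ,
          withDensity_apply _ MeasurableSet.univ, Measure.restrict_univ]
        calc ∫⁻ ω, ENNReal.ofReal (D.p Λ T ω) ∂(ν : Measure (ℤ → Bool))
            ≤ ∫⁻ _, 1 ∂(ν : Measure (ℤ → Bool)) := by
              apply lintegral_mono
              intro ω
              rw [← ENNReal.ofReal_one]
              exact ENNReal.ofReal_le_ofReal (D.p_le_one Λ T hT ω)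
          _ < ⊤ := by simp
      exact f.integrable _
    rw [hν', integral_finsetSum_measure hint, integral_finsetSum]
    · refine Finset.sum_congr rfl (fun T _ => ?_)
      rw [integral_map (measurable_glue Λ T).aemeasurable
        f.continuous.measurable.aestronglyMeasurable]
      rw [integral_withDensity_eq_integral_toReal_smul (hpm T)
        (Eventually.of_forall (fun ω => ENNReal.ofReal_lt_top))]
      apply integral_congr_ae
      filter_upwards with ω
      rw [ENNReal.toReal_ofReal (D.p_pos _ _ _).le, smul_eq_mul]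
    · intro T _
      have hc : Continuous (fun ω => D.p Λ T ω * f (glue Λ T ω)) :=
        (D.p_cont Λ T).mul (f.continuous.comp (continuous_glue Λ T))
      exact (BoundedContinuousFunction.mkOfCompact ⟨_, hc⟩).integrable _
  change ∫⁻ ω, D.ker Λ ω B ∂(ν : Measure (ℤ → Bool)) = _
  rw [← happ B hB, heq]

end WData

end Pool.Agent.P6ac95e
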